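import Pool.Agent.Helper87.NF.Asm
import Pool.Agent.Helper76.IF.M_A0
import Pool.Agent.Helper76.IF.M_A1
import Pool.Agent.Helper76.IF.M_A2
import Pool.Agent.Helper76.IF.M_PER
import Pool.Agent.Helper76.IF.M_B1
import Pool.Agent.Helper76.IF.M_B2
import Pool.Agent.Helper76.IF.M_B6
import Pool.Agent.Helper76.IF.M_B6a
import Pool.Agent.Helper76.IF.Tor3

/-!
# Assembly: the flow theorem and the norm inequality (helper87, MP_3dd6d4_an, n = 1)
-/

set_option autoImplicit false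
set_option maxSynthPendingDepth 3

namespace Helper87.NF

theorem aB1 : StB1 := Helper76.IF.pf_B1 Helper76.IF.pf_A0 Helper76.IF.pf_PER
theorem aB2 : StB2 := Helper76.IF.pf_B2 Helper76.IF.pf_A0 Helper76.IF.pf_PER
theorem aB5 : StB5 := Helper76.IF.pf_B5 aB1 aB2
theorem aB6a : StB6a := Helper76.IF.pf_B6a Helper76.IF.pf_A1 Helper76.IF.pf_A2 Helper76.IF.pf_A0
theorem aB6 : StB6 := Helper76.IF.pf_B6 aB5 aB6a

/-- `‖∂φ‖_p ≤ (p-1) ‖∂̄φ‖_p` for test functions, all `p > 2` -/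
theorem hHyp : ∀ p : ℝ, 2 < p → Helper85.IE.Hyp p (p - 1) := aHyp aB6

end Helper87.NF
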