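import Pool.Agent.Helper87.NF.StS

/-!
# Module S2a (MP_3dd6d4_an): radial integrals in logarithmic coordinates
-/

set_option autoImplicit false
set_option maxSynthPendingDepth 3

open MeasureTheory Complex Filter Topology Set
open scoped ENNReal NNReal ComplexConjugate ContDiff

noncomputable section

namespace Helper87.NF.M_S2a

/-- one dimensional substitution `r = exp (s / 2)` -/
theorem sub (W : ℝ → ℝ≥0∞) :
    ∫⁻ r in Ioi (0 : ℝ), ENNReal.ofReal r * (ENNReal.ofReal ((r ^ 2)⁻¹) * W (Real.log (r ^ 2))) =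
      ENNReal.ofReal (1 / 2) * ∫⁻ s, W s := by
  have him : (fun s : ℝ => Real.exp (s / 2)) '' univ = Ioi 0 := by
    ext r
    simp only [image_univ, mem_range, mem_Ioi]
    constructor
    · rintro ⟨s, rfl⟩
      exact Real.exp_pos _
    · intro hr
      refine ⟨2 * Real.log r, ?_⟩
      rw [mul_div_cancel_left₀ _ (two_ne_zero), Real.exp_log hr]
  have hinj : InjOn (fun s : ℝ => Real.exp (s / 2)) univ := by
    intro a _ b _ hab
    have := Real.exp_injective hab
    linarith
  rw [← him, lintegral_image_eq_lintegral_abs_deriv_mul MeasurableSet.univ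
    (f' := fun s => Real.exp (s / 2) * (1 / 2)) (fun s _ => by
      have h1 : HasDerivAt (fun s : ℝ => s / 2) (1 / 2) s := (hasDerivAt_id s).div_const 2
      exact h1.exp.hasDerivWithinAt) hinj, setLIntegral_univ, ← lintegral_const_mul' _ _
      ENNReal.ofReal_ne_top]
  refine lintegral_congr fun s => ?_
  have hp : 0 < Real.exp (s / 2) := Real.exp_pos _
  have hl : Real.log (Real.exp (s / 2) ^ 2) = s := by
    rw [Real.log_pow, Real.log_exp]; push_cast; ring
  rw [hl, ← mul_assoc, ← mul_assoc, ← ENNReal.ofReal_mul (abs_nonneg _),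
    ← ENNReal.ofReal_mul (by positivity), abs_of_pos (by positivity)]
  congr 2
  field_simp

theorem main : StS2a := by
  intro W hW
  rw [← Complex.lintegral_comp_polarCoord_symm]
  have htar : polarCoord.target = Ioi (0 : ℝ) ×ˢ Ioo (-Real.pi) Real.pi := rfl
  have hn : ∀ p ∈ polarCoord.target, ‖Complex.polarCoord.symm p‖ = p.1 := by
    rintro ⟨r, t⟩ ⟨hr, _⟩
    rw [Complex.norm_polarCoord_symm]
    exact abs_of_pos hr
  rw [setLIntegral_congr_fun (g := fun p : ℝ × ℝ => ENNReal.ofReal p.1 *
    (ENNReal.ofReal ((p.1 ^ 2)⁻¹) * W (Real.log (p.1 ^ 2))))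
    polarCoord.open_target.measurableSet (fun p hp => by
      simp only [smul_eq_mul, hn p hp])]
  rw [htar, Measure.volume_eq_prod, ← Measure.prod_restrict]
  have hm : Measurable (fun r : ℝ => ENNReal.ofReal r *
      (ENNReal.ofReal ((r ^ 2)⁻¹) * W (Real.log (r ^ 2)))) := by fun_prop
  have hm2 : Measurable (fun p : ℝ × ℝ => ENNReal.ofReal p.1 *
      (ENNReal.ofReal ((p.1 ^ 2)⁻¹) * W (Real.log (p.1 ^ 2)))) := hm.comp measurable_fst
  rw [lintegral_prod _ hm2.aemeasurable]
  simp only [lintegral_const, Measure.restrict_apply MeasurableSet.univ, univ_inter,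
    Real.volume_Ioo]
  rw [lintegral_mul_const _ hm, sub, mul_comm, ← mul_assoc, ← ENNReal.ofReal_mul (by
    linarith [Real.pi_pos])]
  congr 2
  ring

end Helper87.NF.M_S2a
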