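import Pool.Agent.Helper87.NF.StS

/-!
# NF module S2b: derivatives of the radial stretchings
-/

set_option autoImplicit false
set_option maxSynthPendingDepth 3

open MeasureTheory Complex Filter Topology
open scoped ENNReal NNReal ComplexConjugate ContDiff

noncomputable section

namespace Helper87.NF.M_S2b

open Helper87.NF

/-- radial profile as a function of `|z|²` -/
def H (p : ℝ) (v : ℝ → ℝ) (t : ℝ) : ℝ := t ^ (-(1 / p)) * v (Real.log t)

lemma rad_eq (p : ℝ) (v : ℝ → ℝ) (z : ℂ) : rad p v z = ((H p v (‖z‖ ^ 2) : ℝ) : ℂ) := by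
  unfold rad H
  have : (‖z‖ ^ 2) ^ (-(1 / p)) = ‖z‖ ^ (-(2 / p)) := by
    rw [← Real.rpow_natCast, ← Real.rpow_mul (norm_nonneg z)]
    congr 1
    push_cast
    ring
  rw [this]

lemma exR (v : ℝ → ℝ) (hv : HasCompactSupport v) : ∃ R : ℝ, 0 < R ∧ ∀ s, R < |s| → v s = 0 := by
  obtain ⟨R, hR⟩ := hv.isCompact.isBounded.subset_closedBall (0 : ℝ)
  refine ⟨max R 1, by positivity, fun s hs => ?_⟩
  by_contra h
  have h1 := hR (subset_tsupport v (Function.mem_support.2 h))
  rw [Metric.mem_closedBall, dist_zero_right, Real.norm_eq_abs] at h1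
  exact absurd (lt_of_le_of_lt (le_max_left R 1) hs) (not_lt.2 h1)

lemma v_near (v : ℝ → ℝ) (R : ℝ) (hR : ∀ s, R < |s| → v s = 0) (t : ℝ)
    (ht : |t| < Real.exp (-R)) : v (Real.log t) = 0 ∨ t = 0 := by
  by_cases h0 : t = 0
  · right; exact h0
  · left
    apply hR
    have h1 : 0 < |t| := abs_pos.2 h0
    have h2 : Real.log |t| < -R := by
      rw [Real.log_lt_iff_lt_exp h1]; exact ht
    rw [Real.log_abs] at h2
    rw [lt_abs]
    right; linarith

lemma H_near (p : ℝ) (hp : 1 < p) (v : ℝ → ℝ) (R : ℝ) (hR : ∀ s, R < |s| → v s = 0) (t : ℝ)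
    (ht : |t| < Real.exp (-R)) : H p v t = 0 := by
  unfold H
  rcases v_near v R hR t ht with h | h
  · rw [h, mul_zero]
  · rw [h, Real.zero_rpow, zero_mul]
    have : 0 < 1 / p := by positivity
    linarith

/-- `H` is smooth on the closed half line -/
lemma H_smooth (p : ℝ) (hp : 1 < p) (v : ℝ → ℝ) (hv : ContDiff ℝ ∞ v) (hc : HasCompactSupport v)
    (t : ℝ) (ht : 0 ≤ t) : ContDiffAt ℝ ∞ (H p v) t := by
  obtain ⟨R, -, hR⟩ := exR v hc
  rcases ht.eq_or_lt with h0 | h0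
  · have : H p v =ᶠ[𝓝 t] fun _ => (0 : ℝ) := by
      rw [← h0]
      have : Metric.ball (0 : ℝ) (Real.exp (-R)) ∈ 𝓝 (0 : ℝ) := Metric.ball_mem_nhds _ (Real.exp_pos _)
      filter_upwards [this] with s hs
      rw [Metric.mem_ball, dist_zero_right, Real.norm_eq_abs] at hs
      exact H_near p hp v R hR s hs
    exact contDiffAt_const.congr_of_eventuallyEq this
  · unfold H
    apply ContDiffAt.mul
    · exact Real.contDiffAt_rpow_const_of_ne h0.ne'
    · exact hv.contDiffAt.comp t (Real.contDiffAt_log.2 h0.ne')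

/-- derivative of `H` -/
def H' (p : ℝ) (v : ℝ → ℝ) (t : ℝ) : ℝ := deriv (H p v) t

lemma H_der (p : ℝ) (hp : 1 < p) (v : ℝ → ℝ) (hv : ContDiff ℝ ∞ v) (hc : HasCompactSupport v)
    (t : ℝ) (ht : 0 ≤ t) : HasDerivAt (H p v) (H' p v t) t :=
  ((H_smooth p hp v hv hc t ht).differentiableAt (by simp)).hasDerivAt

/-- `t H'(t)` -/
lemma tH' (p : ℝ) (hp : 1 < p) (v : ℝ → ℝ) (hv : ContDiff ℝ ∞ v)
    (t : ℝ) (ht : 0 ≤ t) : t * H' p v t = H p (fun s => deriv v s - v s / p) t := by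
  rcases ht.eq_or_lt with h0 | h0
  · rw [← h0, zero_mul]
    unfold H
    rw [Real.zero_rpow, zero_mul]
    have : 0 < 1 / p := by positivity
    linarith
  · have h1 : HasDerivAt (fun t : ℝ => t ^ (-(1 / p))) (-(1 / p) * t ^ (-(1 / p) - 1)) t :=
      Real.hasDerivAt_rpow_const (Or.inl h0.ne')
    have h2 : HasDerivAt (fun t => v (Real.log t)) (deriv v (Real.log t) * t⁻¹) t :=
      ((hv.differentiable (by simp)) (Real.log t)).hasDerivAt.comp t (Real.hasDerivAt_log h0.ne')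
    have h3 : H' p v t = -(1 / p) * t ^ (-(1 / p) - 1) * v (Real.log t) +
        t ^ (-(1 / p)) * (deriv v (Real.log t) * t⁻¹) := (h1.mul h2).deriv
    rw [h3]
    have h4 : t ^ (-(1 / p) - 1) = t ^ (-(1 / p)) * t⁻¹ := by
      rw [Real.rpow_sub_one h0.ne', div_eq_mul_inv]
    rw [h4]
    unfold H
    have : t * t⁻¹ = 1 := mul_inv_cancel₀ h0.ne'
    linear_combination (-(1 / p) * t ^ (-(1 / p)) * v (Real.log t)
      + t ^ (-(1 / p)) * deriv v (Real.log t)) * this

lemma smooth_rad (p : ℝ) (hp : 1 < p) (v : ℝ → ℝ) (hv : ContDiff ℝ ∞ v)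
    (hc : HasCompactSupport v) : ContDiff ℝ ∞ (rad p v) := by
  have e : rad p v = fun z : ℂ => ((H p v (‖z‖ ^ 2) : ℝ) : ℂ) := funext (rad_eq p v)
  rw [e]
  rw [contDiff_iff_contDiffAt]
  intro z
  have h1 : ContDiffAt ℝ ∞ (fun z : ℂ => H p v (‖z‖ ^ 2)) z :=
    ContDiffAt.comp z (H_smooth p hp v hv hc (‖z‖ ^ 2) (by positivity))
      (contDiff_norm_sq ℝ).contDiffAt
  exact Complex.ofRealCLM.contDiff.contDiffAt.comp z h1

lemma cs_rad (p : ℝ) (v : ℝ → ℝ) (hc : HasCompactSupport v) : HasCompactSupport (rad p v) := by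
  obtain ⟨R, -, hR⟩ := exR v hc
  apply HasCompactSupport.intro (isCompact_closedBall (0 : ℂ) (Real.exp R + 1))
  intro z hz
  rw [Metric.mem_closedBall, dist_zero_right, not_le] at hz
  rw [rad_eq]
  have h1 : 1 ≤ ‖z‖ := by linarith [Real.exp_pos R]
  have h2 : Real.exp R < ‖z‖ ^ 2 := by nlinarith [Real.exp_pos R]
  have h3 : R < Real.log (‖z‖ ^ 2) := by
    rwa [Real.lt_log_iff_exp_lt (by positivity)]
  have h4 : v (Real.log (‖z‖ ^ 2)) = 0 := hR _ (lt_of_lt_of_le h3 (le_abs_self _))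
  unfold H
  rw [h4, mul_zero]; simp

/-- derivative of `rad` -/
lemma fd_rad (p : ℝ) (hp : 1 < p) (v : ℝ → ℝ) (hv : ContDiff ℝ ∞ v) (hc : HasCompactSupport v)
    (z w : ℂ) : fderiv ℝ (rad p v) z w =
      ((H' p v (‖z‖ ^ 2) * (2 * (z.re * w.re + z.im * w.im)) : ℝ) : ℂ) := by
  have e : rad p v = fun z : ℂ => ((H p v (‖z‖ ^ 2) : ℝ) : ℂ) := funext (rad_eq p v)
  have h0 : HasFDerivAt (fun z : ℂ => ‖z‖ ^ 2) (2 • innerSL ℝ z) z :=
    (hasStrictFDerivAt_norm_sq z).hasFDerivAt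
  have h1 := (H_der p hp v hv hc (‖z‖ ^ 2) (by positivity)).comp_hasFDerivAt z h0
  have h2 := Complex.ofRealCLM.hasFDerivAt.comp z h1
  have h3 := h2.fderiv
  have h4 : fderiv ℝ (rad p v) z = fderiv ℝ (⇑Complex.ofRealCLM ∘ (H p v ∘ fun z : ℂ => ‖z‖ ^ 2)) z := by
    rw [e]; rfl
  rw [h4, h3]
  simp only [ContinuousLinearMap.comp_apply, ContinuousLinearMap.smul_apply, innerSL_apply_apply,
    Complex.inner, smul_eq_mul, Complex.ofRealCLM_apply]
  norm_cast
  congr 1
  simp [Complex.mul_re]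
  ring

theorem main : StS2b := by
  intro p hp v hv hc
  have s := smooth_rad p hp v hv hc
  have c := cs_rad p v hc
  have sz : ContDiff ℝ ∞ (fun z : ℂ => z) := contDiff_id
  have scz : ContDiff ℝ ∞ (fun z : ℂ => conj z) := Complex.conjCLE.contDiff
  have fd1 : ∀ z w : ℂ, fderiv ℝ (fun z : ℂ => z * rad p v z) z w =
      w * rad p v z + z * fderiv ℝ (rad p v) z w := by
    intro z w
    have h1 : HasFDerivAt (fun z : ℂ => z) (ContinuousLinearMap.id ℝ ℂ) z := hasFDerivAt_id z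
    have h2 := (s.differentiable (by simp) z).hasFDerivAt
    have h3 := (h1.mul h2).fderiv
    have h4 : fderiv ℝ (fun z : ℂ => z * rad p v z) z = _ := h3
    rw [h4]
    simp [mul_comm]
    ring
  have fd2 : ∀ z w : ℂ, fderiv ℝ (fun z : ℂ => conj z * rad p v z) z w =
      conj w * rad p v z + conj z * fderiv ℝ (rad p v) z w := by
    intro z w
    have h1 : HasFDerivAt (fun z : ℂ => conj z) (Complex.conjCLE : ℂ →L[ℝ] ℂ) z :=
      Complex.conjCLE.hasFDerivAt
    have h2 := (s.differentiable (by simp) z).hasFDerivAt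
    have h3 := (h1.mul h2).fderiv
    have h4 : fderiv ℝ (fun z : ℂ => conj z * rad p v z) z = _ := h3
    rw [h4]
    simp [mul_comm]
    ring
  have nz : ∀ z : ℂ, ((‖z‖ ^ 2 : ℝ) : ℂ) = z * conj z := by
    intro z
    rw [Complex.mul_conj, Complex.normSq_eq_norm_sq]
  have K1 : ∀ z : ℂ, (H p (fun s => deriv v s - v s / p) (‖z‖ ^ 2)) =
      ‖z‖ ^ 2 * H' p v (‖z‖ ^ 2) := fun z => (tH' p hp v hv (‖z‖ ^ 2) (by positivity)).symm
  have K2 : ∀ z : ℂ, (H p (fun s => deriv v s + (1 - 1 / p) * v s) (‖z‖ ^ 2)) =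
      H p v (‖z‖ ^ 2) + ‖z‖ ^ 2 * H' p v (‖z‖ ^ 2) := by
    intro z
    rw [tH' p hp v hv (‖z‖ ^ 2) (by positivity)]
    unfold H
    ring
  refine ⟨sz.mul s, c.mul_left, scz.mul s, c.mul_left, ?_, ?_, ?_, ?_⟩
  · intro z
    rw [rad_eq, K1]
    unfold Helper85.IE.dzb
    rw [fd1, fd1, fd_rad p hp v hv hc, fd_rad p hp v hv hc]
    have : ((1 : ℂ) * rad p v z + z * ((H' p v (‖z‖ ^ 2) *
          (2 * (z.re * (1 : ℂ).re + z.im * (1 : ℂ).im)) : ℝ) : ℂ) +
        I * (I * rad p v z + z * ((H' p v (‖z‖ ^ 2) *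
          (2 * (z.re * I.re + z.im * I.im)) : ℝ) : ℂ))) / 2 =
        z * z * ((H' p v (‖z‖ ^ 2) : ℝ) : ℂ) := by
      have e : z = (z.re : ℂ) + z.im * I := (Complex.re_add_im z).symm
      have hI : I * I = -1 := Complex.I_mul_I
      set a := H' p v (‖z‖ ^ 2)
      set q := rad p v z
      simp only [Complex.one_re, Complex.one_im, Complex.I_re, Complex.I_im, mul_zero, mul_one,
        add_zero, zero_add]
      push_cast
      linear_combination (q / 2) * hI - z * a * e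
    rw [this, norm_mul, norm_mul, Complex.norm_real, Complex.norm_real, Real.norm_eq_abs,
      Real.norm_eq_abs, abs_mul, abs_of_nonneg (by positivity : 0 ≤ ‖z‖ ^ 2)]
    ring
  · intro z
    rw [rad_eq, K2]
    unfold Helper85.IE.dz
    rw [fd1, fd1, fd_rad p hp v hv hc, fd_rad p hp v hv hc]
    have : ((1 : ℂ) * rad p v z + z * ((H' p v (‖z‖ ^ 2) *
          (2 * (z.re * (1 : ℂ).re + z.im * (1 : ℂ).im)) : ℝ) : ℂ) -
        I * (I * rad p v z + z * ((H' p v (‖z‖ ^ 2) *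
          (2 * (z.re * I.re + z.im * I.im)) : ℝ) : ℂ))) / 2 =
        rad p v z + z * conj z * ((H' p v (‖z‖ ^ 2) : ℝ) : ℂ) := by
      have e : conj z = (z.re : ℂ) - z.im * I := by
        apply Complex.ext <;> simp
      have hI : I * I = -1 := Complex.I_mul_I
      set a := H' p v (‖z‖ ^ 2)
      set q := rad p v z
      simp only [Complex.one_re, Complex.one_im, Complex.I_re, Complex.I_im, mul_zero, mul_one,
        add_zero, zero_add]
      push_cast
      linear_combination (-q / 2) * hI - z * a * e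
    rw [this, rad_eq, ← nz]
    norm_cast
  · intro z
    rw [rad_eq, K1]
    unfold Helper85.IE.dz
    rw [fd2, fd2, fd_rad p hp v hv hc, fd_rad p hp v hv hc]
    have : (conj (1 : ℂ) * rad p v z + conj z * ((H' p v (‖z‖ ^ 2) *
          (2 * (z.re * (1 : ℂ).re + z.im * (1 : ℂ).im)) : ℝ) : ℂ) -
        I * (conj I * rad p v z + conj z * ((H' p v (‖z‖ ^ 2) *
          (2 * (z.re * I.re + z.im * I.im)) : ℝ) : ℂ))) / 2 =
        conj z * conj z * ((H' p v (‖z‖ ^ 2) : ℝ) : ℂ) := by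
      have e : conj z = (z.re : ℂ) - z.im * I := by
        apply Complex.ext <;> simp
      have hI : I * I = -1 := Complex.I_mul_I
      set a := H' p v (‖z‖ ^ 2)
      set q := rad p v z
      simp only [Complex.one_re, Complex.one_im, Complex.I_re, Complex.I_im, mul_zero, mul_one,
        add_zero, zero_add, map_one, Complex.conj_I]
      push_cast
      linear_combination (q / 2) * hI - conj z * a * e
    rw [this, norm_mul, norm_mul, Complex.norm_real, Complex.norm_real, Real.norm_eq_abs,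
      Real.norm_eq_abs, abs_mul, abs_of_nonneg (by positivity : 0 ≤ ‖z‖ ^ 2), RCLike.norm_conj]
    ring
  · intro z
    rw [rad_eq, K2]
    unfold Helper85.IE.dzb
    rw [fd2, fd2, fd_rad p hp v hv hc, fd_rad p hp v hv hc]
    have : (conj (1 : ℂ) * rad p v z + conj z * ((H' p v (‖z‖ ^ 2) *
          (2 * (z.re * (1 : ℂ).re + z.im * (1 : ℂ).im)) : ℝ) : ℂ) +
        I * (conj I * rad p v z + conj z * ((H' p v (‖z‖ ^ 2) *
          (2 * (z.re * I.re + z.im * I.im)) : ℝ) : ℂ))) / 2 =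
        rad p v z + z * conj z * ((H' p v (‖z‖ ^ 2) : ℝ) : ℂ) := by
      have e : z = (z.re : ℂ) + z.im * I := (Complex.re_add_im z).symm
      have hI : I * I = -1 := Complex.I_mul_I
      set a := H' p v (‖z‖ ^ 2)
      set q := rad p v z
      set cz := conj z
      simp only [Complex.one_re, Complex.one_im, Complex.I_re, Complex.I_im, mul_zero, mul_one,
        add_zero, zero_add, map_one, Complex.conj_I]
      push_cast
      linear_combination (-q / 2) * hI - cz * a * e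
    rw [this, rad_eq, ← nz]
    norm_cast

end Helper87.NF.M_S2b
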