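import Pool.Agent.Helper87.NF.StS

/-!
# NF module S3: the lower bound
-/

set_option autoImplicit false
set_option maxSynthPendingDepth 3

open MeasureTheory Complex Filter Topology
open scoped ENNReal NNReal ComplexConjugate ContDiff

noncomputable section

namespace Helper87.NF.M_S3

open Helper72.BA Helper87.NF

/-- norms of radial functions in logarithmic coordinates -/
lemma N_eq (h2 : StS2a) (p : ℝ) (hp : 1 < p) (w : ℝ → ℝ) (hw : Continuous w) :
    eLpNorm (rad p w) (ENNReal.ofReal p) volume =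
      ENNReal.ofReal Real.pi ^ (1 / p) * eLpNorm w (ENNReal.ofReal p) volume := by
  have hp0 : 0 < p := by linarith
  have h0 : ENNReal.ofReal p ≠ 0 := by
    rw [Ne, ENNReal.ofReal_eq_zero, not_le]; exact hp0
  rw [eLpNorm_eq_lintegral_rpow_enorm_toReal h0 ENNReal.ofReal_ne_top,
    eLpNorm_eq_lintegral_rpow_enorm_toReal h0 ENNReal.ofReal_ne_top,
    ENNReal.toReal_ofReal hp0.le, ← ENNReal.mul_rpow_of_nonneg _ _ (by positivity)]
  congr 1
  have h3 := h2 (fun s => ‖w s‖ₑ ^ p) (by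
    exact (hw.measurable.enorm.pow_const p))
  rw [← h3]
  refine lintegral_congr_ae ?_
  have hz : ∀ᵐ z : ℂ ∂volume, z ≠ 0 := by
    rw [ae_iff]
    simp
  filter_upwards [hz] with z hz
  have hzn : 0 < ‖z‖ := norm_pos_iff.2 hz
  unfold rad
  have e1 : ‖((‖z‖ ^ (-(2 / p)) * w (Real.log (‖z‖ ^ 2)) : ℝ) : ℂ)‖ₑ =
      ENNReal.ofReal (‖z‖ ^ (-(2 / p))) * ‖w (Real.log (‖z‖ ^ 2))‖ₑ := by
    have h5 : 0 ≤ ‖z‖ ^ (-(2 / p)) := by positivity
    rw [← ofReal_norm, Complex.norm_real, norm_mul, ENNReal.ofReal_mul (norm_nonneg _),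
      Real.norm_of_nonneg h5, ofReal_norm]
  rw [e1, ENNReal.mul_rpow_of_nonneg _ _ hp0.le]
  congr 1
  rw [ENNReal.ofReal_rpow_of_nonneg (by positivity) hp0.le]
  congr 1
  rw [← Real.rpow_mul (norm_nonneg z)]
  have : -(2 / p) * p = -(2 : ℝ) := by field_simp
  rw [this, Real.rpow_neg (norm_nonneg z)]
  norm_num

/-- scaling -/
lemma scal (p : ℝ) (u : ℝ → ℝ) (hu : Continuous u) (ε : ℝ) (hε : 0 < ε) :
    eLpNorm (fun s => u (ε * s)) (ENNReal.ofReal p) volume =
      ENNReal.ofReal |ε⁻¹| ^ (1 / ENNReal.ofReal p).toReal *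
        eLpNorm u (ENNReal.ofReal p) volume := by
  have h1 := Real.map_volume_mul_left hε.ne'
  have h2 : eLpNorm u (ENNReal.ofReal p) (Measure.map (ε * ·) volume) =
      eLpNorm (u ∘ (ε * ·)) (ENNReal.ofReal p) volume :=
    eLpNorm_map_measure hu.aestronglyMeasurable (by fun_prop)
  rw [h1, eLpNorm_smul_measure_of_ne_zero (by
    rw [Ne, ENNReal.ofReal_eq_zero, not_le]; positivity)] at h2
  rw [smul_eq_mul] at h2
  rw [h2]
  rfl

lemma fac_ne (p : ℝ) (ε : ℝ) (hε : 0 < ε) :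
    ENNReal.ofReal |ε⁻¹| ^ (1 / ENNReal.ofReal p).toReal ≠ 0 ∧
    ENNReal.ofReal |ε⁻¹| ^ (1 / ENNReal.ofReal p).toReal ≠ ⊤ := by
  have h1 : 0 < ENNReal.ofReal |ε⁻¹| := by
    rw [ENNReal.ofReal_pos]; positivity
  exact ⟨(ENNReal.rpow_pos h1 ENNReal.ofReal_ne_top).ne',
    (ENNReal.rpow_lt_top_of_nonneg ENNReal.toReal_nonneg ENNReal.ofReal_ne_top).ne⟩

/-- limiting argument in the reals -/
lemma lim_real (A B C x y : ℝ) (hA : 0 < A) (hB : 0 ≤ B) (hC : 0 ≤ C)
    (h : ∀ ε : ℝ, 0 < ε → x * A ≤ C * (ε * B + y * A) + ε * B) : x ≤ C * y := by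
  have h1 : x * A ≤ C * y * A := by
    refine le_of_forall_pos_le_add fun δ hδ => ?_
    have hK : 0 < (C + 1) * B + 1 := by positivity
    have h2 := h (δ / ((C + 1) * B + 1)) (by positivity)
    have h3 : δ / ((C + 1) * B + 1) * ((C + 1) * B) ≤ δ := by
      rw [div_mul_eq_mul_div, div_le_iff₀ hK]
      nlinarith
    nlinarith
  exact le_of_mul_le_mul_right h1 hA

/-- triangle inequality with constants -/
lemma tri (P : ℝ≥0∞) (hP : 1 ≤ P) (u w : ℝ → ℝ) (hu : Continuous u) (hw : Continuous w)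
    (c d : ℝ) : eLpNorm (fun s => c * u s + d * w s) P volume ≤
      ENNReal.ofReal |c| * eLpNorm u P volume + ENNReal.ofReal |d| * eLpNorm w P volume := by
  have h1 := eLpNorm_add_le (μ := volume) (f := c • u) (g := d • w)
    (hu.const_smul c).aestronglyMeasurable (hw.const_smul d).aestronglyMeasurable hP
  rw [eLpNorm_const_smul, eLpNorm_const_smul, Real.enorm_eq_ofReal_abs,
    Real.enorm_eq_ofReal_abs] at h1
  exact h1

/-- the limiting inequality on the line -/
lemma line (p : ℝ) (hp : 1 < p) (C : ℝ) (hC : 0 ≤ C) (u w : ℝ → ℝ) (hu : Continuous u)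
    (hw : Continuous w) (hus : HasCompactSupport u) (hws : HasCompactSupport w)
    (hu0 : ∃ s, u s ≠ 0) (x y : ℝ)
    (h : ∀ ε : ℝ, 0 < ε → eLpNorm (fun s => x * u s + ε * w s) (ENNReal.ofReal p) volume ≤
      ENNReal.ofReal C * eLpNorm (fun s => y * u s + ε * w s) (ENNReal.ofReal p) volume) :
    |x| ≤ C * |y| := by
  have hP : 1 ≤ ENNReal.ofReal p := by
    rw [← ENNReal.ofReal_one]; exact ENNReal.ofReal_le_ofReal hp.le
  have hP0 : ENNReal.ofReal p ≠ 0 := by
    intro h0; rw [h0] at hP; simp at hP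
  set a := eLpNorm u (ENNReal.ofReal p) volume with ha
  set b := eLpNorm w (ENNReal.ofReal p) volume with hb
  have ha1 : a ≠ ⊤ := (hu.memLp_of_hasCompactSupport hus).eLpNorm_ne_top
  have hb1 : b ≠ ⊤ := (hw.memLp_of_hasCompactSupport hws).eLpNorm_ne_top
  have ha0 : a ≠ 0 := by
    intro h0
    rw [ha, eLpNorm_eq_zero_iff hu.aestronglyMeasurable hP0] at h0
    have h1 : u = 0 := by
      exact (Continuous.ae_eq_iff_eq volume hu continuous_zero).1 h0
    obtain ⟨s, hs⟩ := hu0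
    exact hs (by rw [h1]; rfl)
  have hA : 0 < a.toReal := ENNReal.toReal_pos ha0 ha1
  refine lim_real a.toReal b.toReal C |x| |y| hA ENNReal.toReal_nonneg hC ?_
  intro ε hε
  have h1 : ENNReal.ofReal |x| * a ≤ ENNReal.ofReal C *
      (ENNReal.ofReal ε * b + ENNReal.ofReal |y| * a) + ENNReal.ofReal ε * b := by
    have h2 : ENNReal.ofReal |x| * a ≤
        eLpNorm (fun s => x * u s + ε * w s) (ENNReal.ofReal p) volume +
          ENNReal.ofReal ε * b := by
      have h3 := tri (ENNReal.ofReal p) hP (fun s => x * u s + ε * w s) w (by fun_prop) hw 1 (-ε)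
      have h4 : eLpNorm (fun s => 1 * (x * u s + ε * w s) + -ε * w s) (ENNReal.ofReal p) volume =
          ENNReal.ofReal |x| * a := by
        have : (fun s => 1 * (x * u s + ε * w s) + -ε * w s) = x • u := by
          funext s; simp
        rw [this, eLpNorm_const_smul, Real.enorm_eq_ofReal_abs]
      rw [h4] at h3
      simpa [abs_of_pos hε] using h3
    have h5 := tri (ENNReal.ofReal p) hP u w hu hw y ε
    rw [abs_of_pos hε] at h5
    calc ENNReal.ofReal |x| * a ≤ _ := h2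
      _ ≤ ENNReal.ofReal C * eLpNorm (fun s => y * u s + ε * w s) (ENNReal.ofReal p) volume +
          ENNReal.ofReal ε * b := by gcongr; exact h ε hε
      _ ≤ _ := by
        gcongr
        rw [add_comm (ENNReal.ofReal ε * b)]
        exact h5
  have e1 : a = ENNReal.ofReal a.toReal := (ENNReal.ofReal_toReal ha1).symm
  have e2 : b = ENNReal.ofReal b.toReal := (ENNReal.ofReal_toReal hb1).symm
  have hB : 0 ≤ b.toReal := ENNReal.toReal_nonneg
  rw [e1, e2, ← ENNReal.ofReal_mul (abs_nonneg x), ← ENNReal.ofReal_mul hε.le,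
    ← ENNReal.ofReal_mul (abs_nonneg y), ← ENNReal.ofReal_add (by positivity) (by positivity),
    ← ENNReal.ofReal_mul hC, ← ENNReal.ofReal_add (by positivity) (by positivity)] at h1
  exact (ENNReal.ofReal_le_ofReal_iff (by positivity)).1 h1

/-- the bump -/
def chi0 : ContDiffBump (0 : ℝ) where
  rIn := 1
  rOut := 2
  rIn_pos := by norm_num
  rIn_lt_rOut := by norm_num

theorem main (hS1 : StS1) (hS2a : StS2a) (hS2b : StS2b) : StS3 := by
  intro p hp C hT
  have hp0 : 0 < p := by linarith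
  set χ : ℝ → ℝ := fun s => chi0 s with hχ
  have χs : ContDiff ℝ ∞ χ := chi0.contDiff
  have χc : HasCompactSupport χ := chi0.hasCompactSupport
  have χd : Differentiable ℝ χ := χs.differentiable (by simp)
  have dχ : Continuous (deriv χ) := χs.continuous_deriv (by simp)
  have dχc : HasCompactSupport (deriv χ) := χc.deriv
  have χ0 : ∃ s, χ s ≠ 0 := ⟨0, by
    have : χ 0 = 1 := chi0.one_of_mem_closedBall (by simp [chi0])
    rw [this]; norm_num⟩
  have hTm : TBd p (max C 0) := by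
    intro f
    refine (hT f).trans ?_
    gcongr
    exact le_max_left _ _
  have hC0 : 0 ≤ max C 0 := le_max_right _ _
  -- rescaled functions
  have vs : ∀ ε : ℝ, 0 < ε → ContDiff ℝ ∞ (fun s => χ (ε * s)) := fun ε _ =>
    χs.comp (contDiff_const.mul contDiff_id)
  have vc : ∀ ε : ℝ, 0 < ε → HasCompactSupport (fun s => χ (ε * s)) := by
    intro ε hε
    have := χc.comp_homeomorph (Homeomorph.mulLeft₀ ε hε.ne')
    exact this
  have vd : ∀ ε : ℝ, ∀ s : ℝ, deriv (fun s => χ (ε * s)) s = ε * deriv χ (ε * s) := by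
    intro ε s
    have h1 : HasDerivAt (fun s : ℝ => ε * s) ε s := by
      simpa using (hasDerivAt_id s).const_mul ε
    have h2 := (χd (ε * s)).hasDerivAt.comp s h1
    have h3 : deriv (fun s => χ (ε * s)) s = deriv χ (ε * s) * ε := h2.deriv
    rw [h3, mul_comm]
  -- norms
  have κ : ∀ (ε : ℝ), 0 < ε → ∀ c : ℝ,
      eLpNorm (rad p (fun s => deriv (fun s => χ (ε * s)) s + c * χ (ε * s)))
        (ENNReal.ofReal p) volume =
      (ENNReal.ofReal Real.pi ^ (1 / p) * ENNReal.ofReal |ε⁻¹| ^ (1 / ENNReal.ofReal p).toReal) *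
        eLpNorm (fun s => c * χ s + ε * deriv χ s) (ENNReal.ofReal p) volume := by
    intro ε hε c
    have e : (fun s => deriv (fun s => χ (ε * s)) s + c * χ (ε * s)) =
        fun s => (fun s => c * χ s + ε * deriv χ s) (ε * s) := by
      funext s
      rw [vd]
      simp only
      ring
    rw [e, N_eq hS2a p hp _ (by have := χs.continuous; fun_prop),
      scal p (fun s => c * χ s + ε * deriv χ s) (by have := χs.continuous; fun_prop) ε hε,
      mul_assoc]
  have hπ0 : ENNReal.ofReal Real.pi ^ (1 / p) ≠ 0 := by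
    have h1 : 0 < ENNReal.ofReal Real.pi := by
      rw [ENNReal.ofReal_pos]; exact Real.pi_pos
    exact (ENNReal.rpow_pos h1 ENNReal.ofReal_ne_top).ne'
  have hπ1 : ENNReal.ofReal Real.pi ^ (1 / p) ≠ ⊤ :=
    (ENNReal.rpow_lt_top_of_nonneg (by positivity) ENNReal.ofReal_ne_top).ne
  have hf : ∀ ε : ℝ, 0 < ε →
      (ENNReal.ofReal Real.pi ^ (1 / p) * ENNReal.ofReal |ε⁻¹| ^ (1 / ENNReal.ofReal p).toReal)
        ≠ 0 ∧
      (ENNReal.ofReal Real.pi ^ (1 / p) * ENNReal.ofReal |ε⁻¹| ^ (1 / ENNReal.ofReal p).toReal)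
        ≠ ⊤ := fun ε hε =>
    ⟨mul_ne_zero hπ0 (fac_ne p ε hε).1, ENNReal.mul_ne_top hπ1 (fac_ne p ε hε).2⟩
  -- general principle
  have gen : ∀ φ : ℂ → ℂ, ContDiff ℝ ∞ φ → HasCompactSupport φ →
      eLpNorm (Helper85.IE.dz φ) (ENNReal.ofReal p) volume ≤ ENNReal.ofReal (max C 0) *
        eLpNorm (Helper85.IE.dzb φ) (ENNReal.ofReal p) volume := by
    intro φ h1 h2
    obtain ⟨f, hf1, hf2⟩ := hS1 (h2.toSchwartzMap h1)
    have h3 := hTm f
    have e1 : (fun z => Tn 1 f z) = Helper85.IE.dz φ := by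
      funext z
      rw [hf2 z]; rfl
    have e2 : (fun z => f z) = Helper85.IE.dzb φ := by
      funext z
      rw [hf1 z]; rfl
    rw [e1, e2] at h3
    exact h3
  -- the two inequalities
  have i1 : ∀ ε : ℝ, 0 < ε →
      eLpNorm (fun s => (1 - 1 / p) * χ s + ε * deriv χ s) (ENNReal.ofReal p) volume ≤
      ENNReal.ofReal (max C 0) *
        eLpNorm (fun s => (-(1 / p)) * χ s + ε * deriv χ s) (ENNReal.ofReal p) volume := by
    intro ε hε
    obtain ⟨a1, a2, -, -, a5, a6, -, -⟩ := hS2b p hp _ (vs ε hε) (vc ε hε)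
    have h1 := gen _ a1 a2
    rw [eLpNorm_congr_norm_ae (Eventually.of_forall a5),
      eLpNorm_congr_norm_ae (Eventually.of_forall a6)] at h1
    have e : (fun s => deriv (fun s => χ (ε * s)) s - χ (ε * s) / p) =
        fun s => deriv (fun s => χ (ε * s)) s + (-(1 / p)) * χ (ε * s) := by
      funext s; ring
    rw [e, κ ε hε, κ ε hε, mul_left_comm] at h1
    exact (ENNReal.mul_le_mul_iff_right (hf ε hε).1 (hf ε hε).2).1 h1
  have i2 : ∀ ε : ℝ, 0 < ε →
      eLpNorm (fun s => (-(1 / p)) * χ s + ε * deriv χ s) (ENNReal.ofReal p) volume ≤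
      ENNReal.ofReal (max C 0) *
        eLpNorm (fun s => (1 - 1 / p) * χ s + ε * deriv χ s) (ENNReal.ofReal p) volume := by
    intro ε hε
    obtain ⟨-, -, a1, a2, -, -, a5, a6⟩ := hS2b p hp _ (vs ε hε) (vc ε hε)
    have h1 := gen _ a1 a2
    rw [eLpNorm_congr_norm_ae (Eventually.of_forall a5),
      eLpNorm_congr_norm_ae (Eventually.of_forall a6)] at h1
    have e : (fun s => deriv (fun s => χ (ε * s)) s - χ (ε * s) / p) =
        fun s => deriv (fun s => χ (ε * s)) s + (-(1 / p)) * χ (ε * s) := by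
      funext s; ring
    rw [e, κ ε hε, κ ε hε, mul_left_comm] at h1
    exact (ENNReal.mul_le_mul_iff_right (hf ε hε).1 (hf ε hε).2).1 h1
  have j1 := line p hp _ hC0 χ (deriv χ) χs.continuous dχ χc dχc χ0 _ _ i1
  have j2 := line p hp _ hC0 χ (deriv χ) χs.continuous dχ χc dχc χ0 _ _ i2
  have hq : 0 < 1 - 1 / p := by
    rw [sub_pos, div_lt_one hp0]; exact hp
  have hq2 : 0 < 1 / p := by positivity
  rw [abs_neg, abs_of_pos hq, abs_of_pos hq2] at j1 j2
  have hCpos : 0 < C := by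
    by_contra hneg
    rw [max_eq_right (not_lt.1 hneg)] at j1
    linarith
  rw [max_eq_left hCpos.le] at j1 j2
  have k1 : p - 1 ≤ C := by
    have : (1 - 1 / p) * p ≤ C * (1 / p) * p := mul_le_mul_of_nonneg_right j1 hp0.le
    have e1 : (1 - 1 / p) * p = p - 1 := by field_simp
    have e2 : C * (1 / p) * p = C := by field_simp
    rwa [e1, e2] at this
  have k2 : 1 / (p - 1) ≤ C := by
    have hp1 : 0 < p - 1 := by linarith
    rw [div_le_iff₀ hp1]
    have : (1 / p) * p ≤ C * (1 - 1 / p) * p := mul_le_mul_of_nonneg_right j2 hp0.le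
    have e1 : (1 / p) * p = 1 := by field_simp
    have e2 : C * (1 - 1 / p) * p = C * (p - 1) := by field_simp
    rwa [e1, e2] at this
  exact max_le k1 k2

end Helper87.NF.M_S3
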