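import Pool.Agent.Helper87.NF.StS

/-!
# Duality (module S4, helper11, for MP_3dd6d4_an)
-/

set_option autoImplicit false
set_option maxSynthPendingDepth 3

open MeasureTheory Complex Filter Topology
open scoped ENNReal NNReal ComplexConjugate ContDiff

noncomputable section

namespace Helper87.NF.M_S4

open Helper72.BA Helper85.IW Helper85.IE

/-- the `L^r` norm -/
def L (r : ℝ) (h : ℂ → ℂ) : ℝ≥0∞ := (∫⁻ z, ‖h z‖ₑ ^ r) ^ (1 / r)

theorem eL {r : ℝ} (hr : 0 < r) (h : ℂ → ℂ) :
    eLpNorm h (ENNReal.ofReal r) volume = L r h := by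
  rw [eLpNorm_eq_lintegral_rpow_enorm_toReal (by simpa using hr) ENNReal.ofReal_ne_top,
    ENNReal.toReal_ofReal hr.le]
  rfl

theorem hold {p q : ℝ} (hpq : p.HolderConjugate q) {a b : ℂ → ℂ}
    (ha : AEStronglyMeasurable a volume) (hb : AEStronglyMeasurable b volume) :
    ‖∫ z, a z * b z‖ₑ ≤ L p a * L q b := by
  refine (enorm_integral_le_lintegral_enorm _).trans ?_
  have h := ENNReal.lintegral_mul_le_Lp_mul_Lq (volume : Measure ℂ) hpq ha.enorm hb.enorm
  refine le_trans (le_of_eq ?_) h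
  refine lintegral_congr fun z => ?_
  rw [enorm_mul]
  rfl

theorem step {p q C : ℝ} (hp : 1 < p) (hpq : p.HolderConjugate q) (h4 : StS4a)
    (hT : TBd q C) (f h : SchwartzMap ℂ ℂ) :
    ‖∫ z, Tn 1 f z * h z‖ₑ ≤ L p f * (ENNReal.ofReal C * L q h) := by
  rw [h4 f h]
  have hc : Continuous (fun z => Tn 1 h z) := by
    have e : (fun z => Tn 1 h z) = HE (gT h) 0 := by
      funext z
      exact ((qA6 h).2.2.2.2 z).symm
    rw [e]
    exact HE_cont _ (qA6 h).2.1
  refine (hold hpq f.continuous.aestronglyMeasurable hc.aestronglyMeasurable).trans ?_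
  have hq : 0 < q := hpq.symm.pos
  have h1 := hT h
  rw [eL hq, eL hq] at h1
  exact mul_le_mul_right h1 _

/-- the dual function -/
def G (p : ℝ) (F : ℂ → ℂ) (R : ℝ) : ℂ → ℂ :=
  (Metric.closedBall (0 : ℂ) R).indicator
    (fun z => ((‖F z‖ ^ (p - 2) : ℝ) : ℂ) * conj (F z))

theorem norm_core {p : ℝ} (hp : 1 < p) (x : ℂ) :
    ‖((‖x‖ ^ (p - 2) : ℝ) : ℂ) * conj x‖ = ‖x‖ ^ (p - 1) := by
  rw [norm_mul, Complex.norm_real, Complex.norm_conj, Real.norm_of_nonneg (by positivity)]
  rcases eq_or_ne x 0 with rfl | hx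
  · rw [norm_zero, mul_zero, Real.zero_rpow (by linarith)]
  · have h0 : 0 < ‖x‖ := norm_pos_iff.2 hx
    have : p - 1 = (p - 2) + 1 := by ring
    rw [this, Real.rpow_add h0, Real.rpow_one]

theorem mul_core {p : ℝ} (hp : 1 < p) (x : ℂ) :
    x * (((‖x‖ ^ (p - 2) : ℝ) : ℂ) * conj x) = ((‖x‖ ^ p : ℝ) : ℂ) := by
  rcases eq_or_ne x 0 with rfl | hx
  · rw [norm_zero, zero_mul, Real.zero_rpow (by linarith), Complex.ofReal_zero]
  · have h0 : 0 < ‖x‖ := norm_pos_iff.2 hx
    have h1 : x * (((‖x‖ ^ (p - 2) : ℝ) : ℂ) * conj x) =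
        ((‖x‖ ^ (p - 2) : ℝ) : ℂ) * (x * conj x) := by ring
    rw [h1, Complex.mul_conj, Complex.normSq_eq_norm_sq, ← Complex.ofReal_mul]
    congr 1
    have : p = (p - 2) + 2 := by ring
    conv_rhs => rw [this, Real.rpow_add h0]
    norm_num

section

variable {p q : ℝ} {F : ℂ → ℂ} {M : ℝ}

theorem G_meas (hF : Continuous F) (R : ℝ) : Measurable (G p F R) := by
  refine Measurable.indicator ?_ Metric.isClosed_closedBall.measurableSet
  refine Measurable.mul ?_ ?_
  · exact Complex.measurable_ofReal.comp (hF.norm.measurable.pow_const _)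
  · exact (Complex.continuous_conj.comp hF).measurable

theorem G_bdd (hp : 1 < p) (hM : ∀ z, ‖F z‖ ≤ M) (R : ℝ) (z : ℂ) : ‖G p F R z‖ ≤ M ^ (p - 1) := by
  have hM0 : 0 ≤ M := (norm_nonneg _).trans (hM z)
  unfold G
  by_cases hz : z ∈ Metric.closedBall (0 : ℂ) R
  · rw [Set.indicator_of_mem hz, norm_core hp]
    exact Real.rpow_le_rpow (norm_nonneg _) (hM z) (by linarith)
  · rw [Set.indicator_of_notMem hz, norm_zero]
    positivity

theorem G_memLp (hp : 1 < p) (hF : Continuous F) (hM : ∀ z, ‖F z‖ ≤ M) (R : ℝ) (r : ℝ≥0∞) :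
    MemLp (G p F R) r volume := by
  have h1 : G p F R = (Metric.closedBall (0 : ℂ) R).indicator (G p F R) := by
    unfold G
    rw [Set.indicator_indicator, Set.inter_self]
  rw [h1, memLp_indicator_iff_restrict Metric.isClosed_closedBall.measurableSet]
  have : IsFiniteMeasure ((volume : Measure ℂ).restrict (Metric.closedBall (0 : ℂ) R)) :=
    ⟨by rw [Measure.restrict_apply_univ]; exact measure_closedBall_lt_top⟩
  exact MemLp.of_bound (G_meas hF R).aestronglyMeasurable _
    (Filter.Eventually.of_forall fun z => G_bdd hp hM R z)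

theorem G_norm (hp : 1 < p) (hpq : p.HolderConjugate q) (R : ℝ) :
    L q (G p F R) = (∫⁻ z in Metric.closedBall (0 : ℂ) R, ‖F z‖ₑ ^ p) ^ (1 / q) := by
  unfold L
  congr 1
  rw [← lintegral_indicator Metric.isClosed_closedBall.measurableSet]
  refine lintegral_congr fun z => ?_
  have hq : 0 < q := hpq.symm.pos
  by_cases hz : z ∈ Metric.closedBall (0 : ℂ) R
  · unfold G
    rw [Set.indicator_of_mem hz, Set.indicator_of_mem hz]
    have h1 : ‖((‖F z‖ ^ (p - 2) : ℝ) : ℂ) * conj (F z)‖ₑ = ‖F z‖ₑ ^ (p - 1) := by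
      rw [← ofReal_norm, norm_core hp, ← ofReal_norm,
        ENNReal.ofReal_rpow_of_nonneg (norm_nonneg _) (by linarith)]
    rw [h1, ← ENNReal.rpow_mul]
    congr 1
    have := hpq.sub_one_mul_conj
    exact this
  · unfold G
    rw [Set.indicator_of_notMem hz, Set.indicator_of_notMem hz, enorm_zero,
      ENNReal.zero_rpow_of_pos hq]

theorem G_int (hp : 1 < p) (hF : Continuous F) (R : ℝ) :
    ‖∫ z, F z * G p F R z‖ₑ = ∫⁻ z in Metric.closedBall (0 : ℂ) R, ‖F z‖ₑ ^ p := by
  have h1 : ∫ z, F z * G p F R z = ((∫ z in Metric.closedBall (0 : ℂ) R, ‖F z‖ ^ p : ℝ) : ℂ) := by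
    rw [← integral_complex_ofReal, ← integral_indicator Metric.isClosed_closedBall.measurableSet]
    congr 1
    funext z
    unfold G
    by_cases hz : z ∈ Metric.closedBall (0 : ℂ) R
    · rw [Set.indicator_of_mem hz, Set.indicator_of_mem hz, mul_core hp]
    · rw [Set.indicator_of_notMem hz, Set.indicator_of_notMem hz, mul_zero]
  have h2 : 0 ≤ ∫ z in Metric.closedBall (0 : ℂ) R, ‖F z‖ ^ p :=
    integral_nonneg fun z => by positivity
  rw [h1, ← ofReal_norm, Complex.norm_real, Real.norm_of_nonneg h2,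
    ofReal_integral_eq_lintegral_ofReal]
  · refine lintegral_congr fun z => ?_
    rw [← ofReal_norm, ENNReal.ofReal_rpow_of_nonneg (norm_nonneg _) (by linarith)]
  · refine ContinuousOn.integrableOn_compact (isCompact_closedBall _ _) ?_
    exact (hF.norm.rpow_const fun z => Or.inr (by linarith)).continuousOn
  · exact Filter.Eventually.of_forall fun z => by positivity

end

/-- approximation of the dual function by test functions -/
theorem approx {q : ℝ} (hq : 1 ≤ q) {g0 : ℂ → ℂ} {R : ℝ} (hR : 0 < R)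
    (hg0 : MemLp g0 (ENNReal.ofReal q) volume)
    (hs : ∀ z, z ∉ Metric.closedBall (0 : ℂ) R → g0 z = 0) {ε : ℝ} (hε : 0 < ε) :
    ∃ h : SchwartzMap ℂ ℂ, (∀ z, z ∉ Metric.ball (0 : ℂ) (R + 1) → h z = 0) ∧
      L q (fun z => g0 z - h z) ≤ ENNReal.ofReal ε := by
  have hq0 : 0 < q := by linarith
  obtain ⟨g, hg1, hg2, hg3⟩ := hg0.exist_eLpNorm_sub_le ENNReal.ofReal_ne_top
    (by rw [← ENNReal.ofReal_one]; exact ENNReal.ofReal_le_ofReal hq) hε
  let χ : ContDiffBump (0 : ℂ) := ⟨R, R + 1, hR, by linarith⟩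
  have hc : HasCompactSupport (fun z => ((χ z : ℝ) : ℂ) * g z) := hg1.mul_left
  have hd : ContDiff ℝ ∞ (fun z => ((χ z : ℝ) : ℂ) * g z) :=
    (Complex.ofRealCLM.contDiff.comp χ.contDiff).mul hg2
  refine ⟨hc.toSchwartzMap hd, fun z hz => ?_, ?_⟩
  · change ((χ z : ℝ) : ℂ) * g z = 0
    have : χ z = 0 := by
      have h1 : z ∉ Function.support χ := by
        rw [χ.support_eq]
        exact hz
      simpa using h1
    rw [this, Complex.ofReal_zero, zero_mul]
  · rw [← eL hq0]
    refine le_trans (eLpNorm_mono fun z => ?_) hg3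
    change ‖g0 z - ((χ z : ℝ) : ℂ) * g z‖ ≤ ‖g0 z - g z‖
    by_cases hz : z ∈ Metric.closedBall (0 : ℂ) R
    · rw [χ.one_of_mem_closedBall hz, Complex.ofReal_one, one_mul]
    · rw [hs z hz, zero_sub, zero_sub, norm_neg, norm_neg, norm_mul, Complex.norm_real,
        Real.norm_of_nonneg χ.nonneg]
      exact mul_le_of_le_one_left (norm_nonneg _) χ.le_one

theorem core {p q C M : ℝ} (hp : 1 < p) (hpq : p.HolderConjugate q) (h4 : StS4a)
    (hT : TBd q C) (f : SchwartzMap ℂ ℂ) {F : ℂ → ℂ} (hFT : ∀ z, Tn 1 f z = F z)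
    (hF : Continuous F) (hM : ∀ z, ‖F z‖ ≤ M) {R : ℝ} (hR : 0 < R) :
    ∫⁻ z in Metric.closedBall (0 : ℂ) R, ‖F z‖ₑ ^ p ≤
      L p f * ENNReal.ofReal C *
        (∫⁻ z in Metric.closedBall (0 : ℂ) R, ‖F z‖ₑ ^ p) ^ (1 / q) := by
  have hp0 : 0 < p := by linarith
  have hq1 : 1 < q := hpq.symm.lt
  have hq0 : 0 < q := by linarith
  set B' := Metric.closedBall (0 : ℂ) (R + 1) with hB'
  have hB'm : MeasurableSet B' := Metric.isClosed_closedBall.measurableSet
  have hfin : IsFiniteMeasure ((volume : Measure ℂ).restrict B') :=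
    ⟨by rw [Measure.restrict_apply_univ]; exact measure_closedBall_lt_top⟩
  set D : ℝ≥0∞ := L p (B'.indicator F) with hD
  have hDfin : D ≠ ⊤ := by
    rw [hD, ← eL hp0, eLpNorm_indicator_eq_eLpNorm_restrict hB'm]
    exact (MemLp.of_bound hF.aestronglyMeasurable M
      (Filter.Eventually.of_forall hM)).eLpNorm_ne_top
  have hffin : L p f ≠ ⊤ := by
    rw [← eL hp0]
    exact (f.memLp (ENNReal.ofReal p) volume).eLpNorm_ne_top
  have hGm := G_memLp (F := F) hp hF hM R
  have hGint : Integrable (G p F R) := memLp_one_iff_integrable.1 (hGm 1)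
  have key : ∀ ε : ℝ, 0 < ε → ‖∫ z, F z * G p F R z‖ₑ ≤
      L p f * ENNReal.ofReal C * L q (G p F R) +
        (L p f * ENNReal.ofReal C + D) * ENNReal.ofReal ε := by
    intro ε hε
    obtain ⟨h, hh1, hh2⟩ := approx hq1.le hR (hGm _) (fun z hz => by
      unfold G
      exact Set.indicator_of_notMem hz _) hε
    have i1 : Integrable (fun z => F z * h z) :=
      h.integrable.bdd_mul hF.aestronglyMeasurable (Filter.Eventually.of_forall hM)
    have i2 : Integrable (fun z => F z * (G p F R z - h z)) :=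
      (hGint.sub h.integrable).bdd_mul hF.aestronglyMeasurable (Filter.Eventually.of_forall hM)
    have e1 : ∫ z, F z * G p F R z = (∫ z, F z * h z) + ∫ z, F z * (G p F R z - h z) := by
      rw [← integral_add i1 i2]
      refine integral_congr_ae (Filter.Eventually.of_forall fun z => ?_)
      ring
    have b1 : ‖∫ z, F z * h z‖ₑ ≤ L p f * (ENNReal.ofReal C * L q h) := by
      have := step hp hpq h4 hT f h
      simpa only [hFT] using this
    have b2 : ‖∫ z, F z * (G p F R z - h z)‖ₑ ≤ D * ENNReal.ofReal ε := by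
      have e2 : (∫ z, F z * (G p F R z - h z)) =
          ∫ z, B'.indicator F z * (G p F R z - h z) := by
        refine integral_congr_ae (Filter.Eventually.of_forall fun z => ?_)
        change F z * (G p F R z - h z) = B'.indicator F z * (G p F R z - h z)
        by_cases hz : z ∈ B'
        · rw [Set.indicator_of_mem hz]
        · rw [Set.indicator_of_notMem hz]
          have hz1 : z ∉ Metric.closedBall (0 : ℂ) R := fun hh =>
            hz (Metric.closedBall_subset_closedBall (by linarith) hh)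
          have hz2 : z ∉ Metric.ball (0 : ℂ) (R + 1) := fun hh =>
            hz (Metric.ball_subset_closedBall hh)
          have hz3 : G p F R z = 0 := by
            unfold G
            exact Set.indicator_of_notMem hz1 _
          rw [hh1 z hz2, hz3, sub_zero, mul_zero, mul_zero]
      rw [e2]
      refine (hold hpq ?_ ?_).trans (mul_le_mul_right hh2 _)
      · exact (hF.measurable.indicator hB'm).aestronglyMeasurable
      · exact ((G_meas hF R).sub h.continuous.measurable).aestronglyMeasurable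
    have b3 : L q h ≤ L q (G p F R) + ENNReal.ofReal ε := by
      have e3 : (h : ℂ → ℂ) = G p F R - fun z => (G p F R z - h z) := by
        funext z
        simp
      have b4 : eLpNorm (G p F R - fun z => (G p F R z - h z)) (ENNReal.ofReal q) volume ≤
          eLpNorm (G p F R) (ENNReal.ofReal q) volume +
          eLpNorm (fun z => (G p F R z - h z)) (ENNReal.ofReal q) volume :=
        eLpNorm_sub_le (G_meas hF R).aestronglyMeasurable
          ((G_meas hF R).sub h.continuous.measurable).aestronglyMeasurable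
          (by rw [← ENNReal.ofReal_one]; exact ENNReal.ofReal_le_ofReal hq1.le)
      rw [← e3, eL hq0, eL hq0, eL hq0] at b4
      exact b4.trans (add_le_add le_rfl hh2)
    rw [e1]
    refine (enorm_add_le _ _).trans ((add_le_add b1 b2).trans ?_)
    calc L p f * (ENNReal.ofReal C * L q h) + D * ENNReal.ofReal ε
        ≤ L p f * (ENNReal.ofReal C * (L q (G p F R) + ENNReal.ofReal ε)) +
          D * ENNReal.ofReal ε := by gcongr
      _ = _ := by ring
  rw [← G_norm hp hpq R, ← G_int hp hF R]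
  have hlim : Tendsto (fun n : ℕ => L p f * ENNReal.ofReal C * L q (G p F R) +
      (L p f * ENNReal.ofReal C + D) * ENNReal.ofReal (1 / ((n : ℝ) + 1))) atTop
      (𝓝 (L p f * ENNReal.ofReal C * L q (G p F R) +
        (L p f * ENNReal.ofReal C + D) * ENNReal.ofReal 0)) := by
    refine tendsto_const_nhds.add (ENNReal.Tendsto.const_mul ?_ (Or.inr ?_))
    · exact (ENNReal.continuous_ofReal.tendsto 0).comp tendsto_one_div_add_atTop_nhds_zero_nat
    · exact ENNReal.add_ne_top.2 ⟨ENNReal.mul_ne_top hffin ENNReal.ofReal_ne_top, hDfin⟩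
  rw [ENNReal.ofReal_zero, mul_zero, add_zero] at hlim
  exact ge_of_tendsto' hlim fun n => key _ (by positivity)

theorem main (h4 : StS4a) : StS4 := by
  intro p q C hp _ hpq' _ hT f
  have hp0 : 0 < p := by linarith
  have hpq : p.HolderConjugate q := by
    rw [Real.holderConjugate_iff]
    refine ⟨hp, ?_⟩
    rw [← one_div, ← one_div]
    exact hpq'
  have hq0 : 0 < q := hpq.symm.pos
  rw [eL hp0, eL hp0]
  set F : ℂ → ℂ := HE (gT f) 0 with hFdef
  have hFT : ∀ z, Tn 1 f z = F z := fun z => ((qA6 f).2.2.2.2 z).symm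
  have hF : Continuous F := HE_cont _ (qA6 f).2.1
  have hM : ∀ z, ‖F z‖ ≤ ∫ ξ, ‖gT f ξ‖ := fun z => norm_HE_le _ (qA6 f).2.1 z
  have hI : ∀ R : ℝ, 0 < R → ∫⁻ z in Metric.closedBall (0 : ℂ) R, ‖F z‖ₑ ^ p ≤
      (ENNReal.ofReal C * L p f) ^ p := by
    intro R hR
    have h1 := core hp hpq h4 hT f hFT hF hM hR
    set I := ∫⁻ z in Metric.closedBall (0 : ℂ) R, ‖F z‖ₑ ^ p with hIdef
    have hIfin : I ≠ ⊤ := by
      have hfin : IsFiniteMeasure ((volume : Measure ℂ).restrict (Metric.closedBall (0 : ℂ) R)) :=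
        ⟨by rw [Measure.restrict_apply_univ]; exact measure_closedBall_lt_top⟩
      have h2 := (MemLp.of_bound (p := ENNReal.ofReal p) (μ := (volume : Measure ℂ).restrict
        (Metric.closedBall (0 : ℂ) R)) hF.aestronglyMeasurable _
        (Filter.Eventually.of_forall hM)).eLpNorm_ne_top
      rw [eLpNorm_eq_lintegral_rpow_enorm_toReal (by simpa using hp0) ENNReal.ofReal_ne_top,
        ENNReal.toReal_ofReal hp0.le] at h2
      intro h3
      rw [hIdef] at h3
      rw [h3] at h2
      exact h2 (ENNReal.top_rpow_of_pos (by positivity))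
    rcases eq_or_ne I 0 with h0 | h0
    · rw [h0]; exact zero_le
    · have hinv : 1 / p + 1 / q = 1 := hpq'
      have h2 : I = I ^ (1 / p) * I ^ (1 / q) := by
        rw [← ENNReal.rpow_add _ _ h0 hIfin, hinv, ENNReal.rpow_one]
      have h3 : I ^ (1 / q) ≠ 0 := by
        intro h
        rcases ENNReal.rpow_eq_zero_iff.1 h with ⟨h, _⟩ | ⟨_, h⟩
        · exact h0 h
        · have : 0 < 1 / q := by positivity
          linarith
      have h5 : I ^ (1 / q) ≠ ⊤ := ENNReal.rpow_ne_top_of_nonneg (by positivity) hIfin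
      have h6 : I ^ (1 / p) ≤ L p f * ENNReal.ofReal C := by
        rw [← ENNReal.mul_le_mul_iff_left h3 h5, ← h2]
        exact h1
      have h7 := ENNReal.rpow_le_rpow h6 hp0.le
      rw [← ENNReal.rpow_mul, one_div_mul_cancel hp0.ne', ENNReal.rpow_one, mul_comm] at h7
      exact h7
  have hlim := (aecover_closedBall (μ := (volume : Measure ℂ)) (x := (0 : ℂ))
    (tendsto_natCast_atTop_atTop.atTop_add (tendsto_const_nhds (x := (1 : ℝ))))
      ).lintegral_tendsto_of_countably_generated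
    (f := fun z => ‖F z‖ₑ ^ p) (hF.measurable.enorm.pow_const p).aemeasurable
  have hfinal : ∫⁻ z, ‖F z‖ₑ ^ p ≤ (ENNReal.ofReal C * L p f) ^ p :=
    le_of_tendsto' hlim fun n => hI _ (by positivity)
  have e : L p (fun z => Tn 1 f z) = (∫⁻ z, ‖F z‖ₑ ^ p) ^ (1 / p) := by
    unfold L
    simp only [hFT]
  rw [e]
  refine (ENNReal.rpow_le_rpow hfinal (by positivity)).trans (le_of_eq ?_)
  rw [← ENNReal.rpow_mul, mul_one_div_cancel hp0.ne', ENNReal.rpow_one]

end Helper87.NF.M_S4
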