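import Pool.Agent.Helper87.NF.StS

/-!
# NF module S4a: `T` is its own transpose
-/

set_option autoImplicit false
set_option maxSynthPendingDepth 3

open MeasureTheory Complex Filter Topology
open scoped ENNReal NNReal ComplexConjugate ContDiff

noncomputable section

namespace Helper87.NF.M_S4a

open Helper72.BA Helper85.IW Helper85.IE Helper87.NF

lemma ch_meas : Measurable (fun q : ℂ × ℂ => ch q.1 q.2) := by
  unfold ch
  fun_prop

lemma norm_ch (z ξ : ℂ) : ‖ch z ξ‖ = 1 := Helper85.IW.M_A2.norm_ch z ξ

lemma Tn_eq (f : SchwartzMap ℂ ℂ) (z : ℂ) : Tn 1 f z = ∫ ξ, ch z ξ * gT f ξ := by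
  simp only [Tn, gT, gf, ch, pow_one]

lemma gf_neg (g : SchwartzMap ℂ ℂ) (ξ : ℂ) : gf g (-ξ) = ∫ z, ch z ξ * g z := by
  unfold gf ch
  refine integral_congr_ae (Filter.Eventually.of_forall fun w => ?_)
  simp only [Complex.neg_re, Complex.neg_im]
  congr 2
  push_cast
  ring

lemma key (f g : SchwartzMap ℂ ℂ) : ∫ z, Tn 1 f z * g z = ∫ ξ, gT f ξ * gf g (-ξ) := by
  have hT : Integrable (gT f) := (qA1.1 _ (rap_gT f)).1
  have hg : Integrable g := g.integrable
  have hint : Integrable (fun q : ℂ × ℂ => ch q.1 q.2 * gT f q.2 * g q.1)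
      (volume.prod volume) := by
    have h1 : Integrable (fun q : ℂ × ℂ => g q.1 * gT f q.2) (volume.prod volume) :=
      hg.mul_prod hT
    refine Integrable.mono h1 ?_ (Filter.Eventually.of_forall fun q => ?_)
    · refine (ch_meas.aestronglyMeasurable.mul ?_).mul ?_
      · exact ((rap_gT f).meas.comp measurable_snd).aestronglyMeasurable
      · exact (g.continuous.measurable.comp measurable_fst).aestronglyMeasurable
    · rw [norm_mul, norm_mul, norm_ch, one_mul, norm_mul, mul_comm]
  calc ∫ z, Tn 1 f z * g z = ∫ z, ∫ ξ, ch z ξ * gT f ξ * g z := by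
        refine integral_congr_ae (Filter.Eventually.of_forall fun z => ?_)
        simp only
        rw [Tn_eq, integral_mul_const]
    _ = ∫ ξ, ∫ z, ch z ξ * gT f ξ * g z := integral_integral_swap hint
    _ = ∫ ξ, gT f ξ * gf g (-ξ) := by
        refine integral_congr_ae (Filter.Eventually.of_forall fun ξ => ?_)
        simp only
        rw [gf_neg, ← integral_const_mul]
        refine integral_congr_ae (Filter.Eventually.of_forall fun z => ?_)
        simp only
        ring

theorem main : StS4a := by
  intro f g
  rw [key]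
  have e : ∫ z, f z * Tn 1 g z = ∫ z, Tn 1 g z * f z := by
    refine integral_congr_ae (Filter.Eventually.of_forall fun z => ?_)
    simp only
    ring
  rw [e, key, ← integral_neg_eq_self]
  refine integral_congr_ae (Filter.Eventually.of_forall fun ξ => ?_)
  simp only [gT, neg_neg, map_neg, neg_div_neg_eq]
  ring

end Helper87.NF.M_S4a
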