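import Pool.Agent.Helper87.NF.StS
import Pool.Agent.Helper77.IW_F2

/-!
# From the integral inequality to the norm of the transform (helper87, MP_3dd6d4_an, n = 1)
-/

set_option autoImplicit false
set_option maxSynthPendingDepth 3

open MeasureTheory Complex Filter Topology
open scoped ENNReal NNReal ComplexConjugate

noncomputable section

namespace Helper87.NF

open Helper72.BA

theorem aF2 : Helper85.IW.StF2 :=
  Helper85.IW.M_F2.main Helper85.IE.qA1 Helper85.IE.qA5 Helper85.IE.qA6

/-- the upper bound for `p ≥ 2` -/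
theorem up2 (h : ∀ p : ℝ, 2 < p → Helper85.IE.Hyp p (p - 1)) (p : ℝ) (hp : 2 ≤ p) :
    TBd p (p - 1) := by
  intro f
  rcases hp.eq_or_lt with rfl | hp
  · have := aF2 f
    have h2 : ENNReal.ofReal 2 = 2 := by simp
    have h1 : ENNReal.ofReal (2 - 1 : ℝ) = 1 := by norm_num
    rw [h2, h1, one_mul]
    exact this
  · exact Helper85.IE.main p (p - 1) hp.le (h p hp) f

/-- the upper bound for `1 < p ≤ 2` -/
theorem up1 (h : ∀ p : ℝ, 2 < p → Helper85.IE.Hyp p (p - 1)) (h4 : StS4) (p : ℝ) (hp : 1 < p)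
    (hp2 : p ≤ 2) : TBd p (1 / (p - 1)) := by
  have h1 : 0 < p - 1 := by linarith
  have h0 : 0 < p := by linarith
  refine h4 p (p / (p - 1)) (1 / (p - 1)) hp hp2 ?_ (by positivity) ?_
  · field_simp
    ring
  · have h2 : 2 ≤ p / (p - 1) := by
      rw [le_div_iff₀ h1]
      linarith
    have h3 : 1 / (p - 1) = p / (p - 1) - 1 := by
      field_simp
      ring
    rw [h3]
    exact up2 h _ h2

/-- the norm of the transform on `L^p` is `max (p-1) (1/(p-1))` -/
theorem least (h : ∀ p : ℝ, 2 < p → Helper85.IE.Hyp p (p - 1)) (h3 : StS3) (h4 : StS4) (p : ℝ)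
    (hp : 1 < p) : IsLeast {C : ℝ | TBd p C} (max (p - 1) (1 / (p - 1))) := by
  have h1 : 0 < p - 1 := by linarith
  refine ⟨?_, fun C hC => h3 p hp C hC⟩
  rcases le_total 2 p with h2 | h2
  · have e : max (p - 1) (1 / (p - 1)) = p - 1 := by
      refine max_eq_left ?_
      rw [div_le_iff₀ h1]
      nlinarith
    rw [e]
    exact up2 h p h2
  · have e : max (p - 1) (1 / (p - 1)) = 1 / (p - 1) := by
      refine max_eq_right ?_
      rw [le_div_iff₀ h1]
      nlinarith
    rw [e]
    exact up1 h h4 p hp h2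

end Helper87.NF
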