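import Pool.Agent.Helper87.NF.M_S1
import Pool.Agent.Helper87.NF.M_S2a
import Pool.Agent.Helper87.NF.M_S2b
import Pool.Agent.Helper87.NF.M_S3
import Pool.Agent.Helper87.NF.M_S4a
import Pool.Agent.Helper87.NF.M_S4
import Pool.Agent.Helper87.NF.Top
import Pool.Agent.Helper87.NF.AsmB

/-!
# The norm of the Beurling-Ahlfors transform (helper87, MP_3dd6d4_an, n = 1)
-/

set_option autoImplicit false
set_option maxSynthPendingDepth 3

namespace Helper87.NF

theorem hS3 : StS3 := M_S3.main M_S1.main M_S2a.main M_S2b.main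
theorem hS4 : StS4 := M_S4.main M_S4a.main

/-- the norm of the Beurling-Ahlfors transform on `L^p` is `max (p-1) (1/(p-1))` -/
theorem norm_T (p : ℝ) (hp : 1 < p) : IsLeast {C : ℝ | TBd p C} (max (p - 1) (1 / (p - 1))) :=
  least hHyp hS3 hS4 p hp

end Helper87.NF
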