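import Pool.Agent.Helper87.NF.M_CH1

/-!
# CH, lower region
-/

set_option autoImplicit false
set_option maxSynthPendingDepth 3

open MeasureTheory Complex Filter Topology
open scoped ENNReal NNReal ComplexConjugate

noncomputable section

namespace Helper87.NF.M_CH

open Helper85.IW Helper87.NF

/-- lower region, `σ ≤ r + s`, away from the layer -/
theorem loA (hHA1 : StHA1) {K ε d1 K1 a b c g B : ℝ} (hε : 0 < ε) (hε1 : ε ≤ 1)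
    (hd : 0 < d1) (hK : 0 < K) (hK1 : K1 = 2 * K + 1) (hd1K : d1 * (2000 * K1 ^ 2) = ε ^ 2)
    (ha0 : 0 ≤ a) (hb0 : 0 ≤ b) (hc0 : 0 ≤ c) (hg0 : 0 ≤ g) (haK : a ≤ K) (hbK : b ≤ 2 * K)
    (hcK : c ≤ K) (hgK : g ≤ K) (x ξ ψ : ℝ) :
    ε * d1 / 16 * (x ^ 2 + ξ ^ 2 + ψ ^ 2) ≤ FP (2 - (d1 + 0)) (B + 2 * g + c + 2 * ε) (2 * g - c)
      (-B + 2 * g + c) (B + a + 2 * ε) (-B + b) (-a - 2 * c - 2 * ε + 0)
      (2 * c - a + 0 / 2 * (a - 2 * c) + 0) (b - 2 * c) (b + 2 * c + 2 * ε) x ξ ψ ∧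
    ε * d1 / 16 * (x ^ 2 + ξ ^ 2 + ψ ^ 2) ≤ FM (2 - (d1 + 0)) (B + 2 * g + c + 2 * ε) (2 * g - c)
      (-B + 2 * g + c) (B + a + 2 * ε) (-B + b) (-a - 2 * c - 2 * ε + 0)
      (2 * c - a + 0 / 2 * (a - 2 * c) + 0) (b - 2 * c) (b + 2 * c + 2 * ε) x ξ ψ := by
  have h1 : 0 ≤ d1 * K1 ^ 2 := by positivity
  have := hHA1 ε d1 a b c g B K1 hε hε1 hd (by linarith) ha0 hb0 hc0 hg0 (by linarith)
    (by linarith) (by linarith) (by linarith) (by linarith) x ξ ψ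
  have e1 : (2 : ℝ) - (d1 + 0) = 2 - d1 := by ring
  have e2 : -a - 2 * c - 2 * ε + 0 = -a - 2 * c - 2 * ε := by ring
  have e3 : 2 * c - a + 0 / 2 * (a - 2 * c) + 0 = 2 * c - a := by ring
  rw [e1, e2, e3]
  exact this

/-- lower region, `σ ≤ r + s`, in the layer -/
theorem loA2 (hHA2 : StHA2) {K ε d1 K1 e w a b c g n1 n2 B : ℝ} (hε : 0 < ε) (hε1 : ε ≤ 1)
    (hd : 0 < d1) (hK : 0 < K) (hK1 : K1 = 2 * K + 1) (hd1K : d1 * (2000 * K1 ^ 2) = ε ^ 2)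
    (he : e = ε * d1 / 1000) (w0 : 0 ≤ w) (w1 : w ≤ 2 - d1)
    (ha0 : 0 ≤ a) (hb0 : 0 ≤ b) (hc0 : 0 ≤ c) (hg0 : 0 ≤ g) (haK : a ≤ K) (hbK : b ≤ 2 * K)
    (hcK : c ≤ K) (hgK : g ≤ K) (z1 : |b - 2 * c| ≤ e) (z2 : |4 * g - 2 * c| ≤ e)
    (hn1 : |n1| ≤ e) (hn2 : |n2| ≤ e) (x ξ ψ : ℝ) :
    ε * d1 / 16 * (x ^ 2 + ξ ^ 2 + ψ ^ 2) ≤ FP (2 - (d1 + w)) (B + 2 * g + c + 2 * ε) (2 * g - c)
      (-B + 2 * g + c) (B + a + 2 * ε) (-B + b) (-a - 2 * c - 2 * ε + n2)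
      (2 * c - a + w / 2 * (a - 2 * c) + n1) (b - 2 * c) (b + 2 * c + 2 * ε) x ξ ψ ∧
    ε * d1 / 16 * (x ^ 2 + ξ ^ 2 + ψ ^ 2) ≤ FM (2 - (d1 + w)) (B + 2 * g + c + 2 * ε) (2 * g - c)
      (-B + 2 * g + c) (B + a + 2 * ε) (-B + b) (-a - 2 * c - 2 * ε + n2)
      (2 * c - a + w / 2 * (a - 2 * c) + n1) (b - 2 * c) (b + 2 * c + 2 * ε) x ξ ψ := by
  have h1 : 0 ≤ d1 * K1 ^ 2 := by positivity
  have h6 : 0 < ε * d1 := mul_pos hε hd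
  have := hHA2 ε d1 (d1 + w) e a b c g n1 n2 B K1 hε hε1 hd (by linarith) (by linarith)
    (by linarith) ha0 hb0 hc0 hg0 (by linarith) (by linarith) (by linarith) (by linarith)
    (by linarith) (by linarith) (by linarith) z1 z2 hn1 hn2 x ξ ψ
  have e1 : (d1 + w - d1) = w := by ring
  rw [e1] at this
  exact this

end Helper87.NF.M_CH
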