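import Pool.Agent.Helper87.NF.M_CH1

/-!
# CH, lower region near zero
-/

set_option autoImplicit false
set_option maxSynthPendingDepth 3

open MeasureTheory Complex Filter Topology
open scoped ENNReal NNReal ComplexConjugate

noncomputable section

namespace Helper87.NF.M_CH

open Helper85.IW Helper87.NF

/-- lower region, `r + s < σ` -/
theorem loB (hZA : StZA) {ε d1 e w a b c g n1 n2 B ν r s π α : ℝ} (hε : 0 < ε) (hd : 0 < d1)
    (he : e = ε * d1 / 1000) (w0 : 0 ≤ w) (w1 : w ≤ 2 - d1) (hs : 0 < s) (hlt : s < r)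
    (hπ0 : 0 ≤ π) (hπ : π ≤ e / 40) (hα : α ≤ e / 40 * ((r - s) / 2))
    (hB0 : 0 ≤ B) (hB : B ≤ e / 40) (ha : a = 2 * α / r) (hg : g = r * π / (2 * (r + s)))
    (ha0 : 0 ≤ a) (hb0 : 0 ≤ b) (hbe : b ≤ e / 20) (hc0 : 0 ≤ c) (hc : c ≤ e / 40) (hg0 : 0 ≤ g)
    (hν0 : 0 ≤ ν) (hν : ν ≤ 2 - d1) (hn1 : |n1| ≤ e / 2) (hn2 : |n2| ≤ e / 2)
    (x ξ ψ : ℝ) :
    ε * d1 / 16 * (x ^ 2 + ξ ^ 2 + ψ ^ 2) ≤ FP ν (B + 2 * g + c + 2 * ε) (2 * g - c)
      (-B + 2 * g + c) (B + a + 2 * ε) (-B + b) (-a - 2 * c - 2 * ε + n2)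
      (2 * c - a + w / 2 * (a - 2 * c) + n1) (b - 2 * c) (b + 2 * c + 2 * ε) x ξ ψ ∧
    ε * d1 / 16 * (x ^ 2 + ξ ^ 2 + ψ ^ 2) ≤ FM ν (B + 2 * g + c + 2 * ε) (2 * g - c)
      (-B + 2 * g + c) (B + a + 2 * ε) (-B + b) (-a - 2 * c - 2 * ε + n2)
      (2 * c - a + w / 2 * (a - 2 * c) + n1) (b - 2 * c) (b + 2 * c + 2 * ε) x ξ ψ := by
  have h6 : 0 < ε * d1 := mul_pos hε hd
  have he0 : 0 < e := by rw [he]; positivity
  have hr : 0 < r := hs.trans hlt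
  have hae : a ≤ e / 40 := by
    rw [ha, div_le_iff₀ hr]
    have h7 : 0 < e * s := mul_pos he0 hs
    linarith
  have hge : g ≤ e / 40 := by
    rw [hg, div_le_iff₀ (by positivity)]
    have h5 : r * π ≤ r * (e / 40) := mul_le_mul_of_nonneg_left hπ hr.le
    have h7 : 0 < e * s := mul_pos he0 hs
    have h8 : 0 < e * r := mul_pos he0 hr
    linarith
  obtain ⟨p1, p2⟩ := abs_le.1 hn1
  obtain ⟨p3, p4⟩ := abs_le.1 hn2
  have hw2 : 0 ≤ 1 - w / 2 := by linarith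
  have hw3 : 1 - w / 2 ≤ 1 := by linarith
  clear hn1 hn2 ha hg hα hπ hπ0 hlt hr hs
  have hm12 : |2 * c - a + w / 2 * (a - 2 * c)| ≤ e / 10 := by
    have h7 : 2 * c - a + w / 2 * (a - 2 * c) = (1 - w / 2) * (2 * c - a) := by ring
    rw [h7, abs_mul, abs_of_nonneg hw2]
    have h8 : |2 * c - a| ≤ e / 10 := abs_le.2 ⟨by linarith, by linarith⟩
    have h9 : (1 - w / 2) * |2 * c - a| ≤ 1 * |2 * c - a| :=
      mul_le_mul_of_nonneg_right hw3 (abs_nonneg _)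
    linarith
  obtain ⟨p5, p6⟩ := abs_le.1 hm12
  have := hZA ε (2 - ν) d1 e (B + 2 * g + c) (2 * g - c) (-B + 2 * g + c)
    (B + a) (-B + b)
    (-a - 2 * c + n2) (2 * c - a + w / 2 * (a - 2 * c) + n1) (b - 2 * c) (b + 2 * c)
    hε hd (by linarith) (by linarith) he0.le
    (by linarith)
    (abs_le.2 ⟨by linarith, by linarith⟩) (abs_le.2 ⟨by linarith, by linarith⟩)
    (abs_le.2 ⟨by linarith, by linarith⟩) (abs_le.2 ⟨by linarith, by linarith⟩)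
    (abs_le.2 ⟨by linarith, by linarith⟩) (abs_le.2 ⟨by linarith, by linarith⟩)
    (abs_le.2 ⟨by linarith, by linarith⟩)
    (abs_le.2 ⟨by linarith, by linarith⟩) (abs_le.2 ⟨by linarith, by linarith⟩) x ξ ψ
  have e2 : 2 - (2 - ν) = ν := by ring
  have e3 : -a - 2 * c - 2 * ε + n2 = -a - 2 * c + n2 - 2 * ε := by ring
  rw [e2] at this
  rw [e3]
  exact ⟨(half_le h6).trans this.1, (half_le h6).trans this.2⟩

end Helper87.NF.M_CH
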