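import Pool.Agent.Helper87.NF.M_CH1
import Pool.Agent.Helper87.NF.M_CH2
import Pool.Agent.Helper87.NF.M_CH3

/-!
# CH: the H-type certificate
-/

set_option autoImplicit false
set_option maxSynthPendingDepth 3

open MeasureTheory Complex Filter Topology
open scoped ENNReal NNReal ComplexConjugate

noncomputable section

namespace Helper87.NF.M_CH

open Helper85.IW Helper87.NF

theorem main (hP5 : StP5) (hP6 : StP6) (hUA : StUA) (hHA1 : StHA1) (hHA2 : StHA2) (hZA : StZA)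
    (hW1 : StW1) (hW2 : StW2) (hUH1 : StUH1) (hUH2 : StUH2) (hEH : StEH) (hDU : StDU) (hDH : StDH) :
    StCH := by
  intro P P' q κ K W ε hε hε1
  have hK := W.K0
  have hq := W.q0
  obtain ⟨K', hK'1, hK'2⟩ := hUH2 P P' q κ K W ε hε
  obtain ⟨hU1, hU2, hU3, hU4⟩ := hUH1 P P' q κ K W ε
  obtain ⟨hb1, hb2, hb3, hb4⟩ := hW2 P P' q κ K W
  have hw1 := hW1 P P' q κ K W
  -- constants
  obtain ⟨K1, d1, e, τ, hK1, hK1pos, hd1pos, hd1K, hd1K1, hd1s, he, hepos, hes, hτpos, hτh, hτ1,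
    hτ2, hτ3⟩ := consts hK hq hε hε1
  have hd2 : d1 < 2 := by linarith only [hd1s]
  have hd2' : d1 ≤ 2 := hd2.le
  have hτ1' : τ < 1 := by linarith only [hτh]
  have hτe : 16 * (q + 1) * K * τ ≤ e := by linarith only [hτ1, hepos]
  have hτe2 : 4 * K * τ ≤ e := by linarith only [hτ2, hepos]
  have hdK : d1 * (2 * K + 1) ≤ ε / 2000 := by rw [hK1] at hd1K1; exact hd1K1
  obtain ⟨σ, hσ, hσb⟩ := hb4 (e / 40) (by positivity)
  obtain ⟨hμu, hμb, hμ2⟩ := hP5 d1 τ τ σ hd1pos hd2 hτpos hτpos hσ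
  obtain ⟨hE1, hE2⟩ := hEH P P' q κ K W ε d1 τ hε hd1pos (by linarith only [hd1s]) hτpos hτ1'
  have key : ∀ r s : ℝ, 0 < r → 0 < s → r ≠ s → r ≠ τ * s → s ≠ τ * r →
      ∃ urr urs uss Mr Ms Nr Ns : ℝ,
      HasFDerivAt (p1H P ε) (lin2 urr urs) (r, s) ∧ HasFDerivAt (p2H P) (lin2 urs uss) (r, s) ∧
      HasFDerivAt (MH P ε d1 τ) (lin2 Mr Ms) (r, s) ∧
      HasFDerivAt (NH P ε d1 τ) (lin2 Nr Ns) (r, s) ∧
      ∀ x ξ ψ : ℝ,
        ε * d1 / 16 * (x ^ 2 + ξ ^ 2 + ψ ^ 2) ≤ FP (nuf d1 τ τ σ (r, s)) urr urs uss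
          (p1H P ε (r, s) / r) (p2H P (r, s) / s)
          (Mr / r) (Ms / r) (Nr / s) (Ns / s) x ξ ψ ∧
        ε * d1 / 16 * (x ^ 2 + ξ ^ 2 + ψ ^ 2) ≤ FM (nuf d1 τ τ σ (r, s)) urr urs uss
          (p1H P ε (r, s) / r) (p2H P (r, s) / s)
          (Mr / r) (Ms / r) (Nr / s) (Ns / s) x ξ ψ := by
    intro r s hr hs hrs h1 h2
    rcases lt_or_gt_of_ne hrs with hlt | hgt
    · -- upper region
      obtain ⟨n1, n2, hD⟩ := hDU P P' q κ K W ε d1 τ r s hτpos hτ1' hr hlt h1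
      dsimp only at hD
      obtain ⟨k1, k2, k3, k4, k5⟩ := hD
      obtain ⟨k11, k12⟩ := k1 (p1H P ε) (by simp)
      obtain ⟨k21, k22⟩ := k2 (p2H P) (by simp)
      have k31 := k3 (MH P ε d1 τ) (by simp)
      have k41 := k4 (NH P ε d1 τ) (by simp)
      obtain ⟨k51, k52⟩ := k5 hd1pos.le hd2'
      refine ⟨_, _, _, _, _, _, _, k11, k21, k31, k41, ?_⟩
      intro x ξ ψ
      rw [k12, k22, mul_div_cancel_left₀ _ hr.ne', mul_div_cancel_left₀ _ hs.ne',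
        mul_div_cancel_left₀ _ hs.ne', zero_div]
      have hL : 0 ≤ (r + s) / 2 := by linarith only [hr, hs]
      obtain ⟨w0, w1⟩ := w_bd (d1 := d1) hd1pos.le hd2' hτpos hr hs
      have hπ0 : 0 ≤ P ((r + s) / 2) := (hb1 _).2.2.2.2.1
      have hπK : P ((r + s) / 2) ≤ K := W.bd _
      have hα0 : 0 ≤ Aw P ((r + s) / 2) := (hb1 _).1
      by_cases hσL : σ ≤ r + s
      · rw [nuf_up hτpos hτ1' hσ hr hlt hσL]
        have hα := (hb2 ((r + s) / 2) hL).1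
        obtain ⟨u1, u2, -, -, -⟩ := up_num (τ := τ) hK hτpos hr hlt hπ0 hπK hα0 hα
        obtain ⟨u3, u4⟩ := up_gw hK hτpos hr hlt hπ0 hπK hα0 hα hε hd1pos hdK he hd1s hτ3 rfl w1
        exact upA hUA hε hd1pos he w0 w1 u1 u2 u3 u4 (k51.trans hτe2) (k52.trans hτe2) x ξ ψ
      · obtain ⟨m1, m2⟩ := hμ2 r s hr hs
        obtain ⟨c1, c2, c3⟩ := hσb ((r + s) / 2) (by linarith only [not_le.1 hσL, hL, hσ])
        rw [max_eq_left hL] at c3
        exact upB hZA hε hd1pos he w0 w1 hr hlt hπ0 c1 hα0 c3 (hb1 _).2.1 c2 rfl rfl m1 m2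
          (k51.trans hτ2) (k52.trans hτ2) x ξ ψ
    · -- lower region
      obtain ⟨n1, n2, hD⟩ := hDH P P' q κ K W ε d1 τ r s hτpos hτh hs hgt h2
      dsimp only at hD
      obtain ⟨k11, k12, k21, k22, k31, k41, ha0, hb0, hc0, hg0, haK, hbK, hcK, hgK, k5, k6, k7⟩ :=
        hD
      obtain ⟨k51, k52⟩ := k5 hd1pos.le hd2'
      refine ⟨_, _, _, _, _, _, _, k11, k21, k31, k41, ?_⟩
      intro x ξ ψ
      rw [k12, k22, mul_div_cancel_left₀ _ hr.ne', mul_div_cancel_left₀ _ hr.ne',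
        mul_div_cancel_left₀ _ hs.ne', mul_div_cancel_left₀ _ hs.ne']
      obtain ⟨w0, w1⟩ := w_bd (d1 := d1) hd1pos.le hd2' hτpos hs hr
      by_cases hσL : σ ≤ r + s
      · rw [nuf_lo hτpos hτ1' hσ hs hgt hσL]
        by_cases hcase : τ * r ≤ s
        · obtain ⟨z1, z2⟩ := k6 hcase
          have hwz : (2 - d1) * (max (τ * r - s) 0 / (τ * r)) = 0 := by
            rw [max_eq_right (by linarith only [hcase])]; simp
          rw [hwz, z1, z2]
          exact loA hHA1 hε hε1 hd1pos hK hK1 hd1K ha0 hb0 hc0 hg0 haK hbK hcK hgK x ξ ψ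
        · obtain ⟨z1, z2⟩ := k7 (not_le.1 hcase)
          exact loA2 hHA2 hε hε1 hd1pos hK hK1 hd1K he w0 w1 ha0 hb0 hc0 hg0 haK hbK hcK hgK
            (z1.trans hτe) (z2.trans hτe) (k51.trans hτe) (k52.trans hτe) x ξ ψ
      · obtain ⟨m1, m2⟩ := hμ2 r s hr hs
        have hσL' := not_le.1 hσL
        obtain ⟨c1, c2, c3⟩ := hσb ((r + s) / 2) (by linarith only [hσL', hr, hs])
        obtain ⟨c4, c5, c6⟩ := hσb ((r - s) / 2) (by linarith only [hσL', hr, hs])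
        rw [max_eq_left (by linarith only [hgt])] at c6
        have hbe : 2 * (Aw P ((r + s) / 2) - Aw P ((r - s) / 2)) / s ≤ e / 20 := by
          obtain ⟨y, hy, hy2⟩ := exists_hasDerivAt_eq_slope (Aw P) P
            (show (r - s) / 2 < (r + s) / 2 by linarith only [hs])
            (fun y _ => (hw1.1 y).continuousAt.continuousWithinAt) (fun y _ => hw1.1 y)
          have h5 : (r + s) / 2 - (r - s) / 2 = s := by ring
          rw [h5] at hy2
          have h6 : 2 * (Aw P ((r + s) / 2) - Aw P ((r - s) / 2)) / s = 2 * P y := by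
            rw [hy2]
            ring
          obtain ⟨c7, -, -⟩ := hσb y (by linarith only [hy.2, hσL', hr, hs])
          rw [h6]
          linarith only [c7]
        exact loB hZA hε hd1pos he w0 w1 hs hgt (hb1 _).2.2.2.2.1 c1 c6 (hb1 _).2.1 c2 rfl rfl ha0
          hb0 hbe hc0 c4 hg0 m1 m2 (k51.trans hτ1) (k52.trans hτ1) x ξ ψ
  obtain ⟨K'', hA⟩ := hP6 (UH P ε) (p1H P ε) (p2H P) (MH P ε d1 τ) (NH P ε d1 τ)
    (nuf d1 τ τ σ) (1 - d1 / 2) τ K' (ε * d1 / 16) (by positivity) hτpos hU1 hU2 hK'1 hK'2 hU3 hU4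
    hE1 hE2 hμu hμb key
  exact ⟨_, _, _, _, _, by linarith only [hd2], by linarith only [hd1pos], by positivity, hA⟩

end Helper87.NF.M_CH
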