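import Pool.Agent.Helper87.NF.StD

/-! NF, module B7: mollification of admissible data. -/

set_option autoImplicit false
set_option maxSynthPendingDepth 3

open MeasureTheory Complex Filter Topology
open scoped ENNReal NNReal ComplexConjugate

noncomputable section

namespace Helper87.NF.M_B7

open Helper85.IW

instance haarE : (volume : Measure E).IsAddHaarMeasure :=
  inferInstanceAs ((volume : Measure ℂ).prod (volume : Measure ℂ)).IsAddHaarMeasure

theorem rho_nonneg (n : ℕ) (y : E) : 0 ≤ rho n y := (bmp n).nonneg_normed y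

theorem rho_cont (n : ℕ) : Continuous (rho n) := (bmp n).continuous_normed

theorem rho_int (n : ℕ) : Integrable (rho n) := (bmp n).integrable_normed

theorem rho_one (n : ℕ) : ∫ y, rho n y = 1 := (bmp n).integral_normed

theorem rho_supp' (n : ℕ) (y : E) (h : rho n y ≠ 0) : ‖y‖ < 1 / ((n : ℝ) + 1) := by
  have h1 : y ∈ Function.support ((bmp n).normed volume) := h
  rw [(bmp n).support_normed_eq, Metric.mem_ball, dist_zero_right] at h1
  exact h1

theorem rho_supp (n : ℕ) (y : E) (h : rho n y ≠ 0) : ‖y‖ < 1 := by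
  refine (rho_supp' n y h).trans_le ?_
  rw [div_le_one (by positivity)]
  linarith [Nat.cast_nonneg (α := ℝ) n]

theorem rho_bound {V : Type} [NormedAddCommGroup V] [NormedSpace ℝ V] {H : E → V}
    (hH : Continuous H) (z : E) : ∃ M : ℝ, 0 ≤ M ∧ ∀ n y, ∀ x ∈ Metric.closedBall z 1,
      ‖rho n y • H (x - y)‖ ≤ M * rho n y := by
  obtain ⟨M, hM⟩ := (isCompact_closedBall (0 : E) (‖z‖ + 2)).exists_bound_of_continuousOn
    (f := H) hH.continuousOn
  refine ⟨max M 0, le_max_right _ _, fun n y x hx => ?_⟩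
  rw [norm_smul, Real.norm_of_nonneg (rho_nonneg n y), mul_comm]
  by_cases h : rho n y = 0
  · rw [h]; simp
  · refine mul_le_mul_of_nonneg_right ((hM _ ?_).trans (le_max_left _ _)) (rho_nonneg n y)
    have h1 := rho_supp n y h
    rw [Metric.mem_closedBall, dist_eq_norm] at hx
    rw [Metric.mem_closedBall, dist_zero_right]
    calc ‖x - y‖ = ‖z + (x - z) - y‖ := by congr 1; abel
      _ ≤ ‖z + (x - z)‖ + ‖y‖ := norm_sub_le _ _
      _ ≤ ‖z‖ + ‖x - z‖ + ‖y‖ := by gcongr; exact norm_add_le _ _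
      _ ≤ ‖z‖ + 2 := by linarith

theorem mol_integrable {V : Type} [NormedAddCommGroup V] [NormedSpace ℝ V] {H : E → V}
    (hH : Continuous H) (n : ℕ) (z : E) : Integrable (fun y => rho n y • H (z - y)) := by
  obtain ⟨M, hM0, hM⟩ := rho_bound hH z
  refine ((rho_int n).const_mul M).mono' ?_ (Filter.Eventually.of_forall fun y =>
    hM n y z (Metric.mem_closedBall_self zero_le_one))
  exact ((rho_cont n).smul (hH.comp (by fun_prop : Continuous fun y : E => z - y))).aestronglyMeasurable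

theorem mol_deriv {U : E → ℝ} {G : E → (E →L[ℝ] ℝ)} (hU : ∀ z, HasFDerivAt U (G z) z)
    (hG : Continuous G) (n : ℕ) (z : E) : HasFDerivAt (mol n U) (mol n G z) z := by
  have cU : Continuous U := continuous_iff_continuousAt.2 fun z => (hU z).continuousAt
  obtain ⟨M, hM0, hM⟩ := rho_bound hG z
  refine hasFDerivAt_integral_of_dominated_of_fderiv_le (μ := volume) (s := Metric.closedBall z 1)
    (F := fun x y => rho n y • U (x - y)) (F' := fun x y => rho n y • G (x - y))
    (bound := fun y => M * rho n y)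
    (Metric.closedBall_mem_nhds z one_pos) (Filter.Eventually.of_forall fun x =>
      (mol_integrable cU n x).aestronglyMeasurable) (mol_integrable cU n z)
    (mol_integrable hG n z).aestronglyMeasurable
    (Filter.Eventually.of_forall fun y x hx => hM n y x hx)
    ((rho_int n).const_mul M) (Filter.Eventually.of_forall fun y x hx => ?_)
  have h1 : HasFDerivAt (fun x : E => x - y) (ContinuousLinearMap.id ℝ E) x :=
    (hasFDerivAt_id x).sub_const y
  have h2 : HasFDerivAt (fun x : E => U (x - y)) ((G (x - y)).comp (ContinuousLinearMap.id ℝ E)) x :=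
    (hU (x - y)).comp x h1
  rw [ContinuousLinearMap.comp_id] at h2
  exact h2.const_smul (rho n y)

theorem eval2 {φ : E → (E →L[ℝ] E →L[ℝ] ℝ)} (hφ : Integrable φ) (X Y : E) :
    Integrable (fun y => φ y X Y) ∧ (∫ y, φ y) X Y = ∫ y, φ y X Y := by
  have h1 : Integrable (fun y => φ y X) := hφ.apply_continuousLinearMap X
  refine ⟨h1.apply_continuousLinearMap Y, ?_⟩
  rw [ContinuousLinearMap.integral_apply hφ X, ContinuousLinearMap.integral_apply h1 Y]

/-- bound of the mollification -/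
theorem mol_bound {μ : E → ℂ} {c : ℝ} (hc : ∀ z, ‖μ z‖ ≤ c) (n : ℕ) (z : E) :
    ‖mol n μ z‖ ≤ c := by
  have h1 : ‖∫ y, rho n y • μ (z - y)‖ ≤ ∫ y, c * rho n y := by
    refine norm_integral_le_of_norm_le ((rho_int n).const_mul c)
      (Filter.Eventually.of_forall fun y => ?_)
    rw [norm_smul, Real.norm_of_nonneg (rho_nonneg n y), mul_comm]
    exact mul_le_mul_of_nonneg_right (hc _) (rho_nonneg n y)
  rw [integral_const_mul, rho_one, mul_one] at h1
  exact h1

/-- the mollification is Lipschitz -/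
theorem mol_lip {μ : E → ℂ} (cμ : Continuous μ) {c : ℝ} (hc : ∀ z, ‖μ z‖ ≤ c) (n : ℕ) :
    ∃ L : ℝ≥0, LipschitzWith L (mol n μ) := by
  have hc0 : 0 ≤ c := (norm_nonneg _).trans (hc 0)
  obtain ⟨L, hL⟩ := ContDiff.lipschitzWith_of_hasCompactSupport (𝕂 := ℝ) (n := 1)
    (f := rho n) (bmp n).hasCompactSupport_normed (bmp n).contDiff_normed one_ne_zero
  have hform : ∀ z, mol n μ z = ∫ y, rho n (z - y) • μ y := by
    intro z
    have h1 := integral_sub_left_eq_self (fun y : E => rho n (z - y) • μ y)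
      (volume : Measure E) z
    simp only [sub_sub_cancel] at h1
    exact h1
  set V : ℝ := (volume : Measure E).real (Metric.closedBall (0 : E) 1) with hV
  have hV0 : 0 ≤ V := measureReal_nonneg
  have hfin : ∀ z : E, (volume : Measure E) (Metric.closedBall z 1) ≠ ∞ := fun z =>
    (isCompact_closedBall z 1).measure_lt_top.ne
  have hVz : ∀ z : E, (volume : Measure E).real (Metric.closedBall z 1) = V := by
    intro z
    rw [hV, Measure.real, Measure.real, Measure.addHaar_closedBall_center]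
  have hint : ∀ z, Integrable (fun y => rho n (z - y) • μ y) := by
    intro z
    have h1 := (mol_integrable cμ n z).comp_sub_left z
    simpa using h1
  refine ⟨⟨c * L * (2 * V), by positivity⟩, ?_⟩
  refine LipschitzWith.of_dist_le_mul fun z z' => ?_
  rw [dist_eq_norm, hform z, hform z', ← integral_sub (hint z) (hint z')]
  have hI : ∀ z : E, Integrable (Set.indicator (Metric.closedBall z 1) fun _ => (1 : ℝ)) := fun z =>
    (integrable_indicator_iff Metric.isClosed_closedBall.measurableSet).2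
      (integrableOn_const (hfin z))
  have h2 : ‖∫ y, (rho n (z - y) • μ y - rho n (z' - y) • μ y)‖ ≤
      ∫ y, (c * L * dist z z') * (Set.indicator (Metric.closedBall z 1) (fun _ => (1 : ℝ)) y +
        Set.indicator (Metric.closedBall z' 1) (fun _ => (1 : ℝ)) y) := by
    refine norm_integral_le_of_norm_le (((hI z).add (hI z')).const_mul _)
      (Filter.Eventually.of_forall fun y => ?_)
    rw [← sub_smul, norm_smul]
    have hi : ∀ z : E, 0 ≤ Set.indicator (Metric.closedBall z 1) (fun _ => (1 : ℝ)) y := fun z =>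
      Set.indicator_nonneg (fun _ _ => zero_le_one) _
    by_cases h0 : rho n (z - y) = 0 ∧ rho n (z' - y) = 0
    · rw [h0.1, h0.2, sub_zero, norm_zero, zero_mul]
      have := hi z
      have := hi z'
      positivity
    · have h3 : 1 ≤ Set.indicator (Metric.closedBall z 1) (fun _ => (1 : ℝ)) y +
          Set.indicator (Metric.closedBall z' 1) (fun _ => (1 : ℝ)) y := by
        rw [not_and_or] at h0
        rcases h0 with h0 | h0
        · have h4 : y ∈ Metric.closedBall z 1 := by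
            rw [Metric.mem_closedBall, dist_comm, dist_eq_norm]
            exact (rho_supp n _ h0).le
          rw [Set.indicator_of_mem h4]
          linarith [hi z']
        · have h4 : y ∈ Metric.closedBall z' 1 := by
            rw [Metric.mem_closedBall, dist_comm, dist_eq_norm]
            exact (rho_supp n _ h0).le
          rw [Set.indicator_of_mem h4]
          linarith [hi z]
      have h5 : ‖rho n (z - y) - rho n (z' - y)‖ ≤ L * dist z z' := by
        rw [← dist_eq_norm]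
        refine (hL.dist_le_mul _ _).trans (le_of_eq ?_)
        rw [dist_sub_right]
      calc ‖rho n (z - y) - rho n (z' - y)‖ * ‖μ y‖ ≤ (L * dist z z') * c :=
            mul_le_mul h5 (hc y) (norm_nonneg _) (by positivity)
        _ = (c * L * dist z z') * 1 := by ring
        _ ≤ _ := mul_le_mul_of_nonneg_left h3 (by positivity)
  refine h2.trans (le_of_eq ?_)
  rw [integral_const_mul, integral_add (hI z) (hI z'),
    integral_indicator_const _ Metric.isClosed_closedBall.measurableSet,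
    integral_indicator_const _ Metric.isClosed_closedBall.measurableSet, hVz, hVz]
  show c * L * dist z z' * (V • (1 : ℝ) + V • (1 : ℝ)) = (c * L * (2 * V)) * dist z z'
  simp only [smul_eq_mul]
  ring

/-- oscillation -/
theorem mol_osc {μ : E → ℂ} (cμ : Continuous μ) (n : ℕ) (z y : E) {ε : ℝ}
    (h : ∀ a b : E, dist a b ≤ 2 / ((n : ℝ) + 1) → ‖μ a - μ b‖ ≤ ε) (hy : rho n y ≠ 0) :
    ‖mol n μ z - μ (z - y)‖ ≤ ε := by
  have h1 : mol n μ z - μ (z - y) = ∫ t, rho n t • (μ (z - t) - μ (z - y)) := by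
    have h2 : ∫ t, rho n t • μ (z - y) = μ (z - y) := by
      rw [integral_smul_const, rho_one, one_smul]
    have h3 : Integrable (fun t => rho n t • μ (z - y)) := (rho_int n).smul_const _
    simp only [smul_sub]
    rw [integral_sub (mol_integrable cμ n z) h3, h2]
    rfl
  rw [h1]
  have h4 : ‖∫ t, rho n t • (μ (z - t) - μ (z - y))‖ ≤ ∫ t, ε * rho n t := by
    refine norm_integral_le_of_norm_le ((rho_int n).const_mul ε)
      (Filter.Eventually.of_forall fun t => ?_)
    rw [norm_smul, Real.norm_of_nonneg (rho_nonneg n t), mul_comm]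
    by_cases ht : rho n t = 0
    · rw [ht]; simp
    · refine mul_le_mul_of_nonneg_right (h _ _ ?_) (rho_nonneg n t)
      have h5 := rho_supp' n t ht
      have h6 := rho_supp' n y hy
      rw [dist_eq_norm]
      calc ‖z - t - (z - y)‖ = ‖y - t‖ := by congr 1; abel
        _ ≤ ‖y‖ + ‖t‖ := norm_sub_le _ _
        _ ≤ 2 / ((n : ℝ) + 1) := by
          have : (2 : ℝ) / ((n : ℝ) + 1) = 1 / ((n : ℝ) + 1) + 1 / ((n : ℝ) + 1) := by ring
          rw [this]
          linarith
  rw [integral_const_mul, rho_one, mul_one] at h4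
  exact h4

theorem norm_lx (w : ℂ) : ‖lx w‖ = ‖w‖ / 2 := by
  unfold lx
  rw [Prod.norm_mk, norm_div, max_self]
  norm_num

theorem norm_ly (w : ℂ) : ‖ly w‖ = ‖w‖ / 2 := by
  unfold ly
  rw [Prod.norm_mk, norm_neg, max_self, norm_div, norm_mul, norm_I, one_mul]
  norm_num

theorem lx_sub (w w' : ℂ) : lx w - lx w' = lx (w - w') := by
  unfold lx
  rw [Prod.mk_sub_mk]
  congr 1 <;> ring

theorem ly_sub (w w' : ℂ) : ly w - ly w' = ly (w - w') := by
  unfold ly
  rw [Prod.mk_sub_mk]
  congr 1 <;> ring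

/-- change of `μ` in the quadratic form -/
theorem PQ_change {m m' : ℂ} {A B : E →L[ℝ] E →L[ℝ] ℝ} {K ε : ℝ} (hA : ‖A‖ ≤ K)
    (hm : ‖m - m'‖ ≤ ε) (X Y : E) :
    PQ m' A B X Y - K * ε * (‖X‖ ^ 2 + ‖Y‖ ^ 2) ≤ PQ m A B X Y := by
  have hK : 0 ≤ K := (norm_nonneg _).trans hA
  have hε : 0 ≤ ε := (norm_nonneg _).trans hm
  have hX1 : ‖X.1‖ ≤ ‖X‖ := norm_fst_le X
  have hX2 : ‖X.2‖ ≤ ‖X‖ := norm_snd_le X
  have hY1 : ‖Y.1‖ ≤ ‖Y‖ := norm_fst_le Y
  have hY2 : ‖Y.2‖ ≤ ‖Y‖ := norm_snd_le Y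
  have hja : ‖ja X Y‖ ≤ (‖X‖ + ‖Y‖) / 2 := by
    unfold ja
    rw [norm_div]
    have h1 : ‖X.1 + I * Y.1‖ ≤ ‖X.1‖ + ‖Y.1‖ := by
      refine (norm_add_le _ _).trans ?_
      rw [norm_mul, norm_I, one_mul]
    have h2 : ‖(2 : ℂ)‖ = 2 := by norm_num
    rw [h2]
    linarith
  have hjb : ‖jb X Y‖ ≤ (‖X‖ + ‖Y‖) / 2 := by
    unfold jb
    rw [norm_div]
    have h1 : ‖X.2 - I * Y.2‖ ≤ ‖X.2‖ + ‖Y.2‖ := by
      refine (norm_sub_le _ _).trans ?_
      rw [norm_mul, norm_I, one_mul]
    have h2 : ‖(2 : ℂ)‖ = 2 := by norm_num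
    rw [h2]
    linarith
  have hD : ‖Lop m X Y - Lop m' X Y‖ ≤ ε * (‖X‖ + ‖Y‖) := by
    have h1 : Lop m X Y - Lop m' X Y = conj (m - m') * ja X Y + (m - m') * jb X Y := by
      unfold Lop
      rw [map_sub]
      ring
    rw [h1]
    refine (norm_add_le _ _).trans ?_
    rw [norm_mul, norm_mul, RCLike.norm_conj]
    have h2 : ‖m - m'‖ * ‖ja X Y‖ ≤ ε * ((‖X‖ + ‖Y‖) / 2) :=
      mul_le_mul hm hja (norm_nonneg _) hε
    have h3 : ‖m - m'‖ * ‖jb X Y‖ ≤ ε * ((‖X‖ + ‖Y‖) / 2) :=
      mul_le_mul hm hjb (norm_nonneg _) hε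
    linarith
  set D := Lop m X Y - Lop m' X Y with hDdef
  have e1 : |A X (lx D)| ≤ K * ‖X‖ * (ε * (‖X‖ + ‖Y‖) / 2) := by
    rw [← Real.norm_eq_abs]
    refine ((A X).le_opNorm _).trans ?_
    rw [norm_lx]
    refine mul_le_mul ?_ (by linarith) (by positivity) (by positivity)
    exact (A.le_opNorm X).trans (mul_le_mul_of_nonneg_right hA (norm_nonneg _))
  have e2 : |A Y (ly D)| ≤ K * ‖Y‖ * (ε * (‖X‖ + ‖Y‖) / 2) := by
    rw [← Real.norm_eq_abs]
    refine ((A Y).le_opNorm _).trans ?_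
    rw [norm_ly]
    refine mul_le_mul ?_ (by linarith) (by positivity) (by positivity)
    exact (A.le_opNorm Y).trans (mul_le_mul_of_nonneg_right hA (norm_nonneg _))
  have e3 : PQ m A B X Y = PQ m' A B X Y + A X (lx D) + A Y (ly D) := by
    unfold PQ
    rw [hDdef, ← lx_sub, ← ly_sub, map_sub, map_sub]
    ring
  rw [e3]
  have e4 := neg_abs_le (A X (lx D))
  have e5 := neg_abs_le (A Y (ly D))
  have e6 : K * ‖X‖ * (ε * (‖X‖ + ‖Y‖) / 2) + K * ‖Y‖ * (ε * (‖X‖ + ‖Y‖) / 2) ≤
      K * ε * (‖X‖ ^ 2 + ‖Y‖ ^ 2) := by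
    have h7 : K * ‖X‖ * (ε * (‖X‖ + ‖Y‖) / 2) + K * ‖Y‖ * (ε * (‖X‖ + ‖Y‖) / 2) =
        K * ε * ((‖X‖ + ‖Y‖) ^ 2 / 2) := by ring
    rw [h7]
    refine mul_le_mul_of_nonneg_left ?_ (by positivity)
    nlinarith [sq_nonneg (‖X‖ - ‖Y‖)]
  linarith

theorem main (hC : StC1a) : StB7 := by
  intro U G η μ θ K e₀ he₀ hA
  have cU : Continuous U := continuous_iff_continuousAt.2 fun z => (hA.der z).continuousAt
  have cG : Continuous G := hA.lipG.continuous
  have cμ : Continuous μ := hA.uμ.continuous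
  have aG : ∀ᵐ z : E, DifferentiableAt ℝ G z := hA.pi.mono fun z h => h.1
  have aη : ∀ᵐ z : E, DifferentiableAt ℝ η z := hA.pi.mono fun z h => h.2.1
  have HG := hC G (fun R => ⟨K, hA.lipG.lipschitzOnWith⟩) hA.oddG aG
  have Hη := hC η hA.lipη hA.oddη aη
  have dUs : ∀ n z, HasFDerivAt (fun z => mol n U z - mol n U 0) (mol n G z) z := fun n z =>
    (mol_deriv hA.der cG n z).sub_const _
  have lipGs : ∀ n, LipschitzWith K (mol n G) := by
    intro n
    intro z w
    have h1 := (HG n).2.2.2 (max ‖z‖ ‖w‖) K hA.lipG.lipschitzOnWith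
    exact h1 (by simp) (by simp)
  have hbd : ∀ n z, |mol n U z - mol n U 0| ≤ K * ‖z‖ ^ 2 := by
    intro n z
    have h4 : ∀ w ∈ Metric.closedBall (0 : E) ‖z‖, ‖mol n G w‖ ≤ K * ‖z‖ := by
      intro w hw
      rw [Metric.mem_closedBall, dist_zero_right] at hw
      have h3 := (lipGs n).norm_sub_le w 0
      rw [(HG n).2.1, sub_zero, sub_zero] at h3
      exact h3.trans (mul_le_mul_of_nonneg_left hw K.2)
    have h5 := (convex_closedBall (0 : E) ‖z‖).norm_image_sub_le_of_norm_hasFDerivWithin_le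
      (f := fun z => mol n U z - mol n U 0) (f' := mol n G)
      (fun w _ => (dUs n w).hasFDerivWithinAt) h4
      (x := 0) (y := z) (by simp) (by simp)
    simp only [sub_self, sub_zero, Real.norm_eq_abs] at h5
    calc |mol n U z - mol n U 0| ≤ K * ‖z‖ * ‖z‖ := h5
      _ = K * ‖z‖ ^ 2 := by ring
  refine ⟨fun n z => mol n U z - mol n U 0, fun n => mol n G, fun n => mol n η,
    fun n => mol n μ, ?_, fun z => ?_, hbd⟩
  · -- uniform continuity
    set ε : ℝ := e₀ / (K + 1) with hε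
    have hK1 : (0 : ℝ) < K + 1 := by positivity
    have hε0 : 0 < ε := div_pos he₀ hK1
    have hKε : K * ε ≤ e₀ := by
      have h1 : (K + 1) * ε = e₀ := by
        rw [hε]
        field_simp
      nlinarith
    obtain ⟨δ, hδ, hδ'⟩ := Metric.uniformContinuous_iff.1 hA.uμ ε hε0
    have hlim : Tendsto (fun n : ℕ => (2 : ℝ) / ((n : ℝ) + 1)) atTop (𝓝 0) := by
      have h1 := (tendsto_one_div_add_atTop_nhds_zero_nat (𝕜 := ℝ)).const_mul 2
      rw [mul_zero] at h1
      refine h1.congr fun n => ?_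
      ring
    filter_upwards [hlim.eventually_lt_const hδ] with n hn
    have hosc : ∀ a b : E, dist a b ≤ 2 / ((n : ℝ) + 1) → ‖μ a - μ b‖ ≤ ε := by
      intro a b hab
      rw [← dist_eq_norm]
      exact (hδ' (hab.trans_lt hn)).le
    refine ⟨dUs n, (HG n).1, (Hη n).1, by simp, (HG n).2.1, lipGs n, mol_lip cμ hA.bμ n,
      mol_bound hA.bμ n, fun z X Y hXY => ?_⟩
    obtain ⟨iG, eG⟩ := (HG n).2.2.1 z
    obtain ⟨iη, eη⟩ := (Hη n).2.2.1 z
    rw [eG, eη]
    set m := mol n μ z with hm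
    unfold PQ
    have j1 := integral_add (eval2 iG X (lx (Lop m X Y))).1 (eval2 iG Y (ly (Lop m X Y))).1
    have j2 := integral_add ((eval2 iG X (lx (Lop m X Y))).1.add
      (eval2 iG Y (ly (Lop m X Y))).1) (eval2 iη X Y).1
    have j3 := integral_sub (((eval2 iG X (lx (Lop m X Y))).1.add
      (eval2 iG Y (ly (Lop m X Y))).1).add (eval2 iη X Y).1) (eval2 iη Y X).1
    simp only [Pi.add_apply] at j2 j3
    rw [(eval2 iG X (lx (Lop m X Y))).2, (eval2 iG Y (ly (Lop m X Y))).2, (eval2 iη X Y).2,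
      (eval2 iη Y X).2, ← j1, ← j2, ← j3]
    refine integral_nonneg_of_ae ?_
    have hq : Filter.Tendsto (fun y : E => z - y) (ae volume) (ae volume) :=
      (Measure.measurePreserving_sub_left (volume : Measure E) z).quasiMeasurePreserving.tendsto_ae
    filter_upwards [hq.eventually hA.pi] with y hy
    simp only [Pi.zero_apply, _root_.smul_apply, smul_eq_mul]
    by_cases hy0 : rho n y = 0
    · rw [hy0]
      simp
    · have h1 := hy.2.2 X Y hXY
      have h2 := PQ_change (m := m) (m' := μ (z - y)) (A := fderiv ℝ G (z - y))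
        (B := fderiv ℝ η (z - y)) (norm_fderiv_le_of_lipschitz ℝ hA.lipG)
        (mol_osc cμ n z y hosc hy0) X Y
      have h3 : K * ε * (‖X‖ ^ 2 + ‖Y‖ ^ 2) ≤ e₀ * (‖X‖ ^ 2 + ‖Y‖ ^ 2) :=
        mul_le_mul_of_nonneg_right hKε (by positivity)
      have h4 : 0 ≤ PQ m (fderiv ℝ G (z - y)) (fderiv ℝ η (z - y)) X Y := by linarith
      have h5 := mul_nonneg (rho_nonneg n y) h4
      unfold PQ at h5
      linarith
  · have h1 : Tendsto (fun n => (bmp n).rOut) atTop (𝓝 0) := tendsto_one_div_add_atTop_nhds_zero_nat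
    have h2 : ∀ x, Tendsto (fun n => mol n U x) atTop (𝓝 (U x)) := fun x =>
      ContDiffBump.convolution_tendsto_right_of_continuous (μ := (volume : Measure E)) h1 cU x
    have h3 := (h2 z).sub (h2 0)
    rw [hA.U0, sub_zero] at h3
    exact h3

end Helper87.NF.M_B7
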