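import Pool.Agent.Helper87.NF.StD

/-!
# NF module B8: the flow theorem, limit of the mollified data
-/

set_option autoImplicit false
set_option maxSynthPendingDepth 3

open MeasureTheory Complex Filter Topology
open scoped ENNReal NNReal ComplexConjugate

noncomputable section

namespace Helper87.NF.M_B8

open Helper87.NF Helper85.IW

private theorem b8_cont {φ : ℂ → ℂ} (hφ : ContDiff ℝ 1 φ) :
    Continuous (fun z => ((dzb φ z, dz φ z) : E)) := by
  have hf : Continuous (fderiv ℝ φ) := hφ.continuous_fderiv (by norm_num)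
  have h1 : Continuous (fun z => fderiv ℝ φ z 1) := hf.clm_apply continuous_const
  have h2 : Continuous (fun z => fderiv ℝ φ z I) := hf.clm_apply continuous_const
  refine Continuous.prodMk ?_ ?_
  · unfold dzb
    fun_prop
  · unfold dz
    fun_prop

private theorem b8_supp {φ : ℂ → ℂ} (hc : HasCompactSupport φ) :
    HasCompactSupport (fun z => ((dzb φ z, dz φ z) : E)) := by
  have h1 : HasCompactSupport (fderiv ℝ φ) := hc.fderiv (𝕜 := ℝ)
  refine h1.mono' ?_
  intro z hz
  by_contra hcon
  apply hz
  have h0 : fderiv ℝ φ z = 0 := image_eq_zero_of_notMem_tsupport hcon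
  simp [dzb, dz, h0]

theorem main (hB6 : StB6) (hB7 : StB7) : StB8 := by
  intro U G η μ θ K e₀ hθ0 hθ1 he hA φ hφ hc
  obtain ⟨Us, Gs, ηs, μs, hS, hU, hb⟩ := hB7 U G η μ θ K e₀ he hA
  have hD := b8_cont hφ
  have hDc := b8_supp hc
  have hbd : Integrable (fun z => (K : ℝ) * ‖((dzb φ z, dz φ z) : E)‖ ^ 2) := by
    refine Continuous.integrable_of_hasCompactSupport (by fun_prop) ?_
    refine hDc.mono ?_
    intro z hz hcon
    apply hz
    have h0 : ((dzb φ z, dz φ z) : E) = 0 := hcon
    simp only [h0, norm_zero]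
    ring
  have hlim : Tendsto (fun n => ∫ z, Us n (dzb φ z, dz φ z)) atTop
      (𝓝 (∫ z, U (dzb φ z, dz φ z))) := by
    refine tendsto_integral_filter_of_dominated_convergence
      (fun z => (K : ℝ) * ‖((dzb φ z, dz φ z) : E)‖ ^ 2) ?_ ?_ hbd ?_
    · filter_upwards [hS] with n hn
      have hcU : Continuous (Us n) :=
        continuous_iff_continuousAt.mpr fun z => (hn.der z).continuousAt
      exact (hcU.comp hD).aestronglyMeasurable
    · refine Eventually.of_forall fun n => Eventually.of_forall fun z => ?_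
      rw [Real.norm_eq_abs]
      exact hb n _
    · exact Eventually.of_forall fun z => hU _
  refine ge_of_tendsto hlim ?_
  filter_upwards [hS] with n hn
  exact hB6 (Us n) (Gs n) (ηs n) (μs n) θ K hθ0 hθ1 hn φ hφ hc

end Helper87.NF.M_B8
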