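import Pool.Agent.Helper87.NF.StD

/-!
# Module D1: `ε → 0`
-/

set_option autoImplicit false
set_option maxSynthPendingDepth 3

open MeasureTheory Complex Filter Topology
open scoped ENNReal NNReal ComplexConjugate

noncomputable section

namespace Helper87.NF.M_D1

open Helper87.NF Helper85.IW Helper72.BA

/-- the limit for a family of functions with certificates -/
theorem aux (hB8 : StB8) (W : ℝ → ℝ × ℝ → ℝ) (hW : ∀ ε x, W ε x = W 0 x + ε * x.1 ^ 2)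
    (hC : ∀ ε : ℝ, 0 < ε → ε ≤ 1 → ∃ (G η : E → (E →L[ℝ] ℝ)) (μ : E → ℂ) (θ : ℝ) (K' : ℝ≥0)
      (e₀ : ℝ), 0 ≤ θ ∧ θ < 1 ∧ 0 < e₀ ∧ AdN (fun z => W ε (‖z.1‖, ‖z.2‖)) G η μ θ K' e₀)
    {φ : ℂ → ℂ} (hφ : ContDiff ℝ 1 φ) (hφc : HasCompactSupport φ) :
    0 ≤ ∫ z, W 0 (‖dzb φ z‖, ‖dz φ z‖) := by
  have hcF : Continuous (fderiv ℝ φ) := hφ.continuous_fderiv one_ne_zero
  have hsF : HasCompactSupport (fderiv ℝ φ) := hφc.fderiv (𝕜 := ℝ)
  set D : (ℂ →L[ℝ] ℂ) → E := fun A => ((1 / 2 : ℂ) * (A 1 + I * A I), (1 / 2 : ℂ) * (A 1 - I * A I))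
    with hD
  have hDc : Continuous D := by
    have h1 : Continuous fun A : ℂ →L[ℝ] ℂ => A 1 := by fun_prop
    have h2 : Continuous fun A : ℂ →L[ℝ] ℂ => A I := by fun_prop
    exact (continuous_const.mul (h1.add (continuous_const.mul h2))).prodMk
      (continuous_const.mul (h1.sub (continuous_const.mul h2)))
  have hD0 : D 0 = 0 := by simp [hD]
  have hDφ : ∀ z, D (fderiv ℝ φ z) = (dzb φ z, dz φ z) := fun z => rfl
  -- integrability of continuous functions of the jet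
  have hint : ∀ U : E → ℝ, Continuous U → U 0 = 0 →
      Integrable (fun z => U (dzb φ z, dz φ z)) := by
    intro U hU hU0
    have h1 : Continuous (fun z => U (dzb φ z, dz φ z)) := hU.comp (hDc.comp hcF)
    have h2 : HasCompactSupport (fun z => U (dzb φ z, dz φ z)) := by
      have := hsF.comp_left (g := fun A => U (D A)) (by show U (D 0) = 0; rw [hD0, hU0])
      exact this
    exact h1.integrable_of_hasCompactSupport h2
  have hsq : Integrable (fun z => ‖dzb φ z‖ ^ 2) :=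
    hint (fun z => ‖z.1‖ ^ 2) (by fun_prop) (by simp)
  obtain ⟨G, η, μ, θ, K', e₀, h0, h1, he, hA⟩ := hC 1 one_pos le_rfl
  have hWc : Continuous (fun z : E => W 1 (‖z.1‖, ‖z.2‖)) :=
    continuous_iff_continuousAt.2 fun z => (hA.der z).continuousAt
  have hW0i : Integrable (fun z => W 0 (‖dzb φ z‖, ‖dz φ z‖)) := by
    have h2 : (fun z => W 0 (‖dzb φ z‖, ‖dz φ z‖)) =
        fun z => W 1 (‖dzb φ z‖, ‖dz φ z‖) - ‖dzb φ z‖ ^ 2 := by
      funext z
      rw [hW 1]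
      simp
    rw [h2]
    exact (hint (fun z : E => W 1 (‖z.1‖, ‖z.2‖)) hWc hA.U0).sub hsq
  have key : ∀ ε : ℝ, 0 < ε → ε ≤ 1 →
      0 ≤ (∫ z, W 0 (‖dzb φ z‖, ‖dz φ z‖)) + ε * ∫ z, ‖dzb φ z‖ ^ 2 := by
    intro ε hε hε1
    obtain ⟨G, η, μ, θ, K', e₀, h0, h1, he, hA⟩ := hC ε hε hε1
    have h2 := hB8 _ G η μ θ K' e₀ h0 h1 he hA φ hφ hφc
    have h3 : (fun z => W ε (‖dzb φ z‖, ‖dz φ z‖)) =
        fun z => W 0 (‖dzb φ z‖, ‖dz φ z‖) + ε * ‖dzb φ z‖ ^ 2 := by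
      funext z
      rw [hW ε]
    have h4 : (0 : ℝ) ≤ ∫ z, W ε (‖dzb φ z‖, ‖dz φ z‖) := h2
    rw [h3, integral_add hW0i (hsq.const_mul ε), integral_const_mul] at h4
    exact h4
  by_contra hcon
  push Not at hcon
  set J := ∫ z, W 0 (‖dzb φ z‖, ‖dz φ z‖) with hJ
  set S := ∫ z, ‖dzb φ z‖ ^ 2 with hS
  have hS0 : 0 ≤ S := integral_nonneg fun z => by positivity
  set ε := min 1 (-J / (2 * (S + 1))) with hε
  have hεpos : 0 < ε := lt_min one_pos (div_pos (by linarith) (by positivity))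
  have h5 := key ε hεpos (min_le_left _ _)
  have h6 : ε ≤ -J / (2 * (S + 1)) := min_le_right _ _
  have h7 : ε * (2 * (S + 1)) ≤ -J := by
    rwa [le_div_iff₀ (by positivity)] at h6
  nlinarith

theorem main (hB8 : StB8) (hCV : StCV) (hCH : StCH) : StD1 := by
  intro P P' q κ K hWt φ hφ hφc
  refine ⟨fun hq => ?_, ?_⟩
  · refine aux hB8 (UV P) (fun ε x => ?_) (fun ε hε hε1 => ?_) hφ hφc
    · simp only [UV]
      ring
    · obtain ⟨η, μ, θ, K', e₀, h⟩ := hCV P P' q κ K hWt hq ε hε hε1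
      exact ⟨_, η, μ, θ, K', e₀, h⟩
  · refine aux hB8 (UH P) (fun ε x => ?_) (fun ε hε hε1 => ?_) hφ hφc
    · simp only [UH]
      ring
    · obtain ⟨η, μ, θ, K', e₀, h⟩ := hCH P P' q κ K hWt ε hε hε1
      exact ⟨_, η, μ, θ, K', e₀, h⟩

end Helper87.NF.M_D1
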