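import Pool.Agent.Helper87.NF.StD

/-!
# Module D2: the weights `PT`
-/

set_option autoImplicit false
set_option maxSynthPendingDepth 3

open MeasureTheory Complex Filter Topology
open scoped ENNReal NNReal ComplexConjugate

noncomputable section

namespace Helper87.NF.M_D2

open Helper87.NF Helper85.IW Helper72.BA

variable {q T x : ℝ}

theorem G_der (hT : 0 < T) (hx : 0 < x) :
    HasDerivAt (fun x : ℝ => (x / (x + T)) ^ q)
      (q * (x / (x + T)) ^ q * (T / (x * (x + T)))) x := by
  have hxT : 0 < x + T := by linarith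
  have h1 : HasDerivAt (fun x : ℝ => x / (x + T)) ((1 * (x + T) - x * 1) / (x + T) ^ 2) x :=
    (hasDerivAt_id x).div ((hasDerivAt_id x).add_const T) hxT.ne'
  have hb : 0 < x / (x + T) := div_pos hx hxT
  have h2 := h1.rpow_const (p := q) (Or.inl hb.ne')
  convert h2 using 1
  rw [Real.rpow_sub_one hb.ne']
  field_simp
  ring

theorem h_der (hT : 0 < T) (hx : 0 < x) :
    HasDerivAt (fun x : ℝ => (1 + x / T) ^ (-(1 / 10 : ℝ)))
      (-(1 / 10) * (1 + x / T) ^ (-(1 / 10 : ℝ)) / (x + T)) x := by
  have hxT : 0 < x + T := by linarith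
  have hb : 0 < 1 + x / T := by positivity
  have h1 : HasDerivAt (fun x : ℝ => 1 + x / T) (1 / T) x :=
    ((hasDerivAt_id x).div_const T).const_add 1
  have h2 := h1.rpow_const (p := -(1 / 10 : ℝ)) (Or.inl hb.ne')
  convert h2 using 1
  rw [Real.rpow_sub_one hb.ne']
  have h3 : 1 + x / T = (x + T) / T := by field_simp; ring
  rw [h3]
  field_simp

theorem PT_eq (hT : 0 < T) (hx : 0 < x) :
    PT q T x = T ^ q * ((x / (x + T)) ^ q * (1 + x / T) ^ (-(1 / 10 : ℝ))) := by
  have hxT : 0 < x + T := by linarith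
  have hb : 0 < 1 + x / T := by positivity
  rw [PT, if_neg (not_le.2 hx), neg_add, Real.rpow_add hb, Real.rpow_neg hb.le q, ← mul_assoc,
    ← mul_assoc, ← Real.mul_rpow hT.le (by positivity), ← div_eq_mul_inv,
    ← Real.div_rpow hx.le hb.le]
  congr 3
  field_simp
  ring

theorem G_le (hq : 0 < q) (hT : 0 < T) (hx : 0 ≤ x) : (x / (x + T)) ^ q ≤ 1 := by
  have hxT : 0 < x + T := by linarith
  exact Real.rpow_le_one (by positivity) ((div_le_one hxT).2 (by linarith)) hq.le

theorem h_le (hT : 0 < T) (hx : 0 ≤ x) : (1 + x / T) ^ (-(1 / 10 : ℝ)) ≤ 1 := by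
  have h : 0 ≤ x / T := by positivity
  exact Real.rpow_le_one_of_one_le_of_nonpos (by linarith) (by norm_num)

theorem PT_pos (hT : 0 < T) (hx : 0 < x) : 0 < PT q T x := by
  have hb : 0 < 1 + x / T := by positivity
  rw [PT, if_neg (not_le.2 hx)]
  positivity

theorem PT_le (hq : 0 < q) (hT : 0 < T) : PT q T x ≤ T ^ q := by
  rcases le_or_gt x 0 with h | h
  · rw [PT, if_pos h]; positivity
  · rw [PT_eq hT h]
    have h1 := G_le hq hT h.le
    have h2 := h_le hT h.le
    have h3 : 0 ≤ (x / (x + T)) ^ q := by positivity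
    have h4 : 0 ≤ (1 + x / T) ^ (-(1 / 10 : ℝ)) := by positivity
    have h5 : 0 < T ^ q := by positivity
    calc T ^ q * ((x / (x + T)) ^ q * (1 + x / T) ^ (-(1 / 10 : ℝ))) ≤ T ^ q * (1 * 1) := by
          gcongr
      _ = T ^ q := by ring

theorem PT_le' (hq : 0 < q) (hT : 0 < T) (hx : 0 < x) : PT q T x ≤ x ^ q := by
  have hb : 0 ≤ x / T := by positivity
  rw [PT, if_neg (not_le.2 hx)]
  have h1 : (1 + x / T) ^ (-(q + 1 / 10)) ≤ 1 :=
    Real.rpow_le_one_of_one_le_of_nonpos (by linarith) (by linarith)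
  have h2 : 0 ≤ x ^ q := by positivity
  nlinarith

theorem PT_cont (hq : 0 < q) (hT : 0 < T) : Continuous (PT q T) := by
  have h1 : PT q T = fun x => (max x 0) ^ q * (1 + max x 0 / T) ^ (-(q + 1 / 10)) := by
    funext x
    rcases le_or_gt x 0 with h | h
    · rw [PT, if_pos h, max_eq_right h, Real.zero_rpow hq.ne', zero_mul]
    · rw [PT, if_neg (not_le.2 h), max_eq_left h.le]
  rw [h1]
  have hm : Continuous fun x : ℝ => max x 0 := continuous_id.max continuous_const
  refine (hm.rpow_const fun x => Or.inr hq.le).mul ?_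
  refine (continuous_const.add (hm.div_const T)).rpow_const fun x => Or.inl ?_
  have : 0 ≤ max x 0 / T := div_nonneg (le_max_right _ _) hT.le
  exact (by linarith : (0 : ℝ) < 1 + max x 0 / T).ne'

theorem PT_der (hT : 0 < T) (hx : 0 < x) : HasDerivAt (PT q T) (PT' q T x) x := by
  have hxT : 0 < x + T := by linarith
  have h1 := ((G_der (q := q) hT hx).mul (h_der hT hx)).const_mul (T ^ q)
  have h2 : PT q T =ᶠ[𝓝 x] fun x => T ^ q *
      ((fun x : ℝ => (x / (x + T)) ^ q) x * (fun x : ℝ => (1 + x / T) ^ (-(1 / 10 : ℝ))) x) := by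
    filter_upwards [lt_mem_nhds hx] with y hy
    exact PT_eq hT hy
  have h3 := HasDerivAt.congr_of_eventuallyEq h1 h2
  have h4 : PT' q T x = T ^ q *
      (q * (x / (x + T)) ^ q * (T / (x * (x + T))) * (1 + x / T) ^ (-(1 / 10 : ℝ)) +
        (x / (x + T)) ^ q * (-(1 / 10) * (1 + x / T) ^ (-(1 / 10 : ℝ)) / (x + T))) := by
    rw [PT', PT_eq hT hx]
    set G := (x / (x + T)) ^ q
    set h := (1 + x / T) ^ (-(1 / 10 : ℝ))
    have hTx : T + x = x + T := by ring
    rw [hTx]
    field_simp
    ring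
  rw [h4]
  exact h3

theorem int (hq : 0 < q) (hT : 0 < T) {y : ℝ} (hy : 0 < y) :
    IntervalIntegrable (fun x => PT q T x / x) volume 0 y := by
  have h1 : IntervalIntegrable (fun x : ℝ => x ^ (q - 1)) volume 0 y :=
    intervalIntegral.intervalIntegrable_rpow' (by linarith)
  refine h1.mono_fun ?_ ?_
  · exact ((PT_cont hq hT).measurable.div measurable_id).aestronglyMeasurable
  · rw [Filter.EventuallyLE, ae_restrict_iff' measurableSet_uIoc]
    refine Filter.Eventually.of_forall fun x hx => ?_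
    rw [Set.uIoc_of_le hy.le] at hx
    have hx0 : 0 < x := hx.1
    have h2 := PT_pos (q := q) hT hx0
    rw [Real.norm_of_nonneg (by positivity), Real.norm_of_nonneg (by positivity),
      Real.rpow_sub_one hx0.ne']
    exact div_le_div_of_nonneg_right (PT_le' hq hT hx0) hx0.le

theorem bi (hq : 0 < q) (hT : 0 < T) {y : ℝ} (hy : 0 < y) :
    ∫ x in (0 : ℝ)..y, PT q T x / x ≤ T ^ q * (1 / q + 10) := by
  set F : ℝ → ℝ := fun x => T ^ q * ((x / (x + T)) ^ q / q
    - 10 * (1 + x / T) ^ (-(1 / 10 : ℝ))) with hF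
  have hcont : ContinuousOn F (Set.Icc 0 y) := by
    have h1 : ContinuousOn (fun x : ℝ => (x / (x + T)) ^ q) (Set.Icc 0 y) := by
      refine ContinuousOn.rpow_const ?_ fun x _ => Or.inr hq.le
      refine continuousOn_id.div (continuousOn_id.add continuousOn_const) fun x hx => ?_
      have := hx.1
      exact (by simp only [id]; linarith : (0 : ℝ) < id x + T).ne'
    have h2 : ContinuousOn (fun x : ℝ => (1 + x / T) ^ (-(1 / 10 : ℝ))) (Set.Icc 0 y) := by
      refine ContinuousOn.rpow_const (continuousOn_const.add (continuousOn_id.div_const T))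
        fun x hx => Or.inl ?_
      have h3 : 0 ≤ x / T := div_nonneg hx.1 hT.le
      exact (by simp only [id]; linarith : (0 : ℝ) < 1 + id x / T).ne'
    exact continuousOn_const.mul ((h1.div_const q).sub (continuousOn_const.mul h2))
  have hder : ∀ x ∈ Set.Ioo 0 y, HasDerivWithinAt F
      (T ^ q * ((q * (x / (x + T)) ^ q * (T / (x * (x + T)))) / q
        - 10 * (-(1 / 10) * (1 + x / T) ^ (-(1 / 10 : ℝ)) / (x + T)))) (Set.Ioi x) x := by
    intro x hx
    exact ((((G_der (q := q) hT hx.1).div_const q).sub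
      ((h_der hT hx.1).const_mul 10)).const_mul (T ^ q)).hasDerivWithinAt
  have hint : IntegrableOn (fun x => PT q T x / x) (Set.Icc 0 y) := by
    rw [← intervalIntegrable_iff_integrableOn_Icc_of_le hy.le]
    exact int hq hT hy
  have h1 := intervalIntegral.integral_le_sub_of_hasDeriv_right_of_le hy.le hcont hder hint
    (fun x hx => by
      have hx0 : 0 < x := hx.1
      have hxT : 0 < x + T := by linarith
      rw [PT_eq hT hx0]
      have h1 := G_le hq hT hx0.le
      have h2 := h_le hT hx0.le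
      have h3 : 0 ≤ (x / (x + T)) ^ q := by positivity
      have h4 : 0 ≤ (1 + x / T) ^ (-(1 / 10 : ℝ)) := by positivity
      have h5 : 0 < T ^ q := by positivity
      set G := (x / (x + T)) ^ q
      set h := (1 + x / T) ^ (-(1 / 10 : ℝ))
      have h6 : T ^ q * (q * G * (T / (x * (x + T))) / q - 10 * (-(1 / 10) * h / (x + T)))
          - T ^ q * (G * h) / x = T ^ q * (G * (1 - h) * (T / (x * (x + T)))
            + (1 - G) * h / (x + T)) := by
        field_simp
        ring
      have h7 : 0 ≤ T ^ q * (G * (1 - h) * (T / (x * (x + T))) + (1 - G) * h / (x + T)) := by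
        have h8 : 0 ≤ 1 - h := by linarith
        have h9 : 0 ≤ 1 - G := by linarith
        positivity
      linarith)
  refine h1.trans ?_
  have h2 : F 0 = - (T ^ q * 10) := by
    simp only [hF, zero_div, Real.zero_rpow hq.ne', add_zero, Real.one_rpow]
    ring
  have h3 : F y ≤ T ^ q * (1 / q) := by
    simp only [hF]
    apply mul_le_mul_of_nonneg_left _ (by positivity)
    have h4 := G_le hq hT hy.le
    have h5 : 0 ≤ (1 + y / T) ^ (-(1 / 10 : ℝ)) := by positivity
    have h6 : (y / (y + T)) ^ q / q ≤ 1 / q := div_le_div_of_nonneg_right h4 hq.le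
    linarith
  rw [h2]
  linarith

theorem main : StD2 := by
  intro q T hq hT
  have hTq : 0 < T ^ q := by positivity
  refine ⟨T ^ q * (1 / q + 10), ⟨by norm_num, le_rfl, hq, by positivity, PT_cont hq hT,
    fun x hx => by rw [PT, if_pos hx], fun x hx => PT_pos hT hx, fun x hx => PT_der hT hx,
    fun x hx => ?_, fun x hx => ?_, fun x => ?_, fun y hy => int hq hT hy,
    fun y hy => bi hq hT hy⟩⟩
  · have h1 := PT_pos (q := q) hT hx
    have h2 : x * PT' q T x = (q - (q + 1 / 10) * (x / (T + x))) * PT q T x := by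
      rw [PT']
      field_simp
    rw [h2]
    have h3 : x / (T + x) ≤ 1 := (div_le_one (by positivity)).2 (by linarith)
    have h4 : -(1 / 10 : ℝ) ≤ q - (q + 1 / 10) * (x / (T + x)) := by
      nlinarith
    exact mul_le_mul_of_nonneg_right h4 h1.le
  · have h1 := PT_pos (q := q) hT hx
    have h2 : x * PT' q T x = (q - (q + 1 / 10) * (x / (T + x))) * PT q T x := by
      rw [PT']
      field_simp
    rw [h2]
    have h3 : 0 ≤ (q + 1 / 10) * (x / (T + x)) := by positivity
    exact mul_le_mul_of_nonneg_right (by linarith) h1.le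
  · refine (PT_le hq hT).trans ?_
    have : 0 ≤ 1 / q := by positivity
    nlinarith

end Helper87.NF.M_D2
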