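import Pool.Agent.Helper87.NF.StD

/-!
Module D3: limit of the normalised functions.
-/

set_option autoImplicit false
set_option maxSynthPendingDepth 3

open MeasureTheory Complex Filter Topology
open scoped ENNReal NNReal ComplexConjugate

noncomputable section

namespace Helper87.NF.M_D3

open Helper87.NF Helper85.IW

theorem tl {u : ℕ → ℝ} {a b : ℝ} (h : Tendsto u atTop (𝓝 a)) (e : a = b) :
    Tendsto u atTop (𝓝 b) := e ▸ h

theorem pow1 {q y : ℝ} (hq : 0 < q) (hy : 0 ≤ y) : y ^ (q + 1) = y ^ q * y :=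
  Real.rpow_add_one' hy (by linarith)

theorem pow2 {q y : ℝ} (hq : 0 < q) (hy : 0 ≤ y) : y ^ (q + 2) = y ^ q * y ^ 2 := by
  rw [show q + 2 = q + 1 + 1 by ring, Real.rpow_add_one' hy (by linarith), pow1 hq hy]
  ring

theorem C_neg {q T y : ℝ} (hy : y ≤ 0) : Cw (PT q T) y = 0 := by
  have hz : ∀ x ∈ Set.uIcc 0 y, PT q T x = 0 := by
    intro x hx
    rw [Set.uIcc_of_ge hy] at hx
    unfold PT
    rw [if_pos hx.2]
  unfold Cw Aw Mw
  rw [intervalIntegral.integral_congr (g := fun _ => (0 : ℝ)) hz,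
    intervalIntegral.integral_congr (f := fun x => x * PT q T x) (g := fun _ => (0 : ℝ))
      (fun x hx => by simp only; rw [hz x hx, mul_zero])]
  simp

/-- all limits and bounds in terms of `y ^ q` -/
theorem base (h : StD3a) {q : ℝ} (hq : 0 < q) {y : ℝ} (hy : 0 ≤ y) :
    Tendsto (fun n : ℕ => Aw (PT q (n + 1)) y) atTop (𝓝 (y ^ q * y / (q + 1))) ∧
    Tendsto (fun n : ℕ => Bw (PT q (n + 1)) y) atTop (𝓝 (y ^ q / q)) ∧
    Tendsto (fun n : ℕ => Mw (PT q (n + 1)) y) atTop (𝓝 (y ^ q * y ^ 2 / (q + 2))) ∧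
    Tendsto (fun n : ℕ => Cw (PT q (n + 1)) y) atTop
      (𝓝 (y * (y ^ q * y / (q + 1)) - y ^ q * y ^ 2 / (q + 2))) ∧
    (∀ n : ℕ, |Aw (PT q (n + 1)) y| ≤ y ^ q * y / (q + 1) ∧ |Bw (PT q (n + 1)) y| ≤ y ^ q / q ∧
      |Mw (PT q (n + 1)) y| ≤ y ^ q * y ^ 2 / (q + 2) ∧
      |Cw (PT q (n + 1)) y| ≤ y ^ q * y ^ 2) := by
  obtain ⟨h1, h2, h3, h4⟩ := h q hq y hy
  rw [pow1 hq hy] at h1
  rw [pow2 hq hy] at h3
  refine ⟨h1, h2, h3, (h1.const_mul y).sub h3, fun n => ?_⟩
  obtain ⟨k1, k2, k3, k4⟩ := h4 n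
  rw [pow1 hq hy] at k1
  rw [pow2 hq hy] at k3 k4
  exact ⟨k1, k2, k3, k4⟩

theorem two_pow {q y L : ℝ} (hy : 0 ≤ y) (hL : L = 2 * y) : (2 : ℝ) ^ q * y ^ q = L ^ q := by
  rw [hL, Real.mul_rpow (by norm_num) hy]

/-- the upper formula -/
theorem up (h : StD3a) {q : ℝ} (hq : 0 < q) {r s : ℝ} (hr : 0 ≤ r) (hs : 0 ≤ s) :
    Tendsto (fun n : ℕ => (q + 2) * (q + 1) * q * 2 ^ q *
      ((r ^ 2 - s ^ 2) / 2 * Bw (PT q (n + 1)) ((r + s) / 2)
        + 2 * s * Aw (PT q (n + 1)) ((r + s) / 2) - 2 * Mw (PT q (n + 1)) ((r + s) / 2)))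
      atTop (𝓝 (((q + 1) * r - s) * (r + s) ^ (q + 1))) ∧
    ∀ n : ℕ, |(r ^ 2 - s ^ 2) / 2 * Bw (PT q (n + 1)) ((r + s) / 2)
        + 2 * s * Aw (PT q (n + 1)) ((r + s) / 2) - 2 * Mw (PT q (n + 1)) ((r + s) / 2)|
      ≤ (1 / q + 2 / (q + 1) + 2 / (q + 2)) * (r + s) ^ (q + 2) := by
  have hy : 0 ≤ (r + s) / 2 := by positivity
  have hL : 0 ≤ r + s := by positivity
  obtain ⟨h1, h2, h3, -, h5⟩ := base h hq hy
  constructor
  · have hT := (((h2.const_mul ((r ^ 2 - s ^ 2) / 2)).add (h1.const_mul (2 * s))).sub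
      (h3.const_mul 2)).const_mul ((q + 2) * (q + 1) * q * 2 ^ q)
    refine tl hT ?_
    rw [pow1 hq hL, ← two_pow (q := q) hy (show r + s = 2 * ((r + s) / 2) by ring)]
    have hq0 : q ≠ 0 := hq.ne'
    have hq1 : q + 1 ≠ 0 := by linarith
    have hq2 : q + 2 ≠ 0 := by linarith
    field_simp
    ring
  · intro n
    obtain ⟨k1, k2, k3, -⟩ := h5 n
    have hYL : ((r + s) / 2) ^ q ≤ (r + s) ^ q :=
      Real.rpow_le_rpow hy (by linarith) hq.le
    have hY : 0 ≤ ((r + s) / 2) ^ q := Real.rpow_nonneg hy _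
    have hZ : 0 ≤ (r + s) ^ q := Real.rpow_nonneg hL _
    rw [pow2 hq hL]
    have e1 : |(r ^ 2 - s ^ 2) / 2| ≤ (r + s) ^ 2 := by
      rw [abs_le]
      constructor <;> nlinarith
    have e2 : |2 * s| ≤ 2 * (r + s) := by
      rw [abs_of_nonneg (by positivity)]
      linarith
    have t1 : |(r ^ 2 - s ^ 2) / 2 * Bw (PT q (n + 1)) ((r + s) / 2)| ≤
        (r + s) ^ 2 * ((r + s) ^ q / q) := by
      rw [abs_mul]
      refine mul_le_mul e1 (k2.trans ?_) (abs_nonneg _) (by positivity)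
      exact div_le_div_of_nonneg_right hYL hq.le
    have t2 : |2 * s * Aw (PT q (n + 1)) ((r + s) / 2)| ≤
        2 * (r + s) * ((r + s) ^ q * (r + s) / (q + 1)) := by
      rw [abs_mul]
      refine mul_le_mul e2 (k1.trans ?_) (abs_nonneg _) (by positivity)
      refine div_le_div_of_nonneg_right ?_ (by linarith)
      exact mul_le_mul hYL (by linarith) hy hZ
    have t3 : |2 * Mw (PT q (n + 1)) ((r + s) / 2)| ≤
        2 * ((r + s) ^ q * (r + s) ^ 2 / (q + 2)) := by
      rw [abs_mul, abs_of_nonneg (by norm_num : (0 : ℝ) ≤ 2)]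
      refine mul_le_mul_of_nonneg_left (k3.trans ?_) (by norm_num)
      refine div_le_div_of_nonneg_right ?_ (by linarith)
      refine mul_le_mul hYL ?_ (by positivity) hZ
      exact pow_le_pow_left₀ hy (by linarith) 2
    refine (abs_sub _ _).trans (le_trans (add_le_add ((abs_add_le _ _).trans
      (add_le_add t1 t2)) t3) (le_of_eq ?_))
    ring

theorem main (h : StD3a) : StD3 := by
  intro p hp
  obtain ⟨q, rfl⟩ : ∃ q, p = q + 2 := ⟨p - 2, by ring⟩
  have hq : 0 < q := by linarith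
  have hq0 : q ≠ 0 := hq.ne'
  have hq1 : q + 1 ≠ 0 := by linarith
  have hq2 : q + 2 ≠ 0 := by linarith
  refine ⟨1 / q + 2 / (q + 1) + 2 / (q + 2) + 6, ?_⟩
  rintro ⟨r, s⟩ ⟨hr, hs⟩
  simp only at hr hs
  have hL : 0 ≤ r + s := by positivity
  have hcp : cp (q + 2) = (q + 2) * (q + 1) * q * 2 ^ q := by
    unfold cp
    rw [show q + 2 - 2 = q by ring, show q + 2 - 1 = q + 1 by ring]
  have hp1 : q + 2 - 1 = q + 1 := by ring
  have hp2 : q + 2 - 2 = q := by ring
  rw [hp2, hcp]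
  obtain ⟨u1, u2⟩ := up h hq hr hs
  have hC1 : (0 : ℝ) ≤ 1 / q := by positivity
  have hC2 : (0 : ℝ) ≤ 2 / (q + 1) := by positivity
  have hC3 : (0 : ℝ) ≤ 2 / (q + 2) := by positivity
  have hZp : 0 ≤ (r + s) ^ (q + 2) := Real.rpow_nonneg hL _
  refine ⟨?_, ?_, ?_⟩
  · by_cases hsr : s < r
    · obtain ⟨a1, a2, a3, a4, -⟩ := base h hq hr
      obtain ⟨b1, b2, b3, b4, -⟩ := base h hq hs
      have hT := ((((((a2.const_mul (r ^ 2 / 2)).sub (a3.div_const 2)).sub
        (b2.const_mul (s ^ 2 / 2))).add (b3.div_const 2)).add (b4.const_mul 2)).add_const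
        (0 * r ^ 2)).const_mul ((q + 2) * (q + 1) * q * 2 ^ q)
      simp only [UV, VV, if_pos hsr]
      refine tl hT ?_
      rw [hp2, hp1, pow2 hq hr, pow2 hq hs]
      field_simp
      ring
    · simp only [UV, VV, if_neg hsr]
      rw [hp1]
      refine u1.congr fun n => ?_
      ring
  · have hT2 : Tendsto (fun n : ℕ => (q + 2) * (q + 1) * q * 2 ^ q *
        (4 * Cw (PT q (n + 1)) ((r - s) / 2))) atTop (𝓝 (q * (max (r - s) 0) ^ (q + 2))) := by
      rcases le_total 0 (r - s) with hd | hd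
      · have hd2 : 0 ≤ (r - s) / 2 := by positivity
        obtain ⟨-, -, -, b4, -⟩ := base h hq hd2
        refine tl ((b4.const_mul 4).const_mul ((q + 2) * (q + 1) * q * 2 ^ q)) ?_
        rw [max_eq_left hd, pow2 hq hd,
          ← two_pow (q := q) hd2 (show r - s = 2 * ((r - s) / 2) by ring)]
        field_simp
        ring
      · rw [max_eq_right hd, Real.zero_rpow hq2, mul_zero]
        refine tendsto_const_nhds.congr fun n => ?_
        rw [C_neg (by linarith), mul_zero, mul_zero]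
    have hT := u1.add hT2
    simp only [UH, VH]
    rw [hp1, hp2]
    refine hT.congr fun n => ?_
    ring
  · intro n
    constructor
    · by_cases hsr : s < r
      · obtain ⟨-, -, -, -, a5⟩ := base h hq hr
        obtain ⟨-, -, -, -, b5⟩ := base h hq hs
        obtain ⟨a1, a2, a3, a4⟩ := a5 n
        obtain ⟨b1, b2, b3, b4⟩ := b5 n
        simp only [UV, if_pos hsr]
        have hrL : r ^ q ≤ (r + s) ^ q := Real.rpow_le_rpow hr (by linarith) hq.le
        have hsL : s ^ q ≤ (r + s) ^ q := Real.rpow_le_rpow hs (by linarith) hq.le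
        have hr2 : r ^ 2 ≤ (r + s) ^ 2 := pow_le_pow_left₀ hr (by linarith) 2
        have hs2 : s ^ 2 ≤ (r + s) ^ 2 := pow_le_pow_left₀ hs (by linarith) 2
        have hZ : 0 ≤ (r + s) ^ q := Real.rpow_nonneg hL _
        have hr0 : 0 ≤ r ^ q := Real.rpow_nonneg hr _
        have hs0 : 0 ≤ s ^ q := Real.rpow_nonneg hs _
        rw [pow2 hq hL]
        have m1 : r ^ q * r ^ 2 ≤ (r + s) ^ q * (r + s) ^ 2 :=
          mul_le_mul hrL hr2 (by positivity) hZ
        have m2 : s ^ q * s ^ 2 ≤ (r + s) ^ q * (r + s) ^ 2 :=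
          mul_le_mul hsL hs2 (by positivity) hZ
        have t1 : |r ^ 2 / 2 * Bw (PT q (n + 1)) r| ≤ (r + s) ^ q * (r + s) ^ 2 * (1 / q) / 2 := by
          rw [abs_mul, abs_of_nonneg (by positivity : (0 : ℝ) ≤ r ^ 2 / 2)]
          calc r ^ 2 / 2 * |Bw (PT q (n + 1)) r| ≤ r ^ 2 / 2 * (r ^ q / q) :=
                mul_le_mul_of_nonneg_left a2 (by positivity)
            _ = r ^ q * r ^ 2 * (1 / q) / 2 := by ring
            _ ≤ _ := by
                refine div_le_div_of_nonneg_right ?_ (by norm_num)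
                exact mul_le_mul_of_nonneg_right m1 hC1
        have t2 : |Mw (PT q (n + 1)) r / 2| ≤ (r + s) ^ q * (r + s) ^ 2 * (2 / (q + 2)) / 4 := by
          rw [abs_div, abs_of_nonneg (by norm_num : (0 : ℝ) ≤ 2)]
          calc |Mw (PT q (n + 1)) r| / 2 ≤ r ^ q * r ^ 2 / (q + 2) / 2 :=
                div_le_div_of_nonneg_right a3 (by norm_num)
            _ = r ^ q * r ^ 2 * (2 / (q + 2)) / 4 := by ring
            _ ≤ _ := by
                refine div_le_div_of_nonneg_right ?_ (by norm_num)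
                exact mul_le_mul_of_nonneg_right m1 hC3
        have t3 : |s ^ 2 / 2 * Bw (PT q (n + 1)) s| ≤ (r + s) ^ q * (r + s) ^ 2 * (1 / q) / 2 := by
          rw [abs_mul, abs_of_nonneg (by positivity : (0 : ℝ) ≤ s ^ 2 / 2)]
          calc s ^ 2 / 2 * |Bw (PT q (n + 1)) s| ≤ s ^ 2 / 2 * (s ^ q / q) :=
                mul_le_mul_of_nonneg_left b2 (by positivity)
            _ = s ^ q * s ^ 2 * (1 / q) / 2 := by ring
            _ ≤ _ := by
                refine div_le_div_of_nonneg_right ?_ (by norm_num)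
                exact mul_le_mul_of_nonneg_right m2 hC1
        have t4 : |Mw (PT q (n + 1)) s / 2| ≤ (r + s) ^ q * (r + s) ^ 2 * (2 / (q + 2)) / 4 := by
          rw [abs_div, abs_of_nonneg (by norm_num : (0 : ℝ) ≤ 2)]
          calc |Mw (PT q (n + 1)) s| / 2 ≤ s ^ q * s ^ 2 / (q + 2) / 2 :=
                div_le_div_of_nonneg_right b3 (by norm_num)
            _ = s ^ q * s ^ 2 * (2 / (q + 2)) / 4 := by ring
            _ ≤ _ := by
                refine div_le_div_of_nonneg_right ?_ (by norm_num)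
                exact mul_le_mul_of_nonneg_right m2 hC3
        have t5 : |2 * Cw (PT q (n + 1)) s| ≤ 2 * ((r + s) ^ q * (r + s) ^ 2) := by
          rw [abs_mul, abs_of_nonneg (by norm_num : (0 : ℝ) ≤ 2)]
          exact mul_le_mul_of_nonneg_left (b4.trans m2) (by norm_num)
        have hW : 0 ≤ (r + s) ^ q * (r + s) ^ 2 := by positivity
        have hW2 : 0 ≤ (r + s) ^ q * (r + s) ^ 2 * (2 / (q + 1)) := mul_nonneg hW hC2
        have hW3 : 0 ≤ (r + s) ^ q * (r + s) ^ 2 * (2 / (q + 2)) := mul_nonneg hW hC3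
        have hexp : (1 / q + 2 / (q + 1) + 2 / (q + 2) + 6) * ((r + s) ^ q * (r + s) ^ 2) =
            (r + s) ^ q * (r + s) ^ 2 * (1 / q) + (r + s) ^ q * (r + s) ^ 2 * (2 / (q + 1))
              + (r + s) ^ q * (r + s) ^ 2 * (2 / (q + 2)) + 6 * ((r + s) ^ q * (r + s) ^ 2) := by
          ring
        rw [hexp, zero_mul, add_zero]
        rw [abs_le] at t1 t2 t3 t4 t5 ⊢
        obtain ⟨t1a, t1b⟩ := t1
        obtain ⟨t2a, t2b⟩ := t2
        obtain ⟨t3a, t3b⟩ := t3
        obtain ⟨t4a, t4b⟩ := t4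
        obtain ⟨t5a, t5b⟩ := t5
        constructor <;> linarith
      · simp only [UV, if_neg hsr]
        have := u2 n
        rw [zero_mul, add_zero]
        refine this.trans (mul_le_mul_of_nonneg_right (by linarith) hZp)
    · simp only [UH]
      have h4 : |4 * Cw (PT q (n + 1)) ((r - s) / 2)| ≤ 4 * (r + s) ^ (q + 2) := by
        rw [abs_mul, abs_of_nonneg (by norm_num : (0 : ℝ) ≤ 4)]
        refine mul_le_mul_of_nonneg_left ?_ (by norm_num)
        rcases le_total 0 (r - s) with hd | hd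
        · have hd2 : 0 ≤ (r - s) / 2 := by positivity
          obtain ⟨-, -, -, -, b5⟩ := base h hq hd2
          refine (b5 n).2.2.2.trans ?_
          rw [← pow2 hq hd2]
          exact Real.rpow_le_rpow hd2 (by linarith) (by linarith)
        · rw [C_neg (by linarith), abs_zero]
          exact hZp
      have h5 := u2 n
      rw [zero_mul, add_zero]
      refine (abs_add_le _ _).trans ((add_le_add h5 h4).trans ?_)
      nlinarith

end Helper87.NF.M_D3
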