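import Pool.Agent.Helper87.NF.StD

/-!
Module D3a: the primitives of the weights converge to powers.
-/

set_option autoImplicit false
set_option maxSynthPendingDepth 3

open MeasureTheory Complex Filter Topology
open scoped ENNReal NNReal ComplexConjugate

noncomputable section

namespace Helper87.NF.M_D3a

open Helper87.NF Helper85.IW

theorem fac_le {e x T : ℝ} (he : 0 < e) (hx : 0 < x) (hT : 0 < T) :
    0 ≤ (1 + x / T) ^ (-e) ∧ (1 + x / T) ^ (-e) ≤ 1 := by
  have h1 : 0 < x / T := div_pos hx hT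
  exact ⟨Real.rpow_nonneg (by linarith) _,
    Real.rpow_le_one_of_one_le_of_nonpos (by linarith) (by linarith)⟩

theorem fac_lim (e x : ℝ) :
    Tendsto (fun n : ℕ => (1 + x / ((n : ℝ) + 1)) ^ (-e)) atTop (𝓝 1) := by
  have h1 : Tendsto (fun n : ℕ => x / ((n : ℝ) + 1)) atTop (𝓝 0) := by
    have h := (tendsto_one_div_add_atTop_nhds_zero_nat (𝕜 := ℝ)).const_mul x
    rw [mul_zero] at h
    refine h.congr fun n => ?_
    rw [mul_one_div]
  have h2 : Tendsto (fun n : ℕ => 1 + x / ((n : ℝ) + 1)) atTop (𝓝 1) := by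
    have := h1.const_add 1
    rwa [add_zero] at this
  have h3 := h2.rpow_const (p := -e) (Or.inl one_ne_zero)
  rwa [Real.one_rpow] at h3

theorem conv {e r : ℝ} (he : 0 < e) (hr : -1 < r) (F : ℕ → ℝ → ℝ)
    (hF : ∀ n x, 0 < x → F n x = x ^ r * (1 + x / ((n : ℝ) + 1)) ^ (-e))
    (hm : ∀ n, Measurable (F n)) (y : ℝ) (hy : 0 ≤ y) :
    Tendsto (fun n => ∫ x in (0 : ℝ)..y, F n x) atTop (𝓝 (y ^ (r + 1) / (r + 1))) ∧
      ∀ n, 0 ≤ ∫ x in (0 : ℝ)..y, F n x ∧ ∫ x in (0 : ℝ)..y, F n x ≤ y ^ (r + 1) / (r + 1) := by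
  have hI : ∫ x in (0 : ℝ)..y, x ^ r = y ^ (r + 1) / (r + 1) := by
    rw [integral_rpow (Or.inl hr), Real.zero_rpow (by linarith), sub_zero]
  have hint : IntervalIntegrable (fun x : ℝ => x ^ r) volume 0 y :=
    intervalIntegral.intervalIntegrable_rpow' hr
  have hb : ∀ n x, 0 < x → 0 ≤ F n x ∧ F n x ≤ x ^ r := by
    intro n x hx
    have hn : (0 : ℝ) < (n : ℝ) + 1 := by positivity
    obtain ⟨h1, h2⟩ := fac_le (T := (n : ℝ) + 1) he hx hn
    have h3 : 0 ≤ x ^ r := Real.rpow_nonneg hx.le _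
    rw [hF n x hx]
    exact ⟨mul_nonneg h3 h1, mul_le_of_le_one_right h3 h2⟩
  have hFi : ∀ n, IntervalIntegrable (F n) volume 0 y := by
    intro n
    rw [intervalIntegrable_iff_integrableOn_Ioc_of_le hy] at hint ⊢
    refine Integrable.mono hint (hm n).aestronglyMeasurable ?_
    rw [ae_restrict_iff' measurableSet_Ioc]
    refine Filter.Eventually.of_forall fun x hx => ?_
    obtain ⟨h1, h2⟩ := hb n x hx.1
    rw [Real.norm_of_nonneg h1, Real.norm_of_nonneg (h1.trans h2)]
    exact h2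
  constructor
  · rw [← hI]
    refine intervalIntegral.tendsto_integral_filter_of_dominated_convergence
      (fun x => x ^ r) ?_ ?_ hint ?_
    · exact Filter.Eventually.of_forall fun n => (hm n).aestronglyMeasurable
    · refine Filter.Eventually.of_forall fun n => Filter.Eventually.of_forall fun x hx => ?_
      rw [Set.uIoc_of_le hy] at hx
      obtain ⟨h1, h2⟩ := hb n x hx.1
      rw [Real.norm_of_nonneg h1]
      exact h2
    · refine Filter.Eventually.of_forall fun x hx => ?_
      rw [Set.uIoc_of_le hy] at hx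
      have h1 := (fac_lim e x).const_mul (x ^ r)
      rw [mul_one] at h1
      exact h1.congr fun n => (hF n x hx.1).symm
  · intro n
    constructor
    · refine intervalIntegral.integral_nonneg_of_ae_restrict hy ?_
      have h0 : ∀ᵐ x : ℝ, x ≠ 0 := by
        simp [ae_iff, measure_singleton]
      filter_upwards [ae_restrict_of_ae h0, ae_restrict_mem measurableSet_Icc] with x hx hx'
      exact (hb n x (lt_of_le_of_ne hx'.1 (Ne.symm hx))).1
    · rw [← hI]
      refine intervalIntegral.integral_mono_on_of_le_Ioo hy (hFi n) hint ?_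
      intro x hx
      exact (hb n x hx.1).2

theorem meas_PT (q T : ℝ) : Measurable (PT q T) := by
  unfold PT
  refine Measurable.ite measurableSet_Iic measurable_const ?_
  refine Measurable.mul (measurable_id.pow_const q) ?_
  exact Measurable.pow_const (by fun_prop) _

theorem PT_pos {q T x : ℝ} (hx : 0 < x) : PT q T x = x ^ q * (1 + x / T) ^ (-(q + 1 / 10)) := by
  unfold PT
  rw [if_neg (not_le.2 hx)]

theorem main : StD3a := by
  intro q hq y hy
  have he : 0 < q + 1 / 10 := by linarith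
  have hA := conv (e := q + 1 / 10) (r := q) he (by linarith)
    (fun n x => PT q ((n : ℝ) + 1) x) (fun n x hx => PT_pos hx) (fun n => meas_PT _ _) y hy
  have hB := conv (e := q + 1 / 10) (r := q - 1) he (by linarith)
    (fun n x => PT q ((n : ℝ) + 1) x / x) (fun n x hx => by
      rw [PT_pos hx, Real.rpow_sub_one hx.ne']
      ring) (fun n => (meas_PT _ _).div measurable_id) y hy
  have hM := conv (e := q + 1 / 10) (r := q + 1) he (by linarith)
    (fun n x => x * PT q ((n : ℝ) + 1) x) (fun n x hx => by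
      rw [PT_pos hx, Real.rpow_add_one hx.ne']
      ring) (fun n => measurable_id.mul (meas_PT _ _)) y hy
  rw [show q - 1 + 1 = q by ring] at hB
  rw [show q + 1 + 1 = q + 2 by ring] at hM
  refine ⟨hA.1, hB.1, hM.1, fun n => ⟨?_, ?_, ?_, ?_⟩⟩
  · show |∫ x in (0 : ℝ)..y, PT q ((n : ℝ) + 1) x| ≤ _
    rw [abs_of_nonneg (hA.2 n).1]
    exact (hA.2 n).2
  · show |∫ x in (0 : ℝ)..y, PT q ((n : ℝ) + 1) x / x| ≤ _
    rw [abs_of_nonneg (hB.2 n).1]
    exact (hB.2 n).2
  · show |∫ x in (0 : ℝ)..y, x * PT q ((n : ℝ) + 1) x| ≤ _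
    rw [abs_of_nonneg (hM.2 n).1]
    exact (hM.2 n).2
  · show |y * (∫ x in (0 : ℝ)..y, PT q ((n : ℝ) + 1) x) -
      ∫ x in (0 : ℝ)..y, x * PT q ((n : ℝ) + 1) x| ≤ _
    have h1 := hA.2 n
    have h2 := hM.2 n
    have h3 : y * (y ^ (q + 1) / (q + 1)) ≤ y ^ (q + 2) := by
      have h4 : y ^ (q + 2) = y * y ^ (q + 1) := by
        rw [show q + 2 = q + 1 + 1 by ring]
        rcases hy.eq_or_lt with rfl | hy'
        · rw [Real.zero_rpow (by linarith), Real.zero_rpow (by linarith), mul_zero]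
        · rw [Real.rpow_add_one hy'.ne']
          ring
      rw [h4]
      refine mul_le_mul_of_nonneg_left ?_ hy
      exact div_le_self (Real.rpow_nonneg hy _) (by linarith)
    have h5 : y ^ (q + 2) / (q + 2) ≤ y ^ (q + 2) :=
      div_le_self (Real.rpow_nonneg hy _) (by linarith)
    rw [abs_le]
    constructor
    · have h6 : 0 ≤ y * ∫ x in (0 : ℝ)..y, PT q ((n : ℝ) + 1) x := mul_nonneg hy h1.1
      have h7 := h2.2
      linarith
    · have h6 : y * (∫ x in (0 : ℝ)..y, PT q ((n : ℝ) + 1) x) ≤ y * (y ^ (q + 1) / (q + 1)) :=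
        mul_le_mul_of_nonneg_left h1.2 hy
      have h7 := h2.1
      linarith

end Helper87.NF.M_D3a
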