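import Pool.Agent.Helper87.NF.StD

/-!
Module D4: the homogeneous inequalities.
-/

set_option autoImplicit false
set_option maxSynthPendingDepth 3

open MeasureTheory Complex Filter Topology
open scoped ENNReal NNReal ComplexConjugate

noncomputable section

namespace Helper87.NF.M_D4

open Helper87.NF Helper85.IW

theorem cont_prim {f : ℝ → ℝ} (hf : ∀ y, 0 < y → IntervalIntegrable f volume 0 y)
    (h0 : ∀ x, x ≤ 0 → f x = 0) : Continuous (fun y => ∫ x in (0 : ℝ)..y, f x) := by
  refine intervalIntegral.continuous_primitive ?_ 0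
  have key : ∀ y, IntervalIntegrable f volume 0 y := by
    intro y
    rcases lt_or_ge 0 y with hy | hy
    · exact hf y hy
    · have h1 : IntervalIntegrable (fun _ : ℝ => (0 : ℝ)) volume 0 y := intervalIntegrable_const
      refine h1.congr fun x hx => ?_
      rw [Set.uIoc_of_ge hy] at hx
      exact (h0 x hx.2).symm
  intro a b
  exact (key a).symm.trans (key b)

theorem cont_A {P P' : ℝ → ℝ} {q κ K : ℝ} (h : Wt P P' q κ K) : Continuous (Aw P) :=
  cont_prim (fun _ _ => h.cont.intervalIntegrable _ _) h.zero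

theorem cont_B {P P' : ℝ → ℝ} {q κ K : ℝ} (h : Wt P P' q κ K) : Continuous (Bw P) :=
  cont_prim h.int (fun x hx => by rw [h.zero x hx, zero_div])

theorem cont_M {P P' : ℝ → ℝ} {q κ K : ℝ} (h : Wt P P' q κ K) : Continuous (Mw P) :=
  cont_prim (fun _ _ => (continuous_id.mul h.cont).intervalIntegrable _ _)
    (fun x hx => by rw [h.zero x hx, mul_zero])

theorem cont_C {P P' : ℝ → ℝ} {q κ K : ℝ} (h : Wt P P' q κ K) : Continuous (Cw P) :=
  (continuous_id.mul (cont_A h)).sub (cont_M h)

theorem meas_UV {P P' : ℝ → ℝ} {q κ K : ℝ} (h : Wt P P' q κ K) : Measurable (UV P 0) := by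
  have hA := (cont_A h).measurable
  have hB := (cont_B h).measurable
  have hM := (cont_M h).measurable
  have hC := (cont_C h).measurable
  have hL : Measurable (fun x : ℝ × ℝ => (x.1 + x.2) / 2) := by fun_prop
  unfold UV
  refine Measurable.add (Measurable.ite (measurableSet_lt measurable_snd measurable_fst) ?_ ?_) ?_
  · refine Measurable.add (Measurable.add (Measurable.sub (Measurable.sub (Measurable.mul ?_
      (hB.comp measurable_fst)) (Measurable.div_const (hM.comp measurable_fst) _)) (Measurable.mul ?_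
      (hB.comp measurable_snd))) (Measurable.div_const (hM.comp measurable_snd) _))
      (Measurable.mul measurable_const (hC.comp measurable_snd))
    · fun_prop
    · fun_prop
  · refine Measurable.sub (Measurable.add (Measurable.mul ?_ (hB.comp hL)) (Measurable.mul ?_
      (hA.comp hL))) (Measurable.mul measurable_const (hM.comp hL))
    · fun_prop
    · fun_prop
  · fun_prop

theorem meas_UH {P P' : ℝ → ℝ} {q κ K : ℝ} (h : Wt P P' q κ K) : Measurable (UH P 0) := by
  have hA := (cont_A h).measurable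
  have hB := (cont_B h).measurable
  have hM := (cont_M h).measurable
  have hC := (cont_C h).measurable
  have hL : Measurable (fun x : ℝ × ℝ => (x.1 + x.2) / 2) := by fun_prop
  have hd : Measurable (fun x : ℝ × ℝ => (x.1 - x.2) / 2) := by fun_prop
  unfold UH
  refine Measurable.add (Measurable.add (Measurable.sub (Measurable.add (Measurable.mul ?_
    (hB.comp hL)) (Measurable.mul ?_ (hA.comp hL))) (Measurable.mul measurable_const (hM.comp hL)))
    (Measurable.mul measurable_const (hC.comp hd))) ?_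
  · fun_prop
  · fun_prop
  · fun_prop

/-- limit of a sequence of nonnegative integrals -/
theorem lim_aux {p : ℝ} (hp : 2 < p) (φ : ℂ → ℂ) (hφ : ContDiff ℝ 1 φ) (hs : HasCompactSupport φ)
    (F : ℕ → ℝ × ℝ → ℝ) (G : ℝ × ℝ → ℝ) (C c : ℝ) (hc : 0 ≤ c) (hF : ∀ n, Measurable (F n))
    (hlim : ∀ x ∈ qd, Tendsto (fun n => c * F n x) atTop (𝓝 (G x)))
    (hb : ∀ x ∈ qd, ∀ n, |F n x| ≤ C * (x.1 + x.2) ^ p)
    (h0 : ∀ n, 0 ≤ ∫ z, F n (‖dzb φ z‖, ‖dz φ z‖)) :
    0 ≤ ∫ z, G (‖dzb φ z‖, ‖dz φ z‖) := by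
  have hcf : Continuous (fderiv ℝ φ) := hφ.continuous_fderiv (by norm_num)
  have hc1 : Continuous (dzb φ) := by
    unfold dzb
    have h1 : Continuous fun z => fderiv ℝ φ z 1 := hcf.clm_apply continuous_const
    have h2 : Continuous fun z => fderiv ℝ φ z I := hcf.clm_apply continuous_const
    fun_prop
  have hc2 : Continuous (dz φ) := by
    unfold dz
    have h1 : Continuous fun z => fderiv ℝ φ z 1 := hcf.clm_apply continuous_const
    have h2 : Continuous fun z => fderiv ℝ φ z I := hcf.clm_apply continuous_const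
    fun_prop
  have hq : ∀ z, (‖dzb φ z‖, ‖dz φ z‖) ∈ qd := fun z => ⟨norm_nonneg _, norm_nonneg _⟩
  have hT : Tendsto (fun n => ∫ z, c * F n (‖dzb φ z‖, ‖dz φ z‖)) atTop
      (𝓝 (∫ z, G (‖dzb φ z‖, ‖dz φ z‖))) := by
    refine tendsto_integral_of_dominated_convergence
      (fun z => c * (C * (‖dzb φ z‖ + ‖dz φ z‖) ^ p)) ?_ ?_ ?_ ?_
    · intro n
      have h1 : Measurable fun z => (‖dzb φ z‖, ‖dz φ z‖) :=
        (hc1.norm.prodMk hc2.norm).measurable
      exact (((hF n).comp h1).const_mul c).aestronglyMeasurable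
    · have hcont : Continuous (fun z => c * (C * (‖dzb φ z‖ + ‖dz φ z‖) ^ p)) := by
        have h1 : Continuous fun z => (‖dzb φ z‖ + ‖dz φ z‖) ^ p :=
          (hc1.norm.add hc2.norm).rpow_const (fun z => Or.inr (by linarith))
        exact continuous_const.mul (continuous_const.mul h1)
      refine hcont.integrable_of_hasCompactSupport ?_
      have h2 : HasCompactSupport (fderiv ℝ φ) := hs.fderiv ℝ
      have h3 := h2.comp_left (g := fun L : ℂ →L[ℝ] ℂ => c * (C *
        (‖(1 / 2 : ℂ) * (L 1 + I * L I)‖ + ‖(1 / 2 : ℂ) * (L 1 - I * L I)‖) ^ p)) (by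
          simp only [zero_apply, mul_zero, add_zero, sub_zero, norm_zero]
          rw [Real.zero_rpow (by linarith), mul_zero, mul_zero])
      exact h3
    · intro n
      refine Filter.Eventually.of_forall fun z => ?_
      rw [Real.norm_eq_abs, abs_mul, abs_of_nonneg hc]
      exact mul_le_mul_of_nonneg_left (hb _ (hq z) n) hc
    · exact Filter.Eventually.of_forall fun z => hlim _ (hq z)
  refine ge_of_tendsto hT (Filter.Eventually.of_forall fun n => ?_)
  rw [integral_const_mul]
  exact mul_nonneg hc (h0 n)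

theorem main (h1 : StD1) (h2 : StD2) (h3 : StD3) : StD4 := by
  intro p hp φ hφ hs
  obtain ⟨C, hC⟩ := h3 p hp
  have hcp : 0 ≤ cp p := by
    unfold cp
    have : (0 : ℝ) < 2 ^ (p - 2) := Real.rpow_pos_of_pos (by norm_num) _
    have h1 : 0 ≤ p * (p - 1) * (p - 2) :=
      mul_nonneg (mul_nonneg (by linarith) (by linarith)) (by linarith)
    exact mul_nonneg h1 this.le
  have hW : ∀ n : ℕ, ∃ K : ℝ, Wt (PT (p - 2) ((n : ℝ) + 1)) (PT' (p - 2) ((n : ℝ) + 1)) (p - 2)
      (1 / 10) K := fun n => h2 (p - 2) ((n : ℝ) + 1) (by linarith) (by positivity)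
  constructor
  · intro hp3
    refine lim_aux hp φ hφ hs (fun n => UV (PT (p - 2) (n + 1)) 0) (VV p) C (cp p) hcp ?_
      (fun x hx => (hC x hx).1) (fun x hx n => ((hC x hx).2.2 n).1) ?_
    · intro n
      obtain ⟨K, hK⟩ := hW n
      exact meas_UV hK
    · intro n
      obtain ⟨K, hK⟩ := hW n
      exact (h1 _ _ _ _ _ hK φ hφ hs).1 (by linarith)
  · refine lim_aux hp φ hφ hs (fun n => UH (PT (p - 2) (n + 1)) 0) (VH p) C (cp p) hcp ?_
      (fun x hx => (hC x hx).2.1) (fun x hx n => ((hC x hx).2.2 n).2) ?_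
    · intro n
      obtain ⟨K, hK⟩ := hW n
      exact meas_UH hK
    · intro n
      obtain ⟨K, hK⟩ := hW n
      exact (h1 _ _ _ _ _ hK φ hφ hs).2

end Helper87.NF.M_D4
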