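import Pool.Agent.Helper42.NF.DerH

/-!
# Module DH: second derivatives in the region `s < r`, H-type (by helper42)
-/

set_option autoImplicit false
set_option maxSynthPendingDepth 3

open MeasureTheory Complex Filter Topology
open scoped ENNReal NNReal ComplexConjugate

noncomputable section

namespace Helper87.NF.M_DH

open Helper85.IW Helper87.NF Helper87.NF.H42

theorem main (hW1 : StW1) (hW2 : StW2) (hW4 : StW4) : StDH := by
  intro P P' q κ K hW ε d1 τ r s hτ hτ1 hs hsr hne
  obtain ⟨hA, hC, hM, hB, hBc, h0⟩ := hW1 P P' q κ K hW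
  obtain ⟨hn, hub, hcmp, hsm⟩ := hW2 P P' q κ K hW
  have hW4' := hW4 P P' q κ K hW
  have hr : 0 < r := hs.trans hsr
  have hL : 0 < r + s := by linarith
  have hd : 0 < (r - s) / 2 := by linarith
  have hK := hW.K0
  have hq := hW.q0
  have hX : max (τ * s - r) 0 = 0 := max_eq_right (by nlinarith)
  have hcmp0 : cmp τ r s = 0 := by
    show (max (τ * s - r) 0) ^ 2 / (2 * τ * s) = 0
    rw [hX]
    simp
  have ecmp : cmp τ s r = (max (τ * r - s) 0) ^ 2 / (2 * τ * r) := rfl
  refine ⟨(2 - d1) * (max (τ * r - s) 0 / (τ * r)) *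
      ((Aw P (r / 2) - Aw P ((r - s) / 2)) - r * (P (r / 2) - P ((r - s) / 2))) / r,
    -((2 - d1) * ((-(P (r / 2) / 2) - r * P' (r / 2) / 2) * cmp τ s r +
      (Aw P (r / 2) - r * P (r / 2)) *
        (max (τ * r - s) 0 * (2 * τ * r - max (τ * r - s) 0) / (2 * τ * r ^ 2)))) / r, ?_⟩
  intro L d B g a b c w
  have hPd0 := P_nonneg hW ((r - s) / 2)
  have hPdK := hW.bd ((r - s) / 2)
  have hPL0 := P_nonneg hW ((r + s) / 2)
  have hPLK := hW.bd ((r + s) / 2)
  have hPr0 := P_nonneg hW (r / 2)
  have hPrK := hW.bd (r / 2)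
  have hAd0 := (hn ((r - s) / 2)).1
  have hAdK := (hub ((r - s) / 2) hd.le).1
  have hAL := A_diff hW1 hW (x := (r - s) / 2) (y := (r + s) / 2) (by linarith)
  have hAr := A_diff hW1 hW (x := (r - s) / 2) (y := r / 2) (by linarith)
  refine ⟨?_, ?_, ?_, ?_, ?_, ?_, ?_, ?_, ?_, ?_, ?_, ?_, ?_, ?_, ?_, ?_, ?_⟩
  · refine hf_congr (hf_p1H hW1 hW ε (x := (r, s)) hL) ?_ ?_
    · simp only [B, g, L, c, d]
      field_simp
    · simp only [g, L, c, d]
      field_simp
  · show (r * Bw P ((r + s) / 2) + 2 * Aw P ((r - s) / 2) + 2 * ε * r) / r = B + a + 2 * ε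
    simp only [B, a, L, d]
    field_simp
  · refine hf_congr (hf_p2H hW1 hW (x := (r, s)) hL) ?_ ?_
    · simp only [g, L, c, d]
      field_simp
      ring
    · simp only [B, g, L, c, d]
      field_simp
      ring
  · show (-s * Bw P ((r + s) / 2) + 2 * Aw P ((r + s) / 2) - 2 * Aw P ((r - s) / 2)) / s = -B + b
    simp only [B, b, L, d]
    field_simp
    ring
  · refine hf_congr (hf_MH hW1 hW ε d1 hτ (x := (r, s)) hr) ?_ ?_
    · simp only [a, c, d]
      field_simp
      ring
    · simp only [a, c, d, w]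
      field_simp
      ring
  · refine hf_congr (hf_NH hW1 hW ε d1 hτ (x := (r, s)) hs) ?_ ?_
    · simp only [hX, b, c, d, L]
      field_simp
      ring
    · simp only [hX, hcmp0, b, c, d, L]
      field_simp
      ring
  · simp only [a, d]
    positivity
  · simp only [b, L, d]
    have := hAL.1
    positivity
  · exact hPd0
  · simp only [g, L]
    positivity
  · simp only [a, d]
    rw [div_le_iff₀ hr]
    nlinarith
  · simp only [b, L, d]
    rw [div_le_iff₀ hs]
    nlinarith [hAL.2]
  · exact hPdK
  · simp only [g, L]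
    rw [div_le_iff₀ (by positivity)]
    nlinarith [mul_pos hr hK, mul_pos hs hK, mul_le_mul_of_nonneg_left hPLK hr.le]
  · intro hd0 hd2
    have hτr : 0 < τ * r := by positivity
    have hX0 : 0 ≤ max (τ * r - s) 0 := le_max_right _ _
    have hXs : max (τ * r - s) 0 ≤ τ * r := max_le (by linarith) hτr.le
    have hc0 : 0 ≤ 2 - d1 := by linarith
    have hc2 : 2 - d1 ≤ 2 := by linarith
    have hqK : 0 < (q + 1) * K * τ := by positivity
    have hKτ : K * τ ≤ (q + 1) * K * τ := by nlinarith [mul_pos hK hτ, mul_pos hq (mul_pos hK hτ)]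
    constructor
    · -- `n1`
      rcases le_or_gt (τ * r) s with h | h
      · rw [max_eq_right (by linarith)]
        simp
        positivity
      · have h1 : 0 ≤ max (τ * r - s) 0 / (τ * r) := by positivity
        have h2 : max (τ * r - s) 0 / (τ * r) ≤ 1 := (div_le_one hτr).2 hXs
        have h4 : (2 - d1) * (max (τ * r - s) 0 / (τ * r)) ≤ 2 * 1 :=
          mul_le_mul hc2 h2 h1 (by norm_num)
        have h5 : |Aw P (r / 2) - Aw P ((r - s) / 2)| ≤ K * τ * r := by
          rw [abs_of_nonneg hAr.1]
          refine hAr.2.trans ?_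
          nlinarith [mul_pos hK hs]
        have h6 : |P (r / 2) - P ((r - s) / 2)| ≤ (q + 1) * K * (2 * τ) := by
          refine (hW4' ((r - s) / 2) (r / 2) hd (by linarith)).trans ?_
          refine mul_le_mul_of_nonneg_left ?_ (by positivity)
          rw [div_le_iff₀ hd]
          nlinarith
        rw [abs_div, abs_of_pos hr, div_le_iff₀ hr, abs_mul,
          abs_of_nonneg (mul_nonneg hc0 h1)]
        have h7 : |Aw P (r / 2) - Aw P ((r - s) / 2) - r * (P (r / 2) - P ((r - s) / 2))| ≤
            K * τ * r + r * ((q + 1) * K * (2 * τ)) := by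
          refine (abs_sub _ _).trans (add_le_add h5 ?_)
          rw [abs_mul, abs_of_pos hr]
          exact mul_le_mul_of_nonneg_left h6 hr.le
        calc _ ≤ 2 * 1 * (K * τ * r + r * ((q + 1) * K * (2 * τ))) :=
              mul_le_mul h4 h7 (abs_nonneg _) (by norm_num)
          _ ≤ 16 * (q + 1) * K * τ * r := by nlinarith
    · -- `n2`
      have h1 : 0 ≤ cmp τ s r := by
        rw [ecmp]
        positivity
      have h2 : cmp τ s r ≤ τ * r / 2 := by
        rw [ecmp, div_le_iff₀ (by positivity)]
        nlinarith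
      have h3 : 0 ≤ max (τ * r - s) 0 * (2 * τ * r - max (τ * r - s) 0) / (2 * τ * r ^ 2) := by
        have : 0 ≤ 2 * τ * r - max (τ * r - s) 0 := by nlinarith
        positivity
      have h4 : max (τ * r - s) 0 * (2 * τ * r - max (τ * r - s) 0) / (2 * τ * r ^ 2) ≤ τ / 2 := by
        rw [div_le_iff₀ (by positivity)]
        nlinarith [sq_nonneg (τ * r - max (τ * r - s) 0)]
      have hAr0 := (hn (r / 2)).1
      have hArK := (hub (r / 2) (by linarith)).1
      have hlo := hW.lo (r / 2) (by linarith)
      have hhi := hW.hi (r / 2) (by linarith)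
      have hκ := hW.κ0
      have hκ1 := hW.κ1
      have h5 : |-(P (r / 2) / 2) - r * P' (r / 2) / 2| ≤ 2 * ((q + 1) * K) := by
        rw [abs_le]
        constructor
        · nlinarith [mul_le_mul_of_nonneg_left hPrK hq.le, mul_pos hq hK]
        · nlinarith [mul_le_mul_of_nonneg_left hPrK hκ.le, mul_pos hq hK,
            mul_nonneg (by linarith : (0 : ℝ) ≤ 1 / 10 - κ) hPr0]
      have h6 : |Aw P (r / 2) - r * P (r / 2)| ≤ K * r := by
        rw [abs_le]
        constructor
        · nlinarith [mul_le_mul_of_nonneg_left hPrK hr.le]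
        · nlinarith [mul_nonneg hr.le hPr0]
      rw [abs_div, abs_of_pos hr, div_le_iff₀ hr, abs_neg, abs_mul, abs_of_nonneg hc0]
      have h7 : |(-(P (r / 2) / 2) - r * P' (r / 2) / 2) * cmp τ s r +
          (Aw P (r / 2) - r * P (r / 2)) *
            (max (τ * r - s) 0 * (2 * τ * r - max (τ * r - s) 0) / (2 * τ * r ^ 2))| ≤
          2 * ((q + 1) * K) * (τ * r / 2) + K * r * (τ / 2) := by
        refine (abs_add_le _ _).trans (add_le_add ?_ ?_)
        · rw [abs_mul, abs_of_nonneg h1]
          exact mul_le_mul h5 h2 h1 (by positivity)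
        · rw [abs_mul, abs_of_nonneg h3]
          exact mul_le_mul h6 h4 h3 (by positivity)
      calc _ ≤ 2 * (2 * ((q + 1) * K) * (τ * r / 2) + K * r * (τ / 2)) :=
            mul_le_mul hc2 h7 (abs_nonneg _) (by norm_num)
        _ ≤ 16 * (q + 1) * K * τ * r := by nlinarith
  · intro h
    rw [max_eq_right (by linarith : τ * r - s ≤ 0)]
    have e : cmp τ s r = 0 := by
      rw [ecmp, max_eq_right (by linarith : τ * r - s ≤ 0)]
      simp
    rw [e]
    constructor <;> simp
  · intro h
    have hKτ : 0 < (q + 1) * K * τ := by positivity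
    have hsd : s / ((r - s) / 2) ≤ 4 * τ := by
      rw [div_le_iff₀ hd]
      nlinarith
    have hρ : ∀ y, (r - s) / 2 ≤ y → y ≤ (r + s) / 2 →
        |P y - P ((r - s) / 2)| ≤ (q + 1) * K * (4 * τ) := by
      intro y hy1 hy2
      refine (hW4' ((r - s) / 2) y hd hy1).trans ?_
      refine mul_le_mul_of_nonneg_left (le_trans ?_ hsd) (by positivity)
      exact div_le_div_of_nonneg_right (by linarith) hd.le
    constructor
    · have h1 : |(Aw P ((r + s) / 2) - (r + s) / 2 * P ((r - s) / 2)) -
          (Aw P ((r - s) / 2) - (r - s) / 2 * P ((r - s) / 2))| ≤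
          (q + 1) * K * (4 * τ) * ((r + s) / 2 - (r - s) / 2) := by
        refine mvt (f := fun y => Aw P y - y * P ((r - s) / 2))
          (f' := fun y => P y - P ((r - s) / 2)) (by linarith) ?_ ?_ ?_
        · intro y _
          exact ((hA y).continuousAt.sub
            (continuousAt_id.mul continuousAt_const)).continuousWithinAt
        · intro y _
          have h2 : HasDerivAt (fun y => y * P ((r - s) / 2)) (P ((r - s) / 2)) y := by
            simpa using (hasDerivAt_id y).mul_const (P ((r - s) / 2))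
          exact (hA y).sub h2
        · intro y hy
          exact hρ y hy.1.le hy.2.le
      have e : b - 2 * c = 2 * ((Aw P ((r + s) / 2) - (r + s) / 2 * P ((r - s) / 2)) -
          (Aw P ((r - s) / 2) - (r - s) / 2 * P ((r - s) / 2))) / s := by
        simp only [b, c, L, d]
        field_simp
        ring
      rw [e, abs_div, abs_of_pos hs, div_le_iff₀ hs, abs_mul, abs_two]
      nlinarith
    · have e : 4 * g - 2 * c = 2 * (P ((r + s) / 2) - P ((r - s) / 2)) -
          2 * s * P ((r + s) / 2) / (r + s) := by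
        simp only [g, c, L, d]
        field_simp
        ring
      have h2 := hρ ((r + s) / 2) (by linarith) le_rfl
      have h3 : |2 * s * P ((r + s) / 2) / (r + s)| ≤ 2 * (K * τ) := by
        rw [abs_of_nonneg (by positivity), div_le_iff₀ hL]
        have h4 : s * P ((r + s) / 2) ≤ (τ * r) * K := mul_le_mul h.le hPLK hPL0 (by positivity)
        nlinarith [mul_pos (mul_pos hK hτ) hs]
      rw [e]
      refine (abs_sub _ _).trans ?_
      rw [abs_mul, abs_two]
      have h5 : K * τ ≤ (q + 1) * K * τ := by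
        nlinarith [mul_pos hK hτ, mul_pos hq (mul_pos hK hτ)]
      nlinarith

end Helper87.NF.M_DH

end
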