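import Pool.Agent.Helper42.NF.DerH

/-!
# Module DU: second derivatives in the region `r < s` (by helper42)
-/

set_option autoImplicit false
set_option maxSynthPendingDepth 3

open MeasureTheory Complex Filter Topology
open scoped ENNReal NNReal ComplexConjugate

noncomputable section

namespace Helper87.NF.M_DU

open Helper85.IW Helper87.NF Helper87.NF.H42

theorem main (hW1 : StW1) (hW2 : StW2) : StDU := by
  intro P P' q κ K hW ε d1 τ r s hτ hτ1 hr hrs hne
  obtain ⟨hA, hC, hM, hB, hBc, h0⟩ := hW1 P P' q κ K hW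
  obtain ⟨hn, hub, hcmp, hsm⟩ := hW2 P P' q κ K hW
  have hs : 0 < s := hr.trans hrs
  have hL : 0 < r + s := by linarith
  have hd : (r - s) / 2 ≤ 0 := by linarith
  have hPd : P ((r - s) / 2) = 0 := hW.zero _ hd
  have hAd : Aw P ((r - s) / 2) = 0 := (h0 _ hd).1
  have hX' : max (τ * r - s) 0 = 0 := max_eq_right (by nlinarith)
  have hK := hW.K0
  have hopen : ∀ᶠ x : ℝ × ℝ in 𝓝 (r, s), x.1 < x.2 ∧ 0 < x.1 := by
    have h1 : ∀ᶠ x : ℝ × ℝ in 𝓝 (r, s), x.1 < x.2 :=
      (isOpen_lt continuous_fst continuous_snd).mem_nhds hrs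
    have h2 : ∀ᶠ x : ℝ × ℝ in 𝓝 (r, s), 0 < x.1 :=
      (isOpen_lt continuous_const continuous_fst).mem_nhds hr
    exact h1.and h2
  have ecmp : cmp τ r s = (max (τ * s - r) 0) ^ 2 / (2 * τ * s) := rfl
  have hcmp0 : cmp τ s r = 0 := by
    show (max (τ * r - s) 0) ^ 2 / (2 * τ * r) = 0
    rw [hX']
    simp
  refine ⟨(2 - d1) * (max (τ * s - r) 0 / (τ * s)) * (Aw P ((r + s) / 2) - Aw P (s / 2)) / s,
    (2 - d1) * (P (s / 2) / 2 * cmp τ r s + Aw P (s / 2) *
      (max (τ * s - r) 0 * (2 * τ * s - max (τ * s - r) 0) / (2 * τ * s ^ 2))) / s, ?_⟩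
  intro L B g b w
  have hp1 : HasFDerivAt (p1H P ε) (lin2 (B + 2 * g + 2 * ε) (2 * g)) (r, s) := by
    refine hf_congr (hf_p1H hW1 hW ε (x := (r, s)) hL) ?_ ?_
    · simp only [hPd, B, g, L]
      field_simp
      ring
    · simp only [hPd, B, g, L]
      field_simp
      ring
  have hp2 : HasFDerivAt (p2H P) (lin2 (2 * g) (-B + 2 * g)) (r, s) := by
    refine hf_congr (hf_p2H hW1 hW (x := (r, s)) hL) ?_ ?_
    · simp only [hPd, B, g, L]
      field_simp
      ring
    · simp only [hPd, B, g, L]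
      field_simp
      ring
  have hMH : HasFDerivAt (MH P ε d1 τ) (lin2 (r * (-2 * ε)) 0) (r, s) := by
    refine hf_congr (hf_MH hW1 hW ε d1 hτ (x := (r, s)) hr) ?_ ?_
    · simp only [hPd, hAd, hX', hcmp0]
      ring
    · simp only [hPd, hAd, hX']
      ring
  have hNH : HasFDerivAt (NH P ε d1 τ) (lin2 (s * (b - w * b / 2 +
      (2 - d1) * (max (τ * s - r) 0 / (τ * s)) * (Aw P ((r + s) / 2) - Aw P (s / 2)) / s))
      (s * (b + (2 - d1) * (P (s / 2) / 2 * cmp τ r s + Aw P (s / 2) *
      (max (τ * s - r) 0 * (2 * τ * s - max (τ * s - r) 0) / (2 * τ * s ^ 2))) / s + 2 * ε)))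
      (r, s) := by
    refine hf_congr (hf_NH hW1 hW ε d1 hτ (x := (r, s)) hs) ?_ ?_
    · simp only [hPd, hAd, b, w, L]
      field_simp
      ring
    · simp only [hPd, hAd, b, L]
      field_simp
      ring
  refine ⟨?_, ?_, ?_, ?_, ?_⟩
  · intro p1 hp
    rcases hp with rfl | rfl
    · refine ⟨hp1.congr_of_eventuallyEq ?_, ?_⟩
      · filter_upwards [hopen] with x hx
        unfold p1V p1H
        rw [if_neg (not_lt.2 hx.1.le), (h0 ((x.1 - x.2) / 2) (by linarith [hx.1])).1]
        ring
      · show ((if s < r then r * Bw P r else r * Bw P ((r + s) / 2)) + 2 * ε * r) / r = B + 2 * ε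
        rw [if_neg (not_lt.2 hrs.le)]
        simp only [B, L]
        field_simp
    · refine ⟨hp1, ?_⟩
      show (r * Bw P ((r + s) / 2) + 2 * Aw P ((r - s) / 2) + 2 * ε * r) / r = B + 2 * ε
      rw [hAd]
      simp only [B, L]
      field_simp
      ring
  · intro p2 hp
    rcases hp with rfl | rfl
    · refine ⟨hp2.congr_of_eventuallyEq ?_, ?_⟩
      · filter_upwards [hopen] with x hx
        unfold p2V p2H
        rw [if_neg (not_lt.2 hx.1.le), (h0 ((x.1 - x.2) / 2) (by linarith [hx.1])).1]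
        ring
      · show (if s < r then -s * Bw P s + 2 * Aw P s
          else -s * Bw P ((r + s) / 2) + 2 * Aw P ((r + s) / 2)) / s = -B + b
        rw [if_neg (not_lt.2 hrs.le)]
        simp only [B, b, L]
        field_simp
    · refine ⟨hp2, ?_⟩
      show (-s * Bw P ((r + s) / 2) + 2 * Aw P ((r + s) / 2) - 2 * Aw P ((r - s) / 2)) / s = -B + b
      rw [hAd]
      simp only [B, b, L]
      field_simp
      ring
  · intro M hp
    rcases hp with rfl | rfl
    · refine hMH.congr_of_eventuallyEq ?_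
      filter_upwards [hopen] with x hx
      have e1 := h0 ((x.1 - x.2) / 2) (by linarith [hx.1])
      have e2 : cmp τ x.2 x.1 = 0 := by
        show (max (τ * x.1 - x.2) 0) ^ 2 / (2 * τ * x.1) = 0
        rw [max_eq_right (by nlinarith [hx.1, hx.2])]
        simp
      unfold MV MH
      rw [if_neg (not_lt.2 hx.1.le), e1.1, e1.2.2.2, e2]
      ring
    · exact hMH
  · intro N hp
    rcases hp with rfl | rfl
    · refine hNH.congr_of_eventuallyEq ?_
      filter_upwards [hopen] with x hx
      have e1 := h0 ((x.1 - x.2) / 2) (by linarith [hx.1])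
      unfold NV NH
      rw [if_neg (not_lt.2 hx.1.le), e1.1, e1.2.2.2]
      ring
    · exact hNH
  · intro hd0 hd2
    have hτs : 0 < τ * s := by positivity
    have hX0 : 0 ≤ max (τ * s - r) 0 := le_max_right _ _
    have hXs : max (τ * s - r) 0 ≤ τ * s := max_le (by linarith) hτs.le
    have hc0 : 0 ≤ 2 - d1 := by linarith
    have hc2 : 2 - d1 ≤ 2 := by linarith
    constructor
    · -- `n1`
      have hAl := A_diff hW1 hW (x := s / 2) (y := (r + s) / 2) (by linarith)
      rcases le_or_gt (τ * s) r with h | h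
      · rw [max_eq_right (by linarith)]
        simp
        positivity
      · have h1 : 0 ≤ max (τ * s - r) 0 / (τ * s) := by positivity
        have h2 : max (τ * s - r) 0 / (τ * s) ≤ 1 := (div_le_one hτs).2 hXs
        have h3 : Aw P ((r + s) / 2) - Aw P (s / 2) ≤ K * (τ * s) := by
          refine hAl.2.trans ?_
          nlinarith
        rw [abs_of_nonneg (by have := hAl.1; positivity), div_le_iff₀ hs]
        have h4 : (2 - d1) * (max (τ * s - r) 0 / (τ * s)) ≤ 2 * 1 :=
          mul_le_mul hc2 h2 h1 (by norm_num)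
        calc _ ≤ 2 * 1 * (K * (τ * s)) := mul_le_mul h4 h3 hAl.1 (by norm_num)
          _ ≤ 4 * K * τ * s := by
            have : 0 < K * τ * s := by positivity
            nlinarith
    · -- `n2`
      have hP0 := P_nonneg hW (s / 2)
      have hPK := hW.bd (s / 2)
      have hA0 := (hn (s / 2)).1
      have hAK := (hub (s / 2) (by linarith)).1
      have h1 : 0 ≤ cmp τ r s := by
        rw [ecmp]
        positivity
      have h2 : cmp τ r s ≤ τ * s / 2 := by
        rw [ecmp, div_le_iff₀ (by positivity)]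
        nlinarith
      have h3 : 0 ≤ max (τ * s - r) 0 * (2 * τ * s - max (τ * s - r) 0) / (2 * τ * s ^ 2) := by
        have : 0 ≤ 2 * τ * s - max (τ * s - r) 0 := by nlinarith
        positivity
      have h4 : max (τ * s - r) 0 * (2 * τ * s - max (τ * s - r) 0) / (2 * τ * s ^ 2) ≤ τ / 2 := by
        rw [div_le_iff₀ (by positivity)]
        nlinarith [sq_nonneg (τ * s - max (τ * s - r) 0)]
      rw [abs_of_nonneg (by positivity), div_le_iff₀ hs]
      have h5 : P (s / 2) / 2 * cmp τ r s ≤ K / 2 * (τ * s / 2) :=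
        mul_le_mul (by linarith) h2 h1 (by positivity)
      have h6 : Aw P (s / 2) *
          (max (τ * s - r) 0 * (2 * τ * s - max (τ * s - r) 0) / (2 * τ * s ^ 2)) ≤
          K * (s / 2) * (τ / 2) := mul_le_mul hAK h4 h3 (by positivity)
      calc _ ≤ 2 * (K / 2 * (τ * s / 2) + K * (s / 2) * (τ / 2)) :=
            mul_le_mul hc2 (add_le_add h5 h6) (by positivity) (by norm_num)
        _ ≤ 4 * K * τ * s := by
          have : 0 < K * τ * s := by positivity
          nlinarith

end Helper87.NF.M_DU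

end
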