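import Pool.Agent.Helper42.NF.DerH

/-!
# Module EV: Lipschitz bounds of `MV/r`, `NV/s` (by helper42)
-/

set_option autoImplicit false
set_option maxSynthPendingDepth 3

open MeasureTheory Complex Filter Topology
open scoped ENNReal NNReal ComplexConjugate

noncomputable section

namespace Helper87.NF.M_EV

open Helper85.IW Helper87.NF Helper87.NF.H42

/-- Lipschitz in each variable implies Lipschitz on the quadrant -/
theorem lip_of_coord {w : ℝ × ℝ → ℝ} {C : ℝ}
    (h1 : ∀ r r' s : ℝ, 0 ≤ r → r ≤ r' → 0 ≤ s → |w (r', s) - w (r, s)| ≤ C * (r' - r))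
    (h2 : ∀ r s s' : ℝ, 0 ≤ r → 0 ≤ s → s ≤ s' → |w (r, s') - w (r, s)| ≤ C * (s' - s)) :
    ∀ x ∈ qd, ∀ y ∈ qd, |w x - w y| ≤ 2 * |C| * ‖x - y‖ := by
  have g1 : ∀ r r' s : ℝ, 0 ≤ r → 0 ≤ r' → 0 ≤ s → |w (r, s) - w (r', s)| ≤ |C| * |r - r'| := by
    intro r r' s hr hr' hs
    rcases le_total r r' with h | h
    · rw [abs_sub_comm, abs_sub_comm r r', abs_of_nonneg (by linarith : 0 ≤ r' - r)]
      exact (h1 r r' s hr h hs).trans (mul_le_mul_of_nonneg_right (le_abs_self C) (by linarith))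
    · rw [abs_of_nonneg (by linarith : 0 ≤ r - r')]
      exact (h1 r' r s hr' h hs).trans (mul_le_mul_of_nonneg_right (le_abs_self C) (by linarith))
  have g2 : ∀ r s s' : ℝ, 0 ≤ r → 0 ≤ s → 0 ≤ s' → |w (r, s) - w (r, s')| ≤ |C| * |s - s'| := by
    intro r s s' hr hs hs'
    rcases le_total s s' with h | h
    · rw [abs_sub_comm, abs_sub_comm s s', abs_of_nonneg (by linarith : 0 ≤ s' - s)]
      exact (h2 r s s' hr hs h).trans (mul_le_mul_of_nonneg_right (le_abs_self C) (by linarith))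
    · rw [abs_of_nonneg (by linarith : 0 ≤ s - s')]
      exact (h2 r s' s hr hs' h).trans (mul_le_mul_of_nonneg_right (le_abs_self C) (by linarith))
  rintro ⟨r, s⟩ ⟨hr, hs⟩ ⟨r', s'⟩ ⟨hr', hs'⟩
  have e1 : |r - r'| ≤ ‖((r, s) : ℝ × ℝ) - (r', s')‖ := by
    rw [Prod.norm_def]
    exact le_max_left _ _
  have e2 : |s - s'| ≤ ‖((r, s) : ℝ × ℝ) - (r', s')‖ := by
    rw [Prod.norm_def]
    exact le_max_right _ _
  have e3 := g1 r r' s hr hr' hs
  have e4 := g2 r' s s' hr' hs hs'
  have e5 : |w (r, s) - w (r', s')| ≤ |w (r, s) - w (r', s)| + |w (r', s) - w (r', s')| :=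
    abs_sub_le _ _ _
  have hC := abs_nonneg C
  have e6 := mul_le_mul_of_nonneg_left e1 hC
  have e7 := mul_le_mul_of_nonneg_left e2 hC
  linarith

variable {P P' : ℝ → ℝ} {q κ K : ℝ}

theorem M_lip (hW1 : StW1) (hW : Wt P P' q κ K) {x y : ℝ} (hx : 0 ≤ x) (hxy : x ≤ y) :
    |Mw P y - Mw P x| ≤ K * y * (y - x) := by
  obtain ⟨hA, hC, hM, hB, hBc, h0⟩ := hW1 P P' q κ K hW
  refine mvt hxy (fun z _ => (hM z).continuousAt.continuousWithinAt) (fun z _ => hM z) ?_
  intro z hz
  have h1 : 0 < z := lt_of_le_of_lt hx hz.1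
  rw [abs_of_nonneg (mul_nonneg h1.le (P_nonneg hW z))]
  have h2 := mul_le_mul hz.2.le (hW.bd z) (P_nonneg hW z) (h1.le.trans hz.2.le)
  linarith

theorem C_lip (hW1 : StW1) (hW2 : StW2) (hW : Wt P P' q κ K) {x y : ℝ} (hx : 0 ≤ x)
    (hxy : x ≤ y) : |Cw P y - Cw P x| ≤ K * y * (y - x) := by
  obtain ⟨hA, hC, hM, hB, hBc, h0⟩ := hW1 P P' q κ K hW
  obtain ⟨hn, hub, hcmp, hsm⟩ := hW2 P P' q κ K hW
  refine mvt hxy (fun z _ => (hC z).continuousAt.continuousWithinAt) (fun z _ => hC z) ?_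
  intro z hz
  have h1 : 0 < z := lt_of_le_of_lt hx hz.1
  rw [abs_of_nonneg (hn z).1]
  have h2 := (hub z h1.le).1
  have h3 := mul_le_mul_of_nonneg_left hz.2.le hW.K0.le
  linarith

/-- first part: `MV / r` -/
theorem mv (hW1 : StW1) (hW : Wt P P' q κ K) {ε : ℝ} (hε : 0 < ε) :
    ∀ x ∈ qd, ∀ y ∈ qd, |MV P ε x / x.1 - MV P ε y / y.1| ≤ 2 * |2 * K + ε| * ‖x - y‖ := by
  have hK := hW.K0
  have hw : ∀ r s : ℝ, MV P ε (r, s) / r = -((Mw P r - Mw P (min r s)) / r) - ε * r := by
    intro r s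
    unfold MV
    by_cases hr : r = 0
    · subst hr
      simp
    · by_cases h : s < r
      · simp only [h, if_true, min_eq_right h.le]
        field_simp
      · simp only [h, if_false, min_eq_left (not_lt.1 h)]
        field_simp
        ring
  refine lip_of_coord (w := fun x => MV P ε x / x.1) ?_ ?_
  · intro r r' s hr hrr hs
    show |MV P ε (r', s) / r' - MV P ε (r, s) / r| ≤ _
    rw [hw, hw]
    have hm : |(Mw P r' - Mw P (min r' s)) / r' - (Mw P r - Mw P (min r s)) / r| ≤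
        2 * K * (r' - r) := by
      rcases le_or_gt r' s with h1 | h1
      · rw [min_eq_left h1, min_eq_left (hrr.trans h1)]
        simp only [sub_self, zero_div, abs_zero]
        have : 0 ≤ r' - r := by linarith
        positivity
      · have hr' : 0 < r' := lt_of_le_of_lt hs h1
        rcases le_or_gt r s with h2 | h2
        · rw [min_eq_right h1.le, min_eq_left h2]
          simp only [sub_self, zero_div, sub_zero]
          rw [abs_div, abs_of_pos hr', div_le_iff₀ hr']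
          refine (M_lip hW1 hW hs h1.le).trans ?_
          nlinarith [mul_pos hK hr', mul_nonneg (mul_pos hK hr').le (by linarith : 0 ≤ s - r),
            mul_nonneg (mul_pos hK hr').le (by linarith : 0 ≤ r' - r)]
        · have hr0 : 0 < r := lt_of_le_of_lt hs h2
          rw [min_eq_right h1.le, min_eq_right h2.le]
          have e : (Mw P r' - Mw P s) / r' - (Mw P r - Mw P s) / r =
              (Mw P r' - Mw P r) / r' - (Mw P r - Mw P s) * ((r' - r) / (r * r')) := by
            field_simp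
            ring
          rw [e]
          have a1 : |(Mw P r' - Mw P r) / r'| ≤ K * (r' - r) := by
            rw [abs_div, abs_of_pos hr', div_le_iff₀ hr']
            refine (M_lip hW1 hW hr hrr).trans (le_of_eq ?_)
            ring
          have a2 : |(Mw P r - Mw P s) * ((r' - r) / (r * r'))| ≤ K * (r' - r) := by
            have hq0 : 0 ≤ (r' - r) / (r * r') := div_nonneg (by linarith) (by positivity)
            rw [abs_mul, abs_of_nonneg hq0]
            have a3 : |Mw P r - Mw P s| ≤ K * (r * r') := by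
              refine (M_lip hW1 hW hs h2.le).trans ?_
              have : r * (r - s) ≤ r * r' := by nlinarith
              nlinarith
            calc _ ≤ K * (r * r') * ((r' - r) / (r * r')) := mul_le_mul_of_nonneg_right a3 hq0
              _ = _ := by field_simp
          refine (abs_sub _ _).trans ?_
          linarith
    have e : -((Mw P r' - Mw P (min r' s)) / r') - ε * r' -
        (-((Mw P r - Mw P (min r s)) / r) - ε * r) =
        -((Mw P r' - Mw P (min r' s)) / r' - (Mw P r - Mw P (min r s)) / r) - ε * (r' - r) := by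
      ring
    rw [e]
    refine (abs_sub _ _).trans ?_
    rw [abs_neg, abs_of_nonneg (by nlinarith : 0 ≤ ε * (r' - r))]
    linarith
  · intro r s s' hr hs hss
    show |MV P ε (r, s') / r - MV P ε (r, s) / r| ≤ _
    rw [hw, hw]
    have e : -((Mw P r - Mw P (min r s')) / r) - ε * r - (-((Mw P r - Mw P (min r s)) / r) - ε * r)
        = (Mw P (min r s') - Mw P (min r s)) / r := by
      ring
    rw [e]
    rcases hr.eq_or_lt with h | h
    · rw [← h]
      simp only [div_zero, abs_zero]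
      have : 0 ≤ s' - s := by linarith
      positivity
    · rw [abs_div, abs_of_pos h, div_le_iff₀ h]
      have h1 : 0 ≤ min r s := le_min hr hs
      have h2 : min r s ≤ min r s' := min_le_min_left r hss
      have h3 : min r s' - min r s ≤ s' - s := by
        rcases le_total r s with h4 | h4
        · rw [min_eq_left h4, min_eq_left (h4.trans hss)]
          linarith
        · rw [min_eq_right h4]
          linarith [min_le_right r s']
      have h4 : min r s' ≤ r := min_le_left _ _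
      refine (M_lip hW1 hW h1 h2).trans ?_
      have h5 : K * min r s' * (min r s' - min r s) ≤ K * r * (s' - s) := by
        refine mul_le_mul (mul_le_mul_of_nonneg_left h4 hK.le) h3 (by linarith) (by positivity)
      have h6 : 0 ≤ (K + ε) * ((s' - s) * r) :=
        mul_nonneg (by linarith) (mul_nonneg (by linarith) hr)
      nlinarith

/-- second part: the main term of `NV / s` -/
def T1 (P : ℝ → ℝ) (x : ℝ × ℝ) : ℝ :=
  (if x.2 < x.1 then 4 * Cw P x.2 + x.2 * (1 - x.2 / x.1) * (2 * Aw P x.2 - x.2 * P x.2)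
    else 4 * Cw P ((x.1 + x.2) / 2)) / x.2

def T2 (P : ℝ → ℝ) (d1 τ : ℝ) (x : ℝ × ℝ) : ℝ :=
  (2 - d1) * Aw P (x.2 / 2) * cmp τ x.1 x.2 / x.2

theorem T1_lt (r s : ℝ) (hs : 0 < s) (h : s < r) :
    T1 P (r, s) = 4 * Cw P s * s⁻¹ + (1 - s / r) * (2 * Aw P s - s * P s) := by
  unfold T1
  simp only [h, if_true]
  field_simp

theorem T1_ge (r s : ℝ) (h : r ≤ s) : T1 P (r, s) = 4 * Cw P ((r + s) / 2) * s⁻¹ := by
  unfold T1
  simp only [not_lt.2 h, if_false]
  rw [div_eq_mul_inv]

theorem T1_lt' (r s : ℝ) (hs : 0 < s) (h : s ≤ r) :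
    T1 P (r, s) = 4 * Cw P s * s⁻¹ + (1 - s / r) * (2 * Aw P s - s * P s) := by
  rcases h.eq_or_lt with h | h
  · subst h
    rw [T1_ge s s le_rfl, div_self hs.ne']
    simp
  · exact T1_lt r s hs h

theorem aux_bd (hW2 : StW2) (hW : Wt P P' q κ K) {s : ℝ} (hs : 0 < s) :
    |2 * Aw P s - s * P s| ≤ 2 * K * s := by
  obtain ⟨hn, hub, hcmp, hsm⟩ := hW2 P P' q κ K hW
  have h1 := (hn s).1
  have h2 := (hub s hs.le).1
  have h3 := P_nonneg hW s
  have h4 := mul_le_mul_of_nonneg_left (hW.bd s) hs.le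
  have h5 := mul_nonneg hs.le h3
  have hK := hW.K0
  rw [abs_le]
  constructor
  · nlinarith
  · nlinarith

theorem T1_zero (r : ℝ) : T1 P (r, 0) = 0 := by
  unfold T1
  simp

theorem T1_r (hW1 : StW1) (hW2 : StW2) (hW : Wt P P' q κ K) (r r' s : ℝ) (hr : 0 ≤ r)
    (hrr : r ≤ r') (hs : 0 ≤ s) : |T1 P (r', s) - T1 P (r, s)| ≤ 2 * K * (r' - r) := by
  have hK := hW.K0
  rcases hs.eq_or_lt with h | hs
  · rw [← h, T1_zero, T1_zero, sub_self, abs_zero]
    have : 0 ≤ r' - r := by linarith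
    positivity
  have below : ∀ a b : ℝ, 0 ≤ a → a ≤ b → b ≤ s →
      |T1 P (b, s) - T1 P (a, s)| ≤ 2 * K * (b - a) := by
    intro a b ha hab hb
    rw [T1_ge b s hb, T1_ge a s (hab.trans hb), ← sub_mul, ← mul_sub, abs_mul, abs_mul,
      abs_of_pos (inv_pos.2 hs), abs_of_pos (by norm_num : (0 : ℝ) < 4), ← div_eq_mul_inv,
      div_le_iff₀ hs]
    have h1 := C_lip hW1 hW2 hW (x := (a + s) / 2) (y := (b + s) / 2) (by linarith) (by linarith)
    have h2 : K * ((b + s) / 2) * ((b + s) / 2 - (a + s) / 2) ≤ K * s * ((b - a) / 2) := by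
      have e : (b + s) / 2 - (a + s) / 2 = (b - a) / 2 := by ring
      rw [e]
      exact mul_le_mul_of_nonneg_right (mul_le_mul_of_nonneg_left (by linarith) hK.le)
        (by linarith)
    nlinarith
  have above : ∀ a b : ℝ, s ≤ a → a ≤ b → |T1 P (b, s) - T1 P (a, s)| ≤ 2 * K * (b - a) := by
    intro a b ha hab
    have ha0 : 0 < a := hs.trans_le ha
    have hb0 : 0 < b := ha0.trans_le hab
    rw [T1_lt' b s hs (ha.trans hab), T1_lt' a s hs ha]
    have e : 4 * Cw P s * s⁻¹ + (1 - s / b) * (2 * Aw P s - s * P s) -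
        (4 * Cw P s * s⁻¹ + (1 - s / a) * (2 * Aw P s - s * P s)) =
        (2 * Aw P s - s * P s) * (s * (b - a) / (a * b)) := by
      field_simp
      ring
    have h0 : 0 ≤ s * (b - a) / (a * b) :=
      div_nonneg (mul_nonneg hs.le (by linarith)) (by positivity)
    rw [e, abs_mul, abs_of_nonneg h0]
    have h1 : s * (b - a) / (a * b) ≤ (b - a) / s := by
      rw [div_le_div_iff₀ (by positivity) hs]
      have : s * s ≤ a * b := mul_le_mul ha (ha.trans hab) hs.le ha0.le
      nlinarith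
    calc _ ≤ 2 * K * s * ((b - a) / s) :=
          mul_le_mul (aux_bd hW2 hW hs) h1 h0 (by positivity)
      _ = _ := by field_simp
  rcases le_total r' s with h1 | h1
  · exact below r r' hr hrr h1
  · rcases le_total s r with h2 | h2
    · exact above r r' h2 hrr
    · have e1 := below r s hr h2 le_rfl
      have e2 := above s r' le_rfl h1
      have e3 : |T1 P (r', s) - T1 P (r, s)| ≤
          |T1 P (r', s) - T1 P (s, s)| + |T1 P (s, s) - T1 P (r, s)| := abs_sub_le _ _ _
      linarith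

theorem T1_s (hW1 : StW1) (hW2 : StW2) (hW : Wt P P' q κ K) (r s s' : ℝ) (hr : 0 ≤ r)
    (hs : 0 ≤ s) (hss : s ≤ s') :
    |T1 P (r, s') - T1 P (r, s)| ≤ 20 * (q + 1) * K * (s' - s) := by
  obtain ⟨hA, hC, hM, hB, hBc, h0⟩ := hW1 P P' q κ K hW
  obtain ⟨hn, hub, hcmp, hsm⟩ := hW2 P P' q κ K hW
  have hK := hW.K0
  have hq := hW.q0
  have hqK : 0 < q * K := by positivity
  rcases hs.eq_or_lt with h | hs
  · -- `s = 0`
    subst h
    rw [T1_zero, sub_zero, sub_zero]
    rcases hss.eq_or_lt with h | hs'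
    · rw [← h, T1_zero, abs_zero, mul_zero]
    rcases le_total r s' with h1 | h1
    · rw [T1_ge r s' h1, ← div_eq_mul_inv, abs_of_nonneg (by
        have := (hn ((r + s') / 2)).2.2.2.1
        positivity), div_le_iff₀ hs']
      have h2 := (hub ((r + s') / 2) (by linarith)).2.2
      have h3 : ((r + s') / 2) ^ 2 ≤ s' ^ 2 := pow_le_pow_left₀ (by linarith) (by linarith) 2
      have h4 := mul_le_mul_of_nonneg_left h3 hK.le
      nlinarith [mul_pos hqK (pow_pos hs' 2), mul_pos hK (pow_pos hs' 2)]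
    · have hr0 : 0 < r := hs'.trans_le h1
      rw [T1_lt' r s' hs' h1]
      have h2 := (hub s' hs'.le).2.2
      have h3 := (hn s').2.2.2.1
      have a1 : |4 * Cw P s' * s'⁻¹| ≤ 4 * K * s' := by
        rw [← div_eq_mul_inv, abs_of_nonneg (by positivity), div_le_iff₀ hs']
        nlinarith
      have a2 : |(1 - s' / r) * (2 * Aw P s' - s' * P s')| ≤ 2 * K * s' := by
        have h4 : 0 ≤ 1 - s' / r := by
          rw [sub_nonneg, div_le_one hr0]
          exact h1
        have h5 : 1 - s' / r ≤ 1 := by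
          have : 0 ≤ s' / r := by positivity
          linarith
        rw [abs_mul, abs_of_nonneg h4]
        calc _ ≤ 1 * (2 * K * s') := mul_le_mul h5 (aux_bd hW2 hW hs') (abs_nonneg _) zero_le_one
          _ = _ := by ring
      refine (abs_add_le _ _).trans ?_
      nlinarith [mul_pos hqK hs', mul_pos hK hs']
  have above : ∀ a b : ℝ, 0 < a → r ≤ a → a ≤ b →
      |T1 P (r, b) - T1 P (r, a)| ≤ 20 * (q + 1) * K * (b - a) := by
    intro a b ha0 ha hab
    rw [T1_ge r b (ha.trans hab), T1_ge r a ha]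
    have hd : ∀ z : ℝ, 0 < z → HasDerivAt (fun s => 4 * Cw P ((r + s) / 2) * s⁻¹)
        (2 * Aw P ((r + z) / 2) * z⁻¹ - 4 * Cw P ((r + z) / 2) * (z ^ 2)⁻¹) z := by
      intro z hz
      have e1 : HasDerivAt (fun s : ℝ => (r + s) / 2) (1 / 2) z :=
        ((hasDerivAt_id z).const_add r).div_const 2
      have e2 : HasDerivAt (fun s : ℝ => Cw P ((r + s) / 2)) (Aw P ((r + z) / 2) * (1 / 2)) z := by
        have := HasDerivAt.comp z (hC ((r + z) / 2)) e1
        exact this
      have e3 := (e2.const_mul 4).mul (hasDerivAt_inv hz.ne')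
      refine e3.congr_deriv ?_
      ring
    refine mvt hab (fun z hz => (hd z (ha0.trans_le hz.1)).continuousAt.continuousWithinAt)
      (fun z hz => hd z (ha0.trans hz.1)) ?_
    intro z hz
    have hz0 : 0 < z := ha0.trans hz.1
    have hrz : r ≤ z := ha.trans hz.1.le
    have b1 := (hn ((r + z) / 2)).1
    have b2 := (hub ((r + z) / 2) (by linarith)).1
    have b3 := (hn ((r + z) / 2)).2.2.2.1
    have b4 := (hub ((r + z) / 2) (by linarith)).2.2
    have c1 : |2 * Aw P ((r + z) / 2) * z⁻¹| ≤ 2 * K := by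
      rw [← div_eq_mul_inv, abs_of_nonneg (by positivity), div_le_iff₀ hz0]
      nlinarith
    have c2 : |4 * Cw P ((r + z) / 2) * (z ^ 2)⁻¹| ≤ 4 * K := by
      rw [← div_eq_mul_inv, abs_of_nonneg (by positivity), div_le_iff₀ (by positivity)]
      have h3 : ((r + z) / 2) ^ 2 ≤ z ^ 2 := pow_le_pow_left₀ (by linarith) (by linarith) 2
      have h4 := mul_le_mul_of_nonneg_left h3 hK.le
      linarith
    refine (abs_sub _ _).trans ?_
    nlinarith
  have below : ∀ a b : ℝ, 0 < a → a ≤ b → b ≤ r →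
      |T1 P (r, b) - T1 P (r, a)| ≤ 20 * (q + 1) * K * (b - a) := by
    intro a b ha0 hab hb
    have hr0 : 0 < r := ha0.trans_le (hab.trans hb)
    rw [T1_lt' r b (ha0.trans_le hab) hb, T1_lt' r a ha0 (hab.trans hb)]
    have hd : ∀ z : ℝ, 0 < z → HasDerivAt
        (fun s => 4 * Cw P s * s⁻¹ + (1 - s / r) * (2 * Aw P s - s * P s))
        (4 * Aw P z * z⁻¹ - 4 * Cw P z * (z ^ 2)⁻¹ +
          (-(1 / r) * (2 * Aw P z - z * P z) + (1 - z / r) * (P z - z * P' z))) z := by
      intro z hz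
      have e1 := ((hC z).const_mul 4).mul (hasDerivAt_inv hz.ne')
      have e2 : HasDerivAt (fun s : ℝ => 1 - s / r) (-(1 / r)) z := by
        have := ((hasDerivAt_id z).div_const r).const_sub 1
        exact this
      have e3 : HasDerivAt (fun s : ℝ => 2 * Aw P s - s * P s) (P z - z * P' z) z := by
        have f1 := (hA z).const_mul 2
        have f2 := (hasDerivAt_id z).mul (hW.der z hz)
        have f3 := f1.sub f2
        refine f3.congr_deriv ?_
        simp only [id]
        ring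
      have e4 := e1.add (e2.mul e3)
      refine e4.congr_deriv ?_
      ring
    refine mvt hab (fun z hz => (hd z (ha0.trans_le hz.1)).continuousAt.continuousWithinAt)
      (fun z hz => hd z (ha0.trans hz.1)) ?_
    intro z hz
    have hz0 : 0 < z := ha0.trans hz.1
    have hzr : z ≤ r := hz.2.le.trans hb
    have b1 := (hn z).1
    have b2 := (hub z hz0.le).1
    have b3 := (hn z).2.2.2.1
    have b4 := (hub z hz0.le).2.2
    have c1 : |4 * Aw P z * z⁻¹| ≤ 4 * K := by
      rw [← div_eq_mul_inv, abs_of_nonneg (by positivity), div_le_iff₀ hz0]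
      nlinarith
    have c2 : |4 * Cw P z * (z ^ 2)⁻¹| ≤ 4 * K := by
      rw [← div_eq_mul_inv, abs_of_nonneg (by positivity), div_le_iff₀ (by positivity)]
      nlinarith
    have c3 : |-(1 / r) * (2 * Aw P z - z * P z)| ≤ 2 * K := by
      rw [abs_mul, abs_neg, abs_of_pos (by positivity), one_div, mul_comm, ← div_eq_mul_inv,
        div_le_iff₀ hr0]
      refine (aux_bd hW2 hW hz0).trans ?_
      nlinarith
    have c4 : |(1 - z / r) * (P z - z * P' z)| ≤ 3 * ((q + 1) * K) := by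
      have h4 : 0 ≤ 1 - z / r := by
        rw [sub_nonneg, div_le_one hr0]
        exact hzr
      have h5 : 1 - z / r ≤ 1 := by
        have : 0 ≤ z / r := by positivity
        linarith
      have hP0 := P_nonneg hW z
      have hPK := hW.bd z
      have hlo := hW.lo z hz0
      have hhi := hW.hi z hz0
      have hκ := hW.κ0
      have hκ1 := hW.κ1
      have h6 : |P z - z * P' z| ≤ 3 * ((q + 1) * K) := by
        rw [abs_le]
        constructor
        · nlinarith [mul_le_mul_of_nonneg_left hPK hq.le]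
        · nlinarith [mul_nonneg (by linarith : (0 : ℝ) ≤ 1 / 10 - κ) hP0]
      rw [abs_mul, abs_of_nonneg h4]
      calc _ ≤ 1 * (3 * ((q + 1) * K)) := mul_le_mul h5 h6 (abs_nonneg _) zero_le_one
        _ = _ := by ring
    have d1 := abs_sub (4 * Aw P z * z⁻¹) (4 * Cw P z * (z ^ 2)⁻¹)
    have d2 := abs_add_le (-(1 / r) * (2 * Aw P z - z * P z)) ((1 - z / r) * (P z - z * P' z))
    refine (abs_add_le _ _).trans ?_
    nlinarith
  rcases le_total r s with h1 | h1
  · exact above s s' hs h1 hss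
  · rcases le_total s' r with h2 | h2
    · exact below s s' hs hss h2
    · have hr0 : 0 < r := hs.trans_le h1
      have e1 := below s r hs h1 le_rfl
      have e2 := above r s' hr0 le_rfl h2
      have e3 : |T1 P (r, s') - T1 P (r, s)| ≤
          |T1 P (r, s') - T1 P (r, r)| + |T1 P (r, r) - T1 P (r, s)| := abs_sub_le _ _ _
      linarith

theorem T2_zero (d1 τ r : ℝ) : T2 P d1 τ (r, 0) = 0 := by
  unfold T2
  simp

theorem cmp_bd {τ r s : ℝ} (hτ : 0 < τ) (hr : 0 ≤ r) (hs : 0 < s) :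
    0 ≤ cmp τ r s ∧ cmp τ r s ≤ τ * s / 2 := by
  have e : cmp τ r s = (max (τ * s - r) 0) ^ 2 / (2 * τ * s) := rfl
  have hτs : 0 < τ * s := by positivity
  have hX0 : 0 ≤ max (τ * s - r) 0 := le_max_right _ _
  have hXs : max (τ * s - r) 0 ≤ τ * s := max_le (by linarith) hτs.le
  rw [e]
  constructor
  · positivity
  · rw [div_le_iff₀ (by positivity)]
    nlinarith

theorem T2_r (hW2 : StW2) (hW : Wt P P' q κ K) {d1 τ : ℝ} (hd0 : 0 < d1) (hd1 : d1 < 1)
    (hτ : 0 < τ) (r r' s : ℝ) (hr : 0 ≤ r)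
    (hrr : r ≤ r') (hs : 0 ≤ s) :
    |T2 P d1 τ (r', s) - T2 P d1 τ (r, s)| ≤ 2 * K * (r' - r) := by
  obtain ⟨hn, hub, hcmp, hsm⟩ := hW2 P P' q κ K hW
  have hK := hW.K0
  rcases hs.eq_or_lt with h | hs
  · rw [← h, T2_zero, T2_zero, sub_self, abs_zero]
    have : 0 ≤ r' - r := by linarith
    positivity
  have h1 : |cmp τ r' s - cmp τ r s| ≤ 1 * (r' - r) := by
    have hτs : 0 < τ * s := by positivity
    have hd : ∀ z : ℝ, HasDerivAt (fun r => cmp τ r s) (-(max (τ * s - z) 0) / (τ * s)) z := by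
      intro z
      have e1 : HasDerivAt (fun z : ℝ => τ * s - z) (-1) z := by
        simpa using (hasDerivAt_id z).const_sub (τ * s)
      have e2 := ((hd_maxsq (τ * s - z)).comp z e1).div_const (2 * τ * s)
      refine e2.congr_deriv ?_
      field_simp
    refine mvt hrr (fun z _ => (hd z).continuousAt.continuousWithinAt) (fun z _ => hd z) ?_
    intro z hz
    have hz0 : 0 ≤ z := hr.trans hz.1.le
    rw [abs_div, abs_neg, abs_of_nonneg (le_max_right _ _), abs_of_pos hτs, div_le_one hτs]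
    exact max_le (by linarith) hτs.le
  have e : T2 P d1 τ (r', s) - T2 P d1 τ (r, s) =
      (2 - d1) * (Aw P (s / 2) / s) * (cmp τ r' s - cmp τ r s) := by
    unfold T2
    simp only
    ring
  have hA0 := (hn (s / 2)).1
  have hAK := (hub (s / 2) (by linarith)).1
  have h2 : Aw P (s / 2) / s ≤ K := by
    rw [div_le_iff₀ hs]
    nlinarith
  have h3 : 0 ≤ Aw P (s / 2) / s := by positivity
  rw [e, abs_mul, abs_of_nonneg (mul_nonneg (by linarith) h3)]
  have h4 : (2 - d1) * (Aw P (s / 2) / s) ≤ 2 * K := mul_le_mul (by linarith) h2 h3 (by norm_num)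
  calc _ ≤ 2 * K * (1 * (r' - r)) := mul_le_mul h4 h1 (abs_nonneg _) (by positivity)
    _ = _ := by ring

theorem T2_s (hW1 : StW1) (hW2 : StW2) (hW : Wt P P' q κ K) {d1 τ : ℝ} (hd0 : 0 < d1)
    (hd1 : d1 < 1) (hτ : 0 < τ) (hτ1 : τ < 1) (r s s' : ℝ) (hr : 0 ≤ r)
    (hs : 0 ≤ s) (hss : s ≤ s') :
    |T2 P d1 τ (r, s') - T2 P d1 τ (r, s)| ≤ 2 * K * (s' - s) := by
  obtain ⟨hA, hC, hM, hB, hBc, h0⟩ := hW1 P P' q κ K hW
  obtain ⟨hn, hub, hcmp, hsm⟩ := hW2 P P' q κ K hW
  have hK := hW.K0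
  rcases hs.eq_or_lt with h | hs
  · subst h
    rw [T2_zero, sub_zero, sub_zero]
    rcases hss.eq_or_lt with h | hs'
    · rw [← h, T2_zero, abs_zero, mul_zero]
    have hA0 := (hn (s' / 2)).1
    have hAK := (hub (s' / 2) (by linarith)).1
    have hc := cmp_bd hτ hr hs'
    have e : T2 P d1 τ (r, s') = (2 - d1) * (Aw P (s' / 2) * cmp τ r s') / s' := by
      unfold T2
      simp only
      ring
    have hc0 : 0 ≤ (2 - d1) := by linarith
    have h1 : Aw P (s' / 2) * cmp τ r s' ≤ (K * (s' / 2)) * (τ * s' / 2) :=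
      mul_le_mul hAK hc.2 hc.1 (by positivity)
    have hp : 0 ≤ Aw P (s' / 2) * cmp τ r s' := mul_nonneg hA0 hc.1
    rw [e, abs_of_nonneg (div_nonneg (mul_nonneg hc0 hp) hs'.le), div_le_iff₀ hs']
    calc _ ≤ 2 * ((K * (s' / 2)) * (τ * s' / 2)) := mul_le_mul (by linarith) h1 hp (by norm_num)
      _ ≤ 2 * ((K * (s' / 2)) * (1 * s' / 2)) := by gcongr
      _ ≤ _ := by nlinarith [mul_pos hK (pow_pos hs' 2)]
  have hd : ∀ z : ℝ, 0 < z → HasDerivAt (fun s => T2 P d1 τ (r, s))
      ((2 - d1) * (P (z / 2) / 2 * (cmp τ r z * z⁻¹) + Aw P (z / 2) *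
        ((max (τ * z - r) 0 * (2 * τ * z - max (τ * z - r) 0) / (2 * τ * z ^ 2)) * z⁻¹ -
          cmp τ r z * (z ^ 2)⁻¹))) z := by
    intro z hz
    have e1 : HasDerivAt (fun s : ℝ => Aw P (s / 2)) (P (z / 2) * (1 / 2)) z := by
      have e0 : HasDerivAt (fun s : ℝ => s / 2) (1 / 2) z := (hasDerivAt_id z).div_const 2
      have := HasDerivAt.comp z (hA (z / 2)) e0
      exact this
    have e2 : HasDerivAt (fun s : ℝ => cmp τ r s)
        (max (τ * z - r) 0 * (2 * τ * z - max (τ * z - r) 0) / (2 * τ * z ^ 2)) z := by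
      have h1 : HasDerivAt (fun s : ℝ => τ * s - r) τ z := by
        simpa using ((hasDerivAt_id z).const_mul τ).sub_const r
      have h2 := (hd_maxsq (τ * z - r)).comp z h1
      have h3 : HasDerivAt (fun s : ℝ => (2 * τ * s)) (2 * τ) z := by
        simpa using (hasDerivAt_id z).const_mul (2 * τ)
      have h4 := h2.div h3 (by positivity)
      refine h4.congr_deriv ?_
      simp only [Function.comp]
      field_simp
    have e3 := (((e1.const_mul (2 - d1)).mul e2).mul (hasDerivAt_inv hz.ne'))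
    have e4 : (fun s => T2 P d1 τ (r, s)) =
        fun s => (2 - d1) * Aw P (s / 2) * cmp τ r s * s⁻¹ := by
      funext s
      unfold T2
      simp only
      rw [div_eq_mul_inv]
    rw [e4]
    refine e3.congr_deriv ?_
    simp only [Pi.mul_apply]
    ring
  refine mvt (f := fun s => T2 P d1 τ (r, s)) hss
    (fun z hz => (hd z (hs.trans_le hz.1)).continuousAt.continuousWithinAt)
    (fun z hz => hd z (hs.trans hz.1)) ?_
  intro z hz
  have hz0 : 0 < z := hs.trans hz.1
  have hA0 := (hn (z / 2)).1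
  have hAK := (hub (z / 2) (by linarith)).1
  have hP0 := P_nonneg hW (z / 2)
  have hPK := hW.bd (z / 2)
  have hc := cmp_bd hτ hr hz0
  have hτz : 0 < τ * z := by positivity
  have hX0 : 0 ≤ max (τ * z - r) 0 := le_max_right _ _
  have hXs : max (τ * z - r) 0 ≤ τ * z := max_le (by linarith) hτz.le
  have a1 : 0 ≤ cmp τ r z * z⁻¹ := mul_nonneg hc.1 (inv_pos.2 hz0).le
  have a2 : cmp τ r z * z⁻¹ ≤ 1 / 2 := by
    rw [← div_eq_mul_inv, div_le_iff₀ hz0]
    nlinarith [hc.2]
  have a3 : 0 ≤ max (τ * z - r) 0 * (2 * τ * z - max (τ * z - r) 0) / (2 * τ * z ^ 2) := by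
    have : 0 ≤ 2 * τ * z - max (τ * z - r) 0 := by nlinarith
    positivity
  have a4 : max (τ * z - r) 0 * (2 * τ * z - max (τ * z - r) 0) / (2 * τ * z ^ 2) ≤ 1 / 2 := by
    have : max (τ * z - r) 0 * (2 * τ * z - max (τ * z - r) 0) / (2 * τ * z ^ 2) ≤ τ / 2 := by
      rw [div_le_iff₀ (by positivity)]
      nlinarith [sq_nonneg (τ * z - max (τ * z - r) 0)]
    linarith
  have a5 : |Aw P (z / 2) *
      ((max (τ * z - r) 0 * (2 * τ * z - max (τ * z - r) 0) / (2 * τ * z ^ 2)) * z⁻¹ -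
          cmp τ r z * (z ^ 2)⁻¹)| ≤ K / 2 := by
    have e : Aw P (z / 2) *
      ((max (τ * z - r) 0 * (2 * τ * z - max (τ * z - r) 0) / (2 * τ * z ^ 2)) * z⁻¹ -
          cmp τ r z * (z ^ 2)⁻¹) = (Aw P (z / 2) / z) *
      ((max (τ * z - r) 0 * (2 * τ * z - max (τ * z - r) 0) / (2 * τ * z ^ 2)) -
          cmp τ r z * z⁻¹) := by
      field_simp
    have b1 : 0 ≤ Aw P (z / 2) / z := by positivity
    have b2 : Aw P (z / 2) / z ≤ K / 2 := by
      rw [div_le_iff₀ hz0]
      linarith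
    have b3 : |(max (τ * z - r) 0 * (2 * τ * z - max (τ * z - r) 0) / (2 * τ * z ^ 2)) -
          cmp τ r z * z⁻¹| ≤ 1 := by
      rw [abs_le]
      constructor <;> linarith
    rw [e, abs_mul, abs_of_nonneg b1]
    calc _ ≤ K / 2 * 1 := mul_le_mul b2 b3 (abs_nonneg _) (by positivity)
      _ = _ := by ring
  have a6 : |P (z / 2) / 2 * (cmp τ r z * z⁻¹)| ≤ K / 2 := by
    rw [abs_of_nonneg (by positivity)]
    calc _ ≤ K / 2 * (1 / 2) := mul_le_mul (by linarith) a2 a1 (by positivity)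
      _ ≤ _ := by linarith
  rw [abs_mul, abs_of_nonneg (by linarith : 0 ≤ 2 - d1)]
  have a7 := (abs_add_le (P (z / 2) / 2 * (cmp τ r z * z⁻¹)) (Aw P (z / 2) *
      ((max (τ * z - r) 0 * (2 * τ * z - max (τ * z - r) 0) / (2 * τ * z ^ 2)) * z⁻¹ -
          cmp τ r z * (z ^ 2)⁻¹))).trans (add_le_add a6 a5)
  calc _ ≤ 2 * (K / 2 + K / 2) := mul_le_mul (by linarith) a7 (abs_nonneg _) (by norm_num)
    _ = _ := by ring

theorem main (hW1 : StW1) (hW2 : StW2) : StEV := by
  intro P P' q κ K hW _ ε d1 τ hε hd0 hd1 hτ hτ1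
  have hK := hW.K0
  have hq := hW.q0
  refine ⟨fun R => ⟨2 * |2 * K + ε|, fun x hx y hy _ _ => mv hW1 hW hε x hx y hy⟩,
    fun R => ⟨2 * |2 * K + 20 * (q + 1) * K + 2 * K + ε|, fun x hx y hy _ _ => ?_⟩⟩
  have e : ∀ x : ℝ × ℝ, NV P ε d1 τ x / x.2 = T1 P x + T2 P d1 τ x + ε * x.2 := by
    intro x
    unfold NV T1 T2
    by_cases h : x.2 = 0
    · rw [h]
      simp
    · field_simp
  refine lip_of_coord (w := fun x => NV P ε d1 τ x / x.2) ?_ ?_ x hx y hy
  · intro r r' s hr hrr hs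
    show |NV P ε d1 τ (r', s) / ((r', s) : ℝ × ℝ).2 - NV P ε d1 τ (r, s) / ((r, s) : ℝ × ℝ).2| ≤ _
    rw [e, e]
    have h1 := T1_r hW1 hW2 hW r r' s hr hrr hs
    have h2 := T2_r hW2 hW hd0 hd1 hτ r r' s hr hrr hs
    have e1 : T1 P (r', s) + T2 P d1 τ (r', s) + ε * ((r', s) : ℝ × ℝ).2 -
        (T1 P (r, s) + T2 P d1 τ (r, s) + ε * ((r, s) : ℝ × ℝ).2) =
        (T1 P (r', s) - T1 P (r, s)) + (T2 P d1 τ (r', s) - T2 P d1 τ (r, s)) := by
      simp only
      ring
    rw [e1]
    refine (abs_add_le _ _).trans ?_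
    have h3 : 0 ≤ (20 * (q + 1) * K + ε) * (r' - r) :=
      mul_nonneg (by positivity) (by linarith)
    nlinarith
  · intro r s s' hr hs hss
    show |NV P ε d1 τ (r, s') / ((r, s') : ℝ × ℝ).2 - NV P ε d1 τ (r, s) / ((r, s) : ℝ × ℝ).2| ≤ _
    rw [e, e]
    have h1 := T1_s hW1 hW2 hW r s s' hr hs hss
    have h2 := T2_s hW1 hW2 hW hd0 hd1 hτ hτ1 r s s' hr hs hss
    have e1 : T1 P (r, s') + T2 P d1 τ (r, s') + ε * ((r, s') : ℝ × ℝ).2 -
        (T1 P (r, s) + T2 P d1 τ (r, s) + ε * ((r, s) : ℝ × ℝ).2) =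
        (T1 P (r, s') - T1 P (r, s)) + (T2 P d1 τ (r, s') - T2 P d1 τ (r, s)) +
          ε * (s' - s) := by
      simp only
      ring
    rw [e1]
    have h4 : |ε * (s' - s)| = ε * (s' - s) := abs_of_nonneg (by nlinarith)
    refine (abs_add_le _ _).trans ?_
    rw [h4]
    have h5 := abs_add_le (T1 P (r, s') - T1 P (r, s)) (T2 P d1 τ (r, s') - T2 P d1 τ (r, s))
    have h3 : 0 ≤ 2 * K * (s' - s) := mul_nonneg (by positivity) (by linarith)
    nlinarith

end Helper87.NF.M_EV

end
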