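import Pool.Agent.Helper87.NF.StD

set_option autoImplicit false
set_option maxSynthPendingDepth 3

namespace Helper87.NF.M_HA1

open Helper87.NF

theorem cross2 {P Q : ℝ} (M u v : ℝ) (hP : 0 < P) (h : M ^ 2 ≤ 4 * P * Q) :
    -(P * u ^ 2 + Q * v ^ 2) ≤ M * (u * v) := by
  have h1 : 0 ≤ P * (M * (u * v) + (P * u ^ 2 + Q * v ^ 2)) := by
    have e : P * (M * (u * v) + (P * u ^ 2 + Q * v ^ 2)) =
        (P * u + M * v / 2) ^ 2 + (4 * P * Q - M ^ 2) / 4 * v ^ 2 := by ring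
    rw [e]
    have h2 : 0 ≤ (4 * P * Q - M ^ 2) / 4 * v ^ 2 := mul_nonneg (by linarith) (sq_nonneg _)
    positivity
  have h3 := nonneg_of_mul_nonneg_right h1 hP
  linarith

/-- a cross term with a coefficient `d1 * m / 2`, `|m| ≤ 6K` -/
theorem crossK {ε d1 K : ℝ} (hε : 0 < ε) (hd1 : 0 < d1) (hK : 1 ≤ K)
    (hK2 : d1 * (1000 * K ^ 2) ≤ ε ^ 2) (m u v : ℝ) (hm : |m| ≤ 6 * K) :
    -(ε * d1 / 16 * u ^ 2 + ε / 4 * v ^ 2) ≤ d1 / 2 * m * (u * v) := by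
  refine cross2 _ u v (by positivity) ?_
  have h1 : m ^ 2 ≤ (6 * K) ^ 2 := sq_le_sq' (by linarith [(abs_le.1 hm).1]) (abs_le.1 hm).2
  have h2 : (d1 / 2 * m) ^ 2 ≤ d1 ^ 2 / 4 * (6 * K) ^ 2 := by
    have : (d1 / 2 * m) ^ 2 = d1 ^ 2 / 4 * m ^ 2 := by ring
    rw [this]
    exact mul_le_mul_of_nonneg_left h1 (by positivity)
  have h3 : d1 * (d1 * (1000 * K ^ 2)) ≤ d1 * ε ^ 2 := mul_le_mul_of_nonneg_left hK2 hd1.le
  have h4 : 0 ≤ d1 * ε ^ 2 := by positivity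
  nlinarith

theorem main : StHA1 := by
  intro ε d1 a b c g B K hε hε1 hd1 hK ha hb hc hg haK hbK hcK hgK hK2 x ξ ψ
  have hd1s : 1000 * d1 ≤ ε ^ 2 := by
    have h1 : (1 : ℝ) ≤ K ^ 2 := by nlinarith
    nlinarith
  have hε2 : ε ^ 2 ≤ ε := by nlinarith
  have hdK : 1000 * (d1 * K) ≤ ε := by
    have h1 : K ≤ K ^ 2 := by nlinarith
    have h2 : d1 * K ≤ d1 * K ^ 2 := mul_le_mul_of_nonneg_left h1 hd1.le
    nlinarith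
  have cK := @crossK ε d1 K hε hd1 hK hK2
  have sq1 : ∀ t : ℝ, 0 ≤ ε * t ^ 2 := fun t => mul_nonneg hε.le (sq_nonneg t)
  have sq2 : ∀ t : ℝ, 0 ≤ ε * (1 - 1000 * d1) * t ^ 2 := fun t =>
    mul_nonneg (mul_nonneg hε.le (by linarith)) (sq_nonneg t)
  have sq4 : ∀ t : ℝ, 0 ≤ ε * d1 * t ^ 2 := fun t =>
    mul_nonneg (mul_nonneg hε.le hd1.le) (sq_nonneg t)
  have sq5 : ∀ t : ℝ, 0 ≤ (ε - 1000 * (d1 * K)) * t ^ 2 := fun t =>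
    mul_nonneg (by linarith) (sq_nonneg t)
  constructor
  · obtain ⟨y, hy⟩ : ∃ y, y = x + ξ + ψ := ⟨_, rfl⟩
    have e : FP (2 - d1) (B + 2 * g + c + 2 * ε) (2 * g - c)
        (-B + 2 * g + c) (B + a + 2 * ε) (-B + b) (-a - 2 * c - 2 * ε) (2 * c - a) (b - 2 * c)
        (b + 2 * c + 2 * ε) x ξ ψ =
        g * (2 * (x + y) - d1 * (x + ψ) / 2) ^ 2 + 2 * c * (ξ + ψ) ^ 2
        + d1 / 2 * (a + b) * ψ ^ 2 - g * d1 ^ 2 / 4 * (x + ψ) ^ 2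
        + d1 / 2 * (-a) * (ψ * y) + d1 / 2 * (a + b) * (ψ * x) + d1 / 2 * (-a) * (ξ * x)
        + ε * ((2 - d1 / 2) * (x ^ 2 + y ^ 2) + d1 / 2 * (ξ ^ 2 + ψ ^ 2)) := by
      rw [hy, FP]
      ring
    have p1 : 0 ≤ g * (2 * (x + y) - d1 * (x + ψ) / 2) ^ 2 := mul_nonneg hg (sq_nonneg _)
    have p2 : 0 ≤ 2 * c * (ξ + ψ) ^ 2 := mul_nonneg (by linarith) (sq_nonneg _)
    have p3 : 0 ≤ d1 / 2 * (a + b) * ψ ^ 2 := mul_nonneg (by positivity) (sq_nonneg _)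
    have p4 : g * d1 ^ 2 / 4 * (x + ψ) ^ 2 ≤ ε * d1 / 1000 * (x ^ 2 + ψ ^ 2) := by
      have a1 : g * d1 ^ 2 / 4 ≤ ε * d1 / 4000 := by
        have h1 : g * d1 ^ 2 ≤ K * d1 ^ 2 := mul_le_mul_of_nonneg_right hgK (sq_nonneg _)
        have h2 : d1 * (1000 * (d1 * K)) ≤ d1 * ε := mul_le_mul_of_nonneg_left hdK hd1.le
        nlinarith
      have a2 : (x + ψ) ^ 2 ≤ 2 * (x ^ 2 + ψ ^ 2) := by nlinarith [sq_nonneg (x - ψ)]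
      calc g * d1 ^ 2 / 4 * (x + ψ) ^ 2 ≤ ε * d1 / 4000 * (2 * (x ^ 2 + ψ ^ 2)) :=
            mul_le_mul a1 a2 (sq_nonneg _) (by positivity)
        _ ≤ ε * d1 / 1000 * (x ^ 2 + ψ ^ 2) := by
            have := sq4 x
            have := sq4 ψ
            nlinarith
    have q1 := cK (-a) ψ y (by rw [abs_neg, abs_of_nonneg ha]; linarith)
    have q2 := cK (a + b) ψ x (by rw [abs_of_nonneg (by linarith)]; linarith)
    have q3 := cK (-a) ξ x (by rw [abs_neg, abs_of_nonneg ha]; linarith)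
    rw [e]
    linarith [sq1 x, sq2 x, sq4 x, sq1 y, sq2 y, sq4 y, sq1 ξ, sq2 ξ, sq4 ξ,
      sq1 ψ, sq2 ψ, sq4 ψ]
  · obtain ⟨y, hy⟩ : ∃ y, y = ψ - x - ξ := ⟨_, rfl⟩
    have e : FM (2 - d1) (B + 2 * g + c + 2 * ε) (2 * g - c)
        (-B + 2 * g + c) (B + a + 2 * ε) (-B + b) (-a - 2 * c - 2 * ε) (2 * c - a) (b - 2 * c)
        (b + 2 * c + 2 * ε) x ξ ψ =
        2 * a * ξ ^ 2 + 2 * b * ψ ^ 2 + 2 * c * d1 * x ^ 2
        + d1 / 2 * (a + 2 * c) * (x * ξ) + d1 / 2 * (b - 6 * c) * (x * ψ)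
        + -(d1 / 2 * (a + 2 * c)) * (ξ * ψ) - d1 / 2 * (b - 2 * c) * ψ ^ 2
        + ε * ((2 - d1 / 2) * (ξ ^ 2 + ψ ^ 2) + d1 / 2 * (x ^ 2 + y ^ 2)) := by
      rw [hy, FM]
      ring
    have p1 : 0 ≤ 2 * a * ξ ^ 2 := mul_nonneg (by linarith) (sq_nonneg _)
    have p2 : 0 ≤ 2 * b * ψ ^ 2 := mul_nonneg (by linarith) (sq_nonneg _)
    have p3 : 0 ≤ 2 * c * d1 * x ^ 2 := mul_nonneg (by positivity) (sq_nonneg _)
    have q1 := cK (a + 2 * c) x ξ (by rw [abs_of_nonneg (by linarith)]; linarith)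
    have q2 := cK (b - 6 * c) x ψ (by rw [abs_le]; constructor <;> linarith)
    have q3 : -(ε / 16 * (ξ ^ 2 + ψ ^ 2)) ≤ -(d1 / 2 * (a + 2 * c)) * (ξ * ψ) := by
      have h1 : |-(d1 / 2 * (a + 2 * c))| ≤ 3 / 2 * (d1 * K) := by
        rw [abs_neg, abs_of_nonneg (by positivity)]
        nlinarith [mul_le_mul_of_nonneg_left haK hd1.le, mul_le_mul_of_nonneg_left hcK hd1.le]
      obtain ⟨h2, h3⟩ := abs_le.1 h1
      nlinarith [mul_nonneg (by linarith : 0 ≤ 3 / 2 * (d1 * K) + -(d1 / 2 * (a + 2 * c)))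
        (sq_nonneg (ξ + ψ)), mul_nonneg (by linarith : 0 ≤ 3 / 2 * (d1 * K) - -(d1 / 2 * (a + 2 * c)))
        (sq_nonneg (ξ - ψ)), sq5 ξ, sq5 ψ, sq1 ξ, sq1 ψ]
    have q4 : d1 / 2 * (b - 2 * c) * ψ ^ 2 ≤ ε / 1000 * ψ ^ 2 := by
      refine mul_le_mul_of_nonneg_right ?_ (sq_nonneg _)
      nlinarith [mul_le_mul_of_nonneg_left hbK hd1.le, mul_nonneg hd1.le hc]
    rw [e]
    linarith [sq1 x, sq2 x, sq4 x, sq1 y, sq2 y, sq4 y, sq1 ξ, sq2 ξ, sq4 ξ,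
      sq1 ψ, sq2 ψ, sq4 ψ]

end Helper87.NF.M_HA1
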