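import Pool.Agent.Helper87.NF.StD

set_option autoImplicit false
set_option maxSynthPendingDepth 3

namespace Helper87.NF.M_HA2

open Helper87.NF

theorem cross2 {P Q : ℝ} (M u v : ℝ) (hP : 0 < P) (h : M ^ 2 ≤ 4 * P * Q) :
    -(P * u ^ 2 + Q * v ^ 2) ≤ M * (u * v) := by
  have h1 : 0 ≤ P * (M * (u * v) + (P * u ^ 2 + Q * v ^ 2)) := by
    have e : P * (M * (u * v) + (P * u ^ 2 + Q * v ^ 2)) =
        (P * u + M * v / 2) ^ 2 + (4 * P * Q - M ^ 2) / 4 * v ^ 2 := by ring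
    rw [e]
    have h2 : 0 ≤ (4 * P * Q - M ^ 2) / 4 * v ^ 2 := mul_nonneg (by linarith) (sq_nonneg _)
    positivity
  have h3 := nonneg_of_mul_nonneg_right h1 hP
  linarith

/-- a cross term with a coefficient `d1 * m / 2`, `|m| ≤ 6K` -/
theorem crossK {ε d1 K : ℝ} (hε : 0 < ε) (hd1 : 0 < d1) (hK : 1 ≤ K)
    (hK2 : d1 * (1000 * K ^ 2) ≤ ε ^ 2) (m u v : ℝ) (hm : |m| ≤ 6 * K) :
    -(ε * d1 / 16 * u ^ 2 + ε / 4 * v ^ 2) ≤ d1 / 2 * m * (u * v) := by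
  refine cross2 _ u v (by positivity) ?_
  have h1 : m ^ 2 ≤ (6 * K) ^ 2 := sq_le_sq' (by linarith [(abs_le.1 hm).1]) (abs_le.1 hm).2
  have h2 : (d1 / 2 * m) ^ 2 ≤ d1 ^ 2 / 4 * (6 * K) ^ 2 := by
    have : (d1 / 2 * m) ^ 2 = d1 ^ 2 / 4 * m ^ 2 := by ring
    rw [this]
    exact mul_le_mul_of_nonneg_left h1 (by positivity)
  have h3 : d1 * (d1 * (1000 * K ^ 2)) ≤ d1 * ε ^ 2 := mul_le_mul_of_nonneg_left hK2 hd1.le
  have h4 : 0 ≤ d1 * ε ^ 2 := by positivity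
  nlinarith

/-- a small cross term -/
theorem crossE (k n u v : ℝ) (hn : |n| ≤ k) : -(k / 2 * (u ^ 2 + v ^ 2)) ≤ n * (u * v) := by
  obtain ⟨h1, h2⟩ := abs_le.1 hn
  nlinarith [mul_nonneg (by linarith : 0 ≤ k + n) (sq_nonneg (u + v)),
    mul_nonneg (by linarith : 0 ≤ k - n) (sq_nonneg (u - v))]

theorem ab {e k t p : ℝ} (h0 : 0 ≤ t) (h1 : t ≤ k) (hp : |p| ≤ e) : |t * p| ≤ k * e := by
  rw [abs_mul, abs_of_nonneg h0]
  exact mul_le_mul h1 hp (abs_nonneg _) (h0.trans h1)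

theorem main : StHA2 := by
  intro ε d1 δ e a b c g n1 n2 B K hε hε1 hd1 hd hδ hK ha hb hc hg haK hbK hcK hgK hK2 he0 he
    hbc hgc hn1 hn2 x ξ ψ
  have hd1s : 1000 * d1 ≤ ε ^ 2 := by
    have h1 : (1 : ℝ) ≤ K ^ 2 := by nlinarith
    nlinarith
  have hε2 : ε ^ 2 ≤ ε := by nlinarith
  have hδ0 : 0 ≤ δ := by linarith
  have cK := @crossK ε d1 K hε hd1 hK hK2
  have sq1 : ∀ t : ℝ, 0 ≤ ε * t ^ 2 := fun t => mul_nonneg hε.le (sq_nonneg t)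
  have sq2 : ∀ t : ℝ, 0 ≤ ε * (1 - 1000 * d1) * t ^ 2 := fun t =>
    mul_nonneg (mul_nonneg hε.le (by linarith)) (sq_nonneg t)
  have sq4 : ∀ t : ℝ, 0 ≤ ε * d1 * t ^ 2 := fun t =>
    mul_nonneg (mul_nonneg hε.le hd1.le) (sq_nonneg t)
  have sq5 : ∀ t : ℝ, 0 ≤ (ε * d1 - 1000 * e) * t ^ 2 := fun t =>
    mul_nonneg (by linarith) (sq_nonneg t)
  have sq6 : ∀ t : ℝ, 0 ≤ ε * (δ - d1) * t ^ 2 := fun t =>
    mul_nonneg (mul_nonneg hε.le (by linarith)) (sq_nonneg t)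
  have sq7 : ∀ t : ℝ, 0 ≤ ε * (2 - δ) * t ^ 2 := fun t =>
    mul_nonneg (mul_nonneg hε.le (by linarith)) (sq_nonneg t)
  have hac : |(-(a - 2 * c))| ≤ 6 * K := by
    rw [abs_le]; constructor <;> linarith
  constructor
  · obtain ⟨y, hy⟩ : ∃ y, y = x + ξ + ψ := ⟨_, rfl⟩
    have key : FP (2 - δ) (B + 2 * g + c + 2 * ε) (2 * g - c)
        (-B + 2 * g + c) (B + a + 2 * ε) (-B + b) (-a - 2 * c - 2 * ε + n2)
        (2 * c - a + (δ - d1) / 2 * (a - 2 * c) + n1) (b - 2 * c)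
        (b + 2 * c + 2 * ε) x ξ ψ =
        (1 - δ / 2) * (2 * c) * (x + ξ + (x + ψ)) ^ 2
        + (1 - δ / 2) * (2 * c) * (x + ξ + (x + ψ) - 2 * x) ^ 2
        + δ / 2 * c * (2 * (x + ξ + ψ) ^ 2) + δ / 2 * c * (2 * ψ ^ 2) + δ / 2 * c * (2 * x ^ 2)
        + δ / 2 * a * ξ ^ 2
        + d1 / 2 * (-(a - 2 * c)) * (ξ * y)
        + ((1 - δ / 2) * (4 * g - 2 * c) + δ / 2 * (b - 2 * c)) * (ψ * ψ)
        + ((4 - 3 / 2 * δ) * (4 * g - 2 * c) + δ / 2 * (b - 2 * c)) * (ψ * x)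
        + ((2 - δ / 2) * (4 * g - 2 * c) + n1) * (ψ * ξ)
        + ((4 - δ) * (4 * g - 2 * c)) * (x * x)
        + ((4 - δ / 2) * (4 * g - 2 * c) + n2 + n1) * (x * ξ)
        + ((4 * g - 2 * c) + n1) * (ξ * ξ)
        + ε * ((2 - δ / 2) * (x ^ 2 + y ^ 2) + δ / 2 * (ξ ^ 2 + ψ ^ 2)) := by
      rw [hy, FP]
      ring
    have hc1 : 0 ≤ (1 - δ / 2) * (2 * c) := mul_nonneg (by linarith) (by linarith)
    have hc2 : 0 ≤ δ / 2 * c := mul_nonneg (by linarith) hc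
    have hc3 : 0 ≤ δ / 2 * a := mul_nonneg (by linarith) ha
    have p1 : 0 ≤ (1 - δ / 2) * (2 * c) * (x + ξ + (x + ψ)) ^ 2 := mul_nonneg hc1 (sq_nonneg _)
    have p2 : 0 ≤ (1 - δ / 2) * (2 * c) * (x + ξ + (x + ψ) - 2 * x) ^ 2 :=
      mul_nonneg hc1 (sq_nonneg _)
    have p3 : 0 ≤ δ / 2 * c * (2 * (x + ξ + ψ) ^ 2) := mul_nonneg hc2 (by positivity)
    have p4 : 0 ≤ δ / 2 * c * (2 * ψ ^ 2) := mul_nonneg hc2 (by positivity)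
    have p5 : 0 ≤ δ / 2 * c * (2 * x ^ 2) := mul_nonneg hc2 (by positivity)
    have p6 : 0 ≤ δ / 2 * a * ξ ^ 2 := mul_nonneg hc3 (sq_nonneg _)
    have q := cK (-(a - 2 * c)) ξ y hac
    have r1 := crossE (2 * e) ((1 - δ / 2) * (4 * g - 2 * c) + δ / 2 * (b - 2 * c)) ψ ψ (by
      refine (abs_add_le _ _).trans ?_
      have := ab (k := 1) (by linarith : 0 ≤ 1 - δ / 2) (by linarith) hgc
      have := ab (k := 1) (by linarith : 0 ≤ δ / 2) (by linarith) hbc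
      linarith)
    have r2 := crossE (5 * e) ((4 - 3 / 2 * δ) * (4 * g - 2 * c) + δ / 2 * (b - 2 * c)) ψ x (by
      refine (abs_add_le _ _).trans ?_
      have := ab (k := 4) (by linarith : 0 ≤ 4 - 3 / 2 * δ) (by linarith) hgc
      have := ab (k := 1) (by linarith : 0 ≤ δ / 2) (by linarith) hbc
      linarith)
    have r3 := crossE (3 * e) ((2 - δ / 2) * (4 * g - 2 * c) + n1) ψ ξ (by
      refine (abs_add_le _ _).trans ?_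
      have := ab (k := 2) (by linarith : 0 ≤ 2 - δ / 2) (by linarith) hgc
      linarith)
    have r4 := crossE (4 * e) ((4 - δ) * (4 * g - 2 * c)) x x
      (ab (k := 4) (by linarith : 0 ≤ 4 - δ) (by linarith) hgc)
    have r5 := crossE (6 * e) ((4 - δ / 2) * (4 * g - 2 * c) + n2 + n1) x ξ (by
      refine (abs_add_three _ _ _).trans ?_
      have := ab (k := 4) (by linarith : 0 ≤ 4 - δ / 2) (by linarith) hgc
      linarith)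
    have r6 := crossE (2 * e) ((4 * g - 2 * c) + n1) ξ ξ (by
      refine (abs_add_le _ _).trans ?_
      linarith)
    rw [key]
    linarith [sq1 x, sq2 x, sq4 x, sq5 x, sq6 x, sq7 x, sq1 y, sq2 y, sq4 y, sq5 y, sq6 y, sq7 y,
      sq1 ξ, sq2 ξ, sq4 ξ, sq5 ξ, sq6 ξ, sq7 ξ, sq1 ψ, sq2 ψ, sq4 ψ, sq5 ψ, sq6 ψ, sq7 ψ]
  · obtain ⟨y, hy⟩ : ∃ y, y = ψ - x - ξ := ⟨_, rfl⟩
    have key : FM (2 - δ) (B + 2 * g + c + 2 * ε) (2 * g - c)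
        (-B + 2 * g + c) (B + a + 2 * ε) (-B + b) (-a - 2 * c - 2 * ε + n2)
        (2 * c - a + (δ - d1) / 2 * (a - 2 * c) + n1) (b - 2 * c)
        (b + 2 * c + 2 * ε) x ξ ψ =
        (2 - δ / 2) * a * ξ ^ 2 + c * δ * (x + ξ - ψ) ^ 2 + c * (4 - δ) * ψ ^ 2 + c * δ * x ^ 2
        + d1 / 2 * (-(a - 2 * c)) * (y * ξ)
        + ((2 - δ / 2) * (b - 2 * c)) * (ψ * ψ)
        + (δ / 2 * (b - 2 * c)) * (ψ * x)
        + n1 * (ψ * ξ) + (n2 - n1) * (x * ξ) + (-n1) * (ξ * ξ)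
        + ε * ((2 - δ / 2) * (ξ ^ 2 + ψ ^ 2) + δ / 2 * (x ^ 2 + y ^ 2)) := by
      rw [hy, FM]
      ring
    have p1 : 0 ≤ (2 - δ / 2) * a * ξ ^ 2 :=
      mul_nonneg (mul_nonneg (by linarith) ha) (sq_nonneg _)
    have p2 : 0 ≤ c * δ * (x + ξ - ψ) ^ 2 := mul_nonneg (mul_nonneg hc hδ0) (sq_nonneg _)
    have p3 : 0 ≤ c * (4 - δ) * ψ ^ 2 := mul_nonneg (mul_nonneg hc (by linarith)) (sq_nonneg _)
    have p4 : 0 ≤ c * δ * x ^ 2 := mul_nonneg (mul_nonneg hc hδ0) (sq_nonneg _)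
    have q := cK (-(a - 2 * c)) y ξ hac
    have r1 := crossE (2 * e) ((2 - δ / 2) * (b - 2 * c)) ψ ψ
      (ab (k := 2) (by linarith : 0 ≤ 2 - δ / 2) (by linarith) hbc)
    have r2 := crossE (1 * e) (δ / 2 * (b - 2 * c)) ψ x
      (ab (k := 1) (by linarith : 0 ≤ δ / 2) (by linarith) hbc)
    have r3 := crossE e n1 ψ ξ hn1
    have r4 := crossE (2 * e) (n2 - n1) x ξ (by
      refine (abs_sub _ _).trans ?_
      linarith)
    have r5 := crossE e (-n1) ξ ξ (by rw [abs_neg]; exact hn1)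
    rw [key]
    linarith [sq1 x, sq2 x, sq4 x, sq5 x, sq6 x, sq7 x, sq1 y, sq2 y, sq4 y, sq5 y, sq6 y, sq7 y,
      sq1 ξ, sq2 ξ, sq4 ξ, sq5 ξ, sq6 ξ, sq7 ξ, sq1 ψ, sq2 ψ, sq4 ψ, sq5 ψ, sq6 ψ, sq7 ψ]

end Helper87.NF.M_HA2
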