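import Pool.Agent.Helper87.NF.StD

/-!
# P1: polar form of the quadratic form `PQ`
-/

set_option autoImplicit false
set_option maxSynthPendingDepth 3

open Complex
open scoped ComplexConjugate

noncomputable section

namespace Helper87.NF.M_P1

open Helper85.IW

/-- `z ↦ (X ↦ Re (conj z₁ X₁))` as a continuous linear map. -/
def P1 : E →L[ℝ] E →L[ℝ] ℝ := LinearMap.toContinuousLinearMap
  { toFun := fun z => (reL z.1).comp (ContinuousLinearMap.fst ℝ ℂ ℂ)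
    map_add' := by
      intro x y
      ext X <;> simp [reL_apply, add_mul]
    map_smul' := by
      intro c x
      ext X <;> simp [reL_apply] <;> ring }

/-- `z ↦ (X ↦ Re (conj z₂ X₂))` as a continuous linear map. -/
def P2 : E →L[ℝ] E →L[ℝ] ℝ := LinearMap.toContinuousLinearMap
  { toFun := fun z => (reL z.2).comp (ContinuousLinearMap.snd ℝ ℂ ℂ)
    map_add' := by
      intro x y
      ext X <;> simp [reL_apply, add_mul]
    map_smul' := by
      intro c x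
      ext X <;> simp [reL_apply] <;> ring }

/-- `z ↦ (X ↦ Im (conj z₁ X₁))` as a continuous linear map. -/
def Q1 : E →L[ℝ] E →L[ℝ] ℝ := LinearMap.toContinuousLinearMap
  { toFun := fun z => (imL z.1).comp (ContinuousLinearMap.fst ℝ ℂ ℂ)
    map_add' := by
      intro x y
      ext X <;> simp [imL_apply, add_mul]
    map_smul' := by
      intro c x
      ext X <;> simp [imL_apply] <;> ring }

/-- `z ↦ (X ↦ Im (conj z₂ X₂))` as a continuous linear map. -/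
def Q2 : E →L[ℝ] E →L[ℝ] ℝ := LinearMap.toContinuousLinearMap
  { toFun := fun z => (imL z.2).comp (ContinuousLinearMap.snd ℝ ℂ ℂ)
    map_add' := by
      intro x y
      ext X <;> simp [imL_apply, add_mul]
    map_smul' := by
      intro c x
      ext X <;> simp [imL_apply] <;> ring }

theorem P1_apply (z X : E) : P1 z X = (conj z.1 * X.1).re := rfl
theorem P2_apply (z X : E) : P2 z X = (conj z.2 * X.2).re := rfl
theorem Q1_apply (z X : E) : Q1 z X = (conj z.1 * X.1).im := rfl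
theorem Q2_apply (z X : E) : Q2 z X = (conj z.2 * X.2).im := rfl

theorem hasFDerivAt_norm_c (z : ℂ) (hz : z ≠ 0) :
    HasFDerivAt (fun w : ℂ => ‖w‖) (‖z‖⁻¹ • reL z) z := by
  have h1 : HasFDerivAt (fun w : ℂ => ‖w‖ ^ 2) (2 • innerSL ℝ z) z :=
    (hasStrictFDerivAt_norm_sq z).hasFDerivAt
  have hz2 : ‖z‖ ^ 2 ≠ 0 := by positivity
  have h2 := h1.sqrt hz2
  have h3 : (fun w : ℂ => Real.sqrt (‖w‖ ^ 2)) = fun w : ℂ => ‖w‖ := by
    funext w
    exact Real.sqrt_sq (norm_nonneg w)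
  rw [h3] at h2
  refine h2.congr_fderiv ?_
  ext <;> simp [reL_apply, Real.sqrt_sq (norm_nonneg z)] <;> field_simp

/-- the moduli -/
theorem hn (z : E) (hz1 : z.1 ≠ 0) (hz2 : z.2 ≠ 0) :
    HasFDerivAt (fun w : E => (‖w.1‖, ‖w.2‖))
      (((‖z.1‖⁻¹ • reL z.1).comp (ContinuousLinearMap.fst ℝ ℂ ℂ)).prod
        ((‖z.2‖⁻¹ • reL z.2).comp (ContinuousLinearMap.snd ℝ ℂ ℂ))) z := by
  have hn1 : HasFDerivAt (fun w : E => ‖w.1‖)
      ((‖z.1‖⁻¹ • reL z.1).comp (ContinuousLinearMap.fst ℝ ℂ ℂ)) z :=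
    (hasFDerivAt_norm_c z.1 hz1).comp z hasFDerivAt_fst
  have hn2 : HasFDerivAt (fun w : E => ‖w.2‖)
      ((‖z.2‖⁻¹ • reL z.2).comp (ContinuousLinearMap.snd ℝ ℂ ℂ)) z :=
    (hasFDerivAt_norm_c z.2 hz2).comp z hasFDerivAt_snd
  exact hn1.prodMk hn2

theorem unit_norm (z : ℂ) (hz : z ≠ 0) : ‖z / (‖z‖ : ℂ)‖ = 1 := by
  rw [norm_div, norm_real, norm_norm, div_self (norm_ne_zero_iff.2 hz)]

theorem unit_sq (u : ℂ) (h : ‖u‖ = 1) : u.re ^ 2 + u.im ^ 2 = 1 := by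
  have := Complex.sq_norm u
  rw [h, normSq_apply] at this
  nlinarith [this]

theorem conj_mul_eq (z X : ℂ) (hz : z ≠ 0) :
    conj z * X = (‖z‖ : ℂ) * (conj (z / ‖z‖) * X) := by
  have h : (‖z‖ : ℂ) ≠ 0 := by exact_mod_cast norm_ne_zero_iff.2 hz
  rw [map_div₀, conj_ofReal]
  field_simp

theorem re_conj_unit (u X Y : ℂ) (h : ‖u‖ = 1) :
    (conj X * Y).re = (conj u * X).re * (conj u * Y).re + (conj u * X).im * (conj u * Y).im := by
  have h1 := unit_sq u h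
  simp only [mul_re, mul_im, conj_re, conj_im]
  have : X.re * Y.re + X.im * Y.im =
    (u.re ^ 2 + u.im ^ 2) * (X.re * Y.re + X.im * Y.im) := by rw [h1, one_mul]
  linear_combination this

theorem im_conj_unit (u X Y : ℂ) (h : ‖u‖ = 1) :
    (conj X * Y).im = (conj u * X).re * (conj u * Y).im - (conj u * X).im * (conj u * Y).re := by
  have h1 := unit_sq u h
  simp only [mul_re, mul_im, conj_re, conj_im]
  have : X.re * Y.im - X.im * Y.re =
    (u.re ^ 2 + u.im ^ 2) * (X.re * Y.im - X.im * Y.re) := by rw [h1, one_mul]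
  linear_combination this

/-- Hessian in the frame -/
def HH (urr urs uss a0 b0 : ℝ) (x1 x2 y1 y2 : ℂ) : ℝ :=
  urr * x1.re * y1.re + urs * (x1.re * y2.re + x2.re * y1.re) + uss * x2.re * y2.re
    + a0 * x1.im * y1.im + b0 * x2.im * y2.im

/-- exterior derivative in the frame -/
def JJ (m11 m12 m21 m22 : ℝ) (x1 x2 y1 y2 : ℂ) : ℝ :=
  m11 * (x1.re * y1.im - y1.re * x1.im) + m12 * (x2.re * y1.im - y2.re * x1.im)
    + m21 * (x1.re * y2.im - y1.re * x2.im) + m22 * (x2.re * y2.im - y2.re * x2.im)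

theorem hasFDerivAt_mulinv {f g : ℝ × ℝ → ℝ} {x : ℝ × ℝ} {a b c d : ℝ} (hg : g x ≠ 0)
    (h : HasFDerivAt f (lin2 a b) x) (h' : HasFDerivAt g (lin2 c d) x) :
    HasFDerivAt (fun q => f q / g q)
      (lin2 (a / g x - f x * c / g x ^ 2) (b / g x - f x * d / g x ^ 2)) x := by
  have h1 : HasFDerivAt (fun q => (g q)⁻¹) _ x := (hasDerivAt_inv hg).comp_hasFDerivAt x h'
  have h2 := h.mul h1
  have e : (fun q => f q / g q) = f * (fun q => (g q)⁻¹) := by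
    funext q
    rw [div_eq_mul_inv]; rfl
  rw [e]
  refine h2.congr_fderiv ?_
  ext <;> simp [lin2_apply] <;> field_simp <;> ring

theorem hfst (r s : ℝ) : HasFDerivAt (fun q : ℝ × ℝ => q.1) (lin2 1 0) (r, s) := by
  have h : HasFDerivAt (fun q : ℝ × ℝ => q.1) (ContinuousLinearMap.fst ℝ ℝ ℝ) (r, s) :=
    hasFDerivAt_fst
  refine h.congr_fderiv ?_
  ext <;> simp [lin2_apply]

theorem hsnd (r s : ℝ) : HasFDerivAt (fun q : ℝ × ℝ => q.2) (lin2 0 1) (r, s) := by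
  have h : HasFDerivAt (fun q : ℝ × ℝ => q.2) (ContinuousLinearMap.snd ℝ ℝ ℝ) (r, s) :=
    hasFDerivAt_snd
  refine h.congr_fderiv ?_
  ext <;> simp [lin2_apply]

theorem hfst2 (r s : ℝ) : HasFDerivAt (fun q : ℝ × ℝ => q.1 ^ 2) (lin2 (2 * r) 0) (r, s) := by
  have h := (hfst r s).pow 2
  refine h.congr_fderiv ?_
  ext <;> simp [lin2_apply]

theorem hsnd2 (r s : ℝ) : HasFDerivAt (fun q : ℝ × ℝ => q.2 ^ 2) (lin2 0 (2 * s)) (r, s) := by
  have h := (hsnd r s).pow 2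
  refine h.congr_fderiv ?_
  ext <;> simp [lin2_apply]

theorem dR (α β : ℝ × ℝ → ℝ) (z : E) (hz1 : z.1 ≠ 0) (hz2 : z.2 ≠ 0) (αr αs βr βs : ℝ)
    (hα : HasFDerivAt α (lin2 αr αs) (‖z.1‖, ‖z.2‖))
    (hβ : HasFDerivAt β (lin2 βr βs) (‖z.1‖, ‖z.2‖)) :
    DifferentiableAt ℝ (fun z : E => covR (α (‖z.1‖, ‖z.2‖)) (β (‖z.1‖, ‖z.2‖)) z) z ∧
    ∀ X W : E, fderiv ℝ (fun z : E => covR (α (‖z.1‖, ‖z.2‖)) (β (‖z.1‖, ‖z.2‖)) z) z X W =
      (αr * ((conj z.1 * X.1).re / ‖z.1‖) + αs * ((conj z.2 * X.2).re / ‖z.2‖))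
          * (conj z.1 * W.1).re
        + α (‖z.1‖, ‖z.2‖) * (conj X.1 * W.1).re
      + ((βr * ((conj z.1 * X.1).re / ‖z.1‖) + βs * ((conj z.2 * X.2).re / ‖z.2‖))
          * (conj z.2 * W.2).re
        + β (‖z.1‖, ‖z.2‖) * (conj X.2 * W.2).re) := by
  have hN := hn z hz1 hz2
  have dα := HasFDerivAt.comp z hα hN
  have dβ := HasFDerivAt.comp z hβ hN
  have hP1 : HasFDerivAt (fun w : E => P1 w) P1 z := P1.hasFDerivAt
  have hP2 : HasFDerivAt (fun w : E => P2 w) P2 z := P2.hasFDerivAt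
  have hR := (dα.smul hP1).add (dβ.smul hP2)
  have eR : (fun z : E => covR (α (‖z.1‖, ‖z.2‖)) (β (‖z.1‖, ‖z.2‖)) z) =
      ((α ∘ fun w : E => (‖w.1‖, ‖w.2‖)) • fun w => P1 w) +
      ((β ∘ fun w : E => (‖w.1‖, ‖w.2‖)) • fun w => P2 w) := rfl
  rw [← eR] at hR
  refine ⟨hR.differentiableAt, ?_⟩
  intro X W
  rw [hR.fderiv]
  simp only [ContinuousLinearMap.add_apply, ContinuousLinearMap.smul_apply,
    ContinuousLinearMap.smulRight_apply, ContinuousLinearMap.comp_apply,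
    ContinuousLinearMap.prod_apply, lin2_apply, P1_apply, P2_apply,
    Function.comp_apply, ContinuousLinearMap.coe_fst', ContinuousLinearMap.coe_snd', reL_apply,
    smul_eq_mul]
  ring

theorem dI (A B : ℝ × ℝ → ℝ) (z : E) (hz1 : z.1 ≠ 0) (hz2 : z.2 ≠ 0) (Ar As Br Bs : ℝ)
    (hA : HasFDerivAt A (lin2 Ar As) (‖z.1‖, ‖z.2‖))
    (hB : HasFDerivAt B (lin2 Br Bs) (‖z.1‖, ‖z.2‖)) :
    DifferentiableAt ℝ (fun z : E => covI (A (‖z.1‖, ‖z.2‖)) (B (‖z.1‖, ‖z.2‖)) z) z ∧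
    ∀ X W : E, fderiv ℝ (fun z : E => covI (A (‖z.1‖, ‖z.2‖)) (B (‖z.1‖, ‖z.2‖)) z) z X W =
      (Ar * ((conj z.1 * X.1).re / ‖z.1‖) + As * ((conj z.2 * X.2).re / ‖z.2‖))
          * (conj z.1 * W.1).im
        + A (‖z.1‖, ‖z.2‖) * (conj X.1 * W.1).im
      + ((Br * ((conj z.1 * X.1).re / ‖z.1‖) + Bs * ((conj z.2 * X.2).re / ‖z.2‖))
          * (conj z.2 * W.2).im
        + B (‖z.1‖, ‖z.2‖) * (conj X.2 * W.2).im) := by
  have hN := hn z hz1 hz2
  have dA := HasFDerivAt.comp z hA hN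
  have dB := HasFDerivAt.comp z hB hN
  have hQ1 : HasFDerivAt (fun w : E => Q1 w) Q1 z := Q1.hasFDerivAt
  have hQ2 : HasFDerivAt (fun w : E => Q2 w) Q2 z := Q2.hasFDerivAt
  have hI := (dA.smul hQ1).add (dB.smul hQ2)
  have eI : (fun z : E => covI (A (‖z.1‖, ‖z.2‖)) (B (‖z.1‖, ‖z.2‖)) z) =
      ((A ∘ fun w : E => (‖w.1‖, ‖w.2‖)) • fun w => Q1 w) +
      ((B ∘ fun w : E => (‖w.1‖, ‖w.2‖)) • fun w => Q2 w) := rfl
  rw [← eI] at hI
  refine ⟨hI.differentiableAt, ?_⟩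
  intro X W
  rw [hI.fderiv]
  simp only [ContinuousLinearMap.add_apply, ContinuousLinearMap.smul_apply,
    ContinuousLinearMap.smulRight_apply, ContinuousLinearMap.comp_apply,
    ContinuousLinearMap.prod_apply, lin2_apply, Q1_apply, Q2_apply,
    Function.comp_apply, ContinuousLinearMap.coe_fst', ContinuousLinearMap.coe_snd', reL_apply,
    smul_eq_mul]
  ring

theorem dG (p1 p2 : ℝ × ℝ → ℝ) (z : E) (hz1 : z.1 ≠ 0) (hz2 : z.2 ≠ 0) (urr urs uss : ℝ)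
    (h1 : HasFDerivAt p1 (lin2 urr urs) (‖z.1‖, ‖z.2‖))
    (h2 : HasFDerivAt p2 (lin2 urs uss) (‖z.1‖, ‖z.2‖)) :
    DifferentiableAt ℝ (Gof p1 p2) z ∧ ∀ X W : E, fderiv ℝ (Gof p1 p2) z X W =
      HH urr urs uss (p1 (‖z.1‖, ‖z.2‖) / ‖z.1‖) (p2 (‖z.1‖, ‖z.2‖) / ‖z.2‖)
        (conj (z.1 / (‖z.1‖ : ℂ)) * X.1) (conj (z.2 / (‖z.2‖ : ℂ)) * X.2)
        (conj (z.1 / (‖z.1‖ : ℂ)) * W.1) (conj (z.2 / (‖z.2‖ : ℂ)) * W.2) := by
  have r1 : ‖z.1‖ ≠ 0 := norm_ne_zero_iff.2 hz1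
  have r2 : ‖z.2‖ ≠ 0 := norm_ne_zero_iff.2 hz2
  have u1 := unit_norm z.1 hz1
  have u2 := unit_norm z.2 hz2
  have k1 := hasFDerivAt_mulinv r1 h1 (hfst ‖z.1‖ ‖z.2‖)
  have k2 := hasFDerivAt_mulinv r2 h2 (hsnd ‖z.1‖ ‖z.2‖)
  obtain ⟨hd, hv⟩ := dR _ _ z hz1 hz2 _ _ _ _ k1 k2
  refine ⟨hd, ?_⟩
  intro X W
  have hv2 := hv X W
  have e : (fun z : E => covR ((fun q : ℝ × ℝ => p1 q / q.1) (‖z.1‖, ‖z.2‖))
    ((fun q : ℝ × ℝ => p2 q / q.2) (‖z.1‖, ‖z.2‖)) z) = Gof p1 p2 := rfl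
  rw [e] at hv2
  rw [hv2, re_conj_unit _ X.1 W.1 u1, re_conj_unit _ X.2 W.2 u2,
    conj_mul_eq z.1 X.1 hz1, conj_mul_eq z.1 W.1 hz1, conj_mul_eq z.2 X.2 hz2,
    conj_mul_eq z.2 W.2 hz2]
  unfold HH
  simp only [re_ofReal_mul, im_ofReal_mul]
  field_simp
  ring

theorem dE (M N : ℝ × ℝ → ℝ) (z : E) (hz1 : z.1 ≠ 0) (hz2 : z.2 ≠ 0) (Mr Ms Nr Ns : ℝ)
    (h1 : HasFDerivAt M (lin2 Mr Ms) (‖z.1‖, ‖z.2‖))
    (h2 : HasFDerivAt N (lin2 Nr Ns) (‖z.1‖, ‖z.2‖)) :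
    DifferentiableAt ℝ (Eof M N) z ∧ ∀ X W : E,
      fderiv ℝ (Eof M N) z X W - fderiv ℝ (Eof M N) z W X =
      JJ (Mr / ‖z.1‖) (Ms / ‖z.1‖) (Nr / ‖z.2‖) (Ns / ‖z.2‖)
        (conj (z.1 / (‖z.1‖ : ℂ)) * X.1) (conj (z.2 / (‖z.2‖ : ℂ)) * X.2)
        (conj (z.1 / (‖z.1‖ : ℂ)) * W.1) (conj (z.2 / (‖z.2‖ : ℂ)) * W.2) := by
  have r1 : ‖z.1‖ ≠ 0 := norm_ne_zero_iff.2 hz1
  have r2 : ‖z.2‖ ≠ 0 := norm_ne_zero_iff.2 hz2
  have u1 := unit_norm z.1 hz1
  have u2 := unit_norm z.2 hz2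
  have k1 := hasFDerivAt_mulinv (pow_ne_zero 2 r1) h1 (hfst2 ‖z.1‖ ‖z.2‖)
  have k2 := hasFDerivAt_mulinv (pow_ne_zero 2 r2) h2 (hsnd2 ‖z.1‖ ‖z.2‖)
  obtain ⟨hd, hv⟩ := dI _ _ z hz1 hz2 _ _ _ _ k1 k2
  refine ⟨hd, ?_⟩
  intro X W
  have hv2 := hv X W
  have hv3 := hv W X
  have e : (fun z : E => covI ((fun q : ℝ × ℝ => M q / q.1 ^ 2) (‖z.1‖, ‖z.2‖))
    ((fun q : ℝ × ℝ => N q / q.2 ^ 2) (‖z.1‖, ‖z.2‖)) z) = Eof M N := rfl
  rw [e] at hv2 hv3
  rw [hv2, hv3, im_conj_unit _ X.1 W.1 u1, im_conj_unit _ X.2 W.2 u2,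
    im_conj_unit _ W.1 X.1 u1, im_conj_unit _ W.2 X.2 u2,
    conj_mul_eq z.1 X.1 hz1, conj_mul_eq z.1 W.1 hz1, conj_mul_eq z.2 X.2 hz2,
    conj_mul_eq z.2 W.2 hz2]
  unfold JJ
  simp only [re_ofReal_mul, im_ofReal_mul]
  field_simp
  ring

/-- the algebraic identity, in real coordinates -/
theorem core_real (ν urr urs uss a0 b0 m11 m12 m21 m22 k l a a' b b' c c' : ℝ) :
    (urr * (k * a - l * a' + (k * c + l * c')) *
        ((k * (4 * c + ν * (a + b)) + l * (4 * c' + ν * (a' + b'))) / 2)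
      + urs * ((k * a - l * a' + (k * c + l * c')) *
          ((k * (4 * c + ν * (a + b)) - l * (4 * c' + ν * (a' + b'))) / 2)
        + (k * c - l * c' + (k * b + l * b')) *
          ((k * (4 * c + ν * (a + b)) + l * (4 * c' + ν * (a' + b'))) / 2))
      + uss * (k * c - l * c' + (k * b + l * b')) *
          ((k * (4 * c + ν * (a + b)) - l * (4 * c' + ν * (a' + b'))) / 2)
      + a0 * (k * a' + l * a + (k * c' - l * c)) *
          ((k * (4 * c' + ν * (a' + b')) - l * (4 * c + ν * (a + b))) / 2)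
      + b0 * (k * c' + l * c + (k * b' - l * b)) *
          ((k * (4 * c' + ν * (a' + b')) + l * (4 * c + ν * (a + b))) / 2))
    + (urr * (-((k * c' - l * c) - (k * a' + l * a))) *
        (-((k * (4 * c' + ν * (a' + b')) - l * (4 * c + ν * (a + b))) / 2))
      + urs * ((-((k * c' - l * c) - (k * a' + l * a))) *
          ((k * (4 * c' + ν * (a' + b')) + l * (4 * c + ν * (a + b))) / 2)
        + (-((k * b' - l * b) - (k * c' + l * c))) *
          (-((k * (4 * c' + ν * (a' + b')) - l * (4 * c + ν * (a + b))) / 2)))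
      + uss * (-((k * b' - l * b) - (k * c' + l * c))) *
          ((k * (4 * c' + ν * (a' + b')) + l * (4 * c + ν * (a + b))) / 2)
      + a0 * ((k * c + l * c') - (k * a - l * a')) *
          ((k * (4 * c + ν * (a + b)) + l * (4 * c' + ν * (a' + b'))) / 2)
      + b0 * ((k * b + l * b') - (k * c - l * c')) *
          (-((k * (4 * c + ν * (a + b)) - l * (4 * c' + ν * (a' + b'))) / 2)))
    + (m11 * ((k * a - l * a' + (k * c + l * c')) * ((k * c + l * c') - (k * a - l * a'))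
          - (-((k * c' - l * c) - (k * a' + l * a))) * (k * a' + l * a + (k * c' - l * c)))
      + m12 * ((k * c - l * c' + (k * b + l * b')) * ((k * c + l * c') - (k * a - l * a'))
          - (-((k * b' - l * b) - (k * c' + l * c))) * (k * a' + l * a + (k * c' - l * c)))
      + m21 * ((k * a - l * a' + (k * c + l * c')) * ((k * b + l * b') - (k * c - l * c'))
          - (-((k * c' - l * c) - (k * a' + l * a))) * (k * c' + l * c + (k * b' - l * b)))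
      + m22 * ((k * c - l * c' + (k * b + l * b')) * ((k * b + l * b') - (k * c - l * c'))
          - (-((k * b' - l * b) - (k * c' + l * c))) * (k * c' + l * c + (k * b' - l * b))))
    = (k ^ 2 + l ^ 2) *
      (FP ν urr urs uss a0 b0 m11 m12 m21 m22 (c + a) (c - a) (b - c)
        + FM ν urr urs uss a0 b0 m11 m12 m21 m22 (c' - a') (c' + a') (b' + c')) := by
  unfold FP FM
  ring

theorem half_re (w : ℂ) : (w / 2).re = w.re / 2 := by
  rw [show (2 : ℂ) = ((2 : ℝ) : ℂ) by norm_num, div_ofReal_re]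

theorem half_im (w : ℂ) : (w / 2).im = w.im / 2 := by
  rw [show (2 : ℂ) = ((2 : ℝ) : ℂ) by norm_num, div_ofReal_im]

theorem core (ν urr urs uss a0 b0 m11 m12 m21 m22 : ℝ) (k a b c : ℂ) :
    HH urr urs uss a0 b0 (k * a + conj k * c) (k * c + conj k * b)
        (conj k * (4 * c + (ν : ℂ) * (a + b)) / 2) (k * (4 * c + (ν : ℂ) * (a + b)) / 2)
      + HH urr urs uss a0 b0 (I * (conj k * c - k * a)) (I * (conj k * b - k * c))
        (I * (conj k * (4 * c + (ν : ℂ) * (a + b)) / 2))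
        (-(I * (k * (4 * c + (ν : ℂ) * (a + b)) / 2)))
      + JJ m11 m12 m21 m22 (k * a + conj k * c) (k * c + conj k * b)
        (I * (conj k * c - k * a)) (I * (conj k * b - k * c))
    = (k.re ^ 2 + k.im ^ 2) *
      (FP ν urr urs uss a0 b0 m11 m12 m21 m22 (c.re + a.re) (c.re - a.re) (b.re - c.re)
        + FM ν urr urs uss a0 b0 m11 m12 m21 m22 (c.im - a.im) (c.im + a.im) (b.im + c.im)) := by
  rw [← core_real ν urr urs uss a0 b0 m11 m12 m21 m22 k.re k.im a.re a.im b.re b.im c.re c.im]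
  unfold HH JJ
  have h4r : (4 : ℂ).re = 4 := rfl
  have h4i : (4 : ℂ).im = 0 := rfl
  simp only [half_re, half_im, mul_re, mul_im, add_re, add_im, sub_re, sub_im, neg_re, neg_im,
    I_re, I_im, conj_re, conj_im, ofReal_re, ofReal_im, h4r, h4i]
  ring

theorem par (p q : ℂ) : ‖p + q‖ ^ 2 + ‖q - p‖ ^ 2 = 2 * (‖p‖ ^ 2 + ‖q‖ ^ 2) := by
  rw [Complex.sq_norm, Complex.sq_norm, Complex.sq_norm, Complex.sq_norm]
  simp only [normSq_apply, add_re, add_im, sub_re, sub_im]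
  ring

theorem norm_prod_sq (X : E) : ‖X‖ ^ 2 ≤ ‖X.1‖ ^ 2 + ‖X.2‖ ^ 2 := by
  rw [Prod.norm_def]
  rcases le_total ‖X.1‖ ‖X.2‖ with h | h
  · rw [max_eq_right h]; nlinarith [sq_nonneg ‖X.1‖]
  · rw [max_eq_left h]; nlinarith [sq_nonneg ‖X.2‖]

theorem six (a b c : ℂ) : 2 * (‖a‖ ^ 2 + ‖c‖ ^ 2) + 2 * (‖c‖ ^ 2 + ‖b‖ ^ 2) ≤
    4 * ((c.re + a.re) ^ 2 + (c.re - a.re) ^ 2 + (b.re - c.re) ^ 2 + (c.im - a.im) ^ 2
      + (c.im + a.im) ^ 2 + (b.im + c.im) ^ 2) := by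
  rw [Complex.sq_norm, Complex.sq_norm, Complex.sq_norm, normSq_apply, normSq_apply, normSq_apply]
  nlinarith [sq_nonneg (b.re - 2 * c.re), sq_nonneg (b.im + 2 * c.im), sq_nonneg a.re,
    sq_nonneg a.im, sq_nonneg c.re, sq_nonneg c.im]

/-- main theorem of the module -/
theorem main : StP1 := by
  intro p1 p2 M N z hz1 hz2 urr urs uss Mr Ms Nr Ns ν h1 h2 hM hN
  obtain ⟨g1, g2⟩ := dG p1 p2 z hz1 hz2 urr urs uss h1 h2
  obtain ⟨e1, e2⟩ := dE M N z hz1 hz2 Mr Ms Nr Ns hM hN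
  refine ⟨g1, e1, ?_⟩
  intro X Y hCR
  obtain ⟨k, hk⟩ := IsAlgClosed.exists_pow_nat_eq
    ((z.1 / ‖z.1‖) * conj (z.2 / (‖z.2‖ : ℂ))) (n := 2) (by norm_num)
  have u1 := unit_norm z.1 hz1
  have u2 := unit_norm z.2 hz2
  have hkn : ‖k‖ = 1 := by
    have : ‖k‖ ^ 2 = 1 := by
      rw [← norm_pow, hk, norm_mul, norm_conj, u1, u2, one_mul]
    nlinarith [norm_nonneg k, this]
  have hks := unit_sq k hkn
  set u : ℂ := z.1 / ‖z.1‖ with hu
  set v : ℂ := z.2 / ‖z.2‖ with hv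
  have c1 : conj u * u = 1 := by
    rw [mul_comm, mul_conj, normSq_eq_norm_sq, u1]; norm_num
  have c2 : conj v * v = 1 := by
    rw [mul_comm, mul_conj, normSq_eq_norm_sq, u2]; norm_num
  have ck : conj k * k = 1 := by
    rw [mul_comm, mul_conj, normSq_eq_norm_sq, hkn]; norm_num
  have hCR' : X.2 + I * Y.2 = X.1 - I * Y.1 := hCR
  have hI : I * I = -1 := I_mul_I
  have hcb : jc X Y = (X.2 + I * Y.2) / 2 := by
    unfold jc; rw [hCR']
  have ex1 : X.1 = ja X Y + jc X Y := by unfold ja jc; ring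
  have ey1 : Y.1 = I * (jc X Y - ja X Y) := by
    unfold ja jc; linear_combination (Y.1) * hI
  have ex2 : X.2 = jc X Y + jb X Y := by rw [hcb]; unfold jb; ring
  have ey2 : Y.2 = I * (jb X Y - jc X Y) := by
    rw [hcb]; unfold jb; linear_combination (Y.2) * hI
  set ja' := ja X Y with hja
  set jb' := jb X Y with hjb
  set jc' := jc X Y with hjc
  set a : ℂ := conj u * conj k * ja' with ha
  set b : ℂ := conj v * k * jb' with hb
  set c : ℂ := conj u * k * jc' with hc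
  -- the components in the frame
  have w1X : conj u * X.1 = k * a + conj k * c := by
    rw [ex1, ha, hc]
    linear_combination (-(conj u * ja') - conj u * jc') * ck
  have w1Y : conj u * Y.1 = I * (conj k * c - k * a) := by
    rw [ey1, ha, hc]
    linear_combination (I * conj u * ja' - I * conj u * jc') * ck
  have hvu : k * c = conj v * jc' := by
    rw [hc]
    have : k * (conj u * k * jc') = (k ^ 2) * (conj u * jc') := by ring
    rw [this, hk]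
    linear_combination (conj v * jc') * c1
  have w2X : conj v * X.2 = k * c + conj k * b := by
    rw [ex2, hvu, hb]
    linear_combination (-(conj v * jb')) * ck
  have w2Y : conj v * Y.2 = I * (conj k * b - k * c) := by
    rw [ey2, hvu, hb]
    linear_combination (-(I * conj v * jb')) * ck
  set m : ℂ := (ν : ℂ) * u * conj v with hm
  have hcm : conj m = (ν : ℂ) * conj u * v := by
    rw [hm, map_mul, map_mul, conj_ofReal, conj_conj]
  have hLop : Lop m X Y = 4 * jc' + conj m * ja' + m * jb' := rfl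
  have hck2 : conj k ^ 2 = conj u * v := by
    rw [← map_pow, hk, map_mul, conj_conj]
  have w1L : conj u * Lop m X Y = conj k * (4 * c + (ν : ℂ) * (a + b)) := by
    rw [hLop, hcm, hm, ha, hb, hc]
    have t1 : conj k * (4 * (conj u * k * jc') + (ν : ℂ) * (conj u * conj k * ja' + conj v * k * jb'))
        = 4 * (conj k * k) * (conj u * jc') + (ν : ℂ) * (conj k ^ 2) * (conj u * ja')
          + (ν : ℂ) * (conj k * k) * (conj v * jb') := by ring
    rw [t1, ck, hck2]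
    linear_combination ((ν : ℂ) * conj v * jb') * c1
  have w2L : conj v * Lop m X Y = k * (4 * c + (ν : ℂ) * (a + b)) := by
    have t1 : k * (4 * c + (ν : ℂ) * (a + b)) = 4 * (k * c) + (ν : ℂ) * (k * a) + (ν : ℂ) * (k * b) := by
      ring
    rw [t1, hvu, hLop, hcm, hm, ha, hb]
    have t2 : k * (conj v * k * jb') = k ^ 2 * (conj v * jb') := by ring
    have t3 : k * (conj u * conj k * ja') = (conj k * k) * (conj u * ja') := by ring
    rw [t2, t3, hk, ck]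
    linear_combination ((ν : ℂ) * conj u * ja') * c2
  have hcv : conj z.2 / (‖z.2‖ : ℂ) = conj v := by rw [hv, map_div₀, conj_ofReal]
  rw [hcv]
  refine ⟨c.re + a.re, c.re - a.re, b.re - c.re, c.im - a.im, c.im + a.im, b.im + c.im, ?_, ?_⟩
  · have na : ‖ja'‖ = ‖a‖ := by
      rw [ha, norm_mul, norm_mul, norm_conj, norm_conj, u1, hkn, one_mul, one_mul]
    have nb : ‖jb'‖ = ‖b‖ := by
      rw [hb, norm_mul, norm_mul, norm_conj, u2, hkn, one_mul, one_mul]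
    have nc : ‖jc'‖ = ‖c‖ := by
      rw [hc, norm_mul, norm_mul, norm_conj, u1, hkn, one_mul, one_mul]
    have nx := norm_prod_sq X
    have ny := norm_prod_sq Y
    have q1 : ‖X.1‖ ^ 2 + ‖Y.1‖ ^ 2 = 2 * (‖a‖ ^ 2 + ‖c‖ ^ 2) := by
      rw [ex1, ey1, norm_mul, norm_I, one_mul, par, na, nc]
    have q2 : ‖X.2‖ ^ 2 + ‖Y.2‖ ^ 2 = 2 * (‖c‖ ^ 2 + ‖b‖ ^ 2) := by
      rw [ex2, ey2, norm_mul, norm_I, one_mul, par, nb, nc]
    have q3 := six a b c
    linarith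
  · have hPQ : PQ m (fderiv ℝ (Gof p1 p2) z) (fderiv ℝ (Eof M N) z) X Y =
        fderiv ℝ (Gof p1 p2) z X (lx (Lop m X Y)) + fderiv ℝ (Gof p1 p2) z Y (ly (Lop m X Y))
        + (fderiv ℝ (Eof M N) z X Y - fderiv ℝ (Eof M N) z Y X) := by
      unfold PQ; ring
    have l1 : conj u * (lx (Lop m X Y)).1 = conj k * (4 * c + (ν : ℂ) * (a + b)) / 2 := by
      rw [← w1L]; unfold lx; ring
    have l2 : conj v * (lx (Lop m X Y)).2 = k * (4 * c + (ν : ℂ) * (a + b)) / 2 := by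
      rw [← w2L]; unfold lx; ring
    have l3 : conj u * (ly (Lop m X Y)).1 = I * (conj k * (4 * c + (ν : ℂ) * (a + b)) / 2) := by
      rw [← w1L]; unfold ly; ring
    have l4 : conj v * (ly (Lop m X Y)).2 = -(I * (k * (4 * c + (ν : ℂ) * (a + b)) / 2)) := by
      rw [← w2L]; unfold ly; ring
    rw [hPQ, g2, g2, e2, w1X, w1Y, w2X, w2Y, l1, l2, l3, l4, core, hks, one_mul]

end Helper87.NF.M_P1
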