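import Pool.Agent.Helper87.NF.StD

/-! Module P2 of the project NF: Lipschitz functions of the moduli times the unit vector. -/

set_option autoImplicit false
set_option maxSynthPendingDepth 3

open MeasureTheory Complex Filter Topology
open scoped ENNReal NNReal ComplexConjugate

noncomputable section

namespace Helper87.NF.M_P2

open Helper85.IW

theorem key0 (K D a a' : ℝ) (z z' : ℂ) (hK : 0 ≤ K) (h1 : |a - a'| ≤ K * D)
    (h2 : |a| ≤ K * ‖z‖) (h3 : |a'| ≤ K * ‖z'‖) (hD : ‖z - z'‖ ≤ D) (hle : ‖z'‖ ≤ ‖z‖) :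
    ‖(a / ‖z‖) • z - (a' / ‖z'‖) • z'‖ ≤ 4 * K * D := by
  have hD0 : 0 ≤ D := (norm_nonneg _).trans hD
  have hKD : K * ‖z - z'‖ ≤ K * D := mul_le_mul_of_nonneg_left hD hK
  have hKD0 : 0 ≤ K * D := mul_nonneg hK hD0
  rcases eq_or_ne z' 0 with hz' | hz'
  · subst hz'
    rcases eq_or_ne z 0 with hz | hz
    · subst hz
      simp only [smul_zero, sub_zero, norm_zero]
      positivity
    · have hn : 0 < ‖z‖ := norm_pos_iff.2 hz
      rw [smul_zero, sub_zero, norm_smul, norm_div, norm_norm, div_mul_cancel₀ _ hn.ne']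
      rw [sub_zero] at hD hKD
      have : ‖a‖ ≤ K * ‖z‖ := h2
      linarith
  · have hn' : 0 < ‖z'‖ := norm_pos_iff.2 hz'
    have hn : 0 < ‖z‖ := hn'.trans_le hle
    have e1 : (a / ‖z‖) • z - (a' / ‖z'‖) • z'
        = ((a - a') / ‖z‖) • z + (a' / ‖z'‖) • ((‖z'‖ / ‖z‖) • z - z') := by
      rw [smul_sub, smul_smul, sub_div, sub_smul]
      have : a' / ‖z'‖ * (‖z'‖ / ‖z‖) = a' / ‖z‖ := by field_simp
      rw [this]
      abel
    rw [e1]
    have n1 : ‖((a - a') / ‖z‖) • z‖ ≤ K * D := by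
      rw [norm_smul, norm_div, norm_norm, div_mul_cancel₀ _ hn.ne']
      exact h1
    have n2 : ‖(‖z'‖ / ‖z‖) • z - z'‖ ≤ 2 * ‖z - z'‖ := by
      have e2 : (‖z'‖ / ‖z‖) • z - z' = (‖z'‖ / ‖z‖ - 1) • z + (z - z') := by
        rw [sub_smul, one_smul]; abel
      rw [e2]
      have n3 : ‖(‖z'‖ / ‖z‖ - 1) • z‖ ≤ ‖z - z'‖ := by
        rw [norm_smul, Real.norm_eq_abs]
        have e3 : ‖z'‖ / ‖z‖ - 1 = (‖z'‖ - ‖z‖) / ‖z‖ := by field_simp
        rw [e3, abs_div, abs_norm, div_mul_cancel₀ _ hn.ne', abs_sub_comm]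
        exact abs_norm_sub_norm_le z z'
      calc _ ≤ ‖(‖z'‖ / ‖z‖ - 1) • z‖ + ‖z - z'‖ := norm_add_le _ _
        _ ≤ _ := by linarith
    have n4 : ‖(a' / ‖z'‖) • ((‖z'‖ / ‖z‖) • z - z')‖ ≤ K * (2 * ‖z - z'‖) := by
      rw [norm_smul, norm_div, norm_norm]
      have : ‖a'‖ / ‖z'‖ ≤ K := by
        rw [div_le_iff₀ hn']; exact h3
      exact mul_le_mul this n2 (norm_nonneg _) hK
    calc _ ≤ _ := norm_add_le _ _
      _ ≤ K * D + K * (2 * ‖z - z'‖) := add_le_add n1 n4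
      _ ≤ 4 * K * D := by nlinarith

theorem key (K D a a' : ℝ) (z z' : ℂ) (hK : 0 ≤ K) (h1 : |a - a'| ≤ K * D)
    (h2 : |a| ≤ K * ‖z‖) (h3 : |a'| ≤ K * ‖z'‖) (hD : ‖z - z'‖ ≤ D) :
    ‖(a / ‖z‖) • z - (a' / ‖z'‖) • z'‖ ≤ 4 * K * D := by
  rcases le_total ‖z'‖ ‖z‖ with h | h
  · exact key0 K D a a' z z' hK h1 h2 h3 hD h
  · rw [norm_sub_rev]
    exact key0 K D a' a z' z hK (by rwa [abs_sub_comm]) h3 h2 (by rwa [norm_sub_rev]) h

theorem main : StP2 := by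
  intro w S K h
  refine ⟨fun h0 hS => ?_, fun h0 hS => ?_⟩
  · refine LipschitzOnWith.of_dist_le_mul fun z hz z' hz' => ?_
    have b : ∀ z ∈ S, |w (‖z.1‖, ‖z.2‖)| ≤ K * ‖z.1‖ := by
      intro z hz
      have h1 := h z hz _ (hS z hz)
      simp only [norm_zero] at h1
      rw [h0 _ (norm_nonneg _), sub_zero] at h1
      have h2 : ‖z - ((0 : ℂ), z.2)‖ = ‖z.1‖ := by
        rw [Prod.norm_def]
        simp
      rwa [h2] at h1
    have h2 := h z hz z' hz'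
    have h3 : ‖z.1 - z'.1‖ ≤ ‖z - z'‖ := norm_fst_le (z - z')
    have := key K ‖z - z'‖ _ _ z.1 z'.1 K.coe_nonneg h2 (b z hz) (b z' hz') h3
    rw [dist_eq_norm, dist_eq_norm]
    simpa using this
  · refine LipschitzOnWith.of_dist_le_mul fun z hz z' hz' => ?_
    have b : ∀ z ∈ S, |w (‖z.1‖, ‖z.2‖)| ≤ K * ‖z.2‖ := by
      intro z hz
      have h1 := h z hz _ (hS z hz)
      simp only [norm_zero] at h1
      rw [h0 _ (norm_nonneg _), sub_zero] at h1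
      have h2 : ‖z - (z.1, (0 : ℂ))‖ = ‖z.2‖ := by
        rw [Prod.norm_def]
        simp
      rwa [h2] at h1
    have h2 := h z hz z' hz'
    have h3 : ‖z.2 - z'.2‖ ≤ ‖z - z'‖ := norm_snd_le (z - z')
    have := key K ‖z - z'‖ _ _ z.2 z'.2 K.coe_nonneg h2 (b z hz) (b z' hz') h3
    rw [dist_eq_norm, dist_eq_norm]
    simpa using this

end Helper87.NF.M_P2
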