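import Pool.Agent.Helper87.NF.StD

/-! Module P3 of the project NF: `Gof` is Lipschitz. -/

set_option autoImplicit false
set_option maxSynthPendingDepth 3

open MeasureTheory Complex Filter Topology
open scoped ENNReal NNReal ComplexConjugate

noncomputable section

namespace Helper87.NF.M_P3

open Helper85.IW

theorem diff_moduli (z z' : E) : ‖((‖z.1‖, ‖z.2‖) : ℝ × ℝ) - (‖z'.1‖, ‖z'.2‖)‖ ≤ ‖z - z'‖ := by
  rw [Prod.norm_def, Prod.norm_def]
  apply max_le_max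
  · simpa using abs_norm_sub_norm_le z.1 z'.1
  · simpa using abs_norm_sub_norm_le z.2 z'.2

theorem covR_diff (α β α' β' : ℝ) (z z' : E) :
    ‖covR α β z - covR α' β' z'‖ ≤ ‖α • z.1 - α' • z'.1‖ + ‖β • z.2 - β' • z'.2‖ := by
  refine ContinuousLinearMap.opNorm_le_bound _ (by positivity) fun X => ?_
  rw [_root_.sub_apply, covR_apply, covR_apply]
  have e : α * (conj z.1 * X.1).re + β * (conj z.2 * X.2).re
      - (α' * (conj z'.1 * X.1).re + β' * (conj z'.2 * X.2).re)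
      = (conj (α • z.1 - α' • z'.1) * X.1).re + (conj (β • z.2 - β' • z'.2) * X.2).re := by
    simp only [Complex.mul_re, Complex.conj_re, Complex.conj_im, Complex.sub_re, Complex.sub_im,
      Complex.real_smul, Complex.ofReal_re, Complex.ofReal_im, Complex.mul_im, map_sub]
    ring
  rw [e]
  have h1 : ‖(conj (α • z.1 - α' • z'.1) * X.1).re‖ ≤ ‖α • z.1 - α' • z'.1‖ * ‖X‖ := by
    refine (Complex.abs_re_le_norm _).trans ?_
    rw [norm_mul, RCLike.norm_conj]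
    exact mul_le_mul_of_nonneg_left (norm_fst_le X) (norm_nonneg _)
  have h2 : ‖(conj (β • z.2 - β' • z'.2) * X.2).re‖ ≤ ‖β • z.2 - β' • z'.2‖ * ‖X‖ := by
    refine (Complex.abs_re_le_norm _).trans ?_
    rw [norm_mul, RCLike.norm_conj]
    exact mul_le_mul_of_nonneg_left (norm_snd_le X) (norm_nonneg _)
  calc _ ≤ _ := norm_add_le _ _
    _ ≤ _ := by rw [add_mul]; exact add_le_add h1 h2

theorem main (hP2 : StP2) : StP3 := by
  intro p1 p2 K h1 h2 z1 z2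
  have hK : ∀ t : ℝ, 0 ≤ t → K * t ≤ (K.toNNReal : ℝ) * t := fun t ht =>
    mul_le_mul_of_nonneg_right (Real.le_coe_toNNReal K) ht
  have hq : ∀ z : E, ((‖z.1‖, ‖z.2‖) : ℝ × ℝ) ∈ qd := fun z => ⟨norm_nonneg _, norm_nonneg _⟩
  have g1 : ∀ z ∈ (Set.univ : Set E), ∀ z' ∈ (Set.univ : Set E),
      |p1 (‖z.1‖, ‖z.2‖) - p1 (‖z'.1‖, ‖z'.2‖)| ≤ (K.toNNReal : ℝ) * ‖z - z'‖ := by
    intro z _ z' _
    refine (h1 _ (hq z) _ (hq z')).trans ((hK _ (norm_nonneg _)).trans ?_)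
    exact mul_le_mul_of_nonneg_left (diff_moduli z z') K.toNNReal.coe_nonneg
  have g2 : ∀ z ∈ (Set.univ : Set E), ∀ z' ∈ (Set.univ : Set E),
      |p2 (‖z.1‖, ‖z.2‖) - p2 (‖z'.1‖, ‖z'.2‖)| ≤ (K.toNNReal : ℝ) * ‖z - z'‖ := by
    intro z _ z' _
    refine (h2 _ (hq z) _ (hq z')).trans ((hK _ (norm_nonneg _)).trans ?_)
    exact mul_le_mul_of_nonneg_left (diff_moduli z z') K.toNNReal.coe_nonneg
  have l1 := (hP2 p1 Set.univ K.toNNReal g1).1 z1 (fun _ _ => Set.mem_univ _)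
  have l2 := (hP2 p2 Set.univ K.toNNReal g2).2 z2 (fun _ _ => Set.mem_univ _)
  refine ⟨4 * K.toNNReal + 4 * K.toNNReal, LipschitzWith.of_dist_le_mul fun z z' => ?_⟩
  have d1 := l1.dist_le_mul z (Set.mem_univ _) z' (Set.mem_univ _)
  have d2 := l2.dist_le_mul z (Set.mem_univ _) z' (Set.mem_univ _)
  rw [dist_eq_norm] at d1 d2 ⊢
  refine (covR_diff _ _ _ _ z z').trans ?_
  rw [NNReal.coe_add, add_mul]
  exact add_le_add d1 d2

end Helper87.NF.M_P3
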