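import Pool.Agent.Helper87.NF.StD

/-! Module P4 of the project NF: `Eof` is locally Lipschitz. -/

set_option autoImplicit false
set_option maxSynthPendingDepth 3

open MeasureTheory Complex Filter Topology
open scoped ENNReal NNReal ComplexConjugate

noncomputable section

namespace Helper87.NF.M_P4

open Helper85.IW

theorem diff_moduli (z z' : E) : ‖((‖z.1‖, ‖z.2‖) : ℝ × ℝ) - (‖z'.1‖, ‖z'.2‖)‖ ≤ ‖z - z'‖ := by
  rw [Prod.norm_def, Prod.norm_def]
  apply max_le_max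
  · simpa using abs_norm_sub_norm_le z.1 z'.1
  · simpa using abs_norm_sub_norm_le z.2 z'.2

theorem norm_moduli (z : E) : ‖((‖z.1‖, ‖z.2‖) : ℝ × ℝ)‖ = ‖z‖ := by
  rw [Prod.norm_def, Prod.norm_def]
  simp

theorem covI_diff (α β α' β' : ℝ) (z z' : E) :
    ‖covI α β z - covI α' β' z'‖ ≤ ‖α • z.1 - α' • z'.1‖ + ‖β • z.2 - β' • z'.2‖ := by
  refine ContinuousLinearMap.opNorm_le_bound _ (by positivity) fun X => ?_
  rw [_root_.sub_apply, covI_apply, covI_apply]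
  have e : α * (conj z.1 * X.1).im + β * (conj z.2 * X.2).im
      - (α' * (conj z'.1 * X.1).im + β' * (conj z'.2 * X.2).im)
      = (conj (α • z.1 - α' • z'.1) * X.1).im + (conj (β • z.2 - β' • z'.2) * X.2).im := by
    simp only [Complex.mul_re, Complex.conj_re, Complex.conj_im, Complex.sub_re, Complex.sub_im,
      Complex.real_smul, Complex.ofReal_re, Complex.ofReal_im, Complex.mul_im, map_sub]
    ring
  rw [e]
  have h1 : ‖(conj (α • z.1 - α' • z'.1) * X.1).im‖ ≤ ‖α • z.1 - α' • z'.1‖ * ‖X‖ := by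
    refine (Complex.abs_im_le_norm _).trans ?_
    rw [norm_mul, RCLike.norm_conj]
    exact mul_le_mul_of_nonneg_left (norm_fst_le X) (norm_nonneg _)
  have h2 : ‖(conj (β • z.2 - β' • z'.2) * X.2).im‖ ≤ ‖β • z.2 - β' • z'.2‖ * ‖X‖ := by
    refine (Complex.abs_im_le_norm _).trans ?_
    rw [norm_mul, RCLike.norm_conj]
    exact mul_le_mul_of_nonneg_left (norm_snd_le X) (norm_nonneg _)
  calc _ ≤ _ := norm_add_le _ _
    _ ≤ _ := by rw [add_mul]; exact add_le_add h1 h2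

theorem main (hP2 : StP2) : StP4 := by
  intro M N hM hN R
  obtain ⟨K1, h1⟩ := hM R
  obtain ⟨K2, h2⟩ := hN R
  set S : Set E := Metric.closedBall 0 R with hS
  have hq : ∀ z : E, ((‖z.1‖, ‖z.2‖) : ℝ × ℝ) ∈ qd := fun z => ⟨norm_nonneg _, norm_nonneg _⟩
  have hn : ∀ z ∈ S, ‖((‖z.1‖, ‖z.2‖) : ℝ × ℝ)‖ ≤ R := by
    intro z hz
    rw [norm_moduli]
    simpa [hS] using hz
  have g1 : ∀ z ∈ S, ∀ z' ∈ S,
      |(fun x : ℝ × ℝ => M x / x.1) (‖z.1‖, ‖z.2‖) - (fun x : ℝ × ℝ => M x / x.1) (‖z'.1‖, ‖z'.2‖)|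
        ≤ (K1.toNNReal : ℝ) * ‖z - z'‖ := by
    intro z hz z' hz'
    refine (h1 _ (hq z) _ (hq z') (hn z hz) (hn z' hz')).trans ?_
    refine (mul_le_mul_of_nonneg_right (Real.le_coe_toNNReal K1) (norm_nonneg _)).trans ?_
    exact mul_le_mul_of_nonneg_left (diff_moduli z z') K1.toNNReal.coe_nonneg
  have g2 : ∀ z ∈ S, ∀ z' ∈ S,
      |(fun x : ℝ × ℝ => N x / x.2) (‖z.1‖, ‖z.2‖) - (fun x : ℝ × ℝ => N x / x.2) (‖z'.1‖, ‖z'.2‖)|
        ≤ (K2.toNNReal : ℝ) * ‖z - z'‖ := by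
    intro z hz z' hz'
    refine (h2 _ (hq z) _ (hq z') (hn z hz) (hn z' hz')).trans ?_
    refine (mul_le_mul_of_nonneg_right (Real.le_coe_toNNReal K2) (norm_nonneg _)).trans ?_
    exact mul_le_mul_of_nonneg_left (diff_moduli z z') K2.toNNReal.coe_nonneg
  have m1 : ∀ z ∈ S, ((0 : ℂ), z.2) ∈ S := by
    intro z hz
    rw [hS, mem_closedBall_zero_iff] at hz ⊢
    refine le_trans ?_ hz
    rw [Prod.norm_def, Prod.norm_def]
    simp
  have m2 : ∀ z ∈ S, (z.1, (0 : ℂ)) ∈ S := by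
    intro z hz
    rw [hS, mem_closedBall_zero_iff] at hz ⊢
    refine le_trans ?_ hz
    rw [Prod.norm_def, Prod.norm_def]
    simp
  have l1 := (hP2 (fun x : ℝ × ℝ => M x / x.1) S K1.toNNReal g1).1 (fun s _ => by simp) m1
  have l2 := (hP2 (fun x : ℝ × ℝ => N x / x.2) S K2.toNNReal g2).2 (fun s _ => by simp) m2
  refine ⟨4 * K1.toNNReal + 4 * K2.toNNReal, LipschitzOnWith.of_dist_le_mul fun z hz z' hz' => ?_⟩
  have d1 := l1.dist_le_mul z hz z' hz'
  have d2 := l2.dist_le_mul z hz z' hz'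
  rw [dist_eq_norm] at d1 d2 ⊢
  refine (covI_diff _ _ _ _ z z').trans ?_
  rw [NNReal.coe_add, add_mul]
  refine add_le_add ?_ ?_
  · simp only [div_div] at d1
    simpa only [pow_two] using d1
  · simp only [div_div] at d2
    simpa only [pow_two] using d2

end Helper87.NF.M_P4
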