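import Pool.Agent.Helper87.NF.StD

/-!
# Module P5: uniform continuity of `Nof (nuf ..)` (by helper42)
-/

set_option autoImplicit false
set_option maxSynthPendingDepth 3

open MeasureTheory Complex Filter Topology
open scoped ENNReal NNReal ComplexConjugate

noncomputable section

namespace Helper87.NF.M_P5

open Helper85.IW Helper87.NF

/-- the denominator of the closed formula -/
def Dn (τ τ' r s : ℝ) : ℝ := max (r * s) (max (τ * s ^ 2) (τ' * r ^ 2))

theorem min_eq {τ τ' r s : ℝ} (hτ : 0 < τ) (hτ' : 0 < τ') (hr : 0 < r) (hs : 0 < s) :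
    min 1 (min (r / (τ * s)) (s / (τ' * r))) = r * s / Dn τ τ' r s := by
  have h1 : 0 < r * s := by positivity
  have h2 : 0 < τ * s ^ 2 := by positivity
  have h3 : 0 < τ' * r ^ 2 := by positivity
  have e1 : (1 : ℝ) = r * s / (r * s) := (div_self h1.ne').symm
  have e2 : r / (τ * s) = r * s / (τ * s ^ 2) := by field_simp
  have e3 : s / (τ' * r) = r * s / (τ' * r ^ 2) := by field_simp
  have hdiv : ∀ a b : ℝ, 0 < a → 0 < b →
      min (r * s / a) (r * s / b) = r * s / max a b := by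
    intro a b ha hb
    rcases le_total a b with h | h
    · rw [max_eq_right h, min_eq_right]
      exact div_le_div_of_nonneg_left h1.le ha h
    · rw [max_eq_left h, min_eq_left]
      exact div_le_div_of_nonneg_left h1.le hb h
  rw [e2, e3, hdiv _ _ h2 h3]
  nth_rewrite 1 [e1]
  rw [hdiv _ _ h1 (lt_max_of_lt_left h2)]
  rfl

theorem Dn_pos {τ τ' r s : ℝ} (hτ : 0 < τ) (hτ' : 0 < τ') (hr : 0 ≤ r) (hs : 0 ≤ s)
    (h : r ≠ 0 ∨ s ≠ 0) : 0 < Dn τ τ' r s := by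
  unfold Dn
  rcases h with h | h
  · have : 0 < r := lt_of_le_of_ne hr (Ne.symm h)
    exact lt_max_of_lt_right (lt_max_of_lt_right (by positivity))
  · have : 0 < s := lt_of_le_of_ne hs (Ne.symm h)
    exact lt_max_of_lt_right (lt_max_of_lt_left (by positivity))

theorem nuf_bd {d1 τ τ' σ r s : ℝ} (hd2 : d1 < 2) (hτ : 0 < τ) (hτ' : 0 < τ')
    (hσ : 0 < σ) (hr : 0 ≤ r) (hs : 0 ≤ s) :
    0 ≤ nuf d1 τ τ' σ (r, s) ∧ nuf d1 τ τ' σ (r, s) ≤ 2 - d1 := by
  have h1 : 0 ≤ min 1 (min (r / (τ * s)) (s / (τ' * r))) :=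
    le_min zero_le_one (le_min (by positivity) (by positivity))
  have h2 : 0 ≤ min 1 ((r + s) / σ) := le_min zero_le_one (by positivity)
  have h3 : min 1 (min (r / (τ * s)) (s / (τ' * r))) ≤ 1 := min_le_left _ _
  have h4 : min 1 ((r + s) / σ) ≤ 1 := min_le_left _ _
  have h5 : 0 ≤ 2 - d1 := by linarith
  unfold nuf
  constructor
  · exact mul_nonneg (mul_nonneg h5 h1) h2
  · calc _ ≤ (2 - d1) * 1 * 1 := by
          refine mul_le_mul (mul_le_mul_of_nonneg_left h3 h5) h4 h2 (by linarith)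
      _ = _ := by ring

/-- the closed formula -/
theorem Nof_eq {d1 τ τ' σ : ℝ} (hτ : 0 < τ) (hτ' : 0 < τ') (z : E) :
    Nof (nuf d1 τ τ' σ) z = (((2 - d1) * min 1 ((‖z.1‖ + ‖z.2‖) / σ) : ℝ) : ℂ) *
      (z.1 * conj z.2) / ((Dn τ τ' ‖z.1‖ ‖z.2‖ : ℝ) : ℂ) := by
  unfold Nof
  by_cases h1 : z.1 = 0
  · rw [h1]
    simp
  by_cases h2 : z.2 = 0
  · rw [h2]
    simp
  have hr : 0 < ‖z.1‖ := norm_pos_iff.2 h1
  have hs : 0 < ‖z.2‖ := norm_pos_iff.2 h2
  have e : nuf d1 τ τ' σ (‖z.1‖, ‖z.2‖) =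
      (2 - d1) * (‖z.1‖ * ‖z.2‖ / Dn τ τ' ‖z.1‖ ‖z.2‖) * min 1 ((‖z.1‖ + ‖z.2‖) / σ) := by
    rw [← min_eq hτ hτ' hr hs]
    rfl
  have hD := Dn_pos hτ hτ' hr.le hs.le (Or.inl hr.ne')
  rw [e]
  have hr' : ((‖z.1‖ : ℝ) : ℂ) ≠ 0 := by exact_mod_cast hr.ne'
  have hs' : ((‖z.2‖ : ℝ) : ℂ) ≠ 0 := by exact_mod_cast hs.ne'
  have hD' : ((Dn τ τ' ‖z.1‖ ‖z.2‖ : ℝ) : ℂ) ≠ 0 := by exact_mod_cast hD.ne'
  push_cast
  field_simp

theorem norm_Nof {d1 τ τ' σ : ℝ} (hd2 : d1 < 2) (hτ : 0 < τ) (hτ' : 0 < τ') (hσ : 0 < σ) (z : E) :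
    ‖Nof (nuf d1 τ τ' σ) z‖ ≤ (2 - d1) * min 1 ((‖z.1‖ + ‖z.2‖) / σ) := by
  have h5 : 0 ≤ 2 - d1 := by linarith
  have h6 : 0 ≤ min 1 ((‖z.1‖ + ‖z.2‖) / σ) := le_min zero_le_one (by positivity)
  rw [Nof_eq hτ hτ']
  by_cases h : ‖z.1‖ = 0 ∧ ‖z.2‖ = 0
  · have h1 : z.1 = 0 := norm_eq_zero.1 h.1
    rw [h1]
    simp only [zero_mul, mul_zero, zero_div, norm_zero]
    rw [← norm_zero (E := ℂ), ← h1] at h6
    positivity
  · have hD := Dn_pos hτ hτ' (norm_nonneg z.1) (norm_nonneg z.2) (by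
      by_contra h'
      push Not at h'
      exact h h')
    rw [norm_div, norm_mul, norm_mul, RCLike.norm_conj, Complex.norm_real, Complex.norm_real,
      Real.norm_of_nonneg hD.le, Real.norm_of_nonneg (mul_nonneg h5 h6), div_le_iff₀ hD]
    refine mul_le_mul_of_nonneg_left ?_ (mul_nonneg h5 h6)
    exact le_max_left _ _

theorem cont {d1 τ τ' σ : ℝ} (hd2 : d1 < 2) (hτ : 0 < τ) (hτ' : 0 < τ') (hσ : 0 < σ) :
    Continuous (Nof (nuf d1 τ τ' σ)) := by
  rw [continuous_iff_continuousAt]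
  intro z
  by_cases hz : z = 0
  · subst hz
    have h0 : Nof (nuf d1 τ τ' σ) 0 = 0 := by
      unfold Nof
      simp
    rw [ContinuousAt, h0, tendsto_zero_iff_norm_tendsto_zero]
    have hc : Continuous fun z : E => (2 - d1) * min 1 ((‖z.1‖ + ‖z.2‖) / σ) := by fun_prop
    have hlim : Tendsto (fun z : E => (2 - d1) * min 1 ((‖z.1‖ + ‖z.2‖) / σ)) (𝓝 0) (𝓝 0) := by
      have := hc.tendsto (0 : E)
      simpa using this
    exact squeeze_zero (fun z => norm_nonneg _) (fun z => norm_Nof hd2 hτ hτ' hσ z) hlim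
  · have e : Nof (nuf d1 τ τ' σ) = fun z : E =>
        (((2 - d1) * min 1 ((‖z.1‖ + ‖z.2‖) / σ) : ℝ) : ℂ) *
          (z.1 * conj z.2) / ((Dn τ τ' ‖z.1‖ ‖z.2‖ : ℝ) : ℂ) := by
      funext z
      exact Nof_eq hτ hτ' z
    rw [e]
    have hD := Dn_pos hτ hτ' (norm_nonneg z.1) (norm_nonneg z.2) (by
      by_contra h'
      push Not at h'
      exact hz (Prod.ext (norm_eq_zero.1 h'.1) (norm_eq_zero.1 h'.2)))
    refine ContinuousAt.div ?_ ?_ ?_
    · have hc : Continuous fun z : E => (((2 - d1) * min 1 ((‖z.1‖ + ‖z.2‖) / σ) : ℝ) : ℂ) *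
          (z.1 * conj z.2) := by
        refine Continuous.mul ?_ ?_
        · refine Complex.continuous_ofReal.comp ?_
          fun_prop
        · exact continuous_fst.mul (Complex.continuous_conj.comp continuous_snd)
      exact hc.continuousAt
    · have hc : Continuous fun z : E => ((Dn τ τ' ‖z.1‖ ‖z.2‖ : ℝ) : ℂ) := by
        refine Complex.continuous_ofReal.comp ?_
        unfold Dn
        fun_prop
      exact hc.continuousAt
    · exact_mod_cast hD.ne'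

theorem Dn_smul {τ τ' l r s : ℝ} (hl : 0 < l) :
    Dn τ τ' (l * r) (l * s) = l ^ 2 * Dn τ τ' r s := by
  unfold Dn
  have h2 : 0 ≤ l ^ 2 := by positivity
  rw [mul_max_of_nonneg _ _ h2, mul_max_of_nonneg _ _ h2]
  congr 1
  · ring
  · congr 1
    · ring
    · ring

/-- homogeneity away from zero -/
theorem homog {d1 τ τ' σ : ℝ} (hτ : 0 < τ) (hτ' : 0 < τ') (hσ : 0 < σ) {l : ℝ} (hl : 1 ≤ l)
    (z : E) (hz : σ ≤ ‖z‖) :
    Nof (nuf d1 τ τ' σ) (l • z) = Nof (nuf d1 τ τ' σ) z := by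
  have hl0 : 0 < l := by linarith
  have hL : σ ≤ ‖z.1‖ + ‖z.2‖ := by
    refine hz.trans ?_
    rw [Prod.norm_def]
    exact max_le (by linarith [norm_nonneg z.2]) (by linarith [norm_nonneg z.1])
  have e1 : ‖(l • z).1‖ = l * ‖z.1‖ := by
    rw [Prod.smul_fst, norm_smul, Real.norm_of_nonneg hl0.le]
  have e2 : ‖(l • z).2‖ = l * ‖z.2‖ := by
    rw [Prod.smul_snd, norm_smul, Real.norm_of_nonneg hl0.le]
  have m1 : min 1 ((‖z.1‖ + ‖z.2‖) / σ) = 1 := min_eq_left ((one_le_div hσ).2 hL)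
  have m2 : min 1 ((l * ‖z.1‖ + l * ‖z.2‖) / σ) = 1 := by
    refine min_eq_left ((one_le_div hσ).2 ?_)
    nlinarith [norm_nonneg z.1, norm_nonneg z.2]
  rw [Nof_eq hτ hτ', Nof_eq hτ hτ', e1, e2, m1, m2, Dn_smul hl0, Prod.smul_fst, Prod.smul_snd]
  have hl' : (l : ℂ) ≠ 0 := by exact_mod_cast hl0.ne'
  have e3 : (l • z.1) * conj (l • z.2) = ((l ^ 2 : ℝ) : ℂ) * (z.1 * conj z.2) := by
    rw [Complex.real_smul, Complex.real_smul, map_mul, Complex.conj_ofReal]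
    push_cast
    ring
  rw [e3]
  have hl2 : ((l ^ 2 : ℝ) : ℂ) ≠ 0 := by
    push_cast
    exact pow_ne_zero 2 hl'
  rw [Complex.ofReal_mul (l ^ 2)]
  rw [show (((2 - d1) * 1 : ℝ) : ℂ) * (((l ^ 2 : ℝ) : ℂ) * (z.1 * conj z.2)) =
    ((l ^ 2 : ℝ) : ℂ) * ((((2 - d1) * 1 : ℝ) : ℂ) * (z.1 * conj z.2)) by ring]
  rw [mul_div_mul_left _ _ hl2]

theorem unif {f : E → ℂ} (hf : Continuous f) {R : ℝ} (hR : 0 < R)
    (hh : ∀ l : ℝ, 1 ≤ l → ∀ z : E, R ≤ ‖z‖ → f (l • z) = f z) : UniformContinuous f := by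
  have hc : IsCompact (Metric.closedBall (0 : E) (3 * R)) := isCompact_closedBall _ _
  have hu := hc.uniformContinuousOn_of_continuous hf.continuousOn
  rw [Metric.uniformContinuousOn_iff] at hu
  rw [Metric.uniformContinuous_iff]
  intro ε hε
  obtain ⟨δ, hδ, h⟩ := hu ε hε
  -- the case of one point in the ball of radius `2 R`
  have key : ∀ z z' : E, ‖z‖ ≤ 2 * R → dist z z' < min δ R → dist (f z) (f z') < ε := by
    intro z z' hz hzz
    refine h z ?_ z' ?_ (hzz.trans_le (min_le_left _ _))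
    · rw [mem_closedBall_zero_iff]
      linarith
    · rw [mem_closedBall_zero_iff]
      have h1 : ‖z'‖ ≤ ‖z‖ + dist z z' := by
        rw [dist_eq_norm, ← norm_neg (z - z'), neg_sub]
        calc ‖z'‖ = ‖z + (z' - z)‖ := by congr 1; abel
          _ ≤ _ := norm_add_le _ _
      have h2 := min_le_right δ R
      linarith
  refine ⟨min δ R, lt_min hδ hR, fun z z' hzz => ?_⟩
  rcases le_or_gt ‖z‖ (2 * R) with hz | hz
  · exact key z z' hz hzz
  · -- scale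
    have hz0 : 0 < ‖z‖ := by linarith
    set t : ℝ := 2 * R / ‖z‖ with ht
    have ht0 : 0 < t := by positivity
    have ht1 : t ≤ 1 := (div_le_one hz0).2 hz.le
    have hn : ‖t • z‖ = 2 * R := by
      rw [norm_smul, Real.norm_of_nonneg ht0.le, ht]
      field_simp
    have hd : dist (t • z) (t • z') < min δ R := by
      rw [dist_smul₀, Real.norm_of_nonneg ht0.le]
      calc t * dist z z' ≤ 1 * dist z z' := by gcongr
        _ < _ := by rw [one_mul]; exact hzz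
    have hn' : R ≤ ‖t • z'‖ := by
      have h1 : ‖t • z‖ ≤ ‖t • z'‖ + dist (t • z) (t • z') := by
        rw [dist_eq_norm]
        calc ‖t • z‖ = ‖t • z' + (t • z - t • z')‖ := by congr 1; abel
          _ ≤ _ := norm_add_le _ _
      have h2 := min_le_right δ R
      rw [hn] at h1
      linarith
    have hl : 1 ≤ t⁻¹ := (one_le_inv₀ ht0).2 ht1
    have e1 : f z = f (t • z) := by
      have := hh t⁻¹ hl (t • z) (by rw [hn]; linarith)
      rw [smul_smul, inv_mul_cancel₀ ht0.ne', one_smul] at this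
      exact this
    have e2 : f z' = f (t • z') := by
      have := hh t⁻¹ hl (t • z') hn'
      rw [smul_smul, inv_mul_cancel₀ ht0.ne', one_smul] at this
      exact this
    rw [e1, e2]
    exact key _ _ hn.le hd

theorem main : StP5 := by
  intro d1 τ τ' σ hd1 hd2 hτ hτ' hσ
  refine ⟨?_, ?_, ?_⟩
  · exact unif (cont hd2 hτ hτ' hσ) hσ (fun l hl z hz => homog hτ hτ' hσ hl z hz)
  · intro z
    refine (norm_Nof hd2 hτ hτ' hσ z).trans ?_
    have h5 : 0 ≤ 2 - d1 := by linarith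
    have h6 : min 1 ((‖z.1‖ + ‖z.2‖) / σ) ≤ 1 := min_le_left _ _
    nlinarith
  · intro r s hr hs
    exact nuf_bd hd2 hτ hτ' hσ hr.le hs.le

end Helper87.NF.M_P5

end
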