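import Pool.Agent.Helper87.NF.StD

/-! Module P6 of the project NF: assembly of the admissible data of low regularity. -/

set_option autoImplicit false
set_option maxSynthPendingDepth 3

open MeasureTheory Complex Filter Topology
open scoped ENNReal NNReal ComplexConjugate

noncomputable section

namespace Helper87.NF.M_P6

open Helper85.IW

theorem covR_neg (α β : ℝ) (z : E) : covR α β (-z) = -covR α β z := by
  ext X <;> simp [covR, reL_apply] <;> ring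

theorem covI_neg (α β : ℝ) (z : E) : covI α β (-z) = -covI α β z := by
  ext X <;> simp [covI, imL_apply] <;> ring

theorem main (hP1 : StP1) (hP3 : StP3) (hP4 : StP4) (hD0 : Helper85.IW.StD0)
    (hD3 : Helper85.IW.StD3) : StP6 := by
  intro U p1 p2 M N ν θ τ K e₁ he τ0 hU hU0 h1 h2 z1 z2 hM hN huν hbν hmain
  obtain ⟨K', hK'⟩ := hP3 p1 p2 K h1 h2 z1 z2
  refine ⟨K', ?_, ?_, hK', hP4 M N hM hN, ?_, ?_, huν, hbν, ?_⟩
  · intro z
    refine hD0 U z _ _ ?_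
    have hz : ((‖z.1‖, ‖z.2‖) : ℝ × ℝ) ∈ qd := ⟨norm_nonneg _, norm_nonneg _⟩
    have e1 : p1 (‖z.1‖, ‖z.2‖) / ‖z.1‖ * ‖z.1‖ = p1 (‖z.1‖, ‖z.2‖) := by
      rcases eq_or_ne ‖z.1‖ 0 with h | h
      · rw [h, mul_zero, z1 _ (norm_nonneg _)]
      · rw [div_mul_cancel₀ _ h]
    have e2 : p2 (‖z.1‖, ‖z.2‖) / ‖z.2‖ * ‖z.2‖ = p2 (‖z.1‖, ‖z.2‖) := by
      rcases eq_or_ne ‖z.2‖ 0 with h | h
      · rw [h, mul_zero, z2 _ (norm_nonneg _)]
      · rw [div_mul_cancel₀ _ h]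
    rw [e1, e2]
    exact hU _ hz
  · simpa using hU0
  · intro z
    unfold Gof
    rw [← covR_neg]
    simp
  · intro z
    unfold Eof
    rw [← covI_neg]
    simp
  · filter_upwards [hD3 1 one_pos, hD3 τ τ0, hD3 (1 / τ) (by positivity)] with z a1 a2 a3
    obtain ⟨b1, b2, b3⟩ := a1
    have r0 : 0 < ‖z.1‖ := norm_pos_iff.2 b1
    have s0 : 0 < ‖z.2‖ := norm_pos_iff.2 b2
    obtain ⟨urr, urs, uss, Mr, Ms, Nr, Ns, d1, d2, d3, d4, hq⟩ := hmain ‖z.1‖ ‖z.2‖ r0 s0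
      (fun h => b3 (by rw [one_mul, h]))
      (fun h => a3.2.2 (by rw [h]; field_simp))
      (fun h => a2.2.2 h.symm)
    obtain ⟨c1, c2, c3⟩ := hP1 p1 p2 M N z b1 b2 urr urs uss Mr Ms Nr Ns (ν (‖z.1‖, ‖z.2‖))
      d1 d2 d3 d4
    refine ⟨c1, c2, fun X Y hXY => ?_⟩
    obtain ⟨x, ξ, ψ, x', ξ', ψ', n1, n2⟩ := c3 X Y hXY
    have q1 := (hq x ξ ψ).1
    have q2 := (hq x' ξ' ψ').2
    unfold Nof
    rw [n2]
    nlinarith [mul_le_mul_of_nonneg_left n1 he.le]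

end Helper87.NF.M_P6
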