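import Pool.Agent.Helper87.NF.StD

set_option autoImplicit false
set_option maxSynthPendingDepth 3

namespace Helper87.NF.M_UA

open Helper87.NF

theorem cross (c n u v : ℝ) (h : |n| ≤ c) : -(c / 2) * (u ^ 2 + v ^ 2) ≤ n * (u * v) := by
  obtain ⟨h1, h2⟩ := abs_le.1 h
  have e : n * (u * v) - -(c / 2) * (u ^ 2 + v ^ 2) =
      (c + n) / 4 * (u + v) ^ 2 + (c - n) / 4 * (u - v) ^ 2 := by ring
  have p1 : 0 ≤ (c + n) / 4 * (u + v) ^ 2 := mul_nonneg (by linarith) (sq_nonneg _)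
  have p2 : 0 ≤ (c - n) / 4 * (u - v) ^ 2 := mul_nonneg (by linarith) (sq_nonneg _)
  linarith

theorem main : StUA := by
  intro ε δ d1 b g n1 n2 B x ξ ψ hε hd1 hdδ hδ2 hb hg hδg hd1b hn1 hn2
  have hδ : 0 < δ := lt_of_lt_of_le hd1 hdδ
  have c1 := cross _ n1 x ψ hn1
  have sq1 : ∀ t : ℝ, 0 ≤ ε * t ^ 2 := fun t => mul_nonneg hε.le (sq_nonneg t)
  have sq2 : ∀ t : ℝ, 0 ≤ ε * (2 - δ) * t ^ 2 := fun t =>
    mul_nonneg (mul_nonneg hε.le (by linarith)) (sq_nonneg t)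
  have sq3 : ∀ t : ℝ, 0 ≤ ε * (δ - d1) * t ^ 2 := fun t =>
    mul_nonneg (mul_nonneg hε.le (by linarith)) (sq_nonneg t)
  have sq4 : ∀ t : ℝ, 0 ≤ ε * d1 * t ^ 2 := fun t =>
    mul_nonneg (mul_nonneg hε.le hd1.le) (sq_nonneg t)
  constructor
  · obtain ⟨y, hy⟩ : ∃ y, y = x + ξ + ψ := ⟨_, rfl⟩
    have c2 := cross _ n2 y ψ hn2
    have e : FP (2 - δ) (B + 2 * g + 2 * ε) (2 * g) (-B + 2 * g)
        (B + 2 * ε) (-B + b) (-2 * ε) 0 (b - (δ - d1) * b / 2 + n1) (b + n2 + 2 * ε) x ξ ψ =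
        g * (2 * (x + y) - δ * (x + ψ) / 2) ^ 2 + (δ - d1) * b / 2 * ψ ^ 2
        + d1 * b / 2 * (ψ + x / 2) ^ 2 - g * δ ^ 2 / 4 * (x + ψ) ^ 2 - d1 * b / 8 * x ^ 2
        + n1 * (x * ψ) + n2 * (y * ψ)
        + ε * ((2 - δ / 2) * (x ^ 2 + y ^ 2) + δ / 2 * (ξ ^ 2 + ψ ^ 2)) := by
      rw [hy, FP]
      ring
    have p1 : 0 ≤ g * (2 * (x + y) - δ * (x + ψ) / 2) ^ 2 := mul_nonneg hg (sq_nonneg _)
    have p2 : 0 ≤ (δ - d1) * b / 2 * ψ ^ 2 :=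
      mul_nonneg (div_nonneg (mul_nonneg (by linarith) hb) (by norm_num)) (sq_nonneg _)
    have p3 : 0 ≤ d1 * b / 2 * (ψ + x / 2) ^ 2 :=
      mul_nonneg (div_nonneg (mul_nonneg hd1.le hb) (by norm_num)) (sq_nonneg _)
    have p4 : g * δ ^ 2 / 4 * (x + ψ) ^ 2 ≤ ε * δ / 16 * (x ^ 2 + ψ ^ 2) := by
      have a1 : g * δ ^ 2 / 4 ≤ ε * δ / 32 := by nlinarith [mul_le_mul_of_nonneg_left hδg hδ.le]
      have a2 : (x + ψ) ^ 2 ≤ 2 * (x ^ 2 + ψ ^ 2) := by nlinarith [sq_nonneg (x - ψ)]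
      calc g * δ ^ 2 / 4 * (x + ψ) ^ 2 ≤ ε * δ / 32 * (2 * (x ^ 2 + ψ ^ 2)) :=
            mul_le_mul a1 a2 (sq_nonneg _) (by positivity)
        _ = ε * δ / 16 * (x ^ 2 + ψ ^ 2) := by ring
    have p5 : d1 * b / 8 * x ^ 2 ≤ ε / 64 * x ^ 2 :=
      mul_le_mul_of_nonneg_right (by linarith) (sq_nonneg _)
    rw [e]
    linarith [sq1 x, sq2 x, sq3 x, sq4 x, sq1 y, sq2 y, sq3 y, sq4 y, sq1 ξ, sq2 ξ, sq3 ξ, sq4 ξ,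
      sq1 ψ, sq2 ψ, sq3 ψ, sq4 ψ]
  · obtain ⟨y, hy⟩ : ∃ y, y = ψ - x - ξ := ⟨_, rfl⟩
    have c2 := cross _ n2 y ψ hn2
    have e : FM (2 - δ) (B + 2 * g + 2 * ε) (2 * g) (-B + 2 * g)
        (B + 2 * ε) (-B + b) (-2 * ε) 0 (b - (δ - d1) * b / 2 + n1) (b + n2 + 2 * ε) x ξ ψ =
        (1 - δ / 2) * b * ψ ^ 2 + b * (ψ + d1 * x / 4) ^ 2 - d1 ^ 2 * b / 16 * x ^ 2
        + n1 * (x * ψ) + n2 * (y * ψ)
        + ε * ((2 - δ / 2) * (ξ ^ 2 + ψ ^ 2) + δ / 2 * (x ^ 2 + y ^ 2)) := by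
      rw [hy, FM]
      ring
    have p2 : 0 ≤ (1 - δ / 2) * b * ψ ^ 2 :=
      mul_nonneg (mul_nonneg (by linarith) hb) (sq_nonneg _)
    have p3 : 0 ≤ b * (ψ + d1 * x / 4) ^ 2 := mul_nonneg hb (sq_nonneg _)
    have p5 : d1 ^ 2 * b / 16 * x ^ 2 ≤ ε * d1 / 128 * x ^ 2 := by
      refine mul_le_mul_of_nonneg_right ?_ (sq_nonneg _)
      nlinarith [mul_le_mul_of_nonneg_left hd1b hd1.le]
    rw [e]
    linarith [sq1 x, sq2 x, sq3 x, sq4 x, sq1 y, sq2 y, sq3 y, sq4 y, sq1 ξ, sq2 ξ, sq3 ξ, sq4 ξ,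
      sq1 ψ, sq2 ψ, sq3 ψ, sq4 ψ]

end Helper87.NF.M_UA
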