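import Pool.Agent.Helper87.NF.StD

/-!
# Module UH1: first derivative of the H-type function on the quadrant
-/

set_option autoImplicit false
set_option maxSynthPendingDepth 3

open MeasureTheory Filter Topology Asymptotics

namespace Helper87.NF.M_UH1

open Helper85.IW

variable {P P' : ℝ → ℝ} {q κ K : ℝ}

theorem dfst (x : ℝ × ℝ) : HasFDerivAt (fun y : ℝ × ℝ => y.1) (lin2 1 0) x := by
  have h : HasFDerivAt (fun y : ℝ × ℝ => y.1) (ContinuousLinearMap.fst ℝ ℝ ℝ) x := hasFDerivAt_fst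
  convert h using 1
  ext <;> simp [lin2_apply]

theorem dsnd (x : ℝ × ℝ) : HasFDerivAt (fun y : ℝ × ℝ => y.2) (lin2 0 1) x := by
  have h : HasFDerivAt (fun y : ℝ × ℝ => y.2) (ContinuousLinearMap.snd ℝ ℝ ℝ) x := hasFDerivAt_snd
  convert h using 1
  ext <;> simp [lin2_apply]

theorem dL (x : ℝ × ℝ) : HasFDerivAt (fun y : ℝ × ℝ => (y.1 + y.2) / 2) (lin2 (1 / 2) (1 / 2)) x := by
  have h := ((dfst x).add (dsnd x)).mul_const (1 / 2 : ℝ)
  refine (h.congr_of_eventuallyEq (Eventually.of_forall fun y => ?_)).congr_fderiv ?_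
  · simp only [Pi.add_apply]; ring
  · ext <;> simp [lin2_apply]

theorem dD (x : ℝ × ℝ) :
    HasFDerivAt (fun y : ℝ × ℝ => (y.1 - y.2) / 2) (lin2 (1 / 2) (-(1 / 2))) x := by
  have h := ((dfst x).sub (dsnd x)).mul_const (1 / 2 : ℝ)
  refine (h.congr_of_eventuallyEq (Eventually.of_forall fun y => ?_)).congr_fderiv ?_
  · simp only [Pi.sub_apply]; ring
  · ext <;> simp [lin2_apply]

/-- the part of `UH` without the function `Bw` -/
theorem part2 (hW1 : StW1) (hW : Wt P P' q κ K) (ε : ℝ) (x : ℝ × ℝ) :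
    HasFDerivAt (fun x : ℝ × ℝ => 2 * x.2 * Aw P ((x.1 + x.2) / 2) - 2 * Mw P ((x.1 + x.2) / 2)
        + 4 * Cw P ((x.1 - x.2) / 2) + ε * x.1 ^ 2)
      (lin2 ((x.2 - (x.1 + x.2) / 2) * P ((x.1 + x.2) / 2) + 2 * Aw P ((x.1 - x.2) / 2)
          + 2 * ε * x.1)
        ((x.2 - (x.1 + x.2) / 2) * P ((x.1 + x.2) / 2) + 2 * Aw P ((x.1 + x.2) / 2)
          - 2 * Aw P ((x.1 - x.2) / 2))) x := by
  obtain ⟨hA, hC, hM, hB, hBc, h0⟩ := hW1 P P' q κ K hW
  have hA' := (hA ((x.1 + x.2) / 2)).comp_hasFDerivAt x (dL x)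
  have hM' := (hM ((x.1 + x.2) / 2)).comp_hasFDerivAt x (dL x)
  have hC' := (hC ((x.1 - x.2) / 2)).comp_hasFDerivAt x (dD x)
  have h := ((((((dsnd x).const_mul 2).mul hA').sub (hM'.const_mul 2)).add
    (hC'.const_mul 4)).add (((dfst x).pow 2).const_mul ε))
  refine (h.congr_of_eventuallyEq (Eventually.of_forall fun y => ?_)).congr_fderiv ?_
  · simp [Function.comp]
  · ext <;> simp [lin2_apply] <;> ring

theorem main (hW1 : StW1) : StUH1 := by
  intro P P' q κ K hW ε
  obtain ⟨hA, hC, hM, hB, hBc, h0⟩ := hW1 P P' q κ K hW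
  have h00 := h0 0 le_rfl
  refine ⟨fun x hx => ?_, ?_, fun s hs => ?_, fun r hr => ?_⟩
  · have h2 := part2 hW1 hW ε x
    have hfun : ∀ y : ℝ × ℝ, UH P ε y = (y.1 ^ 2 - y.2 ^ 2) / 2 * Bw P ((y.1 + y.2) / 2) +
        (2 * y.2 * Aw P ((y.1 + y.2) / 2) - 2 * Mw P ((y.1 + y.2) / 2)
        + 4 * Cw P ((y.1 - y.2) / 2) + ε * y.1 ^ 2) := by
      intro y; unfold UH; ring
    have hsq : HasFDerivAt (fun y : ℝ × ℝ => (y.1 ^ 2 - y.2 ^ 2) / 2) (lin2 x.1 (-x.2)) x := by
      have h := (((dfst x).pow 2).sub ((dsnd x).pow 2)).mul_const (1 / 2 : ℝ)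
      refine (h.congr_of_eventuallyEq (Eventually.of_forall fun y => ?_)).congr_fderiv ?_
      · simp only [Pi.sub_apply, Pi.pow_apply]; ring
      · ext <;> simp [lin2_apply] <;> ring
    refine HasFDerivAt.hasFDerivWithinAt ?_
    rcases eq_or_lt_of_le (add_nonneg hx.1 hx.2) with hL | hL
    · -- the origin
      have hx1 : x.1 = 0 := by have := hx.1; have := hx.2; linarith
      have hx2 : x.2 = 0 := by have := hx.1; have := hx.2; linarith
      have hx0 : x = (0, 0) := Prod.ext hx1 hx2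
      have h1 : HasFDerivAt (fun y : ℝ × ℝ => (y.1 ^ 2 - y.2 ^ 2) / 2 * Bw P ((y.1 + y.2) / 2))
          (lin2 0 0) x := by
        rw [hasFDerivAt_iff_isLittleO_nhds_zero]
        rw [hasFDerivAt_iff_isLittleO_nhds_zero] at hsq
        have hsq' : (fun h : ℝ × ℝ => ((x + h).1 ^ 2 - (x + h).2 ^ 2) / 2) =o[𝓝 0] fun h => h := by
          refine hsq.congr_left fun h => ?_
          simp [lin2_apply, hx1, hx2]
        have hBO : (fun h : ℝ × ℝ => Bw P (((x + h).1 + (x + h).2) / 2)) =O[𝓝 0]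
            fun _ => (1 : ℝ) := by
          have hc : Continuous fun h : ℝ × ℝ => Bw P (((x + h).1 + (x + h).2) / 2) :=
            hBc.comp (by fun_prop)
          exact hc.continuousAt.isBigO_one ℝ
        have h3 := hsq'.norm_right.mul_isBigO hBO
        have h4 : (fun h : ℝ × ℝ => ‖h‖ * 1) = fun h => ‖h‖ := by funext h; ring
        rw [h4] at h3
        refine (h3.of_norm_right).congr_left fun h => ?_
        simp [lin2_apply, hx1, hx2]
      have h3 := h1.add h2
      refine (h3.congr_of_eventuallyEq (Eventually.of_forall fun y => ?_)).congr_fderiv ?_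
      · rw [hfun y]; rfl
      · ext
        · simp [lin2_apply, p1H, p2H, hx1, hx2, h00.1, h00.2.1]
        · simp [lin2_apply, p1H, p2H, hx1, hx2, h00.1, h00.2.1]
    · have hL2 : 0 < (x.1 + x.2) / 2 := by linarith
      have hB' := (hB ((x.1 + x.2) / 2) hL2).comp_hasFDerivAt x (dL x)
      have h3 := (hsq.mul hB').add h2
      refine (h3.congr_of_eventuallyEq (Eventually.of_forall fun y => ?_)).congr_fderiv ?_
      · rw [hfun y]; rfl
      · have hne : x.1 + x.2 ≠ 0 := hL.ne'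
        ext
        · simp [lin2_apply, p1H, p2H]
          field_simp
          ring
        · simp [lin2_apply, p1H, p2H]
          field_simp
          ring
  · unfold UH
    simp [h00.1, h00.2.1, h00.2.2.1, h00.2.2.2]
  · unfold p1H
    have : Aw P ((0 - s) / 2) = 0 := (h0 _ (by linarith)).1
    simp only [this]
    ring
  · unfold p2H
    simp

end Helper87.NF.M_UH1
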