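import Pool.Agent.Helper87.NF.StD

/-!
# Module UH2: Lipschitz bounds of `p1H`, `p2H`
-/

set_option autoImplicit false
set_option maxSynthPendingDepth 3

open MeasureTheory Filter Topology

namespace Helper87.NF.M_UH2

variable {P P' : ℝ → ℝ} {q κ K : ℝ}

theorem lipA (hW1 : StW1) (hW2 : StW2) (hW : Wt P P' q κ K) (x y : ℝ) :
    |Aw P x - Aw P y| ≤ K * |x - y| := by
  obtain ⟨hA, -⟩ := hW1 P P' q κ K hW
  have h := Convex.norm_image_sub_le_of_norm_hasDerivWithin_le (s := Set.univ) (C := K)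
    (fun y _ => (hA y).hasDerivWithinAt) (fun y _ => by
      rw [Real.norm_eq_abs, abs_of_nonneg ((hW2 P P' q κ K hW).1 y).2.2.2.2.1]
      exact hW.bd y) convex_univ (Set.mem_univ y) (Set.mem_univ x)
  simpa [Real.norm_eq_abs] using h

theorem lipB (hW1 : StW1) (hW2 : StW2) (hW : Wt P P' q κ K) {a b : ℝ} (ha : 0 < a) (hab : a ≤ b) :
    |Bw P b - Bw P a| ≤ K / a * (b - a) := by
  obtain ⟨-, -, -, hB, -⟩ := hW1 P P' q κ K hW
  have h := norm_image_sub_le_of_norm_deriv_le_segment' (f := Bw P) (f' := fun y => P y / y)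
    (C := K / a) (a := a) (b := b)
    (fun x hx => (hB x (lt_of_lt_of_le ha hx.1)).hasDerivWithinAt) (fun x hx => by
      have hx0 : 0 < x := lt_of_lt_of_le ha hx.1
      have h0 := ((hW2 P P' q κ K hW).1 x).2.2.2.2.1
      rw [Real.norm_eq_abs, abs_of_nonneg (div_nonneg h0 hx0.le)]
      exact div_le_div₀ hW.K0.le (hW.bd x) ha hx.1) b (Set.right_mem_Icc.mpr hab)
  simpa [Real.norm_eq_abs] using h

/-- the main estimate, in the case that the first point is the larger one -/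
theorem keyle (hW1 : StW1) (hW2 : StW2) (hW : Wt P P' q κ K) {u u' L L' N : ℝ} (hu' : 0 ≤ u')
    (huL' : u' ≤ L') (hN1 : |u - u'| ≤ N) (hN2 : |L - L'| ≤ 2 * N) (hLL : L' ≤ L) :
    |u * Bw P (L / 2) - u' * Bw P (L' / 2)| ≤ 3 * K * N := by
  have hN : 0 ≤ N := (abs_nonneg _).trans hN1
  have hB := ((hW2 P P' q κ K hW).1 (L / 2))
  have hB0 : 0 ≤ Bw P (L / 2) := hB.2.1
  have hBK : Bw P (L / 2) ≤ K := hB.2.2.2.2.2
  have h1 : |(u - u') * Bw P (L / 2)| ≤ N * K := by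
    rw [abs_mul, abs_of_nonneg hB0]
    exact mul_le_mul hN1 hBK hB0 hN
  have h2 : |u' * (Bw P (L / 2) - Bw P (L' / 2))| ≤ 2 * N * K := by
    rcases eq_or_lt_of_le hu' with h | h
    · rw [← h, zero_mul, abs_zero]
      have := hW.K0
      positivity
    · have hL' : 0 < L' := lt_of_lt_of_le h huL'
      have h3 := lipB hW1 hW2 hW (a := L' / 2) (b := L / 2) (by positivity) (by linarith)
      rw [abs_mul, abs_of_nonneg hu']
      calc u' * |Bw P (L / 2) - Bw P (L' / 2)|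
          ≤ L' * (K / (L' / 2) * (L / 2 - L' / 2)) :=
            mul_le_mul huL' h3 (abs_nonneg _) hL'.le
        _ = K * (L - L') := by field_simp
        _ ≤ K * (2 * N) := by
            refine mul_le_mul_of_nonneg_left ((le_abs_self _).trans hN2) hW.K0.le
        _ = 2 * N * K := by ring
  have h4 : u * Bw P (L / 2) - u' * Bw P (L' / 2) =
      (u - u') * Bw P (L / 2) + u' * (Bw P (L / 2) - Bw P (L' / 2)) := by ring
  rw [h4]
  refine (abs_add_le _ _).trans ?_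
  linarith

theorem key (hW1 : StW1) (hW2 : StW2) (hW : Wt P P' q κ K) {u u' L L' N : ℝ} (hu : 0 ≤ u)
    (hu' : 0 ≤ u') (huL : u ≤ L) (huL' : u' ≤ L') (hN1 : |u - u'| ≤ N) (hN2 : |L - L'| ≤ 2 * N) :
    |u * Bw P (L / 2) - u' * Bw P (L' / 2)| ≤ 3 * K * N := by
  rcases le_total L' L with h | h
  · exact keyle hW1 hW2 hW hu' huL' hN1 hN2 h
  · rw [abs_sub_comm] at hN1 hN2 ⊢
    exact keyle hW1 hW2 hW hu huL hN1 hN2 h

theorem main (hW1 : StW1) (hW2 : StW2) : StUH2 := by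
  intro P P' q κ K hW ε hε
  have hK := hW.K0
  have hn1 : ∀ x y : ℝ × ℝ, |x.1 - y.1| ≤ ‖x - y‖ := fun x y => norm_fst_le (x - y)
  have hn2 : ∀ x y : ℝ × ℝ, |x.2 - y.2| ≤ ‖x - y‖ := fun x y => norm_snd_le (x - y)
  have hL : ∀ x y : ℝ × ℝ, |(x.1 + x.2) - (y.1 + y.2)| ≤ 2 * ‖x - y‖ := by
    intro x y
    have h1 := hn1 x y
    have h2 := hn2 x y
    rw [abs_le] at *
    constructor <;> linarith [h1.1, h1.2, h2.1, h2.2]
  have hD : ∀ x y : ℝ × ℝ, |(x.1 - x.2) / 2 - (y.1 - y.2) / 2| ≤ ‖x - y‖ := by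
    intro x y
    have h1 := hn1 x y
    have h2 := hn2 x y
    rw [abs_le] at *
    constructor <;> linarith [h1.1, h1.2, h2.1, h2.2]
  have hL2 : ∀ x y : ℝ × ℝ, |(x.1 + x.2) / 2 - (y.1 + y.2) / 2| ≤ ‖x - y‖ := by
    intro x y
    have h1 := hL x y
    rw [abs_le] at *
    constructor <;> linarith [h1.1, h1.2]
  have hAD : ∀ x y : ℝ × ℝ, |Aw P ((x.1 - x.2) / 2) - Aw P ((y.1 - y.2) / 2)| ≤ K * ‖x - y‖ :=
    fun x y => (lipA hW1 hW2 hW _ _).trans (mul_le_mul_of_nonneg_left (hD x y) hK.le)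
  have hAL : ∀ x y : ℝ × ℝ, |Aw P ((x.1 + x.2) / 2) - Aw P ((y.1 + y.2) / 2)| ≤ K * ‖x - y‖ :=
    fun x y => (lipA hW1 hW2 hW _ _).trans (mul_le_mul_of_nonneg_left (hL2 x y) hK.le)
  refine ⟨7 * K + 2 * ε, fun x hx y hy => ?_, fun x hx y hy => ?_⟩
  · have h1 := key hW1 hW2 hW (u := x.1) (u' := y.1) (L := x.1 + x.2) (L' := y.1 + y.2)
      (N := ‖x - y‖) hx.1 hy.1 (by linarith [hx.2]) (by linarith [hy.2]) (hn1 x y) (hL x y)
    have h2 := hAD x y
    have h3 := hn1 x y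
    have h0 := norm_nonneg (x - y)
    have e : p1H P ε x - p1H P ε y = (x.1 * Bw P ((x.1 + x.2) / 2) - y.1 * Bw P ((y.1 + y.2) / 2))
        + 2 * (Aw P ((x.1 - x.2) / 2) - Aw P ((y.1 - y.2) / 2)) + 2 * ε * (x.1 - y.1) := by
      unfold p1H; ring
    have h4 : |2 * (Aw P ((x.1 - x.2) / 2) - Aw P ((y.1 - y.2) / 2))| ≤ 2 * (K * ‖x - y‖) := by
      rw [abs_mul, abs_two]; linarith
    have h5 : |2 * ε * (x.1 - y.1)| ≤ 2 * ε * ‖x - y‖ := by
      rw [abs_mul, abs_of_nonneg (by positivity : (0 : ℝ) ≤ 2 * ε)]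
      exact mul_le_mul_of_nonneg_left h3 (by positivity)
    rw [e]
    refine (abs_add_le _ _).trans ?_
    refine (add_le_add ((abs_add_le _ _).trans (add_le_add h1 h4)) h5).trans ?_
    nlinarith [mul_nonneg hK.le h0]
  · have h1 := key hW1 hW2 hW (u := x.2) (u' := y.2) (L := x.1 + x.2) (L' := y.1 + y.2)
      (N := ‖x - y‖) hx.2 hy.2 (by linarith [hx.1]) (by linarith [hy.1]) (hn2 x y) (hL x y)
    have h2 := hAD x y
    have h3 := hAL x y
    have h0 := norm_nonneg (x - y)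
    have e : p2H P x - p2H P y = -(x.2 * Bw P ((x.1 + x.2) / 2) - y.2 * Bw P ((y.1 + y.2) / 2))
        + 2 * (Aw P ((x.1 + x.2) / 2) - Aw P ((y.1 + y.2) / 2))
        + -(2 * (Aw P ((x.1 - x.2) / 2) - Aw P ((y.1 - y.2) / 2))) := by
      unfold p2H; ring
    have h4 : |2 * (Aw P ((x.1 - x.2) / 2) - Aw P ((y.1 - y.2) / 2))| ≤ 2 * (K * ‖x - y‖) := by
      rw [abs_mul, abs_two]; linarith
    have h5 : |2 * (Aw P ((x.1 + x.2) / 2) - Aw P ((y.1 + y.2) / 2))| ≤ 2 * (K * ‖x - y‖) := by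
      rw [abs_mul, abs_two]; linarith
    rw [e]
    refine (abs_add_le _ _).trans ?_
    rw [abs_neg]
    refine (add_le_add ((abs_add_le _ _).trans (add_le_add ((abs_neg _).le.trans h1) h5))
      h4).trans ?_
    nlinarith [mul_nonneg hε.le h0]

end Helper87.NF.M_UH2
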