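import Pool.Agent.Helper42.NF.DerH

/-!
# Module UV1: first derivative of the V-type function (by helper42)
-/

set_option autoImplicit false
set_option maxSynthPendingDepth 3

open MeasureTheory Complex Filter Topology
open scoped ENNReal NNReal ComplexConjugate

noncomputable section

namespace Helper87.NF.M_UV1

open Helper85.IW Helper87.NF Helper87.NF.H42

/-- the formula in the region `s < r` -/
def VF (P : ℝ → ℝ) (ε : ℝ) (x : ℝ × ℝ) : ℝ :=
  x.1 ^ 2 / 2 * Bw P x.1 - Mw P x.1 / 2 - x.2 ^ 2 / 2 * Bw P x.2 + Mw P x.2 / 2 + 2 * Cw P x.2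
    + ε * x.1 ^ 2

/-- the formula in the region `r ≤ s` -/
def HF (P : ℝ → ℝ) (ε : ℝ) (x : ℝ × ℝ) : ℝ :=
  (x.1 ^ 2 - x.2 ^ 2) / 2 * Bw P ((x.1 + x.2) / 2) + 2 * x.2 * Aw P ((x.1 + x.2) / 2)
      - 2 * Mw P ((x.1 + x.2) / 2) + ε * x.1 ^ 2

variable {P P' : ℝ → ℝ} {q κ K : ℝ}

theorem hf_VF (hW1 : StW1) (hW : Wt P P' q κ K) (ε : ℝ) (x : ℝ × ℝ) :
    HasFDerivAt (VF P ε) (lin2 (x.1 * Bw P x.1 + 2 * ε * x.1) (-x.2 * Bw P x.2 + 2 * Aw P x.2))
      x := by
  obtain ⟨hA, hC, hM, hB, hBc, h0⟩ := hW1 P P' q κ K hW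
  have g1 := hf_cmul (1 / 2) (hf_mul (hf_fst x) (hf_comp (hf_fst x) (hd_G hW1 hW x.1)))
  have g2 := hf_cmul (1 / 2) (hf_comp (hf_fst x) (hM x.1))
  have g3 := hf_cmul (1 / 2) (hf_mul (hf_snd x) (hf_comp (hf_snd x) (hd_G hW1 hW x.2)))
  have g4 := hf_cmul (1 / 2) (hf_comp (hf_snd x) (hM x.2))
  have g5 := hf_cmul 2 (hf_comp (hf_snd x) (hC x.2))
  have g6 := hf_cmul ε (hf_sq_fst x)
  have h := hf_add (hf_add (hf_add (hf_sub (hf_sub g1 g2) g3) g4) g5) g6
  have e : VF P ε = fun x : ℝ × ℝ => (1 / 2 * (x.1 * (x.1 * Bw P x.1)) - 1 / 2 * Mw P x.1 -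
      1 / 2 * (x.2 * (x.2 * Bw P x.2)) + 1 / 2 * Mw P x.2 + 2 * Cw P x.2) + ε * x.1 ^ 2 := by
    funext x
    unfold VF
    ring
  rw [e]
  exact hf_congr h (by ring) (by ring)

theorem hf_HF (hW1 : StW1) (hW : Wt P P' q κ K) (ε : ℝ) (x : ℝ × ℝ) :
    HasFDerivAt (HF P ε) (lin2 (x.1 * Bw P ((x.1 + x.2) / 2) + 2 * ε * x.1)
      (-x.2 * Bw P ((x.1 + x.2) / 2) + 2 * Aw P ((x.1 + x.2) / 2))) x := by
  obtain ⟨hA, hC, hM, hB, hBc, h0⟩ := hW1 P P' q κ K hW
  have g1 := hf_mul (hf_sub (hf_fst x) (hf_snd x))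
    (hf_comp (hf_half_add x) (hd_G hW1 hW ((x.1 + x.2) / 2)))
  have g2 := hf_mul (hf_cmul 2 (hf_snd x)) (hf_A_add hW1 hW x)
  have g3 := hf_cmul 2 (hf_comp (hf_half_add x) (hM ((x.1 + x.2) / 2)))
  have g4 := hf_cmul ε (hf_sq_fst x)
  have h := hf_add (hf_sub (hf_add g1 g2) g3) g4
  have e : HF P ε = fun x : ℝ × ℝ => ((x.1 - x.2) * ((x.1 + x.2) / 2 * Bw P ((x.1 + x.2) / 2)) +
      2 * x.2 * Aw P ((x.1 + x.2) / 2) - 2 * Mw P ((x.1 + x.2) / 2)) + ε * x.1 ^ 2 := by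
    funext x
    unfold HF
    ring
  rw [e]
  exact hf_congr h (by ring) (by ring)

theorem main (hW1 : StW1) : StUV1 := by
  intro P P' q κ K hW ε
  obtain ⟨hA, hC, hM, hB, hBc, h0⟩ := hW1 P P' q κ K hW
  have hlt : ∀ x : ℝ × ℝ, x.2 < x.1 → UV P ε x = VF P ε x := by
    intro x hx
    unfold UV VF
    rw [if_pos hx]
  have hge : ∀ x : ℝ × ℝ, ¬ x.2 < x.1 → UV P ε x = HF P ε x := by
    intro x hx
    unfold UV HF
    rw [if_neg hx]
  refine ⟨?_, ?_, ?_, ?_⟩
  · intro x hx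
    rcases lt_trichotomy x.2 x.1 with h | h | h
    · -- `s < r`
      have h1 : HasFDerivAt (UV P ε) (lin2 (p1V P ε x) (p2V P x)) x := by
        have h2 : HasFDerivAt (UV P ε)
            (lin2 (x.1 * Bw P x.1 + 2 * ε * x.1) (-x.2 * Bw P x.2 + 2 * Aw P x.2)) x := by
          refine (hf_VF hW1 hW ε x).congr_of_eventuallyEq ?_
          filter_upwards [(isOpen_lt continuous_snd continuous_fst).mem_nhds h] with y hy
          exact hlt y hy
        refine hf_congr h2 ?_ ?_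
        · unfold p1V
          rw [if_pos h]
        · unfold p2V
          rw [if_pos h]
      exact h1.hasFDerivWithinAt
    · -- the diagonal
      have hn : ¬ x.2 < x.1 := by rw [h]; exact lt_irrefl _
      have e2 : (x.1 + x.2) / 2 = x.1 := by rw [h]; ring
      have hp1 : p1V P ε x = x.1 * Bw P x.1 + 2 * ε * x.1 := by
        unfold p1V
        rw [if_neg hn, e2]
      have hp2 : p2V P x = -x.2 * Bw P x.2 + 2 * Aw P x.2 := by
        unfold p2V
        rw [if_neg hn, e2, h]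
      have hval : VF P ε x = HF P ε x := by
        unfold VF HF
        rw [e2, h]
        unfold Cw
        ring
      have hV := hf_VF hW1 hW ε x
      have hH := hf_HF hW1 hW ε x
      rw [e2] at hH
      rw [← hp1, ← hp2] at hV
      have hH' : HasFDerivAt (HF P ε) (lin2 (p1V P ε x) (p2V P x)) x := by
        refine hf_congr hH ?_ ?_
        · rw [hp1]
        · rw [hp2, h]
      have w1 : HasFDerivWithinAt (UV P ε) (lin2 (p1V P ε x) (p2V P x))
          {y : ℝ × ℝ | y.2 < y.1} x :=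
        (hV.hasFDerivWithinAt).congr (fun y hy => hlt y hy) (by rw [hge x hn, hval])
      have w2 : HasFDerivWithinAt (UV P ε) (lin2 (p1V P ε x) (p2V P x))
          {y : ℝ × ℝ | ¬ y.2 < y.1} x :=
        (hH'.hasFDerivWithinAt).congr (fun y hy => hge y hy) (hge x hn)
      have w3 := w1.union w2
      refine w3.mono ?_
      intro y _
      by_cases hy : y.2 < y.1
      · exact Or.inl hy
      · exact Or.inr hy
    · -- `r < s`
      have hn : ¬ x.2 < x.1 := not_lt.2 h.le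
      have h1 : HasFDerivAt (UV P ε) (lin2 (p1V P ε x) (p2V P x)) x := by
        have h2 : HasFDerivAt (UV P ε) (lin2 (x.1 * Bw P ((x.1 + x.2) / 2) + 2 * ε * x.1)
            (-x.2 * Bw P ((x.1 + x.2) / 2) + 2 * Aw P ((x.1 + x.2) / 2))) x := by
          refine (hf_HF hW1 hW ε x).congr_of_eventuallyEq ?_
          filter_upwards [(isOpen_lt continuous_fst continuous_snd).mem_nhds h] with y hy
          exact hge y (not_lt.2 (le_of_lt hy))
        refine hf_congr h2 ?_ ?_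
        · unfold p1V
          rw [if_neg hn]
        · unfold p2V
          rw [if_neg hn]
      exact h1.hasFDerivWithinAt
  · have e := h0 0 le_rfl
    unfold UV
    simp [e.1, e.2.1, e.2.2.1, e.2.2.2]
  · intro s hs
    unfold p1V
    simp [not_lt.2 hs]
  · intro r hr
    have e := h0 0 le_rfl
    unfold p2V
    rcases hr.eq_or_lt with h | h
    · subst h
      simp [e.1, e.2.1]
    · simp [h, e.1, e.2.1]

end Helper87.NF.M_UV1

end
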