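import Pool.Agent.Helper87.NF.StD

/-!
# Module W1: calculus of the primitives
-/

set_option autoImplicit false
set_option maxSynthPendingDepth 3

open MeasureTheory Filter Topology
open scoped Interval

namespace Helper87.NF.M_W1

variable {P P' : ℝ → ℝ} {q κ K : ℝ}

theorem int_zero (hW : Wt P P' q κ K) {g : ℝ → ℝ → ℝ} (hg : ∀ x, g x 0 = 0) {y : ℝ} (hy : y ≤ 0) :
    ∫ x in (0 : ℝ)..y, g x (P x) = 0 := by
  have : ∀ x ∈ Set.uIcc (0 : ℝ) y, g x (P x) = 0 := by
    intro x hx
    rw [Set.uIcc_of_ge hy] at hx
    rw [hW.zero x hx.2, hg]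
  rw [intervalIntegral.integral_congr this, intervalIntegral.integral_zero]

theorem intB (hW : Wt P P' q κ K) (y : ℝ) :
    IntervalIntegrable (fun x => P x / x) volume 0 y := by
  rcases lt_or_ge 0 y with hy | hy
  · exact hW.int y hy
  · have h0 : IntervalIntegrable (fun _ : ℝ => (0 : ℝ)) volume 0 y :=
      intervalIntegrable_const
    refine h0.congr ?_
    intro x hx
    rw [Set.uIoc_of_ge hy] at hx
    simp only
    rw [hW.zero x hx.2, zero_div]

theorem main : StW1 := by
  intro P P' q κ K hW
  have hPi : ∀ a b, IntervalIntegrable P volume a b := fun a b => hW.cont.intervalIntegrable a b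
  have hxP : Continuous fun x => x * P x := continuous_id.mul hW.cont
  have hA : ∀ y, HasDerivAt (Aw P) (P y) y := fun y =>
    intervalIntegral.integral_hasDerivAt_right (hPi 0 y)
      (hW.cont.stronglyMeasurableAtFilter _ _) hW.cont.continuousAt
  have hM : ∀ y, HasDerivAt (Mw P) (y * P y) y := fun y =>
    intervalIntegral.integral_hasDerivAt_right (hxP.intervalIntegrable 0 y)
      (hxP.stronglyMeasurableAtFilter _ _) hxP.continuousAt
  refine ⟨hA, fun y => ?_, hM, fun y hy => ?_, ?_, fun y hy => ⟨?_, ?_, ?_, ?_⟩⟩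
  · have h : HasDerivAt (Cw P) (1 * Aw P y + y * P y - y * P y) y :=
      ((hasDerivAt_id y).mul (hA y)).sub (hM y)
    have h2 : 1 * Aw P y + y * P y - y * P y = Aw P y := by ring
    rwa [h2] at h
  · have hc : ContinuousAt (fun x => P x / x) y := hW.cont.continuousAt.div continuousAt_id hy.ne'
    refine intervalIntegral.integral_hasDerivAt_right (intB hW y) ?_ hc
    have : ContinuousOn (fun x => P x / x) (Set.Ioi 0) :=
      hW.cont.continuousOn.div continuousOn_id fun x hx => ne_of_gt hx
    exact this.stronglyMeasurableAtFilter isOpen_Ioi _ hy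
  · exact intervalIntegral.continuous_primitive (fun a b => (intB hW a).symm.trans (intB hW b)) 0
  · exact int_zero hW (g := fun _ t => t) (fun _ => rfl) hy
  · exact int_zero hW (g := fun x t => t / x) (fun x => zero_div x) hy
  · exact int_zero hW (g := fun x t => x * t) (fun x => mul_zero x) hy
  · unfold Cw
    have h1 : Aw P y = 0 := int_zero hW (g := fun _ t => t) (fun _ => rfl) hy
    have h2 : Mw P y = 0 := int_zero hW (g := fun x t => x * t) (fun x => mul_zero x) hy
    rw [h1, h2]; ring

end Helper87.NF.M_W1
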