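import Pool.Agent.Helper87.NF.StD

/-!
# NF module W2: bounds of the primitives
-/

set_option autoImplicit false
set_option maxSynthPendingDepth 3

open MeasureTheory Complex Filter Topology
open scoped ENNReal NNReal ComplexConjugate

noncomputable section

namespace Helper87.NF.M_W2

open Helper87.NF

lemma Pnn {P P' : ℝ → ℝ} {q κ K : ℝ} (h : Wt P P' q κ K) (y : ℝ) : 0 ≤ P y := by
  rcases le_or_gt y 0 with hy | hy
  · rw [h.zero y hy]
  · exact (h.pos y hy).le

/-- nonnegativity of primitives from `0` of functions vanishing on the negative axis -/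
lemma prim_nonneg (f : ℝ → ℝ) (hf : ∀ x, 0 ≤ x → 0 ≤ f x) (y : ℝ) (hy : 0 ≤ y) :
    0 ≤ ∫ x in (0 : ℝ)..y, f x := by
  apply intervalIntegral.integral_nonneg hy
  intro x hx
  exact hf x hx.1

lemma prim_zero (f : ℝ → ℝ) (hf0 : ∀ x, x ≤ 0 → f x = 0) (y : ℝ) (hy : y ≤ 0) :
    ∫ x in (0 : ℝ)..y, f x = 0 := by
  have : ∫ x in (0 : ℝ)..y, f x = ∫ x in (0 : ℝ)..y, (0 : ℝ) := by
    apply intervalIntegral.integral_congr
    intro x hx
    rw [Set.uIcc_of_ge hy] at hx
    exact hf0 x hx.2
  rw [this]; simp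

lemma Aw_zero {P P' : ℝ → ℝ} {q κ K : ℝ} (h : Wt P P' q κ K) (y : ℝ) (hy : y ≤ 0) :
    Aw P y = 0 := prim_zero _ h.zero y hy

lemma Bw_zero {P P' : ℝ → ℝ} {q κ K : ℝ} (h : Wt P P' q κ K) (y : ℝ) (hy : y ≤ 0) :
    Bw P y = 0 := prim_zero _ (fun x hx => by simp [h.zero x hx]) y hy

lemma Mw_zero {P P' : ℝ → ℝ} {q κ K : ℝ} (h : Wt P P' q κ K) (y : ℝ) (hy : y ≤ 0) :
    Mw P y = 0 := prim_zero _ (fun x hx => by simp [h.zero x hx]) y hy

lemma Aw_nn {P P' : ℝ → ℝ} {q κ K : ℝ} (h : Wt P P' q κ K) (y : ℝ) : 0 ≤ Aw P y := by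
  rcases le_or_gt y 0 with hy | hy
  · rw [Aw_zero h y hy]
  · exact prim_nonneg _ (fun x _ => Pnn h x) y hy.le

lemma Bw_nn {P P' : ℝ → ℝ} {q κ K : ℝ} (h : Wt P P' q κ K) (y : ℝ) : 0 ≤ Bw P y := by
  rcases le_or_gt y 0 with hy | hy
  · rw [Bw_zero h y hy]
  · exact prim_nonneg _ (fun x hx => div_nonneg (Pnn h x) hx) y hy.le

lemma Mw_nn {P P' : ℝ → ℝ} {q κ K : ℝ} (h : Wt P P' q κ K) (y : ℝ) : 0 ≤ Mw P y := by
  rcases le_or_gt y 0 with hy | hy
  · rw [Mw_zero h y hy]
  · exact prim_nonneg _ (fun x hx => mul_nonneg hx (Pnn h x)) y hy.le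

lemma Mw_le {P P' : ℝ → ℝ} {q κ K : ℝ} (h : Wt P P' q κ K) (y : ℝ) (hy : 0 ≤ y) :
    Mw P y ≤ y * Aw P y := by
  unfold Mw Aw
  rw [← intervalIntegral.integral_const_mul]
  apply intervalIntegral.integral_mono_on hy
  · exact (continuous_id.mul h.cont).intervalIntegrable _ _
  · exact (continuous_const.mul h.cont).intervalIntegrable _ _
  · intro x hx
    exact mul_le_mul_of_nonneg_right hx.2 (Pnn h x)

lemma Cw_nn {P P' : ℝ → ℝ} {q κ K : ℝ} (h : Wt P P' q κ K) (y : ℝ) : 0 ≤ Cw P y := by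
  rcases le_or_gt y 0 with hy | hy
  · unfold Cw
    rw [Aw_zero h y hy, Mw_zero h y hy]; simp
  · have := Mw_le h y hy.le
    unfold Cw; linarith

lemma Aw_le_of {P P' : ℝ → ℝ} {q κ K : ℝ} (h : Wt P P' q κ K) (c y : ℝ) (hy : 0 ≤ y)
    (hc : ∀ x, 0 ≤ x → x ≤ y → P x ≤ c) : Aw P y ≤ c * y := by
  unfold Aw
  have h1 : ∫ x in (0 : ℝ)..y, P x ≤ ∫ x in (0 : ℝ)..y, c := by
    apply intervalIntegral.integral_mono_on hy (h.cont.intervalIntegrable _ _)
      (continuous_const.intervalIntegrable _ _)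
    intro x hx
    exact hc x hx.1 hx.2
  have h2 : ∫ x in (0 : ℝ)..y, c = c * y := by simp [mul_comm]
  linarith

lemma Aw_der {P P' : ℝ → ℝ} {q κ K : ℝ} (h : Wt P P' q κ K) (y : ℝ) :
    HasDerivAt (Aw P) (P y) y :=
  intervalIntegral.integral_hasDerivAt_right (h.cont.intervalIntegrable _ _)
    (h.cont.stronglyMeasurableAtFilter _ _) h.cont.continuousAt

lemma Bw_der {P P' : ℝ → ℝ} {q κ K : ℝ} (h : Wt P P' q κ K) (y : ℝ) (hy : 0 < y) :
    HasDerivAt (Bw P) (P y / y) y := by
  have hc : ContinuousOn (fun x => P x / x) (Set.Ioi 0) :=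
    h.cont.continuousOn.div continuousOn_id (fun x hx => (Set.mem_Ioi.1 hx).ne')
  exact intervalIntegral.integral_hasDerivAt_right (h.int y hy)
    (hc.stronglyMeasurableAtFilter isOpen_Ioi y hy) (hc.continuousAt (Ioi_mem_nhds hy))

lemma Bw_cont {P P' : ℝ → ℝ} {q κ K : ℝ} (h : Wt P P' q κ K) (y : ℝ) (hy : 0 < y) :
    ContinuousOn (Bw P) (Set.Icc 0 y) := by
  have := intervalIntegral.continuousOn_primitive_interval (a := (0 : ℝ)) (b := y)
    (f := fun x => P x / x) (μ := volume) (by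
      have := h.int y hy
      rw [Set.uIcc_of_le hy.le]
      rw [intervalIntegrable_iff_integrableOn_Icc_of_le hy.le] at this
      exact this)
  rw [Set.uIcc_of_le hy.le] at this
  exact this

lemma part3a {P P' : ℝ → ℝ} {q κ K : ℝ} (h : Wt P P' q κ K) (y : ℝ) (hy : 0 < y) :
    y * P y ≤ (1 + q) * Aw P y := by
  have hm : MonotoneOn (fun x => (1 + q) * Aw P x - x * P x) (Set.Icc 0 y) := by
    apply monotoneOn_of_deriv_nonneg (convex_Icc 0 y)
    · apply ContinuousOn.sub
      · exact ContinuousOn.mul continuousOn_const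
          (fun x _ => (Aw_der h x).continuousAt.continuousWithinAt)
      · exact (continuous_id.mul h.cont).continuousOn
    · intro x hx
      rw [interior_Icc] at hx
      exact (((Aw_der h x).const_mul (1 + q)).sub
        ((hasDerivAt_id x).mul (h.der x hx.1))).differentiableAt.differentiableWithinAt
    · intro x hx
      rw [interior_Icc] at hx
      have hd := (((Aw_der h x).const_mul (1 + q)).sub
        ((hasDerivAt_id x).mul (h.der x hx.1))).deriv
      have e : deriv (fun x => (1 + q) * Aw P x - x * P x) x = (1 + q) * P x -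
          (1 * P x + id x * P' x) := hd
      rw [e]
      have := h.hi x hx.1
      simp only [id]
      linarith
  have := hm (Set.left_mem_Icc.2 hy.le) (Set.right_mem_Icc.2 hy.le) hy.le
  simp only [zero_mul, sub_zero] at this
  rw [Aw_zero h 0 le_rfl] at this
  linarith

lemma part3b {P P' : ℝ → ℝ} {q κ K : ℝ} (h : Wt P P' q κ K) (y : ℝ) (hy : 0 < y) :
    (1 - κ) * Aw P y ≤ y * P y := by
  have hm : MonotoneOn (fun x => x * P x - (1 - κ) * Aw P x) (Set.Icc 0 y) := by
    apply monotoneOn_of_deriv_nonneg (convex_Icc 0 y)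
    · apply ContinuousOn.sub
      · exact (continuous_id.mul h.cont).continuousOn
      · exact ContinuousOn.mul continuousOn_const
          (fun x _ => (Aw_der h x).continuousAt.continuousWithinAt)
    · intro x hx
      rw [interior_Icc] at hx
      exact (((hasDerivAt_id x).mul (h.der x hx.1)).sub
        ((Aw_der h x).const_mul (1 - κ))).differentiableAt.differentiableWithinAt
    · intro x hx
      rw [interior_Icc] at hx
      have hd := (((hasDerivAt_id x).mul (h.der x hx.1)).sub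
        ((Aw_der h x).const_mul (1 - κ))).deriv
      have e : deriv (fun x => x * P x - (1 - κ) * Aw P x) x =
          (1 * P x + id x * P' x) - (1 - κ) * P x := hd
      rw [e]
      have := h.lo x hx.1
      simp only [id]
      linarith
  have := hm (Set.left_mem_Icc.2 hy.le) (Set.right_mem_Icc.2 hy.le) hy.le
  simp only [zero_mul, zero_sub] at this
  rw [Aw_zero h 0 le_rfl] at this
  linarith

lemma part3c {P P' : ℝ → ℝ} {q κ K : ℝ} (h : Wt P P' q κ K) (y : ℝ) (hy : 0 < y) :
    P y ≤ q * Bw P y := by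
  have hm : MonotoneOn (fun x => q * Bw P x - P x) (Set.Icc 0 y) := by
    apply monotoneOn_of_deriv_nonneg (convex_Icc 0 y)
    · exact (ContinuousOn.mul continuousOn_const (Bw_cont h y hy)).sub h.cont.continuousOn
    · intro x hx
      rw [interior_Icc] at hx
      exact (((Bw_der h x hx.1).const_mul q).sub
        (h.der x hx.1)).differentiableAt.differentiableWithinAt
    · intro x hx
      rw [interior_Icc] at hx
      have hd := (((Bw_der h x hx.1).const_mul q).sub (h.der x hx.1)).deriv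
      have e : deriv (fun x => q * Bw P x - P x) x = q * (P x / x) - P' x := hd
      rw [e]
      have := h.hi x hx.1
      have hx0 := hx.1
      have : q * (P x / x) - P' x = (q * P x - x * P' x) / x := by field_simp
      rw [this]
      apply div_nonneg _ hx0.le
      linarith [h.hi x hx.1]
  have := hm (Set.left_mem_Icc.2 hy.le) (Set.right_mem_Icc.2 hy.le) hy.le
  simp only at this
  rw [Bw_zero h 0 le_rfl, h.zero 0 le_rfl] at this
  linarith

theorem main : StW2 := by
  intro P P' q κ K h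
  refine ⟨fun y => ⟨Aw_nn h y, Bw_nn h y, Mw_nn h y, Cw_nn h y, Pnn h y, ?_⟩, ?_, ?_, ?_⟩
  · rcases le_or_gt y 0 with hy | hy
    · rw [Bw_zero h y hy]; exact h.K0.le
    · exact h.bi y hy
  · intro y hy
    have hA : Aw P y ≤ K * y := Aw_le_of h K y hy (fun x _ _ => h.bd x)
    have hM := Mw_le h y hy
    have hM0 := Mw_nn h y
    have hyA : y * Aw P y ≤ K * y ^ 2 := by nlinarith
    refine ⟨hA, hM.trans hyA, ?_⟩
    unfold Cw; linarith
  · intro y hy
    exact ⟨part3a h y hy, part3b h y hy, part3c h y hy⟩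
  · intro e he
    have c1 : ContinuousWithinAt P (Set.Icc 0 1) 0 := h.cont.continuousWithinAt
    have c2 : ContinuousWithinAt (Bw P) (Set.Icc 0 1) 0 :=
      Bw_cont h 1 one_pos 0 (Set.left_mem_Icc.2 zero_le_one)
    obtain ⟨d1, hd1, H1⟩ := Metric.continuousWithinAt_iff.1 c1 e he
    obtain ⟨d2, hd2, H2⟩ := Metric.continuousWithinAt_iff.1 c2 e he
    have K1 : ∀ y, y ≤ min (min (d1 / 2) (d2 / 2)) 1 → P y ≤ e := by
      intro y hy
      rcases le_or_gt y 0 with h0 | h0
      · rw [h.zero y h0]; exact he.le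
      · have a1 : y ≤ d1 / 2 := hy.trans ((min_le_left _ _).trans (min_le_left _ _))
        have a3 : y ≤ 1 := hy.trans (min_le_right _ _)
        have := H1 (x := y) ⟨h0.le, a3⟩ (by rw [Real.dist_eq, sub_zero, abs_of_pos h0]; linarith)
        rw [Real.dist_eq, h.zero 0 le_rfl, sub_zero] at this
        exact (le_abs_self _).trans this.le
    refine ⟨min (min (d1 / 2) (d2 / 2)) 1, by positivity, fun y hy => ⟨K1 y hy, ?_, ?_⟩⟩
    · rcases le_or_gt y 0 with h0 | h0
      · rw [Bw_zero h y h0]; exact he.le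
      · have a1 : y ≤ d2 / 2 := hy.trans ((min_le_left _ _).trans (min_le_right _ _))
        have a3 : y ≤ 1 := hy.trans (min_le_right _ _)
        have := H2 (x := y) ⟨h0.le, a3⟩ (by rw [Real.dist_eq, sub_zero, abs_of_pos h0]; linarith)
        rw [Real.dist_eq, Bw_zero h 0 le_rfl, sub_zero] at this
        exact (le_abs_self _).trans this.le
    · rcases le_or_gt y 0 with h0 | h0
      · rw [Aw_zero h y h0]
        have : (0 : ℝ) ≤ max y 0 := le_max_right _ _
        positivity
      · rw [max_eq_left h0.le]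
        exact Aw_le_of h e y h0.le (fun x _ hx => K1 x (hx.trans hy))

end Helper87.NF.M_W2
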