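import Pool.Agent.Helper87.NF.StD

/-!
W4: Lipschitz bound of the weight away from zero.
-/

set_option autoImplicit false
set_option maxSynthPendingDepth 3

noncomputable section

namespace Helper87.NF.M_W4

open Helper87.NF Set

theorem main : StW4 := by
  intro P P' q κ K h x y hx hxy
  have hq := h.q0
  have hK := h.K0
  have hbd : ∀ ξ, x ≤ ξ → |P' ξ| ≤ (q + 1) * K / x := by
    intro ξ hξ
    have hξ0 : 0 < ξ := lt_of_lt_of_le hx hξ
    have h1 := h.lo ξ hξ0
    have h2 := h.hi ξ hξ0
    have h3 := h.bd ξ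
    have h4 := h.pos ξ hξ0
    have h5 := h.κ1
    have h6 := h.κ0
    have h7 : |ξ * P' ξ| ≤ (q + 1) * K := by
      rw [abs_le]
      constructor
      · nlinarith
      · nlinarith
    rw [abs_mul, abs_of_pos hξ0] at h7
    have h8 : |P' ξ| ≤ (q + 1) * K / ξ := by
      rw [le_div_iff₀ hξ0]
      linarith
    refine h8.trans ?_
    exact div_le_div_of_nonneg_left (by positivity) hx hξ
  have hmv := Convex.norm_image_sub_le_of_norm_hasDerivWithin_le (f := P) (f' := P')
    (C := (q + 1) * K / x) (s := Icc x y) (x := x) (y := y)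
    (fun ξ hξ => (h.der ξ (lt_of_lt_of_le hx hξ.1)).hasDerivWithinAt)
    (fun ξ hξ => by rw [Real.norm_eq_abs]; exact hbd ξ hξ.1) (convex_Icc x y)
    (left_mem_Icc.2 hxy) (right_mem_Icc.2 hxy)
  rw [Real.norm_eq_abs, Real.norm_eq_abs, abs_of_nonneg (sub_nonneg.2 hxy)] at hmv
  refine hmv.trans (le_of_eq ?_)
  ring

end Helper87.NF.M_W4
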