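import Pool.Agent.Helper87.NF.StD

set_option autoImplicit false
set_option maxSynthPendingDepth 3

namespace Helper87.NF.M_ZA

open Helper87.NF

/-- a small cross term -/
theorem crossE (k n u v : ℝ) (h : -k ≤ n ∧ n ≤ k) :
    -(k / 2 * (u ^ 2 + v ^ 2)) ≤ n * (u * v) := by
  obtain ⟨h1, h2⟩ := h
  nlinarith [mul_nonneg (by linarith : 0 ≤ k + n) (sq_nonneg (u + v)),
    mul_nonneg (by linarith : 0 ≤ k - n) (sq_nonneg (u - v))]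

theorem main : StZA := by
  intro ε δ d1 e urr urs uss a0 b0 m11 m12 m21 m22 hε hd1 hd hδ he0 he h1 h2 h3 h4 h5 h6 h7 h8 h9
    x ξ ψ
  have hδ0 : 0 ≤ δ := by linarith
  have sq1 : ∀ t : ℝ, 0 ≤ ε * t ^ 2 := fun t => mul_nonneg hε.le (sq_nonneg t)
  have sq2 : ∀ t : ℝ, 0 ≤ ε * (2 - d1) * t ^ 2 := fun t =>
    mul_nonneg (mul_nonneg hε.le (by linarith)) (sq_nonneg t)
  have sq4 : ∀ t : ℝ, 0 ≤ ε * d1 * t ^ 2 := fun t =>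
    mul_nonneg (mul_nonneg hε.le hd1.le) (sq_nonneg t)
  have sq5 : ∀ t : ℝ, 0 ≤ (ε * d1 - 1000 * e) * t ^ 2 := fun t =>
    mul_nonneg (by linarith) (sq_nonneg t)
  have sq6 : ∀ t : ℝ, 0 ≤ ε * (δ - d1) * t ^ 2 := fun t =>
    mul_nonneg (mul_nonneg hε.le (by linarith)) (sq_nonneg t)
  have sq7 : ∀ t : ℝ, 0 ≤ ε * (2 - δ) * t ^ 2 := fun t =>
    mul_nonneg (mul_nonneg hε.le (by linarith)) (sq_nonneg t)
  have sq8 : ∀ t : ℝ, 0 ≤ e * t ^ 2 := fun t => mul_nonneg he0 (sq_nonneg t)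
  have F : ∀ p : ℝ, |p| ≤ e → -e ≤ p ∧ p ≤ e ∧ 0 ≤ δ * (e - p) ∧ 0 ≤ δ * (e + p) ∧
      0 ≤ (2 - δ) * (e - p) ∧ 0 ≤ (2 - δ) * (e + p) := by
    intro p hp
    obtain ⟨a1, a2⟩ := abs_le.1 hp
    exact ⟨a1, a2, mul_nonneg hδ0 (by linarith), mul_nonneg hδ0 (by linarith),
      mul_nonneg (by linarith) (by linarith), mul_nonneg (by linarith) (by linarith)⟩
  obtain ⟨a1, a2, a3, a4, a5, a6⟩ := F urr h1
  obtain ⟨b1, b2, b3, b4, b5, b6⟩ := F urs h2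
  obtain ⟨c1, c2, c3, c4, c5, c6⟩ := F uss h3
  obtain ⟨d1', d2, d3, d4, d5, d6⟩ := F a0 h4
  obtain ⟨e1, e2, e3, e4, e5, e6⟩ := F b0 h5
  obtain ⟨f1, f2, -⟩ := F m11 h6
  obtain ⟨g1, g2, -⟩ := F m12 h7
  obtain ⟨i1, i2, -⟩ := F m21 h8
  obtain ⟨j1, j2, -⟩ := F m22 h9
  constructor
  · obtain ⟨y, hy⟩ : ∃ y, y = x + ξ + ψ := ⟨_, rfl⟩
    have key : FP (2 - δ) (urr + 2 * ε) urs uss (a0 + 2 * ε) b0
        (m11 - 2 * ε) m12 m21 (m22 + 2 * ε) x ξ ψ =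
        ((1 - δ / 2) * urs + (1 - δ / 2) * uss - (1 - δ / 2) * b0 + m22) * (ψ * ψ)
        + ((4 - 3 / 2 * δ) * urs + (3 - δ) * uss - (2 - δ / 2) * b0 + (1 - δ / 2) * urr
            + m21 + m22) * (ψ * x)
        + ((2 - δ / 2) * urs + (2 - δ / 2) * uss - b0 + (1 - δ / 2) * a0 + m12 + m22) * (ψ * ξ)
        + ((2 - δ / 2) * urr + (4 - δ) * urs + (2 - δ / 2) * uss) * (x * x)
        + ((4 - δ / 2) * urs + (3 - δ / 2) * uss + (2 - δ / 2) * a0 + urr + m11 + m12) * (x * ξ)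
        + (urs + uss + a0 + m12) * (ξ * ξ)
        + ε * ((2 - δ / 2) * (x ^ 2 + y ^ 2) + δ / 2 * (ξ ^ 2 + ψ ^ 2)) := by
      rw [hy, FP]
      ring
    have r1 := crossE (4 * e) ((1 - δ / 2) * urs + (1 - δ / 2) * uss - (1 - δ / 2) * b0 + m22) ψ ψ
      ⟨by linarith, by linarith⟩
    have r2 := crossE (12 * e) ((4 - 3 / 2 * δ) * urs + (3 - δ) * uss - (2 - δ / 2) * b0
      + (1 - δ / 2) * urr + m21 + m22) ψ x ⟨by linarith, by linarith⟩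
    have r3 := crossE (8 * e) ((2 - δ / 2) * urs + (2 - δ / 2) * uss - b0 + (1 - δ / 2) * a0
      + m12 + m22) ψ ξ ⟨by linarith, by linarith⟩
    have r4 := crossE (8 * e) ((2 - δ / 2) * urr + (4 - δ) * urs + (2 - δ / 2) * uss) x x
      ⟨by linarith, by linarith⟩
    have r5 := crossE (12 * e) ((4 - δ / 2) * urs + (3 - δ / 2) * uss + (2 - δ / 2) * a0 + urr
      + m11 + m12) x ξ ⟨by linarith, by linarith⟩
    have r6 := crossE (4 * e) (urs + uss + a0 + m12) ξ ξ ⟨by linarith, by linarith⟩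
    rw [key]
    linarith [sq1 x, sq2 x, sq4 x, sq5 x, sq6 x, sq7 x, sq1 y, sq2 y, sq4 y, sq5 y, sq6 y, sq7 y,
      sq1 ξ, sq2 ξ, sq4 ξ, sq5 ξ, sq6 ξ, sq7 ξ, sq1 ψ, sq2 ψ, sq4 ψ, sq5 ψ, sq6 ψ, sq7 ψ,
      sq8 x, sq8 ξ, sq8 ψ]
  · obtain ⟨y, hy⟩ : ∃ y, y = ψ - x - ξ := ⟨_, rfl⟩
    have key : FM (2 - δ) (urr + 2 * ε) urs uss (a0 + 2 * ε) b0
        (m11 - 2 * ε) m12 m21 (m22 + 2 * ε) x ξ ψ =
        ((1 - δ / 2) * urs - (1 - δ / 2) * uss + (1 - δ / 2) * b0 + m22) * (ψ * ψ)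
        + ((1 - δ / 2) * urr - (2 - 3 / 2 * δ) * urs + (1 - δ) * uss + δ / 2 * b0
            + m21 - m22) * (ψ * x)
        + (b0 + (1 - δ / 2) * a0 + δ / 2 * urs - δ / 2 * uss + m12 - m22) * (ψ * ξ)
        + (δ / 2 * urr - δ * urs + δ / 2 * uss) * (x * x)
        + (urr - (2 + δ / 2) * urs + (1 + δ / 2) * uss + δ / 2 * a0 + m11 - m12) * (x * ξ)
        + (-urs + uss + a0 - m12) * (ξ * ξ)
        + ε * ((2 - δ / 2) * (ξ ^ 2 + ψ ^ 2) + δ / 2 * (x ^ 2 + y ^ 2)) := by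
      rw [hy, FM]
      ring
    have r1 := crossE (4 * e) ((1 - δ / 2) * urs - (1 - δ / 2) * uss + (1 - δ / 2) * b0 + m22) ψ ψ
      ⟨by linarith, by linarith⟩
    have r2 := crossE (12 * e) ((1 - δ / 2) * urr - (2 - 3 / 2 * δ) * urs + (1 - δ) * uss
      + δ / 2 * b0 + m21 - m22) ψ x ⟨by linarith, by linarith⟩
    have r3 := crossE (8 * e) (b0 + (1 - δ / 2) * a0 + δ / 2 * urs - δ / 2 * uss + m12 - m22) ψ ξ
      ⟨by linarith, by linarith⟩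
    have r4 := crossE (8 * e) (δ / 2 * urr - δ * urs + δ / 2 * uss) x x
      ⟨by linarith, by linarith⟩
    have r5 := crossE (12 * e) (urr - (2 + δ / 2) * urs + (1 + δ / 2) * uss + δ / 2 * a0 + m11
      - m12) x ξ ⟨by linarith, by linarith⟩
    have r6 := crossE (4 * e) (-urs + uss + a0 - m12) ξ ξ ⟨by linarith, by linarith⟩
    rw [key]
    linarith [sq1 x, sq2 x, sq4 x, sq5 x, sq6 x, sq7 x, sq1 y, sq2 y, sq4 y, sq5 y, sq6 y, sq7 y,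
      sq1 ξ, sq2 ξ, sq4 ξ, sq5 ξ, sq6 ξ, sq7 ξ, sq1 ψ, sq2 ψ, sq4 ψ, sq5 ψ, sq6 ψ, sq7 ψ,
      sq8 x, sq8 ξ, sq8 ψ]

end Helper87.NF.M_ZA
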