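import Pool.Agent.Helper24.IW_C1a
import Pool.Agent.Helper36.IW_D0
import Pool.Agent.Helper17.IW_D3
import Pool.Agent.Helper87.NF.M_B7
import Pool.Agent.Helper87.NF.M_B8
import Pool.Agent.Helper87.NF.M_CH
import Pool.Agent.Helper87.NF.M_D1
import Pool.Agent.Helper87.NF.M_D2
import Pool.Agent.Helper87.NF.M_D3
import Pool.Agent.Helper87.NF.M_D3a
import Pool.Agent.Helper87.NF.M_D4
import Pool.Agent.Helper87.NF.M_DH
import Pool.Agent.Helper87.NF.M_DU
import Pool.Agent.Helper87.NF.M_EH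
import Pool.Agent.Helper87.NF.M_EV
import Pool.Agent.Helper87.NF.M_HA1
import Pool.Agent.Helper87.NF.M_HA2
import Pool.Agent.Helper87.NF.M_P1
import Pool.Agent.Helper87.NF.M_P2
import Pool.Agent.Helper87.NF.M_P3
import Pool.Agent.Helper87.NF.M_P4
import Pool.Agent.Helper87.NF.M_P5
import Pool.Agent.Helper87.NF.M_P6
import Pool.Agent.Helper87.NF.M_UA
import Pool.Agent.Helper87.NF.M_UH1
import Pool.Agent.Helper87.NF.M_UH2
import Pool.Agent.Helper87.NF.M_UV1
import Pool.Agent.Helper87.NF.M_UV2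
import Pool.Agent.Helper87.NF.M_W1
import Pool.Agent.Helper87.NF.M_W2
import Pool.Agent.Helper87.NF.M_W4
import Pool.Agent.Helper87.NF.M_ZA
import Pool.Agent.Helper85.NF.CV
import Pool.Agent.Helper85.NF.D5
import Pool.Agent.Helper85.NF.DV
import Pool.Agent.Helper85.NF.VA
import Pool.Agent.Helper85.NF.W3
import Pool.Agent.Helper85.IE.Fin

/-!
# Assembly of the modules (helper87, MP_3dd6d4_an, n = 1)
-/

set_option autoImplicit false
set_option maxSynthPendingDepth 3

open MeasureTheory Complex Filter Topology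
open scoped ENNReal NNReal ComplexConjugate

noncomputable section

namespace Helper87.NF

theorem aC1a : Helper85.IW.StC1a := Helper85.IW.M_C1a.main
theorem aD0 : Helper85.IW.StD0 := Helper85.IW.M_D0.main
theorem aD3' : Helper85.IW.StD3 := Helper85.IW.M_D3.main

theorem aB7 : StB7 := M_B7.main aC1a
theorem aP1 : StP1 := M_P1.main
theorem aP2 : StP2 := M_P2.main
theorem aP3 : StP3 := M_P3.main aP2
theorem aP4 : StP4 := M_P4.main aP2
theorem aP6 : StP6 := M_P6.main aP1 aP3 aP4 aD0 aD3'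
theorem aUA : StUA := M_UA.main
theorem aHA1 : StHA1 := M_HA1.main
theorem aHA2 : StHA2 := M_HA2.main
theorem aZA : StZA := M_ZA.main
theorem aW1 : StW1 := M_W1.main
theorem aW2 : StW2 := M_W2.main
theorem aW3 : StW3 := Helper85.NF.w3
theorem aW4 : StW4 := M_W4.main
theorem aVA : StVA := Helper85.NF.va
theorem aUV1 : StUV1 := M_UV1.main aW1
theorem aUH1 : StUH1 := M_UH1.main aW1
theorem aUV2 : StUV2 := M_UV2.main aW1 aW2
theorem aUH2 : StUH2 := M_UH2.main aW1 aW2
theorem aEH : StEH := M_EH.main aW1 aW2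
theorem aDU : StDU := M_DU.main aW1 aW2
theorem aDV : StDV := Helper85.NF.dv aW1
theorem aDH : StDH := M_DH.main aW1 aW2 aW4
theorem aP5 : StP5 := M_P5.main
theorem aCH : StCH :=
  M_CH.main aP5 aP6 aUA aHA1 aHA2 aZA aW1 aW2 aUH1 aUH2 aEH aDU aDH
theorem aEV : StEV := M_EV.main aW1 aW2
theorem aCV : StCV :=
  Helper85.NF.cv aP5 aP6 aUA aVA aZA aW2 aW3 aUV1 aUV2 aEV aDU aDV
theorem aB8 (hB6 : StB6) : StB8 := M_B8.main hB6 aB7
theorem aD1 (hB6 : StB6) : StD1 := M_D1.main (aB8 hB6) aCV aCH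
theorem aD2 : StD2 := M_D2.main
theorem aD3a : StD3a := M_D3a.main
theorem aD3 : StD3 := M_D3.main aD3a
theorem aD4 (hB6 : StB6) : StD4 := M_D4.main (aD1 hB6) aD2 aD3
theorem aHyp (hB6 : StB6) : ∀ p : ℝ, 2 < p → Helper85.IE.Hyp p (p - 1) :=
  Helper85.NF.hyp_of_d6 (Helper85.NF.d6 (aD4 hB6))

end Helper87.NF
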