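import Mathlib
import Pool.Agent.Helper72.BA.Defs
import Pool.Agent.Helper85.IW.Statements

/-!
# Iwaniec conjecture by a quasilinear flow: definitions (helper87, MP_3dd6d4_an, n = 1)

Plan: team-store get MP_3dd6d4-iwaniec-flow.md
-/

set_option autoImplicit false
set_option maxSynthPendingDepth 3

open MeasureTheory Complex Filter Topology
open scoped ENNReal NNReal ComplexConjugate

noncomputable section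

namespace Helper87.NF

open Helper85.IW

/-! ## the quadratic form of the nonlinear flow -/

/-- `∂φ/∂z̄` -/
def dzb (φ : ℂ → ℂ) (z : ℂ) : ℂ := (1 / 2 : ℂ) * (fderiv ℝ φ z 1 + I * fderiv ℝ φ z I)
/-- `∂φ/∂z` -/
def dz (φ : ℂ → ℂ) (z : ℂ) : ℂ := (1 / 2 : ℂ) * (fderiv ℝ φ z 1 - I * fderiv ℝ φ z I)

/-- for `F = (φ_z̄, φ_z)`, `X = ∂_x F`, `Y = ∂_y F`: `ja = φ_z̄z̄`, `jc = φ_zz̄`, `jb = φ_zz` -/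
def ja (X Y : E) : ℂ := (X.1 + I * Y.1) / 2
def jc (X Y : E) : ℂ := (X.1 - I * Y.1) / 2
def jb (X Y : E) : ℂ := (X.2 - I * Y.2) / 2

/-- right-hand side of the flow `φ_t = 4 φ_zz̄ + conj m φ_z̄z̄ + m φ_zz` -/
def Lop (m : ℂ) (X Y : E) : ℂ := 4 * jc X Y + conj m * ja X Y + m * jb X Y

/-- `D ψ = lx ψ_x + ly ψ_y` -/
def lx (w : ℂ) : E := (w / 2, w / 2)
def ly (w : ℂ) : E := (I * w / 2, -(I * w / 2))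

/-- The quadratic form of the method. `A` is the derivative of `G = DU`, `B` that of `η`. -/
def PQ (m : ℂ) (A B : E →L[ℝ] E →L[ℝ] ℝ) (X Y : E) : ℝ :=
  A X (lx (Lop m X Y)) + A Y (ly (Lop m X Y)) + B X Y - B Y X

/-- smooth admissible data -/
structure SmN (U : E → ℝ) (G η : E → (E →L[ℝ] ℝ)) (μ : E → ℂ) (θ : ℝ) (K : ℝ≥0) : Prop where
  der : ∀ z, HasFDerivAt U (G z) z
  cG : ContDiff ℝ 1 G
  cη : ContDiff ℝ 1 η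
  U0 : U 0 = 0
  G0 : G 0 = 0
  lipG : LipschitzWith K G
  lμ : ∃ L : ℝ≥0, LipschitzWith L μ
  bμ : ∀ z, ‖μ z‖ ≤ 2 * θ
  pi : ∀ z X Y, CR X Y → 0 ≤ PQ (μ z) (fderiv ℝ G z) (fderiv ℝ η z) X Y

/-- admissible data of low regularity, with margin `e₀` -/
structure AdN (U : E → ℝ) (G η : E → (E →L[ℝ] ℝ)) (μ : E → ℂ) (θ : ℝ) (K : ℝ≥0) (e₀ : ℝ) :
    Prop where
  der : ∀ z, HasFDerivAt U (G z) z
  U0 : U 0 = 0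
  lipG : LipschitzWith K G
  lipη : ∀ R : ℝ, ∃ K' : ℝ≥0, LipschitzOnWith K' η (Metric.closedBall 0 R)
  oddG : ∀ z, G (-z) = -G z
  oddη : ∀ z, η (-z) = -η z
  uμ : UniformContinuous μ
  bμ : ∀ z, ‖μ z‖ ≤ 2 * θ
  pi : ∀ᵐ z : E, DifferentiableAt ℝ G z ∧ DifferentiableAt ℝ η z ∧
    ∀ X Y, CR X Y → e₀ * (‖X‖ ^ 2 + ‖Y‖ ^ 2) ≤ PQ (μ z) (fderiv ℝ G z) (fderiv ℝ η z) X Y

/-! ## trigonometric polynomials, the scheme -/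

/-- `∂_z̄ e_k = i ω_k e_k`, `∂_z e_k = i conj(ω_k) e_k` -/
def om (k : ℤ × ℤ) : ℂ := (Real.pi : ℂ) * ((k.1 : ℂ) + (k.2 : ℂ) * I)

/-- `e_k(z) = exp(2πi(k₁ x + k₂ y))` -/
def ek (k : ℤ × ℤ) (z : ℂ) : ℂ :=
  Complex.exp (2 * (Real.pi : ℂ) * I * ((((k.1 : ℝ) * z.re + (k.2 : ℝ) * z.im : ℝ)) : ℂ))

/-- trigonometric polynomial -/
def tp (s : Finset (ℤ × ℤ)) (c : ℤ × ℤ → ℂ) (z : ℂ) : ℂ := ∑ k ∈ s, c k * ek k z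

/-- unit square -/
def sq : Set ℂ := {z | 0 ≤ z.re ∧ z.re < 1 ∧ 0 ≤ z.im ∧ z.im < 1}

/-- Lebesgue measure on the unit square -/
def mS : Measure ℂ := volume.restrict sq

/-- Fourier coefficient -/
def cf (Y : ℂ → ℂ) (k : ℤ × ℤ) : ℂ := ∫ z, conj (ek k z) * Y z ∂mS

/-- box of frequencies (containing 0) -/
def Bx (N : ℕ) : Finset (ℤ × ℤ) := Finset.Icc (-(N : ℤ)) N ×ˢ Finset.Icc (-(N : ℤ)) N

def mF (k : ℤ × ℤ) : ℂ := I * om k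
def mG (k : ℤ × ℤ) : ℂ := I * conj (om k)
def mA (k : ℤ × ℤ) : ℂ := -(om k) ^ 2
def mB (k : ℤ × ℤ) : ℂ := -(conj (om k)) ^ 2
def mC (k : ℤ × ℤ) : ℂ := -((normSq (om k) : ℝ) : ℂ)

/-- jets of the trigonometric polynomial with coefficients `c` on `Bx N` -/
def tF (N : ℕ) (c : ℤ × ℤ → ℂ) (z : ℂ) : E :=
  (tp (Bx N) (fun k => mF k * c k) z, tp (Bx N) (fun k => mG k * c k) z)
def tA (N : ℕ) (c : ℤ × ℤ → ℂ) (z : ℂ) : ℂ := tp (Bx N) (fun k => mA k * c k) z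
def tB (N : ℕ) (c : ℤ × ℤ → ℂ) (z : ℂ) : ℂ := tp (Bx N) (fun k => mB k * c k) z
def tC (N : ℕ) (c : ℤ × ℤ → ℂ) (z : ℂ) : ℂ := tp (Bx N) (fun k => mC k * c k) z
/-- Laplacian -/
def tV (N : ℕ) (c : ℤ × ℤ → ℂ) (z : ℂ) : ℂ := 4 * tC N c z
/-- right-hand side of the flow -/
def tY (μ : E → ℂ) (N : ℕ) (c : ℤ × ℤ → ℂ) (z : ℂ) : ℂ :=
  tV N c z + conj (μ (tF N c z)) * tA N c z + μ (tF N c z) * tB N c z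
/-- `∂_x F`, `∂_y F` -/
def tX1 (N : ℕ) (c : ℤ × ℤ → ℂ) (z : ℂ) : E := (tA N c z + tC N c z, tC N c z + tB N c z)
def tX2 (N : ℕ) (c : ℤ × ℤ → ℂ) (z : ℂ) : E :=
  (I * (tC N c z - tA N c z), I * (tB N c z - tC N c z))

/-- `∫ |∇φ|²` -/
def En (N : ℕ) (c : ℤ × ℤ → ℂ) : ℝ := ∑ k ∈ Bx N, 4 * normSq (om k) * normSq (c k)
/-- `∫ |Δφ|²` -/
def Wn (N : ℕ) (c : ℤ × ℤ → ℂ) : ℝ := ∑ k ∈ Bx N, 16 * normSq (om k) ^ 2 * normSq (c k)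

/-- one step of the scheme -/
def stp (μ : E → ℂ) (N : ℕ) (h : ℝ) (c : ℤ × ℤ → ℂ) : ℤ × ℤ → ℂ :=
  fun k => if k ∈ Bx N then c k + (h : ℂ) * cf (tY μ N c) k else 0

/-- the trajectory -/
def trj (μ : E → ℂ) (N : ℕ) (h : ℝ) (c0 : ℤ × ℤ → ℂ) : ℕ → ℤ × ℤ → ℂ
  | 0 => c0
  | (j + 1) => stp μ N h (trj μ N h c0 j)

/-- `∫ |Y - P_N Y|²` -/
def Df (μ : E → ℂ) (N : ℕ) (c : ℤ × ℤ → ℂ) : ℝ :=
  (∫ z, ‖tY μ N c z‖ ^ 2 ∂mS) - ∑ k ∈ Bx N, normSq (cf (tY μ N c) k)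

/-- Lebesgue measure on `[0,T)` -/
def mT (T : ℝ) : Measure ℝ := volume.restrict (Set.Ico 0 T)
/-- Lebesgue measure on `[0,T) × sq` -/
def mO (T : ℝ) : Measure (ℝ × ℂ) := (mT T).prod mS

/-- properties of an approximate solution `c : [0,T) → coefficients`, final value `d` -/
structure Apx (μ : E → ℂ) (T E0 C : ℝ) (c0 : ℤ × ℤ → ℂ) (N : ℕ) (c : ℝ → ℤ × ℤ → ℂ)
    (d : ℤ × ℤ → ℂ) (δ : ℝ) : Prop where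
  meas : ∀ k, Measurable (fun t => c t k)
  bE : ∀ t, 0 ≤ t → t < T → En N (c t) ≤ E0
  iW : Integrable (fun t => Wn N (c t)) (mT T)
  bWi : ∫ t, Wn N (c t) ∂(mT T) ≤ C
  inc : ∀ t k, k ∈ Bx N → 0 ≤ t → t < T →
    ‖c t k - c0 k - ∫ s in Set.Ico 0 t, cf (tY μ N (c s)) k‖ ≤ δ
  incd : ∀ k ∈ Bx N, ‖d k - c0 k - ∫ s, cf (tY μ N (c s)) k ∂(mT T)‖ ≤ δ
  mode : ∀ k ∈ Bx N,
    |normSq (d k) - normSq (c0 k) - 2 * (∫ t, conj (c t k) * cf (tY μ N (c t)) k ∂(mT T)).re| ≤ δ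
  en : |En N d - En N c0
      + 2 * (∫ t, ∫ z, conj (tV N (c t) z) * tY μ N (c t) z ∂mS ∂(mT T)).re| ≤ δ

/-- a sequence of approximate solutions -/
structure ApS (μ : E → ℂ) (θ T E0 C : ℝ) (c0 : ℤ × ℤ → ℂ) (Ns : ℕ → ℕ)
    (cs : ℕ → ℝ → ℤ × ℤ → ℂ) (ds : ℕ → ℤ × ℤ → ℂ) (δs : ℕ → ℝ) : Prop where
  T0 : 0 < T
  θ0 : 0 ≤ θ
  θ1 : θ < 1
  cμ : Continuous μ
  bμ : ∀ z, ‖μ z‖ ≤ 2 * θ
  hN : Tendsto Ns atTop atTop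
  hδ : Tendsto δs atTop (𝓝 0)
  supp : ∃ N0 : ℕ, ∀ k, k ∉ Bx N0 → c0 k = 0
  apx : ∀ i, Apx μ T E0 C c0 (Ns i) (cs i) (ds i) (δs i)

/-- space-time versions -/
def sF (N : ℕ) (c : ℝ → ℤ × ℤ → ℂ) (q : ℝ × ℂ) : E := tF N (c q.1) q.2
def sA (N : ℕ) (c : ℝ → ℤ × ℤ → ℂ) (q : ℝ × ℂ) : ℂ := tA N (c q.1) q.2
def sB (N : ℕ) (c : ℝ → ℤ × ℤ → ℂ) (q : ℝ × ℂ) : ℂ := tB N (c q.1) q.2
def sV (N : ℕ) (c : ℝ → ℤ × ℤ → ℂ) (q : ℝ × ℂ) : ℂ := tV N (c q.1) q.2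
def sY (μ : E → ℂ) (N : ℕ) (c : ℝ → ℤ × ℤ → ℂ) (q : ℝ × ℂ) : ℂ := tY μ N (c q.1) q.2

/-- weak convergence in `L²(mO T)` (tested against `conj G`) -/
def WL (T : ℝ) (us : ℕ → ℝ × ℂ → ℂ) (u : ℝ × ℂ → ℂ) : Prop :=
  ∀ G : ℝ × ℂ → ℂ, MemLp G 2 (mO T) →
    Tendsto (fun i => ∫ q, conj (G q) * us i q ∂(mO T)) atTop (𝓝 (∫ q, conj (G q) * u q ∂(mO T)))

/-- strong convergence in `L²(mO T)` -/
def SL (T : ℝ) (us : ℕ → ℝ × ℂ → ℂ) (u : ℝ × ℂ → ℂ) : Prop :=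
  Tendsto (fun i => ∫ q, ‖us i q - u q‖ ^ 2 ∂(mO T)) atTop (𝓝 0)

end Helper87.NF
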