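import Pool.Agent.Helper87.NF.Defs
import Pool.Agent.Helper85.IE.VBoxP

/-!
# Iwaniec conjecture: certificates, definitions (part C)
-/

set_option autoImplicit false
set_option maxSynthPendingDepth 3

open MeasureTheory Complex Filter Topology
open scoped ENNReal NNReal ComplexConjugate

noncomputable section

namespace Helper87.NF

open Helper85.IW

/-- the closed quadrant -/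
def qd : Set (ℝ × ℝ) := {q | 0 ≤ q.1 ∧ 0 ≤ q.2}

/-- covector field with radial components `p1 = U_r`, `p2 = U_s` -/
def Gof (p1 p2 : ℝ × ℝ → ℝ) (z : E) : E →L[ℝ] ℝ :=
  covR (p1 (‖z.1‖, ‖z.2‖) / ‖z.1‖) (p2 (‖z.1‖, ‖z.2‖) / ‖z.2‖) z

/-- `M d(arg z₁) + N d(arg z₂)` -/
def Eof (M N : ℝ × ℝ → ℝ) (z : E) : E →L[ℝ] ℝ :=
  covI (M (‖z.1‖, ‖z.2‖) / ‖z.1‖ ^ 2) (N (‖z.1‖, ‖z.2‖) / ‖z.2‖ ^ 2) z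

/-- `ν (z₁/|z₁|) (conj z₂/|z₂|)` -/
def Nof (ν : ℝ × ℝ → ℝ) (z : E) : ℂ :=
  (ν (‖z.1‖, ‖z.2‖) : ℂ) * (z.1 / (‖z.1‖ : ℂ)) * (conj z.2 / (‖z.2‖ : ℂ))

/-- the two 3x3 forms -/
def FP (ν urr urs uss a0 b0 m11 m12 m21 m22 x ξ ψ : ℝ) : ℝ :=
  (1 / 2) * (2 * (x + ξ) + ν * (x + ψ))
      * ((urr + urs) * x + (urs + uss) * (x + ξ + ψ) + a0 * ξ - b0 * ψ)
    + (m11 * x + m12 * (x + ξ + ψ)) * ξ + (m21 * x + m22 * (x + ξ + ψ)) * ψ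

def FM (ν urr urs uss a0 b0 m11 m12 m21 m22 x ξ ψ : ℝ) : ℝ :=
  (1 / 2) * (2 * (x + ξ) + ν * (ψ - x))
      * ((urr - urs) * x + (urs - uss) * (ψ - x - ξ) + a0 * ξ + b0 * ψ)
    + (m11 * x + m12 * (ψ - x - ξ)) * ξ + (m21 * x + m22 * (ψ - x - ξ)) * ψ

/-- weights -/
structure Wt (P P' : ℝ → ℝ) (q κ K : ℝ) : Prop where
  κ0 : 0 < κ
  κ1 : κ ≤ 1 / 10
  q0 : 0 < q
  K0 : 0 < K
  cont : Continuous P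
  zero : ∀ x, x ≤ 0 → P x = 0
  pos : ∀ x, 0 < x → 0 < P x
  der : ∀ x, 0 < x → HasDerivAt P (P' x) x
  lo : ∀ x, 0 < x → -κ * P x ≤ x * P' x
  hi : ∀ x, 0 < x → x * P' x ≤ q * P x
  bd : ∀ x, P x ≤ K
  int : ∀ y, 0 < y → IntervalIntegrable (fun x => P x / x) volume 0 y
  bi : ∀ y, 0 < y → ∫ x in (0 : ℝ)..y, P x / x ≤ K

/-- `∫₀^y P` -/
def Aw (P : ℝ → ℝ) (y : ℝ) : ℝ := ∫ x in (0 : ℝ)..y, P x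
/-- `∫₀^y P(x)/x dx` -/
def Bw (P : ℝ → ℝ) (y : ℝ) : ℝ := ∫ x in (0 : ℝ)..y, P x / x
/-- `∫₀^y x P(x) dx` -/
def Mw (P : ℝ → ℝ) (y : ℝ) : ℝ := ∫ x in (0 : ℝ)..y, x * P x
/-- `∫₀^y Aw P` -/
def Cw (P : ℝ → ℝ) (y : ℝ) : ℝ := y * Aw P y - Mw P y

/-- compensator: `((τ v - u)₊)² / (2 τ v)` -/
def cmp (τ u v : ℝ) : ℝ := (max (τ * v - u) 0) ^ 2 / (2 * τ * v)

/-- V-type functions (`s < r`: V-mode) -/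
def UV (P : ℝ → ℝ) (ε : ℝ) (x : ℝ × ℝ) : ℝ :=
  (if x.2 < x.1 then x.1 ^ 2 / 2 * Bw P x.1 - Mw P x.1 / 2 - x.2 ^ 2 / 2 * Bw P x.2 + Mw P x.2 / 2
      + 2 * Cw P x.2
    else (x.1 ^ 2 - x.2 ^ 2) / 2 * Bw P ((x.1 + x.2) / 2) + 2 * x.2 * Aw P ((x.1 + x.2) / 2)
      - 2 * Mw P ((x.1 + x.2) / 2)) + ε * x.1 ^ 2
def p1V (P : ℝ → ℝ) (ε : ℝ) (x : ℝ × ℝ) : ℝ :=
  (if x.2 < x.1 then x.1 * Bw P x.1 else x.1 * Bw P ((x.1 + x.2) / 2)) + 2 * ε * x.1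
def p2V (P : ℝ → ℝ) (x : ℝ × ℝ) : ℝ :=
  if x.2 < x.1 then -x.2 * Bw P x.2 + 2 * Aw P x.2
  else -x.2 * Bw P ((x.1 + x.2) / 2) + 2 * Aw P ((x.1 + x.2) / 2)
def MV (P : ℝ → ℝ) (ε : ℝ) (x : ℝ × ℝ) : ℝ :=
  (if x.2 < x.1 then -(Mw P x.1 - Mw P x.2) else 0) - ε * x.1 ^ 2
def NV (P : ℝ → ℝ) (ε d1 τ : ℝ) (x : ℝ × ℝ) : ℝ :=
  (if x.2 < x.1 then 4 * Cw P x.2 + x.2 * (1 - x.2 / x.1) * (2 * Aw P x.2 - x.2 * P x.2)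
    else 4 * Cw P ((x.1 + x.2) / 2))
  + (2 - d1) * Aw P (x.2 / 2) * cmp τ x.1 x.2 + ε * x.2 ^ 2

/-- H-type functions -/
def UH (P : ℝ → ℝ) (ε : ℝ) (x : ℝ × ℝ) : ℝ :=
  (x.1 ^ 2 - x.2 ^ 2) / 2 * Bw P ((x.1 + x.2) / 2) + 2 * x.2 * Aw P ((x.1 + x.2) / 2)
    - 2 * Mw P ((x.1 + x.2) / 2) + 4 * Cw P ((x.1 - x.2) / 2) + ε * x.1 ^ 2
def p1H (P : ℝ → ℝ) (ε : ℝ) (x : ℝ × ℝ) : ℝ :=
  x.1 * Bw P ((x.1 + x.2) / 2) + 2 * Aw P ((x.1 - x.2) / 2) + 2 * ε * x.1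
def p2H (P : ℝ → ℝ) (x : ℝ × ℝ) : ℝ :=
  -x.2 * Bw P ((x.1 + x.2) / 2) + 2 * Aw P ((x.1 + x.2) / 2) - 2 * Aw P ((x.1 - x.2) / 2)
def MH (P : ℝ → ℝ) (ε d1 τ : ℝ) (x : ℝ × ℝ) : ℝ :=
  -4 * x.1 * Aw P ((x.1 - x.2) / 2) + 4 * Cw P ((x.1 - x.2) / 2)
    - (2 - d1) * (Aw P (x.1 / 2) - x.1 * P (x.1 / 2)) * cmp τ x.2 x.1 - ε * x.1 ^ 2
def NH (P : ℝ → ℝ) (ε d1 τ : ℝ) (x : ℝ × ℝ) : ℝ :=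
  4 * Cw P ((x.1 + x.2) / 2) - 4 * x.2 * Aw P ((x.1 - x.2) / 2) - 4 * Cw P ((x.1 - x.2) / 2)
    + (2 - d1) * Aw P (x.2 / 2) * cmp τ x.1 x.2 + ε * x.2 ^ 2

/-- `ν`; `τ' = 1` for the V-type, `τ' = τ` for the H-type -/
def nuf (d1 τ τ' σ : ℝ) (x : ℝ × ℝ) : ℝ :=
  (2 - d1) * min 1 (min (x.1 / (τ * x.2)) (x.2 / (τ' * x.1))) * min 1 ((x.1 + x.2) / σ)

/-- the family of weights: `x^q (1 + x/T)^(-(q+1/10))` for `x > 0` -/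
def PT (q T x : ℝ) : ℝ := if x ≤ 0 then 0 else x ^ q * (1 + x / T) ^ (-(q + 1 / 10))
def PT' (q T x : ℝ) : ℝ :=
  (q / x - (q + 1 / 10) / (T + x)) * PT q T x

end Helper87.NF
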