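import Pool.Agent.Helper87.NF.StD

/-!
# CH, preliminaries: the function `nuf`, the constants and elementary estimates
-/

set_option autoImplicit false
set_option maxSynthPendingDepth 3

open MeasureTheory Complex Filter Topology
open scoped ENNReal NNReal ComplexConjugate

noncomputable section

namespace Helper87.NF.M_CH

open Helper85.IW Helper87.NF

theorem nuf_up {d1 τ σ r s : ℝ} (hτ : 0 < τ) (hτ1 : τ < 1) (hσ : 0 < σ) (hr : 0 < r)
    (hrs : r < s) (hL : σ ≤ r + s) :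
    nuf d1 τ τ σ (r, s) = 2 - (d1 + (2 - d1) * (max (τ * s - r) 0 / (τ * s))) := by
  have hs : 0 < s := hr.trans hrs
  have h1 : min 1 ((r + s) / σ) = 1 := min_eq_left ((one_le_div hσ).2 hL)
  have h2 : 1 ≤ s / (τ * r) := by
    rw [one_le_div (by positivity)]
    nlinarith
  have hts : 0 < τ * s := by positivity
  simp only [nuf]
  rw [h1, mul_one]
  rcases le_or_gt (τ * s) r with h | h
  · have h3 : 1 ≤ r / (τ * s) := (one_le_div hts).2 h
    rw [min_eq_left (le_min h3 h2), max_eq_right (by linarith)]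
    ring
  · have h3 : r / (τ * s) ≤ 1 := (div_le_one hts).2 h.le
    rw [min_eq_left (h3.trans h2), min_eq_right h3, max_eq_left (by linarith)]
    field_simp
    ring

theorem nuf_lo {d1 τ σ r s : ℝ} (hτ : 0 < τ) (hτ1 : τ < 1) (hσ : 0 < σ) (hs : 0 < s)
    (hrs : s < r) (hL : σ ≤ r + s) :
    nuf d1 τ τ σ (r, s) = 2 - (d1 + (2 - d1) * (max (τ * r - s) 0 / (τ * r))) := by
  have hr : 0 < r := hs.trans hrs
  have h1 : min 1 ((r + s) / σ) = 1 := min_eq_left ((one_le_div hσ).2 hL)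
  have h2 : 1 ≤ r / (τ * s) := by
    rw [one_le_div (by positivity)]
    nlinarith
  have hts : 0 < τ * r := by positivity
  simp only [nuf]
  rw [h1, mul_one]
  rcases le_or_gt (τ * r) s with h | h
  · have h3 : 1 ≤ s / (τ * r) := (one_le_div hts).2 h
    rw [min_eq_left (le_min h2 h3), max_eq_right (by linarith)]
    ring
  · have h3 : s / (τ * r) ≤ 1 := (div_le_one hts).2 h.le
    rw [min_eq_right (h3.trans h2), min_eq_right h3, max_eq_left (by linarith)]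
    field_simp
    ring

theorem w_bd {d1 τ u v : ℝ} (hd : 0 ≤ d1) (hd2 : d1 ≤ 2) (hτ : 0 < τ) (hu : 0 < u) (hv : 0 < v) :
    0 ≤ (2 - d1) * (max (τ * v - u) 0 / (τ * v)) ∧
      (2 - d1) * (max (τ * v - u) 0 / (τ * v)) ≤ 2 - d1 := by
  have h0 : 0 ≤ max (τ * v - u) 0 / (τ * v) := by positivity
  have h1 : max (τ * v - u) 0 / (τ * v) ≤ 1 := by
    rw [div_le_one (by positivity)]
    exact max_le (by linarith) (by positivity)
  have h2 : 0 ≤ 2 - d1 := by linarith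
  exact ⟨mul_nonneg h2 h0, by nlinarith⟩

/-- `K1 = 2 K + 1`, `d1`, `e`, `τ` -/
theorem consts {K q ε : ℝ} (hK : 0 < K) (hq : 0 < q) (hε : 0 < ε) (hε1 : ε ≤ 1) :
    ∃ K1 d1 e τ : ℝ, K1 = 2 * K + 1 ∧ 1 ≤ K1 ∧ 0 < d1 ∧ d1 * (2000 * K1 ^ 2) = ε ^ 2 ∧
      d1 * K1 ≤ ε / 2000 ∧ d1 ≤ 1 / 2000 ∧ e = ε * d1 / 1000 ∧ 0 < e ∧ e ≤ 1 / 1000 ∧ 0 < τ ∧
      τ < 1 / 2 ∧ 16 * (q + 1) * K * τ ≤ e / 2 ∧ 4 * K * τ ≤ e / 2 ∧ K * τ ≤ e := by
  have hK1 : 1 ≤ 2 * K + 1 := by linarith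
  have hd : 0 < ε ^ 2 / (2000 * (2 * K + 1) ^ 2) := by positivity
  obtain ⟨d1, hd1⟩ : ∃ d1, d1 = ε ^ 2 / (2000 * (2 * K + 1) ^ 2) := ⟨_, rfl⟩
  rw [← hd1] at hd
  have h1 : d1 * (2000 * (2 * K + 1) ^ 2) = ε ^ 2 := by
    rw [hd1]; field_simp
  have h2 : ε ^ 2 ≤ ε := by
    have := mul_le_mul_of_nonneg_left hε1 hε.le
    linarith [sq ε]
  have h3 : d1 * (2 * K + 1) ≤ d1 * (2 * K + 1) ^ 2 := by
    have : (2 * K + 1) * 1 ≤ (2 * K + 1) * (2 * K + 1) := mul_le_mul_of_nonneg_left hK1 (by linarith)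
    have := mul_le_mul_of_nonneg_left this hd.le
    linarith [sq (2 * K + 1)]
  have h4 : d1 * (2 * K + 1) ≤ ε / 2000 := by linarith
  have h5 : d1 * 1 ≤ d1 * (2 * K + 1) := mul_le_mul_of_nonneg_left hK1 hd.le
  have h6 : 0 < ε * d1 := mul_pos hε hd
  have h7 : ε * d1 ≤ 1 * d1 := mul_le_mul_of_nonneg_right hε1 hd.le
  obtain ⟨e, he⟩ : ∃ e, e = ε * d1 / 1000 := ⟨_, rfl⟩
  have he0 : 0 < e := by rw [he]; positivity
  have hqK : 0 < q * K := mul_pos hq hK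
  have hden : 0 < 32 * (q + 1) * K + 4 := by positivity
  obtain ⟨τ, hτ⟩ : ∃ τ, τ = e / (32 * (q + 1) * K + 4) := ⟨_, rfl⟩
  have hτ0 : 0 < τ := by rw [hτ]; positivity
  have hτe : τ * (32 * (q + 1) * K + 4) = e := by
    rw [hτ]; field_simp
  have h8 : 0 < τ * (q * K) := mul_pos hτ0 hqK
  have h9 : 0 < τ * K := mul_pos hτ0 hK
  have h10 : τ * (32 * (q + 1) * K + 4) = 32 * (τ * (q * K)) + 32 * (τ * K) + 4 * τ := by ring
  have h11 : 16 * (q + 1) * K * τ = 16 * (τ * (q * K)) + 16 * (τ * K) := by ring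
  have h12 : 4 * K * τ = 4 * (τ * K) := by ring
  have h13 : K * τ = τ * K := by ring
  refine ⟨2 * K + 1, d1, e, τ, rfl, hK1, hd, h1, h4, by linarith, he, he0, by linarith, hτ0,
    by linarith, by linarith, by linarith, by linarith⟩

/-- elementary estimates in the upper region; `π = P ((r + s) / 2)`, `α = Aw P ((r + s) / 2)` -/
theorem up_num {K τ r s π α : ℝ} (hK : 0 < K) (hτ : 0 < τ) (hr : 0 < r) (hlt : r < s)
    (hπ0 : 0 ≤ π) (hπ : π ≤ K) (hα0 : 0 ≤ α) (hα : α ≤ K * ((r + s) / 2)) :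
    0 ≤ 2 * α / s ∧ 0 ≤ r * π / (2 * (r + s)) ∧ 2 * α / s ≤ 2 * K ∧
      r * π / (2 * (r + s)) ≤ K / 2 ∧ (r ≤ τ * s → r * π / (2 * (r + s)) ≤ τ * K / 2) := by
  have hs : 0 < s := hr.trans hlt
  refine ⟨by positivity, by positivity, ?_, ?_, ?_⟩
  · rw [div_le_iff₀ hs]
    have : K * ((r + s) / 2) ≤ K * s := mul_le_mul_of_nonneg_left (by linarith) hK.le
    linarith
  · rw [div_le_iff₀ (by positivity)]
    have h1 : r * π ≤ r * K := mul_le_mul_of_nonneg_left hπ hr.le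
    have h2 : 0 < K * s := mul_pos hK hs
    have h3 : K / 2 * (2 * (r + s)) = r * K + K * s := by ring
    linarith
  · intro h
    rw [div_le_iff₀ (by positivity)]
    have h1 : r * π ≤ (τ * s) * K := mul_le_mul h hπ hπ0 (by positivity)
    have h2 : 0 < τ * K * r := by positivity
    have h3 : τ * K / 2 * (2 * (r + s)) = τ * s * K + τ * K * r := by ring
    linarith

theorem up_gw {K τ ε d1 e r s π α w : ℝ} (hK : 0 < K) (hτ : 0 < τ) (hr : 0 < r) (hlt : r < s)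
    (hπ0 : 0 ≤ π) (hπ : π ≤ K) (hα0 : 0 ≤ α) (hα : α ≤ K * ((r + s) / 2)) (hε : 0 < ε)
    (hd : 0 < d1) (hdK : d1 * (2 * K + 1) ≤ ε / 2000) (he : e = ε * d1 / 1000)
    (hd2 : d1 ≤ 1 / 2000) (hτe : K * τ ≤ e)
    (hw : w = (2 - d1) * (max (τ * s - r) 0 / (τ * s))) (hw2 : w ≤ 2 - d1) :
    (d1 + w) * (r * π / (2 * (r + s))) ≤ ε / 8 ∧ d1 * (2 * α / s) ≤ ε / 8 := by
  obtain ⟨h1, h2, h3, h4, h5⟩ := up_num (τ := τ) hK hτ hr hlt hπ0 hπ hα0 hα
  have h7 : ε * d1 ≤ ε * (1 / 2000) := mul_le_mul_of_nonneg_left hd2 hε.le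
  constructor
  · rcases le_or_gt (τ * s) r with hc | hc
    · have h6 : w = 0 := by rw [hw, max_eq_right (by linarith)]; simp
      rw [h6, add_zero]
      have := mul_le_mul_of_nonneg_left h4 hd.le
      linarith
    · have h6 := h5 hc.le
      have : (d1 + w) * (r * π / (2 * (r + s))) ≤ 2 * (r * π / (2 * (r + s))) :=
        mul_le_mul_of_nonneg_right (by linarith) h2
      linarith
  · have := mul_le_mul_of_nonneg_left h3 hd.le
    linarith

end Helper87.NF.M_CH
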