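import Pool.Agent.Helper87.NF.M_CH0

/-!
# CH, upper region
-/

set_option autoImplicit false
set_option maxSynthPendingDepth 3

open MeasureTheory Complex Filter Topology
open scoped ENNReal NNReal ComplexConjugate

noncomputable section

namespace Helper87.NF.M_CH

open Helper85.IW Helper87.NF

theorem half_le {e x ξ ψ : ℝ} (he : 0 < e) :
    e / 16 * (x ^ 2 + ξ ^ 2 + ψ ^ 2) ≤ e / 8 * (x ^ 2 + ξ ^ 2 + ψ ^ 2) :=
  mul_le_mul_of_nonneg_right (by linarith) (by positivity)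

/-- upper region, `σ ≤ r + s` -/
theorem upA (hUA : StUA) {ε d1 e w b g n1 n2 B : ℝ} (hε : 0 < ε) (hd : 0 < d1)
    (he : e = ε * d1 / 1000) (w0 : 0 ≤ w) (w1 : w ≤ 2 - d1) (hb0 : 0 ≤ b) (hg0 : 0 ≤ g)
    (hgw : (d1 + w) * g ≤ ε / 8) (hdb : d1 * b ≤ ε / 8) (hn1 : |n1| ≤ e) (hn2 : |n2| ≤ e)
    (x ξ ψ : ℝ) :
    ε * d1 / 16 * (x ^ 2 + ξ ^ 2 + ψ ^ 2) ≤ FP (2 - (d1 + w)) (B + 2 * g + 2 * ε) (2 * g)
      (-B + 2 * g) (B + 2 * ε) (-B + b) (-2 * ε) 0 (b - w * b / 2 + n1) (b + n2 + 2 * ε) x ξ ψ ∧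
    ε * d1 / 16 * (x ^ 2 + ξ ^ 2 + ψ ^ 2) ≤ FM (2 - (d1 + w)) (B + 2 * g + 2 * ε) (2 * g)
      (-B + 2 * g) (B + 2 * ε) (-B + b) (-2 * ε) 0 (b - w * b / 2 + n1) (b + n2 + 2 * ε)
      x ξ ψ := by
  have h6 : 0 < ε * d1 := mul_pos hε hd
  have := hUA ε (d1 + w) d1 b g n1 n2 B x ξ ψ hε hd (by linarith) (by linarith) hb0 hg0
    hgw hdb (by linarith) (by linarith)
  have e1 : (d1 + w - d1) = w := by ring
  rw [e1] at this
  exact ⟨(half_le h6).trans this.1, (half_le h6).trans this.2⟩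

/-- upper region, `r + s < σ` -/
theorem upB (hZA : StZA) {ε d1 e w b g n1 n2 B ν r s π α : ℝ} (hε : 0 < ε) (hd : 0 < d1)
    (he : e = ε * d1 / 1000) (w0 : 0 ≤ w) (w1 : w ≤ 2 - d1) (hr : 0 < r) (hlt : r < s)
    (hπ0 : 0 ≤ π) (hπ : π ≤ e / 40) (hα0 : 0 ≤ α) (hα : α ≤ e / 40 * ((r + s) / 2))
    (hB0 : 0 ≤ B) (hB : B ≤ e / 40) (hb : b = 2 * α / s) (hg : g = r * π / (2 * (r + s)))
    (hν0 : 0 ≤ ν) (hν : ν ≤ 2 - d1) (hn1 : |n1| ≤ e / 2) (hn2 : |n2| ≤ e / 2)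
    (x ξ ψ : ℝ) :
    ε * d1 / 16 * (x ^ 2 + ξ ^ 2 + ψ ^ 2) ≤ FP ν (B + 2 * g + 2 * ε) (2 * g)
      (-B + 2 * g) (B + 2 * ε) (-B + b) (-2 * ε) 0 (b - w * b / 2 + n1) (b + n2 + 2 * ε) x ξ ψ ∧
    ε * d1 / 16 * (x ^ 2 + ξ ^ 2 + ψ ^ 2) ≤ FM ν (B + 2 * g + 2 * ε) (2 * g)
      (-B + 2 * g) (B + 2 * ε) (-B + b) (-2 * ε) 0 (b - w * b / 2 + n1) (b + n2 + 2 * ε)
      x ξ ψ := by
  have h6 : 0 < ε * d1 := mul_pos hε hd
  have he0 : 0 < e := by rw [he]; positivity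
  have hs : 0 < s := hr.trans hlt
  have hb0 : 0 ≤ b := by rw [hb]; positivity
  have hg0 : 0 ≤ g := by rw [hg]; positivity
  have hbe : b ≤ e / 20 := by
    rw [hb, div_le_iff₀ hs]
    have : e / 40 * ((r + s) / 2) ≤ e / 40 * s := mul_le_mul_of_nonneg_left (by linarith)
      (by linarith)
    linarith
  have hge : g ≤ e / 40 := by
    rw [hg, div_le_iff₀ (by positivity)]
    have h5 : r * π ≤ r * (e / 40) := mul_le_mul_of_nonneg_left hπ hr.le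
    have h7 : 0 < e * s := mul_pos he0 hs
    have h8 : 0 < e * r := mul_pos he0 hr
    linarith
  have hwb0 : 0 ≤ w * b := mul_nonneg w0 hb0
  have hwb1 : w * b ≤ 2 * b := mul_le_mul_of_nonneg_right (by linarith) hb0
  obtain ⟨p1, p2⟩ := abs_le.1 hn1
  obtain ⟨p3, p4⟩ := abs_le.1 hn2
  clear hn1 hn2 hb hg hα hα0 hπ hπ0 hlt hr hs
  have := hZA ε (2 - ν) d1 e (B + 2 * g) (2 * g) (-B + 2 * g) B (-B + b)
    0 0 (b - w * b / 2 + n1) (b + n2) hε hd (by linarith) (by linarith) he0.le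
    (by linarith)
    (abs_le.2 ⟨by linarith, by linarith⟩) (abs_le.2 ⟨by linarith, by linarith⟩)
    (abs_le.2 ⟨by linarith, by linarith⟩) (abs_le.2 ⟨by linarith, by linarith⟩)
    (abs_le.2 ⟨by linarith, by linarith⟩) (by simpa using he0.le) (by simpa using he0.le)
    (abs_le.2 ⟨by linarith, by linarith⟩) (abs_le.2 ⟨by linarith, by linarith⟩) x ξ ψ
  have e2 : 2 - (2 - ν) = ν := by ring
  have e3 : (0 : ℝ) - 2 * ε = -2 * ε := by ring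
  rw [e2, e3] at this
  exact ⟨(half_le h6).trans this.1, (half_le h6).trans this.2⟩

end Helper87.NF.M_CH
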