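import Pool.Agent.Helper87.NF.StD

/-!
# NF module EH: Lipschitz bounds of `MH/r`, `NH/s`
-/

set_option autoImplicit false
set_option maxSynthPendingDepth 3

open MeasureTheory Complex Filter Topology
open scoped ENNReal NNReal ComplexConjugate

noncomputable section

namespace Helper87.NF.M_EH

open Helper87.NF

lemma Pnn {P P' : ℝ → ℝ} {q κ K : ℝ} (h : Wt P P' q κ K) (y : ℝ) : 0 ≤ P y := by
  rcases le_or_gt y 0 with hy | hy
  · rw [h.zero y hy]
  · exact (h.pos y hy).le

/-- `A` is `K`-Lipschitz -/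
lemma Aw_lip {P P' : ℝ → ℝ} {q κ K : ℝ} (h : Wt P P' q κ K) (x y : ℝ) :
    |Aw P x - Aw P y| ≤ K * |x - y| := by
  have hi : ∀ a b : ℝ, IntervalIntegrable P volume a b := fun a b =>
    h.cont.intervalIntegrable _ _
  have e : Aw P x - Aw P y = ∫ t in y..x, P t := by
    unfold Aw
    rw [← intervalIntegral.integral_interval_sub_left (hi 0 x) (hi 0 y)]
  rw [e]
  have := intervalIntegral.norm_integral_le_of_norm_le_const (a := y) (b := x) (f := P) (C := K)
    (fun t _ => by
      rw [Real.norm_eq_abs, abs_of_nonneg (Pnn h t)]; exact h.bd t)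
  rwa [Real.norm_eq_abs] at this

/-- quotient lemma: `g(m)/r` with `0 ≤ m ≤ c r` -/
lemma quo (g : ℝ → ℝ) (G c : ℝ) (hG : 0 ≤ G) (hc : 0 ≤ c) (g0 : g 0 = 0)
    (hg : ∀ m m', 0 ≤ m → m ≤ m' → |g m' - g m| ≤ G * m' * (m' - m))
    (r r' m m' : ℝ) (hr : 0 ≤ r) (hr' : 0 ≤ r') (hm : 0 ≤ m) (hm' : 0 ≤ m')
    (h1 : m ≤ c * r) (h2 : m' ≤ c * r') :
    |g m / r - g m' / r'| ≤ c * G * |m - m'| + c ^ 2 * G * |r - r'| := by
  have hb : ∀ m, 0 ≤ m → |g m| ≤ G * m ^ 2 := by
    intro m hm
    have := hg 0 m le_rfl hm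
    rw [g0, sub_zero, sub_zero] at this
    calc |g m| ≤ G * m * m := this
      _ = G * m ^ 2 := by ring
  have key : ∀ r r' m m' : ℝ, 0 ≤ r → 0 ≤ r' → 0 ≤ m → m ≤ m' → m ≤ c * r → m' ≤ c * r' →
      |g m / r - g m' / r'| ≤ c * G * |m - m'| + c ^ 2 * G * |r - r'| := by
    intro r r' m m' hr hr' hm hmm h1 h2
    have hm' : 0 ≤ m' := hm.trans hmm
    rcases hr'.eq_or_lt with z' | z'
    · have e1 : m' = 0 := le_antisymm (by rw [← z', mul_zero] at h2; exact h2) hm'
      have e2 : m = 0 := le_antisymm (by rw [← e1]; exact hmm) hm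
      rw [e1, e2, g0]
      simp only [zero_div, sub_self, abs_zero]
      positivity
    rcases hr.eq_or_lt with z | z
    · have e2 : m = 0 := le_antisymm (by rw [← z, mul_zero] at h1; exact h1) hm
      rw [e2, g0]
      simp only [zero_div, zero_sub, abs_neg]
      rw [abs_div, abs_of_pos z', abs_of_nonneg hm', div_le_iff₀ z']
      have k1 := hb m' hm'
      have k2 : G * m' ^ 2 ≤ c * G * m' * r' := by
        have : G * m' * m' ≤ G * m' * (c * r') :=
          mul_le_mul_of_nonneg_left h2 (mul_nonneg hG hm')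
        nlinarith
      have k3 : 0 ≤ c ^ 2 * G * |r - r'| * r' := by positivity
      nlinarith
    · have e : g m / r - g m' / r' = -((g m' - g m) / r') + g m * ((r' - r) / (r * r')) := by
        field_simp
        ring
      rw [e]
      have t1 : |-((g m' - g m) / r')| ≤ c * G * |m - m'| := by
        rw [abs_neg, abs_div, abs_of_pos z', div_le_iff₀ z', abs_sub_comm m m',
          abs_of_nonneg (sub_nonneg.2 hmm)]
        refine (hg m m' hm hmm).trans ?_
        have : G * m' * (m' - m) ≤ G * (c * r') * (m' - m) :=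
          mul_le_mul_of_nonneg_right (mul_le_mul_of_nonneg_left h2 hG) (sub_nonneg.2 hmm)
        linarith
      have t2 : |g m * ((r' - r) / (r * r'))| ≤ c ^ 2 * G * |r - r'| := by
        rw [abs_mul, abs_div, abs_of_pos (mul_pos z z'), abs_sub_comm r' r, ← mul_div_assoc,
          div_le_iff₀ (mul_pos z z')]
        have k1 : |g m| ≤ c ^ 2 * G * (r * r') := by
          refine (hb m hm).trans ?_
          have : m ^ 2 ≤ (c * r) * (c * r') := by
            rw [pow_two]
            exact mul_le_mul h1 (hmm.trans h2) hm (mul_nonneg hc hr)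
          calc G * m ^ 2 ≤ G * ((c * r) * (c * r')) := mul_le_mul_of_nonneg_left this hG
            _ = _ := by ring
        have := mul_le_mul_of_nonneg_right k1 (abs_nonneg (r - r'))
        linarith
      exact (abs_add_le _ _).trans (add_le_add t1 t2)
  rcases le_total m m' with hmm | hmm
  · exact key r r' m m' hr hr' hm hmm h1 h2
  · have := key r' r m' m hr' hr hm' hmm h2 h1
    rw [abs_sub_comm, abs_sub_comm m m', abs_sub_comm r r']
    exact this

/-- product lemma: `f(r) w` with `|w| ≤ a r` and `r |f r - f r'| ≤ b |r - r'|` for `r ≤ r'` -/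
lemma prodl (f : ℝ → ℝ) (F a b : ℝ) (ha : 0 ≤ a) (hb : 0 ≤ b)
    (hf : ∀ r, 0 ≤ r → |f r| ≤ F)
    (hf' : ∀ r r', 0 < r → r ≤ r' → r * |f r - f r'| ≤ b * |r - r'|)
    (r r' w w' : ℝ) (hr : 0 ≤ r) (hr' : 0 ≤ r') (h1 : |w| ≤ a * r) (h2 : |w'| ≤ a * r') :
    |f r * w - f r' * w'| ≤ a * b * |r - r'| + F * |w - w'| := by
  have key : ∀ r r' w w' : ℝ, 0 ≤ r → r ≤ r' → |w| ≤ a * r → 
      |f r * w - f r' * w'| ≤ a * b * |r - r'| + F * |w - w'| := by
    intro r r' w w' hr hrr h1
    have e : f r * w - f r' * w' = (f r - f r') * w + f r' * (w - w') := by ring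
    rw [e]
    refine (abs_add_le _ _).trans (add_le_add ?_ ?_)
    · rw [abs_mul]
      rcases hr.eq_or_lt with z | z
      · have : |w| = 0 := le_antisymm (by rw [← z, mul_zero] at h1; exact h1) (abs_nonneg _)
        rw [this, mul_zero]
        positivity
      · calc |f r - f r'| * |w| ≤ |f r - f r'| * (a * r) :=
              mul_le_mul_of_nonneg_left h1 (abs_nonneg _)
          _ = a * (r * |f r - f r'|) := by ring
          _ ≤ a * (b * |r - r'|) := mul_le_mul_of_nonneg_left (hf' r r' z hrr) ha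
          _ = _ := by ring
    · rw [abs_mul]
      exact mul_le_mul_of_nonneg_right (hf r' (hr.trans hrr)) (abs_nonneg _)
  rcases le_total r r' with hrr | hrr
  · exact key r r' w w' hr hrr h1
  · have := key r' r w' w hr' hrr h2
    rw [abs_sub_comm, abs_sub_comm w w', abs_sub_comm r r']
    exact this

/-- `A(r/2)/r` -/
lemma AovR {P P' : ℝ → ℝ} {q κ K : ℝ} (h : Wt P P' q κ K) (hW2 : StW2) :
    (∀ r : ℝ, 0 ≤ r → |Aw P (r / 2) / r| ≤ K) ∧
    (∀ r r' : ℝ, 0 < r → r ≤ r' →
      r * |Aw P (r / 2) / r - Aw P (r' / 2) / r'| ≤ K * |r - r'|) := by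
  have hK := h.K0
  obtain ⟨hn, hb, -, -⟩ := hW2 P P' q κ K h
  constructor
  · intro r hr
    rcases hr.eq_or_lt with z | z
    · rw [← z]; simp [hK.le]
    · rw [abs_div, abs_of_pos z, div_le_iff₀ z, abs_of_nonneg (hn _).1]
      have := (hb (r / 2) (by positivity)).1
      nlinarith
  · intro r r' hr hrr
    have hr' : 0 < r' := lt_of_lt_of_le hr hrr
    have e : r * (Aw P (r / 2) / r - Aw P (r' / 2) / r') =
        (Aw P (r / 2) - Aw P (r' / 2)) * (r / r') + Aw P (r / 2) * ((r' - r) / r') := by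
      field_simp
      ring
    rw [← abs_of_pos hr, ← abs_mul, abs_of_pos hr, e]
    have k1 : |(Aw P (r / 2) - Aw P (r' / 2)) * (r / r')| ≤ K / 2 * |r - r'| := by
      rw [abs_mul, abs_of_pos (div_pos hr hr')]
      have a1 := Aw_lip h (r / 2) (r' / 2)
      have a2 : |r / 2 - r' / 2| = |r - r'| / 2 := by
        rw [← sub_div, abs_div, abs_two]
      rw [a2] at a1
      have a3 : r / r' ≤ 1 := (div_le_one hr').2 hrr
      calc |Aw P (r / 2) - Aw P (r' / 2)| * (r / r') ≤ |Aw P (r / 2) - Aw P (r' / 2)| * 1 :=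
            mul_le_mul_of_nonneg_left a3 (abs_nonneg _)
        _ ≤ _ := by linarith
    have k2 : |Aw P (r / 2) * ((r' - r) / r')| ≤ K / 2 * |r - r'| := by
      rw [abs_mul, abs_of_nonneg (hn _).1, abs_div, abs_of_pos hr', abs_sub_comm r' r,
        ← mul_div_assoc, div_le_iff₀ hr']
      have a1 := (hb (r / 2) (by positivity)).1
      have a2 : Aw P (r / 2) ≤ K / 2 * r' := by nlinarith
      calc Aw P (r / 2) * |r - r'| ≤ K / 2 * r' * |r - r'| :=
            mul_le_mul_of_nonneg_right a2 (abs_nonneg _)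
        _ = _ := by ring
    refine (abs_add_le _ _).trans ?_
    linarith

/-- `P(r/2)` -/
lemma PovR {P P' : ℝ → ℝ} {q κ K : ℝ} (h : Wt P P' q κ K) :
    (∀ r : ℝ, 0 ≤ r → |P (r / 2)| ≤ K) ∧
    (∀ r r' : ℝ, 0 < r → r ≤ r' →
      r * |P (r / 2) - P (r' / 2)| ≤ ((q + 1) * K) * |r - r'|) := by
  have hK := h.K0
  constructor
  · intro r _
    rw [abs_of_nonneg (Pnn h _)]
    exact h.bd _
  · intro r r' hr hrr
    have hr' : 0 < r' := lt_of_lt_of_le hr hrr
    have hd : ∀ x ∈ Set.Icc (r / 2) (r' / 2), HasDerivWithinAt P (P' x)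
        (Set.Icc (r / 2) (r' / 2)) x := fun x hx =>
      (h.der x (lt_of_lt_of_le (by positivity) hx.1)).hasDerivWithinAt
    have hbound : ∀ x ∈ Set.Icc (r / 2) (r' / 2), ‖P' x‖ ≤ (q + 1) * K / (r / 2) := by
      intro x hx
      have hx0 : 0 < x := lt_of_lt_of_le (by positivity) hx.1
      have h1 := h.lo x hx0
      have h2 := h.hi x hx0
      have h3 := h.bd x
      have h4 := Pnn h x
      have h5 := h.q0
      have h6 := h.κ1
      have h7 := h.κ0
      have : |x * P' x| ≤ (q + 1) * K := by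
        rw [abs_le]
        constructor <;> nlinarith
      rw [abs_mul, abs_of_pos hx0] at this
      rw [Real.norm_eq_abs, le_div_iff₀ (by positivity)]
      calc |P' x| * (r / 2) ≤ |P' x| * x := mul_le_mul_of_nonneg_left hx.1 (abs_nonneg _)
        _ = x * |P' x| := by ring
        _ ≤ _ := this
    have := (convex_Icc (r / 2) (r' / 2)).norm_image_sub_le_of_norm_hasDerivWithin_le hd hbound
      (Set.left_mem_Icc.2 (by linarith)) (Set.right_mem_Icc.2 (by linarith))
    rw [Real.norm_eq_abs, Real.norm_eq_abs, abs_sub_comm, ← sub_div, abs_div, abs_two,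
      abs_sub_comm r' r] at this
    calc r * |P (r / 2) - P (r' / 2)| ≤ r * ((q + 1) * K / (r / 2) * (|r - r'| / 2)) :=
          mul_le_mul_of_nonneg_left this hr.le
      _ = (q + 1) * K * |r - r'| := by field_simp

/-- the compensator -/
lemma cmpL (τ : ℝ) (h0 : 0 < τ) (h1 : τ < 1) (u v u' v' : ℝ) (hu : 0 ≤ u) (hv : 0 ≤ v)
    (hu' : 0 ≤ u') (hv' : 0 ≤ v') :
    |cmp τ u v| ≤ 1 * v ∧ |cmp τ u v - cmp τ u' v'| ≤ 4 * (|u - u'| + |v - v'|) := by
  have hm : ∀ u v : ℝ, 0 ≤ u → 0 ≤ v → max (τ * v - u) 0 ≤ τ * v := fun u v hu hv =>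
    max_le (by linarith) (by positivity)
  have e : ∀ u v : ℝ, cmp τ u v = (1 / (2 * τ)) * ((max (τ * v - u) 0) ^ 2 / v) := by
    intro u v
    unfold cmp
    rw [div_mul_div_comm, one_mul]
  constructor
  · unfold cmp
    rcases hv.eq_or_lt with z | z
    · rw [← z]; simp
    · rw [abs_of_nonneg (by positivity), div_le_iff₀ (by positivity)]
      have a1 := hm u v hu hv
      have a2 : 0 ≤ max (τ * v - u) 0 := le_max_right _ _
      have a3 : (max (τ * v - u) 0) ^ 2 ≤ (τ * v) ^ 2 := pow_le_pow_left₀ a2 a1 2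
      have a4 : (τ * v) ^ 2 ≤ τ * v ^ 2 := by
        have : τ * τ ≤ τ * 1 := mul_le_mul_of_nonneg_left h1.le h0.le
        have := mul_le_mul_of_nonneg_right this (sq_nonneg v)
        nlinarith
      nlinarith [mul_nonneg h0.le (sq_nonneg v)]
  · rw [e, e, ← mul_sub, abs_mul, abs_of_pos (by positivity : 0 < 1 / (2 * τ))]
    have k := quo (fun m => m ^ 2) 2 τ (by norm_num) h0.le (by norm_num) (by
      intro m m' hm hmm
      have : m' ^ 2 - m ^ 2 = (m' - m) * (m' + m) := by ring
      rw [this, abs_of_nonneg (mul_nonneg (by linarith) (by linarith))]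
      nlinarith [mul_nonneg (sub_nonneg.2 hmm) (sub_nonneg.2 hmm)]) v v'
        (max (τ * v - u) 0) (max (τ * v' - u') 0) hv hv' (le_max_right _ _) (le_max_right _ _)
        (hm u v hu hv) (hm u' v' hu' hv')
    have k2 : |max (τ * v - u) 0 - max (τ * v' - u') 0| ≤ |u - u'| + |v - v'| := by
      refine (abs_max_sub_max_le_abs _ _ _).trans ?_
      have : τ * v - u - (τ * v' - u') = τ * (v - v') + -(u - u') := by ring
      rw [this]
      refine (abs_add_le _ _).trans ?_
      rw [abs_mul, abs_neg, abs_of_pos h0]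
      have := mul_le_mul_of_nonneg_right h1.le (abs_nonneg (v - v'))
      linarith
    have k3 : 0 ≤ |u - u'| := abs_nonneg _
    have k4 : 0 ≤ |v - v'| := abs_nonneg _
    have k5 : τ * 2 * |max (τ * v - u) 0 - max (τ * v' - u') 0| ≤
        τ * 2 * (|u - u'| + |v - v'|) := mul_le_mul_of_nonneg_left k2 (by positivity)
    have k6 : τ ^ 2 * 2 * |v - v'| ≤ τ * 2 * (|u - u'| + |v - v'|) := by
      have : τ ^ 2 ≤ τ := by nlinarith
      have a := mul_le_mul_of_nonneg_right this k4
      have b := mul_nonneg h0.le k3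
      nlinarith
    calc 1 / (2 * τ) * |(max (τ * v - u) 0) ^ 2 / v - (max (τ * v' - u') 0) ^ 2 / v'|
        ≤ 1 / (2 * τ) * (4 * τ * (|u - u'| + |v - v'|)) := by
          apply mul_le_mul_of_nonneg_left _ (by positivity)
          refine k.trans ?_
          linarith
      _ = 2 * (|u - u'| + |v - v'|) := by field_simp; ring
      _ ≤ _ := by linarith

lemma nrm (r s r' s' : ℝ) : |r - r'| ≤ ‖(r, s) - (r', s')‖ ∧ |s - s'| ≤ ‖(r, s) - (r', s')‖ :=
  ⟨norm_fst_le ((r, s) - (r', s')), norm_snd_le ((r, s) - (r', s'))⟩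

theorem main (hW1 : StW1) (hW2 : StW2) : StEH := by
  intro P P' q κ K h ε d1 τ hε hd0 hd1 hτ0 hτ1
  have hK := h.K0
  have hq := h.q0
  obtain ⟨hA', hC', -, -, -, hz⟩ := hW1 P P' q κ K h
  obtain ⟨hn, hb, -, -⟩ := hW2 P P' q κ K h
  obtain ⟨a1, a2⟩ := AovR h hW2
  obtain ⟨p1, p2⟩ := PovR h
  have C0 : ∀ t : ℝ, t ≤ 0 → Cw P t = 0 := fun t ht => (hz t ht).2.2.2
  have A0 : ∀ t : ℝ, t ≤ 0 → Aw P t = 0 := fun t ht => (hz t ht).1
  have hC : ∀ m m' : ℝ, 0 ≤ m → m ≤ m' → |Cw P m' - Cw P m| ≤ K * m' * (m' - m) := by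
    intro m m' hm hmm
    have := (convex_Icc m m').norm_image_sub_le_of_norm_hasDerivWithin_le
      (f := Cw P) (f' := Aw P) (C := K * m') (fun x _ => (hC' x).hasDerivWithinAt)
      (fun x hx => by
        rw [Real.norm_eq_abs, abs_of_nonneg (hn x).1]
        exact ((hb x (hm.trans hx.1)).1).trans (mul_le_mul_of_nonneg_left hx.2 hK.le))
      (Set.left_mem_Icc.2 hmm) (Set.right_mem_Icc.2 hmm)
    rwa [Real.norm_eq_abs, Real.norm_eq_abs, abs_of_nonneg (sub_nonneg.2 hmm)] at this
  have hd2 : 0 ≤ 2 - d1 := by linarith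
  constructor
  · intro R
    refine ⟨4 * K + 3 * K + 2 * ((q + 2) * K + 16 * K) + ε, ?_⟩
    rintro ⟨r, s⟩ ⟨hr, hs⟩ ⟨r', s'⟩ ⟨hr', hs'⟩ - -
    simp only at hr hs hr' hs'
    obtain ⟨n1, n2⟩ := nrm r s r' s'
    set n := ‖(r, s) - (r', s')‖ with hn'
    have hn0 : 0 ≤ n := (abs_nonneg _).trans n1
    have e : ∀ r s : ℝ, 0 ≤ r → 0 ≤ s → MH P ε d1 τ (r, s) / r =
        -4 * Aw P ((r - s) / 2) + 4 * (Cw P (max ((r - s) / 2) 0) / r)
          - (2 - d1) * ((Aw P (r / 2) / r - P (r / 2)) * cmp τ s r) - ε * r := by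
      intro r s hr hs
      have eC : Cw P (max ((r - s) / 2) 0) = Cw P ((r - s) / 2) := by
        rcases le_total ((r - s) / 2) 0 with h1 | h1
        · rw [max_eq_right h1, C0 _ h1, C0 _ le_rfl]
        · rw [max_eq_left h1]
      rw [eC]
      unfold MH
      simp only
      rcases hr.eq_or_lt with z | z
      · rw [← z]
        have : cmp τ s 0 = 0 := by unfold cmp; simp
        rw [A0 ((0 - s) / 2) (by linarith), this]
        simp
      · field_simp
    rw [e r s hr hs, e r' s' hr' hs']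
    have k1 : |Aw P ((r - s) / 2) - Aw P ((r' - s') / 2)| ≤ K * n := by
      refine (Aw_lip h _ _).trans (mul_le_mul_of_nonneg_left ?_ hK.le)
      have : (r - s) / 2 - (r' - s') / 2 = ((r - r') - (s - s')) / 2 := by ring
      rw [this, abs_div, abs_two]
      have := abs_sub (r - r') (s - s')
      linarith
    have hm : ∀ r s : ℝ, 0 ≤ r → 0 ≤ s → max ((r - s) / 2) 0 ≤ 1 / 2 * r := fun r s hr hs =>
      max_le (by linarith) (by linarith)
    have k2 := quo (Cw P) K (1 / 2) hK.le (by norm_num) (C0 0 le_rfl) hC r r'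
      (max ((r - s) / 2) 0) (max ((r' - s') / 2) 0) hr hr' (le_max_right _ _) (le_max_right _ _)
      (hm r s hr hs) (hm r' s' hr' hs')
    have k3 : |max ((r - s) / 2) 0 - max ((r' - s') / 2) 0| ≤ n := by
      refine (abs_max_sub_max_le_abs _ _ _).trans ?_
      have : (r - s) / 2 - (r' - s') / 2 = ((r - r') - (s - s')) / 2 := by ring
      rw [this, abs_div, abs_two]
      have := abs_sub (r - r') (s - s')
      linarith
    obtain ⟨c1, c2⟩ := cmpL τ hτ0 hτ1 s r s' r' hs hr hs' hr'
    obtain ⟨c1', -⟩ := cmpL τ hτ0 hτ1 s' r' s r hs' hr' hs hr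
    have k4 := prodl (fun r => Aw P (r / 2) / r - P (r / 2)) (2 * K) 1 ((q + 2) * K) zero_le_one
      (by positivity) (by
        intro r hr
        refine (abs_sub _ _).trans ?_
        have := a1 r hr
        have := p1 r hr
        linarith) (by
        intro r r' hr hrr
        have e : (Aw P (r / 2) / r - P (r / 2)) - (Aw P (r' / 2) / r' - P (r' / 2)) =
          (Aw P (r / 2) / r - Aw P (r' / 2) / r') - (P (r / 2) - P (r' / 2)) := by ring
        simp only [e]
        have t1 := a2 r r' hr hrr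
        have t2 := p2 r r' hr hrr
        have t3 := mul_le_mul_of_nonneg_left (abs_sub (Aw P (r / 2) / r - Aw P (r' / 2) / r')
          (P (r / 2) - P (r' / 2))) hr.le
        nlinarith) r r' (cmp τ s r) (cmp τ s' r') hr hr' c1 c1'
    set X := (Aw P (r / 2) / r - P (r / 2)) * cmp τ s r
    set X' := (Aw P (r' / 2) / r' - P (r' / 2)) * cmp τ s' r'
    set A := Aw P ((r - s) / 2)
    set A' := Aw P ((r' - s') / 2)
    set C := Cw P (max ((r - s) / 2) 0) / r
    set C' := Cw P (max ((r' - s') / 2) 0) / r'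
    have k5 : |C - C'| ≤ (3 / 4) * K * n := by
      refine k2.trans ?_
      have t1 := mul_le_mul_of_nonneg_left k3 hK.le
      have t2 := mul_le_mul_of_nonneg_left n1 hK.le
      nlinarith
    have k6 : |X - X'| ≤ ((q + 2) * K + 16 * K) * n := by
      refine k4.trans ?_
      have t1 := mul_le_mul_of_nonneg_left c2 hK.le
      have t2 := mul_le_mul_of_nonneg_left n1 (by positivity : 0 ≤ (q + 2) * K)
      have t3 := mul_le_mul_of_nonneg_left n1 hK.le
      have t4 := mul_le_mul_of_nonneg_left n2 hK.le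
      nlinarith
    have e2 : -4 * A + 4 * C - (2 - d1) * X - ε * r - (-4 * A' + 4 * C' - (2 - d1) * X' - ε * r') =
        -4 * (A - A') + (4 * (C - C') + (-(2 - d1) * (X - X') + -ε * (r - r'))) := by ring
    rw [e2]
    have s1 : |-4 * (A - A')| ≤ 4 * (K * n) := by
      rw [abs_mul, abs_neg, abs_of_pos (by norm_num : (0 : ℝ) < 4)]
      linarith
    have s2 : |4 * (C - C')| ≤ 4 * ((3 / 4) * K * n) := by
      rw [abs_mul, abs_of_pos (by norm_num : (0 : ℝ) < 4)]
      linarith
    have s3 : |-(2 - d1) * (X - X')| ≤ 2 * (((q + 2) * K + 16 * K) * n) := by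
      rw [abs_mul, abs_neg, abs_of_nonneg hd2]
      exact mul_le_mul (by linarith) k6 (abs_nonneg _) (by norm_num)
    have s4 : |-ε * (r - r')| ≤ ε * n := by
      rw [abs_mul, abs_neg, abs_of_pos hε]
      exact mul_le_mul_of_nonneg_left n1 hε.le
    have u1 := abs_add_le (-4 * (A - A')) (4 * (C - C') + (-(2 - d1) * (X - X') + -ε * (r - r')))
    have u2 := abs_add_le (4 * (C - C')) (-(2 - d1) * (X - X') + -ε * (r - r'))
    have u3 := abs_add_le (-(2 - d1) * (X - X')) (-ε * (r - r'))
    nlinarith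
  · intro R
    refine ⟨26 * K + ε, ?_⟩
    rintro ⟨r, s⟩ ⟨hr, hs⟩ ⟨r', s'⟩ ⟨hr', hs'⟩ - -
    simp only at hr hs hr' hs'
    obtain ⟨n1, n2⟩ := nrm r s r' s'
    set n := ‖(r, s) - (r', s')‖ with hn'
    have hn0 : 0 ≤ n := (abs_nonneg _).trans n1
    have cA : Continuous (Aw P) := continuous_iff_continuousAt.2 fun x => (hA' x).continuousAt
    have e : ∀ r s : ℝ, 0 ≤ r → 0 ≤ s → NH P ε d1 τ (r, s) / s =
        4 * (∫ u in (0 : ℝ)..1, (Aw P ((r - s) / 2 + s * u) - Aw P ((r - s) / 2)))
          + (2 - d1) * ((Aw P (s / 2) / s) * cmp τ r s) + ε * s := by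
      intro r s hr hs
      unfold NH
      simp only
      rcases hs.eq_or_lt with z | z
      · rw [← z]
        have : cmp τ r 0 = 0 := by unfold cmp; simp
        rw [this]
        simp
      · have i1 : ∫ u in (0 : ℝ)..1, (Aw P ((r - s) / 2 + s * u) - Aw P ((r - s) / 2)) =
            (∫ u in (0 : ℝ)..1, Aw P ((r - s) / 2 + s * u)) - Aw P ((r - s) / 2) := by
          rw [intervalIntegral.integral_sub]
          · simp
          · exact (cA.comp (by fun_prop)).intervalIntegrable _ _
          · exact continuous_const.intervalIntegrable _ _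
        have i2 : s * ∫ u in (0 : ℝ)..1, Aw P ((r - s) / 2 + s * u) =
            Cw P ((r + s) / 2) - Cw P ((r - s) / 2) := by
          have j1 := intervalIntegral.smul_integral_comp_add_mul (a := (0 : ℝ)) (b := 1) (Aw P) s
            ((r - s) / 2)
          rw [smul_eq_mul] at j1
          rw [j1, intervalIntegral.integral_eq_sub_of_hasDerivAt (f := Cw P) (fun x _ => hC' x)
            (cA.intervalIntegrable _ _)]
          congr 2 <;> ring
        rw [i1]
        set I := ∫ u in (0 : ℝ)..1, Aw P ((r - s) / 2 + s * u)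
        rw [div_eq_iff z.ne']
        have : (4 * (I - Aw P ((r - s) / 2)) + (2 - d1) * (Aw P (s / 2) / s * cmp τ r s) + ε * s) * s
          = 4 * (s * I) - 4 * s * Aw P ((r - s) / 2) +
            (2 - d1) * Aw P (s / 2) * cmp τ r s * (s / s) + ε * s ^ 2 := by ring
        rw [this, div_self z.ne', i2]
        ring
    rw [e r s hr hs, e r' s' hr' hs']
    obtain ⟨c1, c2⟩ := cmpL τ hτ0 hτ1 r s r' s' hr hs hr' hs'
    obtain ⟨c1', -⟩ := cmpL τ hτ0 hτ1 r' s' r s hr' hs' hr hs
    have k4 := prodl (fun r => Aw P (r / 2) / r) K 1 K zero_le_one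
      hK.le a1 a2 s s' (cmp τ r s) (cmp τ r' s') hs hs' c1 c1'
    set X := Aw P (s / 2) / s * cmp τ r s
    set X' := Aw P (s' / 2) / s' * cmp τ r' s'
    have k6 : |X - X'| ≤ 9 * K * n := by
      refine k4.trans ?_
      have t1 := mul_le_mul_of_nonneg_left c2 hK.le
      have t3 := mul_le_mul_of_nonneg_left n1 hK.le
      have t4 := mul_le_mul_of_nonneg_left n2 hK.le
      nlinarith
    have k7 : |(∫ u in (0 : ℝ)..1, (Aw P ((r - s) / 2 + s * u) - Aw P ((r - s) / 2))) -
        (∫ u in (0 : ℝ)..1, (Aw P ((r' - s') / 2 + s' * u) - Aw P ((r' - s') / 2)))| ≤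
        2 * K * n := by
      rw [← intervalIntegral.integral_sub]
      · have := intervalIntegral.norm_integral_le_of_norm_le_const (a := (0 : ℝ)) (b := 1)
          (C := 2 * K * n) (f := fun u => (Aw P ((r - s) / 2 + s * u) - Aw P ((r - s) / 2)) -
            (Aw P ((r' - s') / 2 + s' * u) - Aw P ((r' - s') / 2))) (by
          intro u hu
          rw [Set.uIoc_of_le zero_le_one] at hu
          have hu0 := hu.1
          have hu1 := hu.2
          have w1 := Aw_lip h ((r - s) / 2 + s * u) ((r' - s') / 2 + s' * u)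
          have w2 := Aw_lip h ((r - s) / 2) ((r' - s') / 2)
          have w3 : |(r - s) / 2 + s * u - ((r' - s') / 2 + s' * u)| ≤ n := by
            have : (r - s) / 2 + s * u - ((r' - s') / 2 + s' * u) =
                (r - r') * (1 / 2) + (s - s') * (u - 1 / 2) := by ring
            rw [this]
            refine (abs_add_le _ _).trans ?_
            rw [abs_mul, abs_mul]
            have v1 : |u - 1 / 2| ≤ 1 / 2 := by rw [abs_le]; constructor <;> linarith
            have v2 : |(1 / 2 : ℝ)| = 1 / 2 := abs_of_pos (by norm_num)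
            rw [v2]
            have v3 : |s - s'| * |u - 1 / 2| ≤ n * (1 / 2) :=
              mul_le_mul n2 v1 (abs_nonneg _) hn0
            linarith
          have w4 : |(r - s) / 2 - (r' - s') / 2| ≤ n := by
            have : (r - s) / 2 - (r' - s') / 2 = ((r - r') - (s - s')) / 2 := by ring
            rw [this, abs_div, abs_two]
            have := abs_sub (r - r') (s - s')
            linarith
          rw [Real.norm_eq_abs]
          have e3 : (Aw P ((r - s) / 2 + s * u) - Aw P ((r - s) / 2)) -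
            (Aw P ((r' - s') / 2 + s' * u) - Aw P ((r' - s') / 2)) =
            (Aw P ((r - s) / 2 + s * u) - Aw P ((r' - s') / 2 + s' * u)) -
            (Aw P ((r - s) / 2) - Aw P ((r' - s') / 2)) := by ring
          rw [e3]
          refine (abs_sub _ _).trans ?_
          have y1 := mul_le_mul_of_nonneg_left w3 hK.le
          have y2 := mul_le_mul_of_nonneg_left w4 hK.le
          linarith)
        rw [Real.norm_eq_abs] at this
        simpa using this
      · exact ((cA.comp (by fun_prop)).sub continuous_const).intervalIntegrable _ _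
      · exact ((cA.comp (by fun_prop)).sub continuous_const).intervalIntegrable _ _
    set I := ∫ u in (0 : ℝ)..1, (Aw P ((r - s) / 2 + s * u) - Aw P ((r - s) / 2))
    set I' := ∫ u in (0 : ℝ)..1, (Aw P ((r' - s') / 2 + s' * u) - Aw P ((r' - s') / 2))
    have e2 : 4 * I + (2 - d1) * X + ε * s - (4 * I' + (2 - d1) * X' + ε * s') =
        4 * (I - I') + ((2 - d1) * (X - X') + ε * (s - s')) := by ring
    rw [e2]
    have s2 : |4 * (I - I')| ≤ 4 * (2 * K * n) := by
      rw [abs_mul, abs_of_pos (by norm_num : (0 : ℝ) < 4)]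
      linarith
    have s3 : |(2 - d1) * (X - X')| ≤ 2 * (9 * K * n) := by
      rw [abs_mul, abs_of_nonneg hd2]
      exact mul_le_mul (by linarith) k6 (abs_nonneg _) (by norm_num)
    have s4 : |ε * (s - s')| ≤ ε * n := by
      rw [abs_mul, abs_of_pos hε]
      exact mul_le_mul_of_nonneg_left n2 hε.le
    have u2 := abs_add_le (4 * (I - I')) ((2 - d1) * (X - X') + ε * (s - s'))
    have u3 := abs_add_le ((2 - d1) * (X - X')) (ε * (s - s'))
    linarith

end Helper87.NF.M_EH
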