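import Pool.Agent.Helper52.NF.St3

set_option autoImplicit false

namespace Pool.Agent.Helper87.NF

open Pool.Agent.Helper52.NF Finset

section
open Classical

variable {V : Type} [Fintype V] {G : SimpleGraph V}

noncomputable def ce (rot : Equiv.Perm G.Dart) (e : Sym2 V) : G.Dart → ZMod 2 := fun d =>
  (if d.edge = e then 1 else 0) + (if (rot.symm d).edge = e then 1 else 0)

theorem hRSF (h : StRSP) : StRSF := by
  intro V _ G rot φ hP
  obtain ⟨hcon, hr, hsc, hφ, hEu⟩ := hP
  refine ⟨G.edgeFinset.image (ce rot), ?_, ?_, ?_⟩
  · intro x hx
    obtain ⟨e, he, rfl⟩ := Finset.mem_image.mp hx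
    constructor
    · intro f
      have h1 : ∑ d ∈ Finset.univ.filter (fun d : G.Dart => fc φ d = f),
          (if (rot.symm d).edge = e then (1 : ZMod 2) else 0) =
          ∑ d ∈ Finset.univ.filter (fun d : G.Dart => fc φ d = f),
          (if d.edge = e then (1 : ZMod 2) else 0) := by
        refine Finset.sum_bij (fun d _ => φ.symm d) ?_ ?_ ?_ ?_
        · intro d hd
          simp only [Finset.mem_filter, Finset.mem_univ, true_and] at hd ⊢
          rw [← hd]
          refine Quotient.sound ?_
          show φ.SameCycle (φ.symm d) d
          exact ⟨1, by simp⟩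
        · intro d _ d' _ hdd
          exact φ.symm.injective hdd
        · intro d hd
          refine ⟨φ d, ?_, by simp⟩
          simp only [Finset.mem_filter, Finset.mem_univ, true_and] at hd ⊢
          rw [← hd]
          refine Quotient.sound ?_
          show φ.SameCycle (φ d) d
          exact ⟨-1, by simp⟩
        · intro d _
          have h2 : φ.symm d = (rot.symm d).symm := by
            rw [Equiv.symm_apply_eq, hφ, SimpleGraph.Dart.symm_symm, Equiv.apply_symm_apply]
          show _ = (if (φ.symm d).edge = e then (1 : ZMod 2) else 0)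
          rw [h2, SimpleGraph.Dart.edge_symm]
      unfold ce
      rw [Finset.sum_add_distrib, h1]
      exact zz _
    · intro v
      have h1 : ∑ d ∈ Finset.univ.filter (fun d : G.Dart => d.fst = v),
          (if (rot.symm d).edge = e then (1 : ZMod 2) else 0) =
          ∑ d ∈ Finset.univ.filter (fun d : G.Dart => d.fst = v),
          (if d.edge = e then (1 : ZMod 2) else 0) := by
        refine Finset.sum_bij (fun d _ => rot.symm d) ?_ ?_ ?_ ?_
        · intro d hd
          simp only [Finset.mem_filter, Finset.mem_univ, true_and] at hd ⊢
          have := hr (rot.symm d)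
          rw [Equiv.apply_symm_apply] at this
          rw [← this, hd]
        · intro d _ d' _ hdd
          exact rot.symm.injective hdd
        · intro d hd
          refine ⟨rot d, ?_, by simp⟩
          simp only [Finset.mem_filter, Finset.mem_univ, true_and] at hd ⊢
          rw [hr, hd]
        · intro d _; rfl
      unfold ce
      rw [Finset.sum_add_distrib, h1]
      exact zz _
  · intro x hx
    obtain ⟨s, hs⟩ := h V G rot φ ⟨hcon, hr, hsc, hφ, hEu⟩ x hx.1 hx.2
    have h1 : x = ∑ e ∈ G.edgeFinset, s e • ce rot e := by
      funext d
      rw [Finset.sum_apply, hs d]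
      simp only [Pi.smul_apply, smul_eq_mul, ce, mul_add, Finset.sum_add_distrib, mul_ite, mul_one,
        mul_zero, Finset.sum_ite_eq, SimpleGraph.mem_edgeFinset]
      rw [if_pos d.edge_mem, if_pos (rot.symm d).edge_mem]
    rw [h1]
    refine Submodule.sum_mem _ (fun e he => Submodule.smul_mem _ _ (Submodule.subset_span ?_))
    exact Finset.mem_coe.mpr (Finset.mem_image_of_mem _ he)
  · intro d
    have h1 : (G.edgeFinset.image (ce rot)).filter (fun x => x d ≠ 0) ⊆
        {ce rot d.edge, ce rot (rot.symm d).edge} := by
      intro x hx
      obtain ⟨hx1, hx2⟩ := Finset.mem_filter.mp hx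
      obtain ⟨e, he, rfl⟩ := Finset.mem_image.mp hx1
      simp only [Finset.mem_insert, Finset.mem_singleton]
      by_cases h1 : d.edge = e
      · left; rw [h1]
      · by_cases h2 : (rot.symm d).edge = e
        · right; rw [h2]
        · exfalso; apply hx2; simp [ce, h1, h2]
    exact (Finset.card_le_card h1).trans (Finset.card_le_two)

end

end Pool.Agent.Helper87.NF
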