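import Pool.Agent.Helper87.NF.StS

/-!
# S1: `T (∂̄ φ) = ∂ φ` (MP_3dd6d4_an, module S1)
-/

set_option autoImplicit false
set_option maxSynthPendingDepth 3

open MeasureTheory Complex Filter Topology FourierTransform SchwartzMap
open scoped ENNReal NNReal ComplexConjugate ContDiff

noncomputable section

namespace Helper87.NF.M_S1

open Helper72.BA Helper85.IW Helper85.IE Helper87.NF

/-- the multiplier of `∂̄` -/
def md (ξ : ℂ) : ℂ := (Real.pi * I : ℂ) * ξ

theorem md_tg : md.HasTemperateGrowth := by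
  have h1 : (fun ξ : ℂ => ξ).HasTemperateGrowth := (ContinuousLinearMap.id ℝ ℂ).hasTemperateGrowth
  have h3 : (fun _ : ℂ => (Real.pi * I : ℂ)).HasTemperateGrowth :=
    Function.HasTemperateGrowth.const _
  exact h3.mul h1

/-- the function `∂̄ φ` -/
def pf (f : SchwartzMap ℂ ℂ) : SchwartzMap ℂ ℂ :=
  𝓕⁻ (SchwartzMap.smulLeftCLM ℂ md (𝓕 f))

theorem gf_pf (f : SchwartzMap ℂ ℂ) (ξ : ℂ) : gf (pf f) ξ = md ξ * gf f ξ := by
  rw [Helper42.IW_A6.gf_eq, pf, FourierTransform.fourier_fourierInv_eq,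
    SchwartzMap.smulLeftCLM_apply_apply md_tg, Helper42.IW_A6.gf_eq, smul_eq_mul]

theorem main : StS1 := by
  intro φ
  refine ⟨pf φ, fun z => ?_, fun z => ?_⟩
  · rw [dzb_HE, ← (qA6 (pf φ)).2.2.2.1 z]
    congr 1
    funext ξ
    rw [gf_pf, md]
  · rw [dz_HE, ← (qA6 (pf φ)).2.2.2.2 z, HE, HE]
    refine integral_congr_ae ?_
    have h0 : ∀ᵐ ξ : ℂ, ξ ≠ 0 := by
      rw [ae_iff]
      simp only [ne_eq, not_not, Set.ofPred_eq_eq_singleton]
      exact measure_singleton 0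
    filter_upwards [h0] with ξ hξ
    rw [gT, gf_pf, md]
    congr 2
    field_simp

end Helper87.NF.M_S1
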