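import Pool.Agent.Helper87.NF.StD

/-!
# NF module UV2: Lipschitz bounds of `p1V`, `p2V`
-/

set_option autoImplicit false
set_option maxSynthPendingDepth 3

open MeasureTheory Complex Filter Topology
open scoped ENNReal NNReal ComplexConjugate

noncomputable section

namespace Helper87.NF.M_UV2

open Helper87.NF

lemma Pnn {P P' : ℝ → ℝ} {q κ K : ℝ} (h : Wt P P' q κ K) (y : ℝ) : 0 ≤ P y := by
  rcases le_or_gt y 0 with hy | hy
  · rw [h.zero y hy]
  · exact (h.pos y hy).le

/-- `A` is `K`-Lipschitz -/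
lemma Aw_lip {P P' : ℝ → ℝ} {q κ K : ℝ} (h : Wt P P' q κ K) (x y : ℝ) :
    |Aw P x - Aw P y| ≤ K * |x - y| := by
  have hi : ∀ a b : ℝ, IntervalIntegrable P volume a b := fun a b =>
    h.cont.intervalIntegrable _ _
  have e : Aw P x - Aw P y = ∫ t in y..x, P t := by
    unfold Aw
    rw [← intervalIntegral.integral_interval_sub_left (hi 0 x) (hi 0 y)]
  rw [e]
  have := intervalIntegral.norm_integral_le_of_norm_le_const (a := y) (b := x) (f := P) (C := K)
    (fun t _ => by
      rw [Real.norm_eq_abs, abs_of_nonneg (Pnn h t)]; exact h.bd t)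
  rwa [Real.norm_eq_abs] at this

/-- `B` is monotone and `m (B m' - B m) ≤ K (m' - m)` -/
lemma Bw_diff {P P' : ℝ → ℝ} {q κ K : ℝ} (h : Wt P P' q κ K) (m m' : ℝ) (h0 : 0 ≤ m)
    (hm : m ≤ m') : 0 ≤ Bw P m' - Bw P m ∧ m * (Bw P m' - Bw P m) ≤ K * (m' - m) := by
  have hi : ∀ a : ℝ, 0 ≤ a → IntervalIntegrable (fun x => P x / x) volume 0 a := by
    intro a ha
    rcases ha.eq_or_lt with h1 | h1
    · rw [← h1]
    · exact h.int a h1
  have e : Bw P m' - Bw P m = ∫ t in m..m', P t / t := by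
    unfold Bw
    rw [← intervalIntegral.integral_interval_sub_left (hi m' (h0.trans hm)) (hi m h0)]
  have hmm : IntervalIntegrable (fun x => P x / x) volume m m' :=
    (hi m h0).symm.trans (hi m' (h0.trans hm))
  rw [e]
  constructor
  · apply intervalIntegral.integral_nonneg hm
    intro t ht
    exact div_nonneg (Pnn h t) (h0.trans ht.1)
  · rw [← intervalIntegral.integral_const_mul]
    have h1 : ∫ t in m..m', m * (P t / t) ≤ ∫ t in m..m', K := by
      apply intervalIntegral.integral_mono_on hm (hmm.const_mul m)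
        (continuous_const.intervalIntegrable _ _)
      intro t ht
      rcases h0.eq_or_lt with h2 | h2
      · rw [← h2, zero_mul]; exact h.K0.le
      · have ht0 : 0 < t := lt_of_lt_of_le h2 ht.1
        have h3 : m * (P t / t) = (m / t) * P t := by ring
        have h4 : m / t ≤ 1 := (div_le_one ht0).2 ht.1
        have h5 : 0 ≤ m / t := div_nonneg h0 ht0.le
        rw [h3]
        calc m / t * P t ≤ 1 * P t := mul_le_mul_of_nonneg_right h4 (Pnn h t)
          _ = P t := one_mul _
          _ ≤ K := h.bd t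
    have h2 : ∫ t in m..m', K = K * (m' - m) := by simp [mul_comm]
    linarith

/-- `r B(m)` on `0 ≤ r ≤ c m` -/
lemma rB {P P' : ℝ → ℝ} {q κ K : ℝ} (h : Wt P P' q κ K) (hW2 : StW2) (c r r' m m' : ℝ)
    (hc : 0 ≤ c) (hr : 0 ≤ r) (hr' : 0 ≤ r') (hm : 0 ≤ m) (hm' : 0 ≤ m')
    (h1 : r ≤ c * m) (h2 : r' ≤ c * m') :
    |r * Bw P m - r' * Bw P m'| ≤ K * |r - r'| + c * K * |m - m'| := by
  have hB := (hW2 P P' q κ K h).1
  have key : ∀ r r' m m' : ℝ, 0 ≤ r → 0 ≤ m → m ≤ m' → r ≤ c * m →
      |r * Bw P m - r' * Bw P m'| ≤ K * |r - r'| + c * K * |m - m'| := by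
    intro r r' m m' hr hm hmm h1
    obtain ⟨b1, b2⟩ := Bw_diff h m m' hm hmm
    have b3 : 0 ≤ Bw P m' := (hB m').2.1
    have b4 : Bw P m' ≤ K := (hB m').2.2.2.2.2
    have e : r * Bw P m - r' * Bw P m' = -(r * (Bw P m' - Bw P m)) + (r - r') * Bw P m' := by ring
    rw [e]
    have t1 : |-(r * (Bw P m' - Bw P m))| ≤ c * K * |m - m'| := by
      rw [abs_neg, abs_of_nonneg (mul_nonneg hr b1), abs_sub_comm, abs_of_nonneg (sub_nonneg.2 hmm)]
      calc r * (Bw P m' - Bw P m) ≤ (c * m) * (Bw P m' - Bw P m) :=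
            mul_le_mul_of_nonneg_right h1 b1
        _ = c * (m * (Bw P m' - Bw P m)) := by ring
        _ ≤ c * (K * (m' - m)) := mul_le_mul_of_nonneg_left b2 hc
        _ = c * K * (m' - m) := by ring
    have t2 : |(r - r') * Bw P m'| ≤ K * |r - r'| := by
      rw [abs_mul, abs_of_nonneg b3, mul_comm]
      exact mul_le_mul_of_nonneg_right b4 (abs_nonneg _)
    calc _ ≤ |-(r * (Bw P m' - Bw P m))| + |(r - r') * Bw P m'| := abs_add_le _ _
      _ ≤ _ := by linarith
  rcases le_total m m' with hmm | hmm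
  · exact key r r' m m' hr hm hmm h1
  · have := key r' r m' m hr' hm' hmm h2
    rw [abs_sub_comm, abs_sub_comm r r', abs_sub_comm m m']
    exact this

theorem main (_hW1 : StW1) (hW2 : StW2) : StUV2 := by
  intro P P' q κ K h ε hε
  have hK := h.K0
  refine ⟨5 * K + 2 * ε, ?_, ?_⟩
  · rintro ⟨r, s⟩ ⟨hr, hs⟩ ⟨r', s'⟩ ⟨hr', hs'⟩
    simp only at hr hs hr' hs'
    have n1 : |r - r'| ≤ ‖(r, s) - (r', s')‖ := by
      exact norm_fst_le ((r, s) - (r', s'))
    have n2 : |s - s'| ≤ ‖(r, s) - (r', s')‖ := by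
      exact norm_snd_le ((r, s) - (r', s'))
    set n := ‖(r, s) - (r', s')‖ with hn
    have e : ∀ r s : ℝ, p1V P ε (r, s) = r * Bw P (max r ((r + s) / 2)) + 2 * ε * r := by
      intro r s
      unfold p1V
      simp only
      split_ifs with hc
      · rw [max_eq_left (by linarith)]
      · rw [max_eq_right (by linarith)]
    rw [e, e]
    have k1 := rB h hW2 1 r r' (max r ((r + s) / 2)) (max r' ((r' + s') / 2)) zero_le_one hr hr'
      (le_max_of_le_left hr) (le_max_of_le_left hr') (by rw [one_mul]; exact le_max_left _ _)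
      (by rw [one_mul]; exact le_max_left _ _)
    have k2 : |max r ((r + s) / 2) - max r' ((r' + s') / 2)| ≤ n := by
      refine (abs_max_sub_max_le_max _ _ _ _).trans (max_le n1 ?_)
      have : (r + s) / 2 - (r' + s') / 2 = ((r - r') + (s - s')) / 2 := by ring
      rw [this, abs_div, abs_two]
      have := abs_add_le (r - r') (s - s')
      linarith
    have k3 : |r * Bw P (max r ((r + s) / 2)) + 2 * ε * r -
        (r' * Bw P (max r' ((r' + s') / 2)) + 2 * ε * r')| ≤
        |r * Bw P (max r ((r + s) / 2)) - r' * Bw P (max r' ((r' + s') / 2))| +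
          2 * ε * |r - r'| := by
      have : r * Bw P (max r ((r + s) / 2)) + 2 * ε * r -
        (r' * Bw P (max r' ((r' + s') / 2)) + 2 * ε * r') =
        (r * Bw P (max r ((r + s) / 2)) - r' * Bw P (max r' ((r' + s') / 2))) +
          2 * ε * (r - r') := by ring
      rw [this]
      refine (abs_add_le _ _).trans ?_
      rw [abs_mul (2 * ε), abs_of_pos (by positivity : (0 : ℝ) < 2 * ε)]
    have k4 : K * |r - r'| ≤ K * n := mul_le_mul_of_nonneg_left n1 hK.le
    have k5 : K * |max r ((r + s) / 2) - max r' ((r' + s') / 2)| ≤ K * n :=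
      mul_le_mul_of_nonneg_left k2 hK.le
    have k6 : 2 * ε * |r - r'| ≤ 2 * ε * n := mul_le_mul_of_nonneg_left n1 (by positivity)
    have k7 : 0 ≤ K * n := mul_nonneg hK.le (norm_nonneg _)
    nlinarith
  · rintro ⟨r, s⟩ ⟨hr, hs⟩ ⟨r', s'⟩ ⟨hr', hs'⟩
    simp only at hr hs hr' hs'
    have n1 : |r - r'| ≤ ‖(r, s) - (r', s')‖ := by
      exact norm_fst_le ((r, s) - (r', s'))
    have n2 : |s - s'| ≤ ‖(r, s) - (r', s')‖ := by
      exact norm_snd_le ((r, s) - (r', s'))
    set n := ‖(r, s) - (r', s')‖ with hn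
    have e : ∀ r s : ℝ, p2V P (r, s) =
        -(s * Bw P (min s ((r + s) / 2))) + 2 * Aw P (min s ((r + s) / 2)) := by
      intro r s
      unfold p2V
      simp only
      split_ifs with hc
      · rw [min_eq_left (by linarith)]; ring
      · rw [min_eq_right (by linarith)]; ring
    rw [e, e]
    have k1 := rB h hW2 2 s s' (min s ((r + s) / 2)) (min s' ((r' + s') / 2)) zero_le_two hs hs'
      (le_min hs (by linarith)) (le_min hs' (by linarith))
      (by
        rcases min_choice s ((r + s) / 2) with h1 | h1 <;> rw [h1] <;> linarith)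
      (by
        rcases min_choice s' ((r' + s') / 2) with h1 | h1 <;> rw [h1] <;> linarith)
    have k2 : |min s ((r + s) / 2) - min s' ((r' + s') / 2)| ≤ n := by
      refine (abs_min_sub_min_le_max _ _ _ _).trans (max_le n2 ?_)
      have : (r + s) / 2 - (r' + s') / 2 = ((r - r') + (s - s')) / 2 := by ring
      rw [this, abs_div, abs_two]
      have := abs_add_le (r - r') (s - s')
      linarith
    have kA := Aw_lip h (min s ((r + s) / 2)) (min s' ((r' + s') / 2))
    set m := min s ((r + s) / 2)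
    set m' := min s' ((r' + s') / 2)
    have k3 : |-(s * Bw P m) + 2 * Aw P m - (-(s' * Bw P m') + 2 * Aw P m')| ≤
        |s * Bw P m - s' * Bw P m'| + 2 * |Aw P m - Aw P m'| := by
      have : -(s * Bw P m) + 2 * Aw P m - (-(s' * Bw P m') + 2 * Aw P m') =
        -(s * Bw P m - s' * Bw P m') + 2 * (Aw P m - Aw P m') := by ring
      rw [this]
      refine (abs_add_le _ _).trans ?_
      rw [abs_neg, abs_mul, abs_two]
    have k4 : K * |s - s'| ≤ K * n := mul_le_mul_of_nonneg_left n2 hK.le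
    have k5 : K * |m - m'| ≤ K * n := mul_le_mul_of_nonneg_left k2 hK.le
    have k7 : 0 ≤ K * n := mul_nonneg hK.le (norm_nonneg _)
    have k8 : 0 ≤ ε * n := mul_nonneg hε.le (norm_nonneg _)
    nlinarith

end Helper87.NF.M_UV2
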