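import Pool.Agent.Helper87.NF.Defs

/-!
# Statements of the modules, parts A (approximation, compactness) and B (flow theorem)
-/

set_option autoImplicit false
set_option maxSynthPendingDepth 3

open MeasureTheory Complex Filter Topology
open scoped ENNReal NNReal ComplexConjugate

noncomputable section

namespace Helper87.NF

open Helper85.IW

/-! ### Part A1: Fourier analysis on the unit square -/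

/-- A0: calculus of trigonometric polynomials -/
def StA0 : Prop := ∀ (s : Finset (ℤ × ℤ)) (c : ℤ × ℤ → ℂ),
  ContDiff ℝ 2 (tp s c) ∧
  (∀ z, fderiv ℝ (tp s c) z 1 = tp s (fun k => 2 * (Real.pi : ℂ) * I * (k.1 : ℂ) * c k) z) ∧
  (∀ z, fderiv ℝ (tp s c) z I = tp s (fun k => 2 * (Real.pi : ℂ) * I * (k.2 : ℂ) * c k) z) ∧
  (∀ z, tp s c (z + 1) = tp s c z) ∧ (∀ z, tp s c (z + I) = tp s c z) ∧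
  (∀ z, ‖tp s c z‖ ≤ ∑ k ∈ s, ‖c k‖)

/-- A1: finite Parseval and Bessel -/
def StA1 : Prop :=
  (∀ (s : Finset (ℤ × ℤ)) (c : ℤ × ℤ → ℂ), ∫ z, ‖tp s c z‖ ^ 2 ∂mS = ∑ k ∈ s, normSq (c k)) ∧
  (∀ (s : Finset (ℤ × ℤ)) (c : ℤ × ℤ → ℂ) (k : ℤ × ℤ), cf (tp s c) k = if k ∈ s then c k else 0) ∧
  (∀ (s : Finset (ℤ × ℤ)) (c : ℤ × ℤ → ℂ) (Y : ℂ → ℂ), MemLp Y 2 mS →
    ∫ z, conj (tp s c z) * Y z ∂mS = ∑ k ∈ s, conj (c k) * cf Y k) ∧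
  (∀ (s : Finset (ℤ × ℤ)) (Y : ℂ → ℂ), MemLp Y 2 mS →
    ∫ z, ‖Y z - tp s (cf Y) z‖ ^ 2 ∂mS = (∫ z, ‖Y z‖ ^ 2 ∂mS) - ∑ k ∈ s, normSq (cf Y k))

/-- A2: completeness -/
def StA2 : Prop := ∀ Y : ℂ → ℂ, MemLp Y 2 mS →
  HasSum (fun k => normSq (cf Y k)) (∫ z, ‖Y z‖ ^ 2 ∂mS)

/-- A3: Parseval on `[0,T) × sq` -/
def StA3 : Prop := ∀ T : ℝ, 0 < T → ∀ G : ℝ × ℂ → ℂ, MemLp G 2 (mO T) →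
  (∀ k, MemLp (fun t => cf (fun z => G (t, z)) k) 2 (mT T)) ∧
  HasSum (fun k => ∫ t, normSq (cf (fun z => G (t, z)) k) ∂(mT T)) (∫ q, ‖G q‖ ^ 2 ∂(mO T))

/-- A3p: polarised version -/
def StA3p : Prop := ∀ T : ℝ, 0 < T → ∀ G H : ℝ × ℂ → ℂ, MemLp G 2 (mO T) → MemLp H 2 (mO T) →
  HasSum (fun k => ∫ t, conj (cf (fun z => G (t, z)) k) * cf (fun z => H (t, z)) k ∂(mT T))
    (∫ q, conj (G q) * H q ∂(mO T))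

/-! ### Part A2: energy estimates for the scheme -/

/-- A4: elementary estimates, `c` fixed -/
def StA4 : Prop := ∀ (μ : E → ℂ) (θ : ℝ), Continuous μ → 0 ≤ θ → θ < 1 → (∀ z, ‖μ z‖ ≤ 2 * θ) →
  ∀ (N : ℕ) (c : ℤ × ℤ → ℂ),
    Continuous (tY μ N c) ∧ MemLp (tY μ N c) 2 mS ∧
    ∫ z, ‖tV N c z‖ ^ 2 ∂mS = Wn N c ∧ ∫ z, ‖tA N c z‖ ^ 2 ∂mS = Wn N c / 16 ∧
    ∫ z, ‖tB N c z‖ ^ 2 ∂mS = Wn N c / 16 ∧ ∫ z, ‖tC N c z‖ ^ 2 ∂mS = Wn N c / 16 ∧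
    (1 - θ) * Wn N c ≤ (∫ z, conj (tV N c z) * tY μ N c z ∂mS).re ∧
    ∫ z, ‖tY μ N c z‖ ^ 2 ∂mS ≤ 4 * Wn N c ∧
    ∫ z, (‖(tF N c z).1‖ ^ 2 + ‖(tF N c z).2‖ ^ 2) ∂mS = En N c / 2 ∧
    0 ≤ Df μ N c ∧ Df μ N c ≤ 4 * Wn N c

/-- A4b: the abstract lower bound -/
def StA4b : Prop := ∀ (X : Type) [MeasurableSpace X] (m : Measure X) (θ : ℝ) (μ v a b : X → ℂ),
  0 ≤ θ → (∀ x, ‖μ x‖ ≤ 2 * θ) → AEStronglyMeasurable μ m → MemLp v 2 m → MemLp a 2 m →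
  MemLp b 2 m → ∫ x, ‖a x‖ ^ 2 ∂m = (∫ x, ‖v x‖ ^ 2 ∂m) / 16 →
  ∫ x, ‖b x‖ ^ 2 ∂m = (∫ x, ‖v x‖ ^ 2 ∂m) / 16 →
  (1 - θ) * ∫ x, ‖v x‖ ^ 2 ∂m ≤
    (∫ x, conj (v x) * (v x + conj (μ x) * a x + μ x * b x) ∂m).re

/-- A5: one step of the scheme, exact identity and consequences. `Λ = 8π²N²`. -/
def StA5 : Prop := ∀ (μ : E → ℂ) (θ : ℝ), Continuous μ → 0 ≤ θ → θ < 1 → (∀ z, ‖μ z‖ ≤ 2 * θ) →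
  ∀ (N : ℕ) (h : ℝ) (c : ℤ × ℤ → ℂ),
    (En N (stp μ N h c) = En N c - 2 * h * (∫ z, conj (tV N c z) * tY μ N c z ∂mS).re
      + h ^ 2 * ∑ k ∈ Bx N, 4 * normSq (om k) * normSq (cf (tY μ N c) k)) ∧
    (∀ k ∈ Bx N, normSq (stp μ N h c k) = normSq (c k)
      + 2 * h * (conj (c k) * cf (tY μ N c) k).re + h ^ 2 * normSq (cf (tY μ N c) k)) ∧
    ∑ k ∈ Bx N, 4 * normSq (om k) * normSq (cf (tY μ N c) k)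
      ≤ 8 * Real.pi ^ 2 * N ^ 2 * (4 * Wn N c) ∧
    4 * Real.pi ^ 2 * En N c ≤ Wn N c ∧ Wn N c ≤ 8 * Real.pi ^ 2 * N ^ 2 * En N c

/-- A6: bounds along the trajectory -/
def StA6 : Prop := ∀ (μ : E → ℂ) (θ : ℝ), Continuous μ → 0 ≤ θ → θ < 1 → (∀ z, ‖μ z‖ ≤ 2 * θ) →
  ∀ (N : ℕ) (h : ℝ) (c0 : ℤ × ℤ → ℂ), 1 ≤ N → 0 < h →
    h * (32 * Real.pi ^ 2 * N ^ 2) ≤ 1 - θ →
    (∀ j, En N (trj μ N h c0 (j + 1)) ≤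
      En N (trj μ N h c0 j) - h * (1 - θ) * Wn N (trj μ N h c0 j)) ∧
    (∀ j, En N (trj μ N h c0 j) ≤ (1 - 4 * Real.pi ^ 2 * (1 - θ) * h) ^ j * En N c0) ∧
    0 ≤ 1 - 4 * Real.pi ^ 2 * (1 - θ) * h ∧
    (∀ J, ∑ j ∈ Finset.range J, h * Wn N (trj μ N h c0 j) ≤ En N c0 / (1 - θ))

/-- piecewise constant interpolation -/
def pc (μ : E → ℂ) (N : ℕ) (h : ℝ) (c0 : ℤ × ℤ → ℂ) (t : ℝ) : ℤ × ℤ → ℂ :=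
  trj μ N h c0 ⌊t / h⌋₊

/-- A7: the piecewise constant interpolation is an approximate solution -/
def StA7 : Prop := ∀ (μ : E → ℂ) (θ : ℝ), Continuous μ → 0 ≤ θ → θ < 1 → (∀ z, ‖μ z‖ ≤ 2 * θ) →
  ∀ (N N0 : ℕ) (c0 : ℤ × ℤ → ℂ), 1 ≤ N → N0 ≤ N → (∀ k, k ∉ Bx N0 → c0 k = 0) →
  ∀ T : ℝ, 0 < T → ∀ δ : ℝ, 0 < δ → ∃ J0 : ℕ, ∀ J : ℕ, J0 ≤ J → 1 ≤ J →
    Apx μ T (En N c0) (En N c0 / (1 - θ)) c0 N (pc μ N (T / J) c0)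
      (trj μ N (T / J) c0 J) δ

/-! ### Part A3: the limit -/

/-- L1: weak compactness in `L²` -/
def StL1 : Prop := ∀ T : ℝ, ∀ (us : ℕ → ℝ × ℂ → ℂ) (C : ℝ),
  (∀ i, MemLp (us i) 2 (mO T)) → (∀ i, ∫ q, ‖us i q‖ ^ 2 ∂(mO T) ≤ C) →
  ∃ σ : ℕ → ℕ, StrictMono σ ∧ ∃ u : ℝ × ℂ → ℂ, MemLp u 2 (mO T) ∧ WL T (fun i => us (σ i)) u

/-- L0: measurability and bounds of the space-time functions, stability under subsequences -/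
def StL0 : Prop := ∀ (μ : E → ℂ) (θ T E0 C : ℝ) (c0 : ℤ × ℤ → ℂ) (Ns : ℕ → ℕ)
    (cs : ℕ → ℝ → ℤ × ℤ → ℂ) (ds : ℕ → ℤ × ℤ → ℂ) (δs : ℕ → ℝ),
  ApS μ θ T E0 C c0 Ns cs ds δs →
  (∀ i, Measurable (sF (Ns i) (cs i)) ∧ MemLp (fun q => (sF (Ns i) (cs i) q).1) 2 (mO T) ∧
    MemLp (fun q => (sF (Ns i) (cs i) q).2) 2 (mO T) ∧
    MemLp (sA (Ns i) (cs i)) 2 (mO T) ∧ MemLp (sB (Ns i) (cs i)) 2 (mO T) ∧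
    MemLp (sV (Ns i) (cs i)) 2 (mO T) ∧ MemLp (sY μ (Ns i) (cs i)) 2 (mO T) ∧
    ∫ q, ‖sA (Ns i) (cs i) q‖ ^ 2 ∂(mO T) ≤ C ∧ ∫ q, ‖sB (Ns i) (cs i) q‖ ^ 2 ∂(mO T) ≤ C ∧
    ∫ q, ‖sV (Ns i) (cs i) q‖ ^ 2 ∂(mO T) ≤ C ∧ ∫ q, ‖sY μ (Ns i) (cs i) q‖ ^ 2 ∂(mO T) ≤ 4 * C) ∧
  (∀ σ : ℕ → ℕ, StrictMono σ → ApS μ θ T E0 C c0 (Ns ∘ σ) (cs ∘ σ) (ds ∘ σ) (δs ∘ σ))

/-- coefficients of the limit -/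
def cl (c0 : ℤ × ℤ → ℂ) (Y : ℝ × ℂ → ℂ) (t : ℝ) (k : ℤ × ℤ) : ℂ :=
  c0 k + ∫ s in Set.Ico 0 t, cf (fun z => Y (s, z)) k

/-- limit data along a sequence -/
structure Lim (μ : E → ℂ) (T : ℝ) (c0 : ℤ × ℤ → ℂ) (Ns : ℕ → ℕ)
    (cs : ℕ → ℝ → ℤ × ℤ → ℂ) (ds : ℕ → ℤ × ℤ → ℂ) (a b v Y : ℝ × ℂ → ℂ) : Prop where
  ma : MemLp a 2 (mO T)
  mb : MemLp b 2 (mO T)
  mv : MemLp v 2 (mO T)
  mY : MemLp Y 2 (mO T)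
  wa : WL T (fun i => sA (Ns i) (cs i)) a
  wb : WL T (fun i => sB (Ns i) (cs i)) b
  wv : WL T (fun i => sV (Ns i) (cs i)) v
  wY : WL T (fun i => sY μ (Ns i) (cs i)) Y
  pw : ∀ k t, 0 ≤ t → t < T → Tendsto (fun i => cs i t k) atTop (𝓝 (cl c0 Y t k))
  pd : ∀ k, Tendsto (fun i => ds i k) atTop (𝓝 (cl c0 Y T k))

/-- L2: extraction of the limit -/
def StL2 : Prop := ∀ (μ : E → ℂ) (θ T E0 C : ℝ) (c0 : ℤ × ℤ → ℂ) (Ns : ℕ → ℕ)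
    (cs : ℕ → ℝ → ℤ × ℤ → ℂ) (ds : ℕ → ℤ × ℤ → ℂ) (δs : ℕ → ℝ),
  ApS μ θ T E0 C c0 Ns cs ds δs →
  ∃ σ : ℕ → ℕ, StrictMono σ ∧ ∃ a b v Y : ℝ × ℂ → ℂ,
    Lim μ T c0 (Ns ∘ σ) (cs ∘ σ) (ds ∘ σ) a b v Y

/-- L3: Fourier coefficients of the limit functions -/
def StL3 : Prop := ∀ (μ : E → ℂ) (θ T E0 C : ℝ) (c0 : ℤ × ℤ → ℂ) (Ns : ℕ → ℕ)
    (cs : ℕ → ℝ → ℤ × ℤ → ℂ) (ds : ℕ → ℤ × ℤ → ℂ) (δs : ℕ → ℝ) (a b v Y : ℝ × ℂ → ℂ),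
  ApS μ θ T E0 C c0 Ns cs ds δs → Lim μ T c0 Ns cs ds a b v Y → ∀ k : ℤ × ℤ,
    (∀ᵐ t ∂(mT T), cf (fun z => a (t, z)) k = mA k * cl c0 Y t k) ∧
    (∀ᵐ t ∂(mT T), cf (fun z => b (t, z)) k = mB k * cl c0 Y t k) ∧
    (∀ᵐ t ∂(mT T), cf (fun z => v (t, z)) k = 4 * mC k * cl c0 Y t k)

/-- L4: strong convergence of the first derivatives -/
def StL4 : Prop := ∀ (μ : E → ℂ) (θ T E0 C : ℝ) (c0 : ℤ × ℤ → ℂ) (Ns : ℕ → ℕ)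
    (cs : ℕ → ℝ → ℤ × ℤ → ℂ) (ds : ℕ → ℤ × ℤ → ℂ) (δs : ℕ → ℝ) (a b v Y : ℝ × ℂ → ℂ),
  ApS μ θ T E0 C c0 Ns cs ds δs → Lim μ T c0 Ns cs ds a b v Y →
  ∃ F : ℝ × ℂ → E, Measurable F ∧
    SL T (fun i q => (sF (Ns i) (cs i) q).1) (fun q => (F q).1) ∧
    SL T (fun i q => (sF (Ns i) (cs i) q).2) (fun q => (F q).2) ∧
    MemLp (fun q => (F q).1) 2 (mO T) ∧ MemLp (fun q => (F q).2) 2 (mO T)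

/-- L5: continuity of the Nemytskii operator, after passing to a subsequence -/
def StL5 : Prop := ∀ (μ : E → ℂ) (θ T : ℝ) (Fs : ℕ → ℝ × ℂ → E) (F : ℝ × ℂ → E),
  Continuous μ → (∀ z, ‖μ z‖ ≤ 2 * θ) → (∀ i, Measurable (Fs i)) → Measurable F →
  (∀ i, MemLp (fun q => (Fs i q).1) 2 (mO T)) → (∀ i, MemLp (fun q => (Fs i q).2) 2 (mO T)) →
  MemLp (fun q => (F q).1) 2 (mO T) → MemLp (fun q => (F q).2) 2 (mO T) →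
  SL T (fun i q => (Fs i q).1) (fun q => (F q).1) →
  SL T (fun i q => (Fs i q).2) (fun q => (F q).2) →
  ∃ σ : ℕ → ℕ, StrictMono σ ∧ ∀ G : ℝ × ℂ → ℂ, MemLp G 2 (mO T) →
    SL T (fun i q => μ (Fs (σ i) q) * G q) (fun q => μ (F q) * G q) ∧
    SL T (fun i q => conj (μ (Fs (σ i) q)) * G q) (fun q => conj (μ (F q)) * G q)

/-- L6: (bounded weak) × (strong) -/
def StL6 : Prop := ∀ (T : ℝ) (us vs : ℕ → ℝ × ℂ → ℂ) (u v : ℝ × ℂ → ℂ) (C : ℝ),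
  (∀ i, MemLp (us i) 2 (mO T)) → (∀ i, MemLp (vs i) 2 (mO T)) → MemLp u 2 (mO T) →
  MemLp v 2 (mO T) → (∀ i, ∫ q, ‖vs i q‖ ^ 2 ∂(mO T) ≤ C) → SL T us u → WL T vs v →
  Tendsto (fun i => ∫ q, conj (us i q) * vs i q ∂(mO T)) atTop
    (𝓝 (∫ q, conj (u q) * v q ∂(mO T)))

/-- L7: the limit equation. `NL` abbreviates the conclusion of L5 along the whole sequence. -/
def NL (μ : E → ℂ) (T : ℝ) (Fs : ℕ → ℝ × ℂ → E) (F : ℝ × ℂ → E) : Prop :=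
  ∀ G : ℝ × ℂ → ℂ, MemLp G 2 (mO T) →
    SL T (fun i q => μ (Fs i q) * G q) (fun q => μ (F q) * G q) ∧
    SL T (fun i q => conj (μ (Fs i q)) * G q) (fun q => conj (μ (F q)) * G q)

def StL7 : Prop := ∀ (μ : E → ℂ) (θ T E0 C : ℝ) (c0 : ℤ × ℤ → ℂ) (Ns : ℕ → ℕ)
    (cs : ℕ → ℝ → ℤ × ℤ → ℂ) (ds : ℕ → ℤ × ℤ → ℂ) (δs : ℕ → ℝ) (a b v Y : ℝ × ℂ → ℂ)
    (F : ℝ × ℂ → E),
  ApS μ θ T E0 C c0 Ns cs ds δs → Lim μ T c0 Ns cs ds a b v Y → Measurable F →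
  NL μ T (fun i => sF (Ns i) (cs i)) F →
  ∀ G : ℝ × ℂ → ℂ, MemLp G 2 (mO T) →
    ∫ q, conj (G q) * Y q ∂(mO T)
      = ∫ q, conj (G q) * (v q + conj (μ (F q)) * a q + μ (F q) * b q) ∂(mO T)

/-- L8: energy identity of the limit and semicontinuity -/
def StL8 : Prop := ∀ (μ : E → ℂ) (θ T E0 C : ℝ) (c0 : ℤ × ℤ → ℂ) (Ns : ℕ → ℕ)
    (cs : ℕ → ℝ → ℤ × ℤ → ℂ) (ds : ℕ → ℤ × ℤ → ℂ) (δs : ℕ → ℝ) (a b v Y : ℝ × ℂ → ℂ),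
  ApS μ θ T E0 C c0 Ns cs ds δs → Lim μ T c0 Ns cs ds a b v Y →
  ∀ ε : ℝ, 0 < ε → ∀ᶠ i in atTop,
    (∫ q, conj (sV (Ns i) (cs i) q) * sY μ (Ns i) (cs i) q ∂(mO T)).re
      ≤ (∫ q, conj (v q) * Y q ∂(mO T)).re + ε

/-- L9: strong convergence of the second derivatives -/
def StL9 : Prop := ∀ (μ : E → ℂ) (θ T E0 C : ℝ) (c0 : ℤ × ℤ → ℂ) (Ns : ℕ → ℕ)
    (cs : ℕ → ℝ → ℤ × ℤ → ℂ) (ds : ℕ → ℤ × ℤ → ℂ) (δs : ℕ → ℝ) (a b v Y : ℝ × ℂ → ℂ)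
    (F : ℝ × ℂ → E),
  ApS μ θ T E0 C c0 Ns cs ds δs → Lim μ T c0 Ns cs ds a b v Y → Measurable F →
  NL μ T (fun i => sF (Ns i) (cs i)) F →
  SL T (fun i => sV (Ns i) (cs i)) v ∧ SL T (fun i => sA (Ns i) (cs i)) a ∧
  SL T (fun i => sB (Ns i) (cs i)) b

/-- L10: the projection defect tends to zero -/
def StL10 : Prop := ∀ (μ : E → ℂ) (θ T E0 C : ℝ) (c0 : ℤ × ℤ → ℂ) (Ns : ℕ → ℕ)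
    (cs : ℕ → ℝ → ℤ × ℤ → ℂ) (ds : ℕ → ℤ × ℤ → ℂ) (δs : ℕ → ℝ) (a b v Y : ℝ × ℂ → ℂ)
    (F : ℝ × ℂ → E),
  ApS μ θ T E0 C c0 Ns cs ds δs → Lim μ T c0 Ns cs ds a b v Y → Measurable F →
  NL μ T (fun i => sF (Ns i) (cs i)) F →
  SL T (fun i => sV (Ns i) (cs i)) v → SL T (fun i => sA (Ns i) (cs i)) a →
  SL T (fun i => sB (Ns i) (cs i)) b →
  Tendsto (fun i => ∫ t, Df μ (Ns i) (cs i t) ∂(mT T)) atTop (𝓝 0)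

/-- LF: summary of part A3 -/
def StLF : Prop := ∀ (μ : E → ℂ) (θ T E0 C : ℝ) (c0 : ℤ × ℤ → ℂ) (Ns : ℕ → ℕ)
    (cs : ℕ → ℝ → ℤ × ℤ → ℂ) (ds : ℕ → ℤ × ℤ → ℂ) (δs : ℕ → ℝ),
  ApS μ θ T E0 C c0 Ns cs ds δs →
  ∃ σ : ℕ → ℕ, StrictMono σ ∧
    Tendsto (fun i => ∫ t, Df μ (Ns (σ i)) (cs (σ i) t) ∂(mT T)) atTop (𝓝 0)

/-! ### Part B: dissipation -/

/-- B1: integration by parts -/
def StB1 : Prop := ∀ (G : E → (E →L[ℝ] ℝ)), ContDiff ℝ 1 G → ∀ (N : ℕ) (c d : ℤ × ℤ → ℂ),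
  ∫ z, G (tF N c z) (tF N d z) ∂mS
    = -∫ z, (fderiv ℝ G (tF N c z) (tX1 N c z) (lx (tp (Bx N) d z))
        + fderiv ℝ G (tF N c z) (tX2 N c z) (ly (tp (Bx N) d z))) ∂mS

/-- B2: the null Lagrangian -/
def StB2 : Prop := ∀ (η : E → (E →L[ℝ] ℝ)), ContDiff ℝ 1 η → ∀ (N : ℕ) (c : ℤ × ℤ → ℂ),
  ∫ z, (fderiv ℝ η (tF N c z) (tX1 N c z) (tX2 N c z)
    - fderiv ℝ η (tF N c z) (tX2 N c z) (tX1 N c z)) ∂mS = 0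

/-- B3: one step -/
def StB3 : Prop := ∀ (U : E → ℝ) (G η : E → (E →L[ℝ] ℝ)) (μ : E → ℂ) (θ : ℝ) (K : ℝ≥0),
  0 ≤ θ → θ < 1 → SmN U G η μ θ K → ∀ (N : ℕ) (h : ℝ) (c : ℤ × ℤ → ℂ), 0 < h →
    ∫ z, U (tF N (stp μ N h c) z) ∂mS ≤ (∫ z, U (tF N c z) ∂mS)
      + h * (4 * K * Real.sqrt (Wn N c) * Real.sqrt (Df μ N c))
      + h ^ 2 * (K * (8 * Real.pi ^ 2 * N ^ 2) * (4 * Wn N c))

/-- B4: along the trajectory -/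
def StB4 : Prop := ∀ (U : E → ℝ) (G η : E → (E →L[ℝ] ℝ)) (μ : E → ℂ) (θ : ℝ) (K : ℝ≥0),
  0 ≤ θ → θ < 1 → SmN U G η μ θ K → ∀ (N J : ℕ) (T : ℝ) (c0 : ℤ × ℤ → ℂ), 0 < T → 1 ≤ J → 1 ≤ N →
    T / J * (32 * Real.pi ^ 2 * N ^ 2) ≤ 1 - θ →
    ∫ z, U (tF N (trj μ N (T / J) c0 J) z) ∂mS ≤ (∫ z, U (tF N c0 z) ∂mS)
      + 4 * K * Real.sqrt (En N c0 / (1 - θ)) *
          Real.sqrt (∫ t, Df μ N (pc μ N (T / J) c0 t) ∂(mT T))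
      + T / J * (K * (32 * Real.pi ^ 2 * N ^ 2) * (En N c0 / (1 - θ)))

/-- B5: the flow theorem for trigonometric polynomials -/
def StB5 : Prop := ∀ (U : E → ℝ) (G η : E → (E →L[ℝ] ℝ)) (μ : E → ℂ) (θ : ℝ) (K : ℝ≥0),
  0 ≤ θ → θ < 1 → SmN U G η μ θ K → ∀ (N : ℕ) (c : ℤ × ℤ → ℂ), 0 ≤ ∫ z, U (tF N c z) ∂mS

/-- B6a: Fourier approximation of a function with compact support in the open unit square -/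
def StB6a : Prop := ∀ φ : ℂ → ℂ, ContDiff ℝ 1 φ →
  (∀ z, φ z ≠ 0 → 0 < z.re ∧ z.re < 1 ∧ 0 < z.im ∧ z.im < 1) → HasCompactSupport φ →
  (∀ z, (z.re ≤ 0 ∨ 1 ≤ z.re ∨ z.im ≤ 0 ∨ 1 ≤ z.im) → fderiv ℝ φ z = 0) →
  Tendsto (fun N : ℕ => ∫ z, (‖(tF N (cf φ) z).1 - dzb φ z‖ ^ 2
    + ‖(tF N (cf φ) z).2 - dz φ z‖ ^ 2) ∂mS) atTop (𝓝 0)

/-- B6: the flow theorem, smooth data, functions with compact support -/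
def StB6 : Prop := ∀ (U : E → ℝ) (G η : E → (E →L[ℝ] ℝ)) (μ : E → ℂ) (θ : ℝ) (K : ℝ≥0),
  0 ≤ θ → θ < 1 → SmN U G η μ θ K → ∀ φ : ℂ → ℂ, ContDiff ℝ 1 φ → HasCompactSupport φ →
    0 ≤ ∫ z, U (dzb φ z, dz φ z)

/-- B7: mollification. From `AdN` to a sequence of smooth data. -/
def StB7 : Prop := ∀ (U : E → ℝ) (G η : E → (E →L[ℝ] ℝ)) (μ : E → ℂ) (θ : ℝ) (K : ℝ≥0) (e₀ : ℝ),
  0 < e₀ → AdN U G η μ θ K e₀ →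
  ∃ (Us : ℕ → E → ℝ) (Gs ηs : ℕ → E → (E →L[ℝ] ℝ)) (μs : ℕ → E → ℂ),
    (∀ᶠ n in atTop, SmN (Us n) (Gs n) (ηs n) (μs n) θ K) ∧
    (∀ z, Tendsto (fun n => Us n z) atTop (𝓝 (U z))) ∧
    (∀ n z, |Us n z| ≤ K * ‖z‖ ^ 2)

/-- B8: the flow theorem -/
def StB8 : Prop := ∀ (U : E → ℝ) (G η : E → (E →L[ℝ] ℝ)) (μ : E → ℂ) (θ : ℝ) (K : ℝ≥0) (e₀ : ℝ),
  0 ≤ θ → θ < 1 → 0 < e₀ → AdN U G η μ θ K e₀ →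
  ∀ φ : ℂ → ℂ, ContDiff ℝ 1 φ → HasCompactSupport φ →
    0 ≤ ∫ z, U (dzb φ z, dz φ z)

end Helper87.NF
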