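import Pool.Agent.Helper87.NF.DefsC

/-!
# Statements of the modules, part C (certificates)
-/

set_option autoImplicit false
set_option maxSynthPendingDepth 3

open MeasureTheory Complex Filter Topology
open scoped ENNReal NNReal ComplexConjugate

noncomputable section

namespace Helper87.NF

open Helper85.IW

/-! ### C1: general facts about functions of the two moduli -/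

/-- P1: the derivatives of `Gof`, `Eof` and the polar form of the quadratic form -/
def StP1 : Prop := ∀ (p1 p2 M N : ℝ × ℝ → ℝ) (z : E), z.1 ≠ 0 → z.2 ≠ 0 →
  ∀ urr urs uss Mr Ms Nr Ns ν : ℝ,
  HasFDerivAt p1 (lin2 urr urs) (‖z.1‖, ‖z.2‖) → HasFDerivAt p2 (lin2 urs uss) (‖z.1‖, ‖z.2‖) →
  HasFDerivAt M (lin2 Mr Ms) (‖z.1‖, ‖z.2‖) → HasFDerivAt N (lin2 Nr Ns) (‖z.1‖, ‖z.2‖) →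
  DifferentiableAt ℝ (Gof p1 p2) z ∧ DifferentiableAt ℝ (Eof M N) z ∧
  ∀ X Y, CR X Y → ∃ x ξ ψ x' ξ' ψ' : ℝ,
    ‖X‖ ^ 2 + ‖Y‖ ^ 2 ≤ 4 * (x ^ 2 + ξ ^ 2 + ψ ^ 2 + x' ^ 2 + ξ' ^ 2 + ψ' ^ 2) ∧
    PQ ((ν : ℂ) * (z.1 / (‖z.1‖ : ℂ)) * (conj z.2 / (‖z.2‖ : ℂ)))
        (fderiv ℝ (Gof p1 p2) z) (fderiv ℝ (Eof M N) z) X Y
      = FP ν urr urs uss (p1 (‖z.1‖, ‖z.2‖) / ‖z.1‖) (p2 (‖z.1‖, ‖z.2‖) / ‖z.2‖)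
          (Mr / ‖z.1‖) (Ms / ‖z.1‖) (Nr / ‖z.2‖) (Ns / ‖z.2‖) x ξ ψ
        + FM ν urr urs uss (p1 (‖z.1‖, ‖z.2‖) / ‖z.1‖) (p2 (‖z.1‖, ‖z.2‖) / ‖z.2‖)
          (Mr / ‖z.1‖) (Ms / ‖z.1‖) (Nr / ‖z.2‖) (Ns / ‖z.2‖) x' ξ' ψ'

/-- P2: Lipschitz functions of the moduli times the unit vector -/
def StP2 : Prop := ∀ (w : ℝ × ℝ → ℝ) (S : Set E) (K : ℝ≥0),
  (∀ z ∈ S, ∀ z' ∈ S, |w (‖z.1‖, ‖z.2‖) - w (‖z'.1‖, ‖z'.2‖)| ≤ K * ‖z - z'‖) →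
  ((∀ s, 0 ≤ s → w (0, s) = 0) → (∀ z ∈ S, ((0 : ℂ), z.2) ∈ S) →
    LipschitzOnWith (4 * K) (fun z : E => (w (‖z.1‖, ‖z.2‖) / ‖z.1‖) • z.1) S) ∧
  ((∀ r, 0 ≤ r → w (r, 0) = 0) → (∀ z ∈ S, (z.1, (0 : ℂ)) ∈ S) →
    LipschitzOnWith (4 * K) (fun z : E => (w (‖z.1‖, ‖z.2‖) / ‖z.2‖) • z.2) S)

/-- P3: `Gof` is Lipschitz -/
def StP3 : Prop := ∀ (p1 p2 : ℝ × ℝ → ℝ) (K : ℝ),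
  (∀ x ∈ qd, ∀ y ∈ qd, |p1 x - p1 y| ≤ K * ‖x - y‖) →
  (∀ x ∈ qd, ∀ y ∈ qd, |p2 x - p2 y| ≤ K * ‖x - y‖) →
  (∀ s, 0 ≤ s → p1 (0, s) = 0) → (∀ r, 0 ≤ r → p2 (r, 0) = 0) →
  ∃ K' : ℝ≥0, LipschitzWith K' (Gof p1 p2)

/-- P4: `Eof` is locally Lipschitz -/
def StP4 : Prop := ∀ (M N : ℝ × ℝ → ℝ),
  (∀ R : ℝ, ∃ K : ℝ, ∀ x ∈ qd, ∀ y ∈ qd, ‖x‖ ≤ R → ‖y‖ ≤ R →
    |M x / x.1 - M y / y.1| ≤ K * ‖x - y‖) →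
  (∀ R : ℝ, ∃ K : ℝ, ∀ x ∈ qd, ∀ y ∈ qd, ‖x‖ ≤ R → ‖y‖ ≤ R →
    |N x / x.2 - N y / y.2| ≤ K * ‖x - y‖) →
  ∀ R : ℝ, ∃ K' : ℝ≥0, LipschitzOnWith K' (Eof M N) (Metric.closedBall 0 R)

/-- P5: uniform continuity of `Nof (nuf ..)` -/
def StP5 : Prop := ∀ d1 τ τ' σ : ℝ, 0 < d1 → d1 < 2 → 0 < τ → 0 < τ' → 0 < σ →
  UniformContinuous (Nof (nuf d1 τ τ' σ)) ∧ (∀ z, ‖Nof (nuf d1 τ τ' σ) z‖ ≤ 2 * (1 - d1 / 2)) ∧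
  (∀ r s, 0 < r → 0 < s → 0 ≤ nuf d1 τ τ' σ (r, s) ∧ nuf d1 τ τ' σ (r, s) ≤ 2 - d1)

/-- P6: assembly -/
def StP6 : Prop := ∀ (U p1 p2 M N ν : ℝ × ℝ → ℝ) (θ τ K e₁ : ℝ), 0 < e₁ → 0 < τ →
  (∀ x ∈ qd, HasFDerivWithinAt U (lin2 (p1 x) (p2 x)) qd x) → U (0, 0) = 0 →
  (∀ x ∈ qd, ∀ y ∈ qd, |p1 x - p1 y| ≤ K * ‖x - y‖) →
  (∀ x ∈ qd, ∀ y ∈ qd, |p2 x - p2 y| ≤ K * ‖x - y‖) →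
  (∀ s, 0 ≤ s → p1 (0, s) = 0) → (∀ r, 0 ≤ r → p2 (r, 0) = 0) →
  (∀ R : ℝ, ∃ K : ℝ, ∀ x ∈ qd, ∀ y ∈ qd, ‖x‖ ≤ R → ‖y‖ ≤ R →
    |M x / x.1 - M y / y.1| ≤ K * ‖x - y‖) →
  (∀ R : ℝ, ∃ K : ℝ, ∀ x ∈ qd, ∀ y ∈ qd, ‖x‖ ≤ R → ‖y‖ ≤ R →
    |N x / x.2 - N y / y.2| ≤ K * ‖x - y‖) →
  UniformContinuous (Nof ν) → (∀ z, ‖Nof ν z‖ ≤ 2 * θ) →
  (∀ r s : ℝ, 0 < r → 0 < s → r ≠ s → r ≠ τ * s → s ≠ τ * r →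
    ∃ urr urs uss Mr Ms Nr Ns : ℝ,
      HasFDerivAt p1 (lin2 urr urs) (r, s) ∧ HasFDerivAt p2 (lin2 urs uss) (r, s) ∧
      HasFDerivAt M (lin2 Mr Ms) (r, s) ∧ HasFDerivAt N (lin2 Nr Ns) (r, s) ∧
      ∀ x ξ ψ : ℝ,
        e₁ * (x ^ 2 + ξ ^ 2 + ψ ^ 2) ≤ FP (ν (r, s)) urr urs uss (p1 (r, s) / r) (p2 (r, s) / s)
          (Mr / r) (Ms / r) (Nr / s) (Ns / s) x ξ ψ ∧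
        e₁ * (x ^ 2 + ξ ^ 2 + ψ ^ 2) ≤ FM (ν (r, s)) urr urs uss (p1 (r, s) / r) (p2 (r, s) / s)
          (Mr / r) (Ms / r) (Nr / s) (Ns / s) x ξ ψ) →
  ∃ K' : ℝ≥0, AdN (fun z => U (‖z.1‖, ‖z.2‖)) (Gof p1 p2) (Eof M N) (Nof ν) θ K' (e₁ / 4)

/-! ### C2: algebra -/

/-- UA: upper region -/
def StUA : Prop := ∀ ε δ d1 b g n1 n2 B x ξ ψ : ℝ, 0 < ε → 0 < d1 → d1 ≤ δ → δ ≤ 2 → 0 ≤ b → 0 ≤ g →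
  δ * g ≤ ε / 8 → d1 * b ≤ ε / 8 → |n1| ≤ ε * d1 / 32 → |n2| ≤ ε * d1 / 32 →
  ε * d1 / 8 * (x ^ 2 + ξ ^ 2 + ψ ^ 2) ≤ FP (2 - δ) (B + 2 * g + 2 * ε) (2 * g) (-B + 2 * g)
    (B + 2 * ε) (-B + b) (-2 * ε) 0 (b - (δ - d1) * b / 2 + n1) (b + n2 + 2 * ε) x ξ ψ ∧
  ε * d1 / 8 * (x ^ 2 + ξ ^ 2 + ψ ^ 2) ≤ FM (2 - δ) (B + 2 * g + 2 * ε) (2 * g) (-B + 2 * g)
    (B + 2 * ε) (-B + b) (-2 * ε) 0 (b - (δ - d1) * b / 2 + n1) (b + n2 + 2 * ε) x ξ ψ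

/-- VA: V-type lower region -/
def StVA : Prop := ∀ ε d1 t Q Pr Δ Bs A1 Q1 K : ℝ, 0 < ε → ε ≤ 1 → 0 < d1 → 0 < t → t < 1 → 0 < Q →
  1 ≤ K → Q ≤ K → Pr ≤ K → Δ ≤ K → d1 * (1000 * K ^ 2) ≤ ε ^ 2 →
  Helper85.IE.VBox t (1 - t) (Δ / Q) (Pr / Q) (A1 / Q - 1) (Q1 / Q) → ∀ x ξ ψ : ℝ,
  ε * d1 / 16 * (x ^ 2 + ξ ^ 2 + ψ ^ 2) ≤ FP ((2 - d1) * t) (Bs + Δ + Pr + 2 * ε) 0 (-Bs + Q)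
    (Bs + Δ + 2 * ε) (-Bs + A1) (-Pr - 2 * ε) (t * Q) (t ^ 2 * (A1 - Q))
    (2 * A1 + (1 - 2 * t) * (A1 - Q) + (1 - t) * (Q - Q1) + 2 * ε) x ξ ψ ∧
  ε * d1 / 16 * (x ^ 2 + ξ ^ 2 + ψ ^ 2) ≤ FM ((2 - d1) * t) (Bs + Δ + Pr + 2 * ε) 0 (-Bs + Q)
    (Bs + Δ + 2 * ε) (-Bs + A1) (-Pr - 2 * ε) (t * Q) (t ^ 2 * (A1 - Q))
    (2 * A1 + (1 - 2 * t) * (A1 - Q) + (1 - t) * (Q - Q1) + 2 * ε) x ξ ψ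

/-- HA1: H-type lower region, bulk (`δ = d1`) -/
def StHA1 : Prop := ∀ ε d1 a b c g B K : ℝ, 0 < ε → ε ≤ 1 → 0 < d1 → 1 ≤ K →
  0 ≤ a → 0 ≤ b → 0 ≤ c → 0 ≤ g → a ≤ K → b ≤ K → c ≤ K → g ≤ K → d1 * (1000 * K ^ 2) ≤ ε ^ 2 →
  ∀ x ξ ψ : ℝ,
  ε * d1 / 16 * (x ^ 2 + ξ ^ 2 + ψ ^ 2) ≤ FP (2 - d1) (B + 2 * g + c + 2 * ε) (2 * g - c)
    (-B + 2 * g + c) (B + a + 2 * ε) (-B + b) (-a - 2 * c - 2 * ε) (2 * c - a) (b - 2 * c)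
    (b + 2 * c + 2 * ε) x ξ ψ ∧
  ε * d1 / 16 * (x ^ 2 + ξ ^ 2 + ψ ^ 2) ≤ FM (2 - d1) (B + 2 * g + c + 2 * ε) (2 * g - c)
    (-B + 2 * g + c) (B + a + 2 * ε) (-B + b) (-a - 2 * c - 2 * ε) (2 * c - a) (b - 2 * c)
    (b + 2 * c + 2 * ε) x ξ ψ

/-- HA2: H-type lower region, layer near `s = 0` -/
def StHA2 : Prop := ∀ ε d1 δ e a b c g n1 n2 B K : ℝ, 0 < ε → ε ≤ 1 → 0 < d1 → d1 ≤ δ → δ ≤ 2 →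
  1 ≤ K → 0 ≤ a → 0 ≤ b → 0 ≤ c → 0 ≤ g → a ≤ K → b ≤ K → c ≤ K → g ≤ K →
  d1 * (1000 * K ^ 2) ≤ ε ^ 2 → 0 ≤ e → 1000 * e ≤ ε * d1 → |b - 2 * c| ≤ e → |4 * g - 2 * c| ≤ e →
  |n1| ≤ e → |n2| ≤ e → ∀ x ξ ψ : ℝ,
  ε * d1 / 16 * (x ^ 2 + ξ ^ 2 + ψ ^ 2) ≤ FP (2 - δ) (B + 2 * g + c + 2 * ε) (2 * g - c)
    (-B + 2 * g + c) (B + a + 2 * ε) (-B + b) (-a - 2 * c - 2 * ε + n2)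
    (2 * c - a + (δ - d1) / 2 * (a - 2 * c) + n1) (b - 2 * c)
    (b + 2 * c + 2 * ε) x ξ ψ ∧
  ε * d1 / 16 * (x ^ 2 + ξ ^ 2 + ψ ^ 2) ≤ FM (2 - δ) (B + 2 * g + c + 2 * ε) (2 * g - c)
    (-B + 2 * g + c) (B + a + 2 * ε) (-B + b) (-a - 2 * c - 2 * ε + n2)
    (2 * c - a + (δ - d1) / 2 * (a - 2 * c) + n1) (b - 2 * c)
    (b + 2 * c + 2 * ε) x ξ ψ

/-- ZA: near zero, everything except the `ε`-term is small -/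
def StZA : Prop := ∀ ε δ d1 e urr urs uss a0 b0 m11 m12 m21 m22 : ℝ, 0 < ε → 0 < d1 → d1 ≤ δ →
  δ ≤ 2 → 0 ≤ e → 1000 * e ≤ ε * d1 → |urr| ≤ e → |urs| ≤ e → |uss| ≤ e → |a0| ≤ e → |b0| ≤ e →
  |m11| ≤ e → |m12| ≤ e → |m21| ≤ e → |m22| ≤ e → ∀ x ξ ψ : ℝ,
  ε * d1 / 8 * (x ^ 2 + ξ ^ 2 + ψ ^ 2) ≤ FP (2 - δ) (urr + 2 * ε) urs uss (a0 + 2 * ε) b0
    (m11 - 2 * ε) m12 m21 (m22 + 2 * ε) x ξ ψ ∧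
  ε * d1 / 8 * (x ^ 2 + ξ ^ 2 + ψ ^ 2) ≤ FM (2 - δ) (urr + 2 * ε) urs uss (a0 + 2 * ε) b0
    (m11 - 2 * ε) m12 m21 (m22 + 2 * ε) x ξ ψ

/-! ### C3: weights -/

/-- W1: calculus of the primitives -/
def StW1 : Prop := ∀ (P P' : ℝ → ℝ) (q κ K : ℝ), Wt P P' q κ K →
  (∀ y, HasDerivAt (Aw P) (P y) y) ∧ (∀ y, HasDerivAt (Cw P) (Aw P y) y) ∧
  (∀ y, HasDerivAt (Mw P) (y * P y) y) ∧ (∀ y, 0 < y → HasDerivAt (Bw P) (P y / y) y) ∧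
  Continuous (Bw P) ∧
  (∀ y, y ≤ 0 → Aw P y = 0 ∧ Bw P y = 0 ∧ Mw P y = 0 ∧ Cw P y = 0)

/-- W2: bounds -/
def StW2 : Prop := ∀ (P P' : ℝ → ℝ) (q κ K : ℝ), Wt P P' q κ K →
  (∀ y, 0 ≤ Aw P y ∧ 0 ≤ Bw P y ∧ 0 ≤ Mw P y ∧ 0 ≤ Cw P y ∧ 0 ≤ P y ∧ Bw P y ≤ K) ∧
  (∀ y, 0 ≤ y → Aw P y ≤ K * y ∧ Mw P y ≤ K * y ^ 2 ∧ Cw P y ≤ K * y ^ 2) ∧
  (∀ y, 0 < y → y * P y ≤ (1 + q) * Aw P y ∧ (1 - κ) * Aw P y ≤ y * P y ∧ P y ≤ q * Bw P y) ∧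
  (∀ e : ℝ, 0 < e → ∃ ρ : ℝ, 0 < ρ ∧ ∀ y, y ≤ ρ → P y ≤ e ∧ Bw P y ≤ e ∧ Aw P y ≤ e * max y 0)

/-- W3: comparisons used for the V-type (from `Helper85.IE.Wt.vbox`) -/
def StW3 : Prop := ∀ (P P' : ℝ → ℝ) (q κ K : ℝ), Wt P P' q κ K → q ≤ 1 →
  ∀ r s : ℝ, 0 < s → s < r →
    Helper85.IE.VBox (s / r) (1 - s / r) ((Bw P r - Bw P s) / P s) (P r / P s)
      (2 * Aw P s / s / P s - 1) (s * P' s / P s)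

/-- W4: Lipschitz bound of `P` away from zero -/
def StW4 : Prop := ∀ (P P' : ℝ → ℝ) (q κ K : ℝ), Wt P P' q κ K →
  ∀ x y : ℝ, 0 < x → x ≤ y → |P y - P x| ≤ (q + 1) * K * ((y - x) / x)

/-! ### C4: the functions of the certificates -/

/-- UV1: first derivative, V-type -/
def StUV1 : Prop := ∀ (P P' : ℝ → ℝ) (q κ K : ℝ), Wt P P' q κ K → ∀ ε : ℝ,
  (∀ x ∈ qd, HasFDerivWithinAt (UV P ε) (lin2 (p1V P ε x) (p2V P x)) qd x) ∧ UV P ε (0, 0) = 0 ∧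
  (∀ s, 0 ≤ s → p1V P ε (0, s) = 0) ∧ (∀ r, 0 ≤ r → p2V P (r, 0) = 0)

/-- UH1: first derivative, H-type -/
def StUH1 : Prop := ∀ (P P' : ℝ → ℝ) (q κ K : ℝ), Wt P P' q κ K → ∀ ε : ℝ,
  (∀ x ∈ qd, HasFDerivWithinAt (UH P ε) (lin2 (p1H P ε x) (p2H P x)) qd x) ∧ UH P ε (0, 0) = 0 ∧
  (∀ s, 0 ≤ s → p1H P ε (0, s) = 0) ∧ (∀ r, 0 ≤ r → p2H P (r, 0) = 0)

/-- UV2: Lipschitz bounds of `p1V`, `p2V` -/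
def StUV2 : Prop := ∀ (P P' : ℝ → ℝ) (q κ K : ℝ), Wt P P' q κ K → ∀ ε : ℝ, 0 < ε →
  ∃ K' : ℝ, (∀ x ∈ qd, ∀ y ∈ qd, |p1V P ε x - p1V P ε y| ≤ K' * ‖x - y‖) ∧
    (∀ x ∈ qd, ∀ y ∈ qd, |p2V P x - p2V P y| ≤ K' * ‖x - y‖)

/-- UH2: Lipschitz bounds of `p1H`, `p2H` -/
def StUH2 : Prop := ∀ (P P' : ℝ → ℝ) (q κ K : ℝ), Wt P P' q κ K → ∀ ε : ℝ, 0 < ε →
  ∃ K' : ℝ, (∀ x ∈ qd, ∀ y ∈ qd, |p1H P ε x - p1H P ε y| ≤ K' * ‖x - y‖) ∧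
    (∀ x ∈ qd, ∀ y ∈ qd, |p2H P x - p2H P y| ≤ K' * ‖x - y‖)

/-- EV: local Lipschitz bounds of `MV/r`, `NV/s` -/
def StEV : Prop := ∀ (P P' : ℝ → ℝ) (q κ K : ℝ), Wt P P' q κ K → q ≤ 1 →
  ∀ ε d1 τ : ℝ, 0 < ε → 0 < d1 → d1 < 1 → 0 < τ → τ < 1 →
  (∀ R : ℝ, ∃ K : ℝ, ∀ x ∈ qd, ∀ y ∈ qd, ‖x‖ ≤ R → ‖y‖ ≤ R →
    |MV P ε x / x.1 - MV P ε y / y.1| ≤ K * ‖x - y‖) ∧
  (∀ R : ℝ, ∃ K : ℝ, ∀ x ∈ qd, ∀ y ∈ qd, ‖x‖ ≤ R → ‖y‖ ≤ R →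
    |NV P ε d1 τ x / x.2 - NV P ε d1 τ y / y.2| ≤ K * ‖x - y‖)

/-- EH: local Lipschitz bounds of `MH/r`, `NH/s` -/
def StEH : Prop := ∀ (P P' : ℝ → ℝ) (q κ K : ℝ), Wt P P' q κ K →
  ∀ ε d1 τ : ℝ, 0 < ε → 0 < d1 → d1 < 1 → 0 < τ → τ < 1 →
  (∀ R : ℝ, ∃ K : ℝ, ∀ x ∈ qd, ∀ y ∈ qd, ‖x‖ ≤ R → ‖y‖ ≤ R →
    |MH P ε d1 τ x / x.1 - MH P ε d1 τ y / y.1| ≤ K * ‖x - y‖) ∧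
  (∀ R : ℝ, ∃ K : ℝ, ∀ x ∈ qd, ∀ y ∈ qd, ‖x‖ ≤ R → ‖y‖ ≤ R →
    |NH P ε d1 τ x / x.2 - NH P ε d1 τ y / y.2| ≤ K * ‖x - y‖)

/-- DU: second derivatives, upper region (both types) -/
def StDU : Prop := ∀ (P P' : ℝ → ℝ) (q κ K : ℝ), Wt P P' q κ K →
  ∀ ε d1 τ r s : ℝ, 0 < τ → τ < 1 → 0 < r → r < s → r ≠ τ * s →
  ∃ n1 n2 : ℝ,
  let L := r + s
  let B := Bw P (L / 2)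
  let g := r * P (L / 2) / (2 * L)
  let b := 2 * Aw P (L / 2) / s
  let w := (2 - d1) * (max (τ * s - r) 0 / (τ * s))
  (∀ p1 ∈ ({p1V P ε, p1H P ε} : Set (ℝ × ℝ → ℝ)),
    HasFDerivAt p1 (lin2 (B + 2 * g + 2 * ε) (2 * g)) (r, s) ∧ p1 (r, s) / r = B + 2 * ε) ∧
  (∀ p2 ∈ ({p2V P, p2H P} : Set (ℝ × ℝ → ℝ)),
    HasFDerivAt p2 (lin2 (2 * g) (-B + 2 * g)) (r, s) ∧ p2 (r, s) / s = -B + b) ∧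
  (∀ M ∈ ({MV P ε, MH P ε d1 τ} : Set (ℝ × ℝ → ℝ)),
    HasFDerivAt M (lin2 (r * (-2 * ε)) 0) (r, s)) ∧
  (∀ N ∈ ({NV P ε d1 τ, NH P ε d1 τ} : Set (ℝ × ℝ → ℝ)),
    HasFDerivAt N (lin2 (s * (b - w * b / 2 + n1)) (s * (b + n2 + 2 * ε))) (r, s)) ∧
  (0 ≤ d1 → d1 ≤ 2 → |n1| ≤ 4 * K * τ ∧ |n2| ≤ 4 * K * τ)

/-- DV: second derivatives, lower region, V-type -/
def StDV : Prop := ∀ (P P' : ℝ → ℝ) (q κ K : ℝ), Wt P P' q κ K →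
  ∀ ε d1 τ r s : ℝ, 0 < τ → τ < 1 → 0 < s → s < r →
  let t := s / r
  let Q := P s
  let Δ := Bw P r - Bw P s
  let A1 := 2 * Aw P s / s
  HasFDerivAt (p1V P ε) (lin2 (Bw P s + Δ + P r + 2 * ε) 0) (r, s) ∧
  p1V P ε (r, s) / r = Bw P s + Δ + 2 * ε ∧
  HasFDerivAt (p2V P) (lin2 0 (-Bw P s + Q)) (r, s) ∧ p2V P (r, s) / s = -Bw P s + A1 ∧
  HasFDerivAt (MV P ε) (lin2 (r * (-P r - 2 * ε)) (r * (t * Q))) (r, s) ∧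
  HasFDerivAt (NV P ε d1 τ) (lin2 (s * (t ^ 2 * (A1 - Q)))
    (s * (2 * A1 + (1 - 2 * t) * (A1 - Q) + (1 - t) * (Q - s * P' s) + 2 * ε))) (r, s)

/-- DH: second derivatives, lower region, H-type -/
def StDH : Prop := ∀ (P P' : ℝ → ℝ) (q κ K : ℝ), Wt P P' q κ K →
  ∀ ε d1 τ r s : ℝ, 0 < τ → τ < 1 / 2 → 0 < s → s < r → s ≠ τ * r →
  ∃ n1 n2 : ℝ,
  let L := r + s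
  let d := r - s
  let B := Bw P (L / 2)
  let g := r * P (L / 2) / (2 * L)
  let a := 2 * Aw P (d / 2) / r
  let b := 2 * (Aw P (L / 2) - Aw P (d / 2)) / s
  let c := P (d / 2)
  let w := (2 - d1) * (max (τ * r - s) 0 / (τ * r))
  HasFDerivAt (p1H P ε) (lin2 (B + 2 * g + c + 2 * ε) (2 * g - c)) (r, s) ∧
  p1H P ε (r, s) / r = B + a + 2 * ε ∧
  HasFDerivAt (p2H P) (lin2 (2 * g - c) (-B + 2 * g + c)) (r, s) ∧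
  p2H P (r, s) / s = -B + b ∧
  HasFDerivAt (MH P ε d1 τ) (lin2 (r * (-a - 2 * c - 2 * ε + n2))
    (r * (2 * c - a + w / 2 * (a - 2 * c) + n1))) (r, s) ∧
  HasFDerivAt (NH P ε d1 τ) (lin2 (s * (b - 2 * c)) (s * (b + 2 * c + 2 * ε))) (r, s) ∧
  0 ≤ a ∧ 0 ≤ b ∧ 0 ≤ c ∧ 0 ≤ g ∧ a ≤ K ∧ b ≤ 2 * K ∧ c ≤ K ∧ g ≤ K ∧
  (0 ≤ d1 → d1 ≤ 2 → |n1| ≤ 16 * (q + 1) * K * τ ∧ |n2| ≤ 16 * (q + 1) * K * τ) ∧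
  (τ * r ≤ s → n1 = 0 ∧ n2 = 0) ∧
  (s < τ * r → |b - 2 * c| ≤ 16 * (q + 1) * K * τ ∧ |4 * g - 2 * c| ≤ 16 * (q + 1) * K * τ)

/-- CV: the V-type certificate -/
def StCV : Prop := ∀ (P P' : ℝ → ℝ) (q κ K : ℝ), Wt P P' q κ K → q ≤ 1 →
  ∀ ε : ℝ, 0 < ε → ε ≤ 1 → ∃ (η : E → (E →L[ℝ] ℝ)) (μ : E → ℂ) (θ : ℝ) (K' : ℝ≥0) (e₀ : ℝ),
    0 ≤ θ ∧ θ < 1 ∧ 0 < e₀ ∧
    AdN (fun z => UV P ε (‖z.1‖, ‖z.2‖)) (Gof (p1V P ε) (p2V P)) η μ θ K' e₀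

/-- CH: the H-type certificate -/
def StCH : Prop := ∀ (P P' : ℝ → ℝ) (q κ K : ℝ), Wt P P' q κ K →
  ∀ ε : ℝ, 0 < ε → ε ≤ 1 → ∃ (η : E → (E →L[ℝ] ℝ)) (μ : E → ℂ) (θ : ℝ) (K' : ℝ≥0) (e₀ : ℝ),
    0 ≤ θ ∧ θ < 1 ∧ 0 < e₀ ∧
    AdN (fun z => UH P ε (‖z.1‖, ‖z.2‖)) (Gof (p1H P ε) (p2H P)) η μ θ K' e₀

end Helper87.NF
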