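import Pool.Agent.Helper87.NF.St
import Pool.Agent.Helper87.NF.StC

/-!
# Statements of the modules, part D (conclusion)
-/

set_option autoImplicit false
set_option maxSynthPendingDepth 3

open MeasureTheory Complex Filter Topology
open scoped ENNReal NNReal ComplexConjugate

noncomputable section

namespace Helper87.NF

open Helper85.IW Helper72.BA

/-- D1: the integral inequality for weights -/
def StD1 : Prop := ∀ (P P' : ℝ → ℝ) (q κ K : ℝ), Wt P P' q κ K →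
  ∀ φ : ℂ → ℂ, ContDiff ℝ 1 φ → HasCompactSupport φ →
    (q ≤ 1 → 0 ≤ ∫ z, UV P 0 (‖dzb φ z‖, ‖dz φ z‖)) ∧
    0 ≤ ∫ z, UH P 0 (‖dzb φ z‖, ‖dz φ z‖)

/-- D2: the weights `PT` -/
def StD2 : Prop := ∀ q T : ℝ, 0 < q → 0 < T → ∃ K : ℝ, Wt (PT q T) (PT' q T) q (1 / 10) K

/-- the homogeneous functions -/
def VV (p : ℝ) (x : ℝ × ℝ) : ℝ :=
  if x.2 < x.1 then 2 ^ (p - 2) * ((p - 1) * x.1 ^ p - (3 - p) * x.2 ^ p)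
  else ((p - 1) * x.1 - x.2) * (x.1 + x.2) ^ (p - 1)
def VH (p : ℝ) (x : ℝ × ℝ) : ℝ :=
  ((p - 1) * x.1 - x.2) * (x.1 + x.2) ^ (p - 1) + (p - 2) * (max (x.1 - x.2) 0) ^ p

/-- normalising constant -/
def cp (p : ℝ) : ℝ := p * (p - 1) * (p - 2) * 2 ^ (p - 2)

/-- D3a: primitives of `PT` converge (as `T = n → ∞`) and are bounded by those of `x^q` -/
def StD3a : Prop := ∀ q : ℝ, 0 < q → ∀ y : ℝ, 0 ≤ y →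
  Tendsto (fun n : ℕ => Aw (PT q (n + 1)) y) atTop (𝓝 (y ^ (q + 1) / (q + 1))) ∧
  Tendsto (fun n : ℕ => Bw (PT q (n + 1)) y) atTop (𝓝 (y ^ q / q)) ∧
  Tendsto (fun n : ℕ => Mw (PT q (n + 1)) y) atTop (𝓝 (y ^ (q + 2) / (q + 2))) ∧
  (∀ n : ℕ, |Aw (PT q (n + 1)) y| ≤ y ^ (q + 1) / (q + 1) ∧ |Bw (PT q (n + 1)) y| ≤ y ^ q / q ∧
    |Mw (PT q (n + 1)) y| ≤ y ^ (q + 2) / (q + 2) ∧
    |Cw (PT q (n + 1)) y| ≤ y ^ (q + 2))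

/-- D3: limit of the functions -/
def StD3 : Prop := ∀ p : ℝ, 2 < p → ∃ C : ℝ, ∀ x ∈ qd,
  Tendsto (fun n : ℕ => cp p * UV (PT (p - 2) (n + 1)) 0 x) atTop (𝓝 (VV p x)) ∧
  Tendsto (fun n : ℕ => cp p * UH (PT (p - 2) (n + 1)) 0 x) atTop (𝓝 (VH p x)) ∧
  ∀ n : ℕ, |UV (PT (p - 2) (n + 1)) 0 x| ≤ C * (x.1 + x.2) ^ p ∧
    |UH (PT (p - 2) (n + 1)) 0 x| ≤ C * (x.1 + x.2) ^ p

/-- D4: the homogeneous inequalities -/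
def StD4 : Prop := ∀ p : ℝ, 2 < p → ∀ φ : ℂ → ℂ, ContDiff ℝ 1 φ → HasCompactSupport φ →
    (p ≤ 3 → 0 ≤ ∫ z, VV p (‖dzb φ z‖, ‖dz φ z‖)) ∧ 0 ≤ ∫ z, VH p (‖dzb φ z‖, ‖dz φ z‖)

/-- D5a: Burkholder's pointwise inequality -/
def StD5a : Prop := ∀ p r s : ℝ, 2 ≤ p → 0 ≤ r → 0 ≤ s →
  p ^ (2 - p) * (p - 1) ^ (p - 1) * (((p - 1) * r - s) * (r + s) ^ (p - 1))
    ≤ (p - 1) ^ p * r ^ p - s ^ p

/-- D5b: pointwise inequality, V-type -/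
def StD5b : Prop := ∀ p r s : ℝ, 2 < p → p ≤ 3 → 0 ≤ r → 0 ≤ s →
  p ^ (2 - p) * (p - 1) ^ (p - 1) * VV p (r, s) ≤ (p - 1) ^ p * r ^ p - s ^ p

/-- D5c: pointwise inequality, H-type -/
def StD5c : Prop := ∀ p r s : ℝ, 3 ≤ p → 0 ≤ r → 0 ≤ s →
  p ^ (2 - p) * (p - 1) ^ (p - 1) * VH p (r, s) ≤ (p - 1) ^ p * r ^ p - s ^ p

/-- D6: the inequality for functions with compact support -/
def StD6 : Prop := ∀ p : ℝ, 2 < p → ∀ φ : ℂ → ℂ, ContDiff ℝ 1 φ → HasCompactSupport φ →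
  ∫ z, ‖dz φ z‖ ^ p ≤ (p - 1) ^ p * ∫ z, ‖dzb φ z‖ ^ p

/-- D7a: the Cauchy transform of a Schwartz function -/
def StD7a : Prop := ∀ f : SchwartzMap ℂ ℂ, ∃ Φ : ℂ → ℂ, ContDiff ℝ 1 Φ ∧
  (∃ C : ℝ, ∀ z, ‖Φ z‖ ≤ C) ∧ (∀ z, dzb Φ z = f z) ∧ (∀ z, dz Φ z = Tn 1 f z)

/-- D7: from compact support to bounded potentials -/
def StD7 : Prop := ∀ p : ℝ, 2 < p → ∀ Φ : ℂ → ℂ, ContDiff ℝ 1 Φ → (∃ C : ℝ, ∀ z, ‖Φ z‖ ≤ C) →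
  eLpNorm (dz Φ) (ENNReal.ofReal p) volume
    ≤ ENNReal.ofReal (p - 1) * eLpNorm (dzb Φ) (ENNReal.ofReal p) volume

/-- D8: the theorem for `p > 2` -/
def StD8 : Prop := ∀ p : ℝ, 2 < p → ∀ f : SchwartzMap ℂ ℂ,
  eLpNorm (fun z => Tn 1 f z) (ENNReal.ofReal p) volume ≤
    ENNReal.ofReal (p - 1) * eLpNorm (fun z => f z) (ENNReal.ofReal p) volume

end Helper87.NF
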