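import Pool.Agent.Helper85.IE.Fin

/-!
# Sharpness and duality: statements of the modules S (helper87, MP_3dd6d4_an, n = 1)
-/

set_option autoImplicit false
set_option maxSynthPendingDepth 3

open MeasureTheory Complex Filter Topology
open scoped ENNReal NNReal ComplexConjugate ContDiff

noncomputable section

namespace Helper87.NF

open Helper72.BA

/-- `C` is a bound for the Beurling-Ahlfors transform on `L^p` -/
def TBd (p C : ℝ) : Prop := ∀ f : SchwartzMap ℂ ℂ,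
  eLpNorm (fun z => Tn 1 f z) (ENNReal.ofReal p) volume ≤
    ENNReal.ofReal C * eLpNorm (fun z => f z) (ENNReal.ofReal p) volume

/-- S1: `T (∂̄ φ) = ∂ φ` -/
def StS1 : Prop := ∀ φ : SchwartzMap ℂ ℂ, ∃ f : SchwartzMap ℂ ℂ,
  (∀ z, f z = Helper85.IE.dzb φ z) ∧ ∀ z, Tn 1 f z = Helper85.IE.dz φ z

/-- S2a: radial integrals in logarithmic coordinates -/
def StS2a : Prop := ∀ W : ℝ → ℝ≥0∞, Measurable W →
  ∫⁻ z : ℂ, ENNReal.ofReal ((‖z‖ ^ 2)⁻¹) * W (Real.log (‖z‖ ^ 2)) =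
    ENNReal.ofReal Real.pi * ∫⁻ s, W s

/-- radial functions -/
def rad (p : ℝ) (v : ℝ → ℝ) (z : ℂ) : ℂ :=
  ((‖z‖ ^ (-(2 / p)) * v (Real.log (‖z‖ ^ 2)) : ℝ) : ℂ)

/-- S2b: derivatives of the radial stretchings `z * rad` and `conj z * rad` -/
def StS2b : Prop := ∀ p : ℝ, 1 < p → ∀ v : ℝ → ℝ, ContDiff ℝ ∞ v → HasCompactSupport v →
  ContDiff ℝ ∞ (fun z : ℂ => z * rad p v z) ∧ HasCompactSupport (fun z : ℂ => z * rad p v z) ∧
  ContDiff ℝ ∞ (fun z : ℂ => conj z * rad p v z) ∧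
  HasCompactSupport (fun z : ℂ => conj z * rad p v z) ∧
  (∀ z, ‖Helper85.IE.dzb (fun z : ℂ => z * rad p v z) z‖ =
    ‖rad p (fun s => deriv v s - v s / p) z‖) ∧
  (∀ z, ‖Helper85.IE.dz (fun z : ℂ => z * rad p v z) z‖ =
    ‖rad p (fun s => deriv v s + (1 - 1 / p) * v s) z‖) ∧
  (∀ z, ‖Helper85.IE.dz (fun z : ℂ => conj z * rad p v z) z‖ =
    ‖rad p (fun s => deriv v s - v s / p) z‖) ∧
  (∀ z, ‖Helper85.IE.dzb (fun z : ℂ => conj z * rad p v z) z‖ =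
    ‖rad p (fun s => deriv v s + (1 - 1 / p) * v s) z‖)

/-- S3: the lower bound -/
def StS3 : Prop := ∀ p : ℝ, 1 < p → ∀ C : ℝ, TBd p C → max (p - 1) (1 / (p - 1)) ≤ C

/-- S4a: `T` is its own transpose -/
def StS4a : Prop := ∀ f g : SchwartzMap ℂ ℂ, ∫ z, Tn 1 f z * g z = ∫ z, f z * Tn 1 g z

/-- S4: duality -/
def StS4 : Prop := ∀ p q C : ℝ, 1 < p → p ≤ 2 → 1 / p + 1 / q = 1 → 0 ≤ C → TBd q C → TBd p C

end Helper87.NF
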